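import Pool.Agent.P.MP_3b9ee7_co.Q.Base

/-! Fractional correction. -/

noncomputable section

namespace Pool.Agent.P.MP_3b9ee7_co.Q

open Finset
open Pool.Agent.P.MP_77d020_co.L (ind fs cnt ind_pos ind_neg ind_nonneg ind_le_one ind_and ind_not
  cnt_eq_sum cnt_mono cnt_split cnt_true cnt_nonneg cnt_congr)

namespace BoostP

set_option linter.unusedSectionVars false

variable {Pt Bl C : Type} [Fintype Pt] [Fintype Bl] [Fintype C] [DecidableEq Pt] [DecidableEq Bl]
  [DecidableEq C] {pts : Bl → Finset Pt} {θ lam : ℕ}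

variable (pts) in
/-- Real boundary. -/
def bR (φ : Bl × C → ℝ) (v : Bl ⊕ Pt × C) : ℝ := ∑ e, ind (v ∈ edg pts e) * φ e

theorem bR_inl (φ : Bl × C → ℝ) (B : Bl) : bR pts φ (Sum.inl B) = ∑ c, φ (B, c) := by
  rw [bR, Fintype.sum_prod_type, sum_eq_single B]
  · simp [ind_pos]
  · intro b _ hb
    exact sum_eq_zero fun c _ => by rw [ind_neg (by simpa using hb.symm), zero_mul]
  · simp

theorem bR_inr (φ : Bl × C → ℝ) (p : Pt) (c : C) :
    bR pts φ (Sum.inr (p, c)) = ∑ B, ind (p ∈ pts B) * φ (B, c) := by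
  rw [bR, Fintype.sum_prod_type]
  refine sum_congr rfl fun B _ => ?_
  rw [sum_eq_single c]
  · simp
  · intro b _ hb
    rw [ind_neg (by simp [hb.symm]), zero_mul]
  · simp

theorem bR_add (φ ψ : Bl × C → ℝ) (v : Bl ⊕ Pt × C) :
    bR pts (fun e => φ e + ψ e) v = bR pts φ v + bR pts ψ v := by
  simp only [bR, mul_add, sum_add_distrib]

variable (pts) in
/-- Balanced vectors. -/
def Bal (x : Bl ⊕ Pt × C → ℝ) : Prop :=
  ∀ p, ∑ c, x (Sum.inr (p, c)) = ∑ B, ind (p ∈ pts B) * x (Sum.inl B)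

theorem bal_bR (φ : Bl × C → ℝ) : Bal pts (bR pts φ) := by
  intro p
  simp only [bR_inl, bR_inr, mul_sum]
  exact sum_comm

theorem Bal.sub {x y : Bl ⊕ Pt × C → ℝ} (hx : Bal pts x) (hy : Bal pts y) :
    Bal pts (fun v => x v - y v) := by
  intro p
  simp only [mul_sub, sum_sub_distrib, hx p, hy p]

variable (pts) in
/-- Right inverse of the incidence matrix. -/
def Rr (D lam : ℝ) (y : Pt → ℝ) (B : Bl) : ℝ :=
  (D - lam)⁻¹ * ∑ p, ind (p ∈ pts B) * y p - (D - lam)⁻¹ * lam / D * ∑ p, y p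

theorem Rr_spec {D : ℕ} (h : Des pts θ D lam) (hD : (1 : ℝ) ≤ D) (y : Pt → ℝ) (p : Pt) :
    ∑ B, ind (p ∈ pts B) * Rr pts D lam y B = y p := by
  have h2 : (2 : ℝ) * lam ≤ D := by exact_mod_cast h.lam2
  have h3 : (D : ℝ) - lam ≠ 0 := by linarith
  have e1 : ∑ B, ind (p ∈ pts B) = D := by rw [← cnt_eq_sum, h.deg]
  have e2 : ∑ B, ind (p ∈ pts B) * ∑ p', ind (p' ∈ pts B) * y p'
      = (D - lam) * y p + lam * ∑ p', y p' := by
    simp only [mul_sum, ← mul_assoc, ← ind_and]
    rw [sum_comm]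
    simp only [← sum_mul, ← cnt_eq_sum]
    have : ∀ p', cnt (fun B => p ∈ pts B ∧ p' ∈ pts B) * y p'
        = (if p' = p then (D - lam) * y p else 0) + lam * y p' := by
      intro p'
      split_ifs with e
      · subst e
        simp only [and_self]
        rw [h.deg]; ring
      · rw [h.cod p p' (Ne.symm e), zero_add]
    simp only [this, sum_add_distrib, sum_ite_eq', mem_univ, if_true]
  simp only [Rr, mul_sub, sum_sub_distrib, mul_left_comm _ ((D : ℝ) - lam)⁻¹, ← mul_sum, ← sum_mul]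
  rw [e2, e1]
  field_simp
  ring

theorem Rr_le {D : ℕ} (h : Des pts θ D lam) (hD : (1 : ℝ) ≤ D) {y : Pt → ℝ} {b : ℝ} (hb : 0 ≤ b)
    (hy : ∀ p, |y p| ≤ b) (B : Bl) : |Rr pts D lam y B| ≤ 6 * θ / D * b := by
  have h2 : (2 : ℝ) * lam ≤ D := by exact_mod_cast h.lam2
  have h3 : (lam : ℝ) * Fintype.card Pt ≤ 2 * θ * D := by exact_mod_cast h.lamP
  have hl : (0 : ℝ) ≤ lam := by positivity
  have h4 : ((D : ℝ) - lam)⁻¹ ≤ 2 / D := by
    rw [inv_eq_one_div, div_le_div_iff₀ (by linarith) (by linarith)]; linarith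
  have h5 : 0 ≤ ((D : ℝ) - lam)⁻¹ := inv_nonneg.2 (by linarith)
  have h6 : |∑ p, ind (p ∈ pts B) * y p| ≤ θ * b := by
    refine (abs_sum_le_sum_abs _ _).trans ?_
    have : ∑ p, ind (p ∈ pts B) = θ := by
      rw [← cnt_eq_sum, Pool.Agent.P.MP_77d020_co.L.cnt_mem, h.card]
    rw [← this, sum_mul]
    refine sum_le_sum fun p _ => ?_
    rw [abs_mul, abs_of_nonneg (ind_nonneg _)]
    exact mul_le_mul_of_nonneg_left (hy p) (ind_nonneg _)
  have h7 : |∑ p, y p| ≤ Fintype.card Pt * b := by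
    refine (abs_sum_le_sum_abs _ _).trans ?_
    simpa using sum_le_card_nsmul univ (fun p => |y p|) b fun p _ => hy p
  refine (abs_sub _ _).trans ?_
  rw [abs_mul, abs_mul, abs_of_nonneg h5, abs_of_nonneg (a := _ / _) (by positivity)]
  calc _ ≤ 2 / D * (θ * b) + 2 / D * lam / D * (Fintype.card Pt * b) := by gcongr
    _ = 2 / D * (θ * b) + 2 / D * (lam * Fintype.card Pt) / D * b := by ring
    _ ≤ 2 / D * (θ * b) + 2 / D * (2 * θ * D) / D * b := by gcongr
    _ = _ := by field_simp; ring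

variable (pts) in
/-- Right inverse of the boundary on balanced vectors. -/
def Sv (lam : ℝ) (x : Bl ⊕ Pt × C → ℝ) (e : Bl × C) : ℝ :=
  Rr pts (Fintype.card C) lam (fun p => x (Sum.inr (p, e.2))) e.1 + (x (Sum.inl e.1)
    - ∑ c, Rr pts (Fintype.card C) lam (fun p => x (Sum.inr (p, c))) e.1) / Fintype.card C

theorem Sv_spec (h : Des pts θ (Fintype.card C) lam) (hD : (1 : ℝ) ≤ Fintype.card C)
    {x : Bl ⊕ Pt × C → ℝ} (hx : Bal pts x) (v : Bl ⊕ Pt × C) :
    bR pts (Sv pts lam x) v = x v := by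
  rcases v with B | ⟨p, c⟩
  · rw [bR_inl]
    simp only [Sv, sum_add_distrib, sum_const, card_univ, nsmul_eq_mul]
    field_simp
    ring
  · rw [bR_inr]
    simp only [Sv, mul_add, sum_add_distrib, ← mul_div_assoc, ← sum_div, mul_sub, sum_sub_distrib,
      mul_sum]
    rw [sum_comm (s := univ) (t := univ)]
    simp only [Rr_spec h hD]
    rw [hx p, sub_self, zero_div, add_zero]

theorem Sv_le (h : Des pts θ (Fintype.card C) lam) (hD : (1 : ℝ) ≤ Fintype.card C)
    {x : Bl ⊕ Pt × C → ℝ} {b C0 : ℝ} (hb : 0 ≤ b) (hC : (θ : ℝ) + 1 ≤ C0) (hx : ∀ v, |x v| ≤ b)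
    (e : Bl × C) : |Sv pts lam x e| ≤ 13 * C0 / Fintype.card C * b := by
  have h1 := fun c => Rr_le h hD hb (y := fun p => x (Sum.inr (p, c))) (fun p => hx _) e.1
  have h2 : |∑ c, Rr pts (Fintype.card C) lam (fun p => x (Sum.inr (p, c))) e.1| ≤ 6 * θ * b := by
    refine (abs_sum_le_sum_abs _ _).trans ((sum_le_card_nsmul _ _ _ fun c _ => h1 c).trans_eq ?_)
    rw [card_univ, nsmul_eq_mul]
    field_simp
  have h3 := (abs_sub _ _).trans (add_le_add (hx (Sum.inl e.1)) h2)
  refine (abs_add_le _ _).trans ?_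
  rw [abs_div, abs_of_nonneg (a := (Fintype.card C : ℝ)) (by positivity)]
  have h4 : (0 : ℝ) ≤ θ := by positivity
  calc _ ≤ 6 * θ / Fintype.card C * b + (b + 6 * θ * b) / Fintype.card C := by
        gcongr; exact h1 _
    _ = (12 * θ + 1) / Fintype.card C * b := by ring
    _ ≤ _ := by gcongr; linarith

end BoostP

open BoostP in
theorem boost : S_Boost := by
  intro Pt Bl C _ _ _ _ _ _ pts θ lam lg C0 τ ξ U h hH hξ hτ hC hU hb
  have hD : (1 : ℝ) ≤ Fintype.card C := hH.D1
  have hθ : (θ : ℝ) + 1 ≤ C0 := by exact_mod_cast hH.rC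
  have hC2 : 2 ≤ C0 := hH.C2
  have hτ0 : 0 < τ := lt_of_lt_of_le hξ hτ
  have hτ1 : τ ≤ 1 / 2 := by nlinarith
  set D : ℝ := ((Fintype.card C : ℕ) : ℝ) with hDdef
  have hdeg : ∀ v, ∑ e : Bl × C, ind (v ∈ edg pts e) = D := fun v => by
    rw [← cnt_eq_sum]; exact hH.deg v
  have hblk : ∀ v, v ∉ U → ∑ e, ind (v ∈ edg pts e) * ind (¬ Disjoint (edg pts e) U)
      ≤ C0 * τ * D := by
    intro v hv
    simp only [← ind_and, ← cnt_eq_sum]
    refine le_trans (cnt_mono fun e he => ⟨he.1, fun hd => he.2 ?_⟩) (hH.blk U τ v hτ0.le hU)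
    rw [Finset.disjoint_left] at hd ⊢
    intro w hw hw'
    exact hd (mem_erase.2 ⟨fun e' => hv (e' ▸ hw'), hw⟩) hw'
  obtain ⟨t, t0, t1, tb⟩ : ∃ t : Bl ⊕ Pt × C → ℝ, (∀ v ∈ U, t v = 0) ∧
      (∀ v, v ∉ U → |t v - 1| ≤ 2 * ξ) ∧ Bal pts t := by
    have ha : ∀ p, cnt (fun B => p ∈ pts B ∧ Sum.inl B ∉ U)
        = D - cnt (fun B => p ∈ pts B ∧ Sum.inl B ∈ U) := fun p => by
      have := cnt_split (fun B => p ∈ pts B) (fun B => Sum.inl B ∈ U)
      rw [h.deg] at this
      linarith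
    have hc : ∀ p, cnt (fun c => Sum.inr (p, c) ∉ U) = D - cnt (fun c => Sum.inr (p, c) ∈ U) :=
      fun p => by
      simp only [cnt_eq_sum, ind_not, sum_sub_distrib, sum_const, card_univ, nsmul_eq_mul, mul_one]
      rfl
    have hh : ∀ p, D / 2 ≤ cnt (fun c => Sum.inr (p, c) ∉ U) := fun p => by
      have h1 : ((tst pts (Sum.inl p) ∩ U).card : ℝ) ≤ τ * D := hU (Sum.inl p)
      rw [card_tst_inl] at h1
      have := cnt_nonneg (fun B => p ∈ pts B ∧ Sum.inl B ∈ U)
      rw [hc]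
      nlinarith
    refine ⟨fun v => ind (v ∉ U) * Sum.elim (fun _ => 1) (fun x =>
      cnt (fun B => x.1 ∈ pts B ∧ Sum.inl B ∉ U) / cnt (fun c => Sum.inr (x.1, c) ∉ U)) v,
      fun v hv => by simp only [ind_neg (not_not.2 hv), zero_mul], fun v hv => ?_, fun p => ?_⟩
    · simp only [ind_pos hv, one_mul]
      rcases v with B | ⟨p, c⟩
      · simp only [Sum.elim_inl, sub_self, abs_zero]; positivity
      · have h1 := hh p
        have h0 : 0 < cnt (fun c => Sum.inr (p, c) ∉ U) := by linarith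
        simp only [Sum.elim_inr]
        rw [div_sub_one h0.ne', abs_div, abs_of_pos h0, div_le_iff₀ h0, ha]
        nth_rewrite 1 [hc]
        rw [sub_sub_sub_cancel_left, abs_sub_comm]
        refine (hb p).trans ?_
        nlinarith
    · have h1 := hh p
      have h0 : 0 < cnt (fun c => Sum.inr (p, c) ∉ U) := by linarith
      simp only [Sum.elim_inl, Sum.elim_inr, mul_one, ← sum_mul, ← ind_and, ← cnt_eq_sum]
      field_simp
  have hz : ∀ φ : Bl × C → ℝ, (∀ e, ¬ Disjoint (edg pts e) U → φ e = 0) → ∀ v ∈ U,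
      bR pts φ v = 0 := by
    intro φ hφ v hv
    refine sum_eq_zero fun e _ => ?_
    by_cases he : v ∈ edg pts e
    · rw [hφ e fun hd => Finset.disjoint_left.1 hd he hv, mul_zero]
    · rw [ind_neg he, zero_mul]
  have key : ∀ j : ℕ, ∃ φ : Bl × C → ℝ, (∀ e, ¬ Disjoint (edg pts e) U → φ e = 0) ∧
      (∀ e, Disjoint (edg pts e) U → |φ e - 1 / D| ≤ 52 * C0 ^ 2 * τ / D * (1 - (1 / 2) ^ j)) ∧
      ∀ v, |t v - bR pts φ v| ≤ 2 * C0 * τ * (1 / 2) ^ j := by
    intro j
    induction j with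
    | zero =>
      have z0 : ∀ e, ¬ Disjoint (edg pts e) U → ind (Disjoint (edg pts e) U) / D = 0 :=
        fun e he => by rw [ind_neg he, zero_div]
      refine ⟨fun e => ind (Disjoint (edg pts e) U) / D, z0,
        fun e he => by simp [ind_pos he], fun v => ?_⟩
      by_cases hv : v ∈ U
      · rw [t0 v hv, hz _ z0 v hv, sub_zero, abs_zero]; positivity
      · have e1 : bR pts (fun e => ind (Disjoint (edg pts e) U) / D) v
            = 1 - (∑ e, ind (v ∈ edg pts e) * ind (¬ Disjoint (edg pts e) U)) / D := by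
          simp only [bR, ind_not, mul_sub, sum_sub_distrib, mul_one, hdeg, ← mul_div_assoc,
            ← sum_div]
          field_simp
          ring
        have e2 : (∑ e, ind (v ∈ edg pts e) * ind (¬ Disjoint (edg pts e) U)) / D ≤ C0 * τ :=
          (div_le_iff₀ (by linarith)).2 (hblk v hv)
        have e3 : 0 ≤ (∑ e, ind (v ∈ edg pts e) * ind (¬ Disjoint (edg pts e) U)) / D :=
          div_nonneg (sum_nonneg fun e _ => mul_nonneg (ind_nonneg _) (ind_nonneg _)) (by linarith)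
        have e4 := abs_le.1 (t1 v hv)
        have e5 : 2 * τ ≤ C0 * τ := by gcongr
        rw [e1, pow_zero, mul_one, abs_le]
        constructor <;> linarith [e4.1, e4.2]
    | succ j ih =>
      obtain ⟨φ, a1, a2, a3⟩ := ih
      have hbal := tb.sub (bal_bR φ)
      have hS := Sv_le h hD (by positivity) hθ a3
      set s := Sv pts lam (fun v => t v - bR pts φ v) with hs
      have z0 : ∀ e, ¬ Disjoint (edg pts e) U → φ e + ind (Disjoint (edg pts e) U) * s e = 0 :=
        fun e he => by rw [ind_neg he, a1 e he, zero_mul, add_zero]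
      refine ⟨fun e => φ e + ind (Disjoint (edg pts e) U) * s e, z0, fun e he => ?_, fun v => ?_⟩
      · simp only [ind_pos he, one_mul]
        rw [add_sub_right_comm]
        refine (abs_add_le _ _).trans ((add_le_add (a2 e he) (hS e)).trans_eq ?_)
        ring
      · by_cases hv : v ∈ U
        · rw [t0 v hv, hz _ z0 v hv, sub_zero, abs_zero]; positivity
        · have e1 : t v - bR pts (fun e => φ e + ind (Disjoint (edg pts e) U) * s e) v
              = ∑ e, ind (v ∈ edg pts e) * ind (¬ Disjoint (edg pts e) U) * s e := by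
            have e2 : bR pts s v = t v - bR pts φ v := Sv_spec h hD hbal v
            rw [bR_add, ← sub_sub, ← e2, bR, bR, ← sum_sub_distrib]
            refine sum_congr rfl fun e _ => ?_
            rw [ind_not]; ring
          rw [e1]
          refine (abs_sum_le_sum_abs _ _).trans ?_
          have e3 : ∀ e, |ind (v ∈ edg pts e) * ind (¬ Disjoint (edg pts e) U) * s e|
              ≤ ind (v ∈ edg pts e) * ind (¬ Disjoint (edg pts e) U)
                * (13 * C0 / D * (2 * C0 * τ * (1 / 2) ^ j)) := fun e => by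
            have := mul_nonneg (ind_nonneg (v ∈ edg pts e)) (ind_nonneg (¬ Disjoint (edg pts e) U))
            rw [abs_mul, abs_of_nonneg this]
            exact mul_le_mul_of_nonneg_left (hS e) this
          refine (sum_le_sum fun e _ => e3 e).trans ?_
          rw [← sum_mul]
          calc _ ≤ C0 * τ * D * (13 * C0 / D * (2 * C0 * τ * (1 / 2) ^ j)) := by
                gcongr; exact hblk v hv
            _ = 26 * (C0 ^ 2 * τ) * (2 * C0 * τ * (1 / 2) ^ (j + 1)) := by field_simp; ring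
            _ ≤ 1 * (2 * C0 * τ * (1 / 2) ^ (j + 1)) := by gcongr; linarith
            _ = _ := one_mul _
  obtain ⟨j, hj⟩ := exists_pow_lt_of_lt_one (x := ξ / (2 * C0 * τ)) (y := (1 / 2 : ℝ))
    (by positivity) (by norm_num)
  obtain ⟨φ, a1, a2, a3⟩ := key j
  refine ⟨φ, fun e => ?_, fun e he => by_contra fun hd => he (a1 e hd), fun v hv => ?_⟩
  · by_cases he : Disjoint (edg pts e) U
    · have b1 : 52 * C0 ^ 2 * τ / D * (1 - (1 / 2) ^ j) ≤ 1 / D := by
        have : (0 : ℝ) < (1 / 2) ^ j := by positivity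
        calc _ ≤ 52 * C0 ^ 2 * τ / D * 1 := by gcongr; linarith
          _ ≤ _ := by rw [mul_one]; gcongr; nlinarith
      have b2 := abs_le.1 ((a2 e he).trans b1)
      have b3 : 2 / D = 1 / D + 1 / D := by ring
      constructor <;> linarith [b2.1, b2.2]
    · rw [a1 e he]; exact ⟨le_rfl, by positivity⟩
  · have b1 := abs_le.1 (a3 v)
    have b2 := abs_le.1 (t1 v hv)
    rw [lt_div_iff₀ (by positivity)] at hj
    change |bR pts φ v - 1| ≤ _
    rw [abs_le]
    constructor <;> linarith [b1.1, b1.2, b2.1, b2.2]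

end Pool.Agent.P.MP_3b9ee7_co.Q
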