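import Pool.Agent.P.MP_3b9ee7_co.Q.Base

/-! Embedding of switches and hinges. -/

namespace Pool.Agent.P.MP_3b9ee7_co.Q

open Finset
open Pool.Agent.P.MP_77d020_co.L (ind fs cnt ind_pos ind_neg ind_nonneg ind_le_one mem_fs
  card_filter_eq_sum_ind cnt_eq_sum)

namespace CLRealP

variable {V E : Type} [DecidableEq V]

/-- The token edges of one switch have load at most the load of its root and region. -/
theorem tok_le [Fintype E] {ed : E → Finset V} {e : E} {W : Finset V} {g : V → E}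
    (h : SwV ed e W g) (Z : Finset V) :
    ∑ v ∈ ed e, ((Z ∩ ed (g v)).card : ℝ) ≤ (Z ∩ ed e).card + (Z ∩ W).card := by
  have h1 : ∀ v ∈ ed e, ((Z ∩ ed (g v)).card : ℝ) ≤
      ind (v ∈ Z) + ((Z ∩ (ed (g v)).erase v).card : ℝ) := by
    intro v _
    by_cases hv : v ∈ Z
    · rw [ind_pos hv]
      have : Z ∩ ed (g v) ⊆ insert v (Z ∩ (ed (g v)).erase v) := by
        intro x hx
        rw [mem_inter] at hx
        by_cases hxv : x = v
        · exact hxv ▸ mem_insert_self _ _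
        · exact mem_insert_of_mem (mem_inter.2 ⟨hx.1, mem_erase.2 ⟨hxv, hx.2⟩⟩)
      have h2 := (card_le_card this).trans (card_insert_le _ _)
      have h3 : ((Z ∩ ed (g v)).card : ℝ) ≤ ((Z ∩ (ed (g v)).erase v).card + 1 : ℕ) := by
        exact_mod_cast h2
      push_cast at h3
      linarith
    · rw [ind_neg hv, zero_add]
      refine Nat.cast_le.2 (card_le_card fun x hx => ?_)
      rw [mem_inter] at hx
      exact mem_inter.2 ⟨hx.1, mem_erase.2 ⟨fun hxv => hv (hxv ▸ hx.1), hx.2⟩⟩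
  refine (sum_le_sum h1).trans ?_
  rw [sum_add_distrib]
  refine add_le_add (le_of_eq ?_) ?_
  · rw [inter_comm, card_inter_eq_sum]
  · have h2 : ((ed e).biUnion fun v => Z ∩ (ed (g v)).erase v).card =
        ∑ v ∈ ed e, (Z ∩ (ed (g v)).erase v).card :=
      card_biUnion fun v hv v' hv' hne =>
        (h.dis v hv v' hv' hne).mono inter_subset_right inter_subset_right
    have h3 : ((ed e).biUnion fun v => Z ∩ (ed (g v)).erase v) ⊆ Z ∩ W := by
      intro x hx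
      obtain ⟨v, hv, hx⟩ := mem_biUnion.1 hx
      rw [mem_inter] at hx ⊢
      exact ⟨hx.1, h.sub v hv hx.2⟩
    have h4 := card_le_card h3
    rw [h2] at h4
    exact_mod_cast h4

/-- Sums over pairs moved to their hubs. -/
theorem hub_le {Sw Lb : Type} {ed : E → Finset V} {Ss : Finset Sw} {rt : Sw → E}
    {lab : Sw → V → Lb} {hub : V → Lb → Sw}
    (hsz : ∀ v l, ∑ s ∈ Ss, ind (v ∈ ed (rt s) ∧ lab s v = l) ≤ 4)
    (hh : ∀ s ∈ Ss, ∀ v ∈ ed (rt s), hub v (lab s v) ∈ Ss ∧ v ∈ ed (rt (hub v (lab s v))) ∧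
      lab (hub v (lab s v)) v = lab s v) (F : Sw → V → ℝ) (hF : ∀ s v, 0 ≤ F s v) :
    ∑ s ∈ Ss, ∑ v ∈ ed (rt s), F (hub v (lab s v)) v ≤ 4 * ∑ s ∈ Ss, ∑ v ∈ ed (rt s), F s v := by
  classical
  set U : Finset V := Ss.biUnion fun s => ed (rt s) with hU
  have e1 : ∀ G : Sw → V → ℝ, ∑ s ∈ Ss, ∑ v ∈ ed (rt s), G s v =
      ∑ v ∈ U, ∑ s ∈ Ss, ind (v ∈ ed (rt s)) * G s v := by
    intro G
    rw [sum_comm]
    refine sum_congr rfl fun s hs => ?_
    have hsub : ed (rt s) ⊆ U := subset_biUnion_of_mem (fun s => ed (rt s)) hs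
    rw [← sum_subset hsub]
    · exact sum_congr rfl fun v hv => by rw [ind_pos hv, one_mul]
    · intro v _ hv; rw [ind_neg hv, zero_mul]
  rw [e1, e1, mul_sum]
  refine sum_le_sum fun v _ => ?_
  have h1 : ∀ s ∈ Ss, ind (v ∈ ed (rt s)) * F (hub v (lab s v)) v ≤
      ∑ s' ∈ Ss, ind (v ∈ ed (rt s) ∧ lab s v = lab s' v) * (ind (v ∈ ed (rt s')) * F s' v) := by
    intro s hs
    by_cases hv : v ∈ ed (rt s)
    · obtain ⟨a1, a2, a3⟩ := hh s hs v hv
      refine le_trans (le_of_eq ?_) (single_le_sum (f := fun s' =>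
        ind (v ∈ ed (rt s) ∧ lab s v = lab s' v) * (ind (v ∈ ed (rt s')) * F s' v))
        (fun s' _ => mul_nonneg (ind_nonneg _) (mul_nonneg (ind_nonneg _) (hF _ _))) a1)
      rw [ind_pos hv, ind_pos a2, ind_pos ⟨hv, a3.symm⟩]; ring
    · rw [ind_neg hv, zero_mul]
      exact sum_nonneg fun s' _ => mul_nonneg (ind_nonneg _) (mul_nonneg (ind_nonneg _) (hF _ _))
  refine (sum_le_sum h1).trans ?_
  rw [sum_comm, mul_sum]
  refine sum_le_sum fun s' _ => ?_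
  rw [← sum_mul]
  exact mul_le_mul_of_nonneg_right (hsz v _) (mul_nonneg (ind_nonneg _) (hF _ _))

end CLRealP

open CLRealP in
theorem clreal (h1 : S_Emb) (h2 : S_Glue) : S_CLReal := by
  intro V E T Sw Lb _ _ _ _ H X Ss rt lab l0 ε hH hS hlg hε hX hCL
  classical
  have hC := hH.C2
  have he := hH.pos hlg
  have hC0 : 0 < H.C0 := by linarith
  rcases Ss.eq_empty_or_nonempty with hE | ⟨s0, -⟩
  · have hX0 : X = ∅ := by
      refine eq_empty_of_forall_notMem fun v hv => ?_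
      obtain ⟨s, hs, -⟩ := hCL.ne v hv
      rw [hE] at hs
      exact notMem_empty _ hs
    refine ⟨∅, disjoint_empty_left _, fun f => ?_, fun L hL _ => ?_⟩
    · have := hH.s1 f
      rw [inter_empty, card_empty, Nat.cast_zero]
      positivity
    · rw [hX0, subset_empty] at hL
      rw [hL, empty_union]
      exact PM.empty
  obtain ⟨e0⟩ := hH.neE
  have hne : ∀ e, (H.ed e).Nonempty := fun e => by
    rw [← card_pos, hH.card]; linarith [hH.r2]
  have hτ : 200 * H.C0 ^ 2 * ε ≤ 1 / H.C0 := by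
    rw [le_div_iff₀ hC0]; linarith
  have hCε : 2 * ε ≤ H.C0 * ε := by nlinarith
  have hCε2 : 2 * (H.C0 * ε) ≤ H.C0 ^ 2 * ε := by nlinarith
  obtain ⟨ch, c1, c2, c3⟩ := h1 V E T Sw (Finset V × (V → E)) H Ss
    (fun s o => SwV H.ed (rt s) o.1 o.2 ∧ (o.1.card : ℝ) ≤ H.C0) (fun _ => Prod.fst)
    (fun s => H.ed (rt s)) X (1 / H.C0) H.C0 ε ε hH ⟨(∅, fun _ => e0)⟩ hC0 hlg hX
    (by nlinarith) (fun s _ => hne _) hCL.ld (fun _ _ _ h => h.2) (fun s _ => hS.sw _)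
  set W : Sw → Finset V := fun s => (ch s).1 with hW
  set g : Sw → V → E := fun s => (ch s).2 with hg
  have hsw : ∀ s ∈ Ss, SwV H.ed (rt s) (W s) (g s) := fun s hs => (c1 s hs).1.1
  have hex : ∀ v l, ∃ s', (∃ s ∈ Ss, v ∈ H.ed (rt s) ∧ lab s v = l) →
      s' ∈ Ss ∧ v ∈ H.ed (rt s') ∧ lab s' v = l := by
    intro v l
    by_cases h : ∃ s ∈ Ss, v ∈ H.ed (rt s) ∧ lab s v = l
    · obtain ⟨s, hs⟩ := h
      exact ⟨s, fun _ => hs⟩
    · exact ⟨s0, fun h' => (h h').elim⟩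
  choose hub hhub using hex
  have hh : ∀ s ∈ Ss, ∀ v ∈ H.ed (rt s), hub v (lab s v) ∈ Ss ∧
      v ∈ H.ed (rt (hub v (lab s v))) ∧ lab (hub v (lab s v)) v = lab s v :=
    fun s hs v hv => hhub v _ ⟨s, hs, hv, rfl⟩
  set Hs : Finset (Sw × V) :=
    (Ss ×ˢ univ).filter fun x => x.2 ∈ H.ed (rt x.1) ∧ x.1 ≠ hub x.2 (lab x.1 x.2) with hHs
  have mH : ∀ s v, (s, v) ∈ Hs ↔ s ∈ Ss ∧ v ∈ H.ed (rt s) ∧ s ≠ hub v (lab s v) := by
    intro s v; simp [hHs]
  have hsum : ∀ G : Sw → V → ℝ, (∀ s v, 0 ≤ G s v) →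
      ∑ x ∈ Hs, G x.1 x.2 ≤ ∑ s ∈ Ss, ∑ v ∈ H.ed (rt s), G s v := by
    intro G hG
    rw [hHs, sum_filter, sum_product]
    refine sum_le_sum fun s _ => ?_
    rw [← sum_filter]
    exact sum_le_sum_of_subset_of_nonneg (fun v hv => (mem_filter.1 hv).2.1) fun v _ _ => hG _ _
  have hold : H.Ld Hs (fun x => H.ed (g x.1 x.2) ∪ H.ed (g (hub x.2 (lab x.1 x.2)) x.2))
      (30 * H.C0 * ε) := by
    intro f
    set F : Sw → V → ℝ := fun s v => ((H.Z f ∩ H.ed (g s v)).card : ℝ) with hF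
    have hF0 : ∀ s v, 0 ≤ F s v := fun _ _ => Nat.cast_nonneg _
    have a1 : ∑ s ∈ Ss, ∑ v ∈ H.ed (rt s), F s v ≤ (ε + 5 * H.C0 * ε) * H.s f := by
      refine (sum_le_sum fun s hs => tok_le (hsw s hs) (H.Z f)).trans ?_
      rw [sum_add_distrib, add_mul]
      exact add_le_add (hCL.ld f) (c3 f)
    have a2 := hub_le hCL.sz hh F hF0
    have a3 := hsum F hF0
    have a4 := hsum (fun s v => F (hub v (lab s v)) v) fun _ _ => hF0 _ _
    have a5 : ∑ x ∈ Hs, ((H.Z f ∩ (H.ed (g x.1 x.2) ∪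
        H.ed (g (hub x.2 (lab x.1 x.2)) x.2))).card : ℝ) ≤
        ∑ x ∈ Hs, F x.1 x.2 + ∑ x ∈ Hs, F (hub x.2 (lab x.1 x.2)) x.2 := by
      rw [← sum_add_distrib]
      refine sum_le_sum fun x _ => ?_
      rw [inter_union_distrib_left]
      simp only [hF]
      exact_mod_cast card_union_le _ _
    have a6 := hH.s1 f
    have a7 : 5 * ((ε + 5 * H.C0 * ε) * H.s f) ≤ 30 * H.C0 * ε * H.s f := by nlinarith
    linarith
  have hU0 : H.Sp (X ∪ Ss.biUnion W) (ε + 5 * H.C0 * ε) := hX.union c3.sp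
  have hlg2 : H.lg ≤ 30 * H.C0 * ε * H.m := by
    have := hH.m1
    nlinarith
  obtain ⟨Wh, d1, d2, d3⟩ := h1 V E T (Sw × V) (Finset V) H Hs
    (fun x o => HiV H.ed (g x.1 x.2) (g (hub x.2 (lab x.1 x.2)) x.2) x.2 o ∧ (o.card : ℝ) ≤ H.C0)
    (fun _ => id) (fun x => H.ed (g x.1 x.2) ∪ H.ed (g (hub x.2 (lab x.1 x.2)) x.2))
    (X ∪ Ss.biUnion W) (1 / H.C0) H.C0 (ε + 5 * H.C0 * ε) (30 * H.C0 * ε) hH ⟨∅⟩ hC0 hlg2 hU0
    (by nlinarith) (fun x _ => (hne _).mono subset_union_left) hold (fun _ _ _ h => h.2)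
    (fun x hx => by
      obtain ⟨s, v⟩ := x
      obtain ⟨b1, b2, b3⟩ := (mH s v).1 hx
      obtain ⟨b4, b5, -⟩ := hh s b1 v b2
      exact hS.hi v _ _ ((hsw s b1).mem v b2) ((hsw _ b4).mem v b5)
        ((c2 s b1 _ b4 b3).mono ((hsw s b1).sub v b2) ((hsw _ b4).sub v b5)))
  have dX : ∀ x ∈ Hs, Disjoint (Wh x) X := fun x hx => (d1 x hx).2.mono_right subset_union_left
  refine ⟨Ss.biUnion W ∪ Hs.biUnion Wh, ?_, ?_, fun L hL hOn => ?_⟩
  · rw [disjoint_union_left, disjoint_biUnion_left, disjoint_biUnion_left]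
    exact ⟨fun s hs => (c1 s hs).2, dX⟩
  · exact (c3.sp.union d3.sp).mono hH (by nlinarith)
  · refine h2 V E Sw Lb H.ed Ss rt lab l0 W g hub Hs Wh L hsw hh mH (fun x hx => (d1 x hx).1.1)
      c2 d2 (fun x hx s hs => (d1 x hx).2.mono_right ?_) (fun s hs => (c1 s hs).2.mono_right hL)
      (fun x hx => (dX x hx).mono_right hL) (fun v hv => hCL.ne v (hL hv)) hOn
    exact (subset_biUnion_of_mem W hs).trans subset_union_right

end Pool.Agent.P.MP_3b9ee7_co.Q
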