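import Pool.Agent.P.MP_3b9ee7_co.Q.Base

/-! The switch system built from concentrators. -/

noncomputable section

namespace Pool.Agent.P.MP_3b9ee7_co.Q

open Finset
open Pool.Agent.P.MP_77d020_co.L (ind fs cnt ind_pos ind_neg ind_nonneg ind_le_one ind_mono
  ind_congr ind_le)

namespace CLSysP

abbrev Slot (E : Type) := Σ _ : E, ℕ
abbrev Inp (E : Type) := Option (Slot E)
abbrev Wire (V E : Type) := Σ _ : V, ℕ × (Inp E ⊕ ℕ)

variable {V E : Type} [Fintype E] [DecidableEq V]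

/-- Weight of the edges at a vertex. -/
def MM (ed : E → Finset V) (K : E → ℕ) (v : V) : ℕ := ∑ e ∈ univ.filter fun e => v ∈ ed e, K e

/-- All slots. -/
def Sl (K : E → ℕ) : Finset (Slot E) := univ.sigma fun e => range (2 * K e)

/-- The inputs at a vertex. -/
def sv (ed : E → Finset V) (K : E → ℕ) (v : V) : Finset (Inp E) :=
  insertNone ((univ.filter fun e => v ∈ ed e).sigma fun e => range (2 * K e))

/-- Root edges. -/
def rt (ch : (Σ _ : V, ℕ) → E) : Slot E ⊕ Wire V E → E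
  | Sum.inl σ => σ.1
  | Sum.inr w => ch ⟨w.1, w.2.1⟩

/-- Labels. -/
def lab : Slot E ⊕ Wire V E → V → (V × ℕ) ⊕ (Inp E ⊕ ℕ)
  | Sum.inl σ, _ => Sum.inr (Sum.inl (some σ))
  | Sum.inr w, v => if v = w.1 then Sum.inr w.2.2 else Sum.inl (w.1, w.2.1)

theorem mem_Sl {K : E → ℕ} {σ : Slot E} : σ ∈ Sl K ↔ σ.2 < 2 * K σ.1 := by
  simp [Sl]

theorem some_mem_sv {ed : E → Finset V} {K : E → ℕ} {v : V} {σ : Slot E} :
    some σ ∈ sv ed K v ↔ v ∈ ed σ.1 ∧ σ ∈ Sl K := by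
  simp [sv, mem_Sl]

theorem none_mem_sv {ed : E → Finset V} {K : E → ℕ} {v : V} : none ∈ sv ed K v :=
  none_mem_insertNone

theorem card_sv (ed : E → Finset V) (K : E → ℕ) (v : V) :
    (sv ed K v).card = 2 * MM ed K v + 1 := by
  rw [sv, card_insertNone, card_sigma, MM, mul_sum]
  simp

theorem MM_pos {ed : E → Finset V} {K : E → ℕ} {v : V} {σ : Slot E} (h1 : v ∈ ed σ.1)
    (h2 : σ ∈ Sl K) : 0 < MM ed K v := by
  have h3 := mem_Sl.1 h2
  have h4 : K σ.1 ≤ MM ed K v :=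
    single_le_sum (f := K) (fun _ _ => Nat.zero_le _) (mem_filter.2 ⟨mem_univ _, h1⟩)
  omega

theorem sum_MM (ed : E → Finset V) (K : E → ℕ) (Z : Finset V) :
    ∑ v ∈ Z, (MM ed K v : ℝ) = ∑ e, (K e : ℝ) * ((Z ∩ ed e).card : ℝ) := by
  simp only [MM, Nat.cast_sum, sum_filter, card_inter_eq_sum, mul_sum]
  rw [sum_comm]
  refine sum_congr rfl fun e _ => sum_congr rfl fun v _ => ?_
  by_cases h : v ∈ ed e
  · simp [h, ind_pos]
  · simp [h, ind_neg]

theorem off_card (k : ℕ) (a : ℤ) (h : |a| ≤ k) :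
    ∑ i ∈ range (2 * k), (if ¬ ((i : ℤ) < k - a) then (1 : ℤ) else 0) = k + a := by
  rw [← sum_filter, sum_const]
  have h1 := abs_le.1 h
  have e : (range (2 * k)).filter (fun i : ℕ => ¬ ((i : ℤ) < k - a))
      = Ico (k - a).toNat (2 * k) := by
    ext i
    simp only [mem_filter, mem_range, mem_Ico]
    omega
  rw [e, Nat.card_Ico, nsmul_one]
  omega

/-- The active inputs at a vertex. -/
def act (K : E → ℕ) (a : E → ℤ) (L : Finset V) (v : V) : Inp E → Prop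
  | none => v ∉ L
  | some σ => ¬ ((σ.2 : ℤ) < K σ.1 - a σ.1)

open scoped Classical in
theorem card_act {ed : E → Finset V} {K : E → ℕ} {a : E → ℤ} {L : Finset V}
    (ha : ∀ e, |a e| ≤ K e) (hb : bd ed a = one L) (v : V) :
    ((sv ed K v).filter (act K a L v)).card = MM ed K v + 1 := by
  have h1 : (((sv ed K v).filter (act K a L v)).card : ℤ) = (MM ed K v : ℤ) + 1 := by
    rw [card_filter, sv]
    push_cast
    rw [sum_insertNone, sum_sigma]
    have h2 : ∑ e ∈ univ.filter (fun e => v ∈ ed e), ∑ i ∈ range (2 * K e),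
        (if act K a L v (some ⟨e, i⟩) then (1 : ℤ) else 0)
        = ∑ e ∈ univ.filter (fun e => v ∈ ed e), ((K e : ℤ) + a e) := by
      refine sum_congr rfl fun e _ => ?_
      rw [← off_card (K e) (a e) (ha e)]
      refine sum_congr rfl fun i _ => ?_
      by_cases h : ¬ ((i : ℤ) < K e - a e)
      · rw [if_pos h, if_pos (show act K a L v (some ⟨e, i⟩) from h)]
      · rw [if_neg h, if_neg (show ¬ act K a L v (some ⟨e, i⟩) from h)]
    have h3 : ∑ e ∈ univ.filter (fun e => v ∈ ed e), a e = one L v := by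
      rw [← hb, bd, sum_filter]
    rw [h2, sum_add_distrib, h3, MM]
    push_cast
    by_cases h : v ∈ L
    · rw [if_neg (show ¬ act K a L v none from fun h' => h' h), one_of_mem h]; ring
    · rw [if_pos (show act K a L v none from h), one_of_notMem h]; ring
  exact_mod_cast h1

theorem sum_Ad_le {U : Type} {Sk : Finset ℕ} {Ad : Finset (ℕ × U)} (h1 : ∀ x ∈ Ad, x.1 ∈ Sk)
    (h2 : ∀ j, ∑ x ∈ Ad, ind (x.1 = j) ≤ 3) (c : ℕ → ℝ) (hc : ∀ j, 0 ≤ c j) :
    ∑ x ∈ Ad, c x.1 ≤ 3 * ∑ j ∈ Sk, c j := by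
  have e : ∑ x ∈ Ad, c x.1 = ∑ j ∈ Sk, (∑ x ∈ Ad, ind (x.1 = j)) * c j := by
    simp only [sum_mul]
    rw [sum_comm]
    refine sum_congr rfl fun x hx => ?_
    rw [sum_eq_single x.1]
    · rw [ind_pos rfl, one_mul]
    · intro j _ hj; rw [ind_neg (Ne.symm hj), zero_mul]
    · intro h; exact (h (h1 x hx)).elim
  rw [e, mul_sum]
  exact sum_le_sum fun j _ => mul_le_mul_of_nonneg_right (h2 j) (hc j)

theorem sum_ind_le_one {α : Type} (S : Finset α) (P : α → Prop)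
    (h : ∀ x y, P x → P y → x = y) : ∑ x ∈ S, ind (P x) ≤ 1 := by
  by_cases h1 : ∃ x ∈ S, P x
  · obtain ⟨x, hx, hP⟩ := h1
    rw [sum_eq_single x]
    · exact ind_le_one _
    · intro y _ hy; exact ind_neg fun h2 => hy (h _ _ h2 hP)
    · intro h2; exact (h2 hx).elim
  · rw [sum_eq_zero fun x hx => ind_neg fun h2 => h1 ⟨x, hx, h2⟩]
    exact zero_le_one

omit [Fintype E] in
theorem sum_wire_le (Act : Finset V) (Ad : V → Finset (ℕ × (Inp E ⊕ ℕ))) (P : Wire V E → Prop)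
    (v0 : V) (Q : ℕ × (Inp E ⊕ ℕ) → Prop) (h : ∀ w, P w → w.1 = v0 ∧ Q w.2)
    (hQ : ∑ x ∈ Ad v0, ind (Q x) ≤ 3) : ∑ w ∈ Act.sigma Ad, ind (P w) ≤ 3 := by
  rw [sum_sigma]
  by_cases h0 : v0 ∈ Act
  · rw [sum_eq_single v0]
    · exact (sum_le_sum fun x _ => ind_mono fun hP => (h _ hP).2).trans hQ
    · intro v _ hv
      exact sum_eq_zero fun x _ => ind_neg fun hP => hv (h _ hP).1
    · intro h1; exact (h1 h0).elim
  · rw [sum_eq_zero fun v hv => sum_eq_zero fun x _ => ind_neg fun hP => h0 ((h _ hP).1 ▸ hv)]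
    norm_num

theorem size (ed : E → Finset V) (K : E → ℕ) (Act : Finset V)
    (Ad : V → Finset (ℕ × (Inp E ⊕ ℕ))) (ch : (Σ _ : V, ℕ) → E)
    (h1 : ∀ v j, ∑ x ∈ Ad v, ind (x.1 = j) ≤ 3) (h2 : ∀ v u, ∑ x ∈ Ad v, ind (x.2 = u) ≤ 3)
    (v : V) (l : (V × ℕ) ⊕ (Inp E ⊕ ℕ)) :
    ∑ s ∈ (Sl K).disjSum (Act.sigma Ad), ind (v ∈ ed (rt ch s) ∧ lab s v = l) ≤ 4 := by
  rw [sum_disjSum]
  have a1 : ∑ σ ∈ Sl K, ind (v ∈ ed (rt ch (Sum.inl σ)) ∧
      lab (Sum.inl σ : Slot E ⊕ Wire V E) v = l) ≤ 1 := by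
    refine sum_ind_le_one _ _ fun x y hx hy => ?_
    have := hx.2.trans hy.2.symm
    simpa [lab] using this
  have a2 : ∑ w ∈ Act.sigma Ad, ind (v ∈ ed (rt ch (Sum.inr w)) ∧
      lab (Sum.inr w : Slot E ⊕ Wire V E) v = l) ≤ 3 := by
    rcases l with ⟨v', j⟩ | u
    · refine sum_wire_le Act Ad _ v' (fun x => x.1 = j) (fun w hw => ?_) (h1 v' j)
      have := hw.2
      by_cases hv : v = w.1
      · simp [lab, hv] at this
      · simpa [lab, hv] using this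
    · refine sum_wire_le Act Ad _ v (fun x => x.2 = u) (fun w hw => ?_) (h2 v u)
      have := hw.2
      by_cases hv : v = w.1
      · exact ⟨hv.symm, by simpa [lab, hv] using this⟩
      · simp [lab, hv] at this
  linarith

open scoped Classical in
theorem clon (ed : E → Finset V) (K : E → ℕ) (Act : Finset V) (Sk Rl : V → Finset ℕ)
    (Ad : V → Finset (ℕ × (Inp E ⊕ ℕ))) (ch : (Σ _ : V, ℕ) → E) (L : Finset V) (a : E → ℤ)
    (μ : V → ℕ → Inp E ⊕ ℕ)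
    (hAct : ∀ v, 0 < MM ed K v → v ∈ Act)
    (hAd : ∀ v, ∀ x ∈ Ad v, x.1 ∈ Sk v ∧ x.2 ∈ (sv ed K v).disjSum (Rl v))
    (hch : ∀ v ∈ Act, ∀ j ∈ Sk v, v ∈ ed (ch ⟨v, j⟩))
    (hμ : ∀ v, Set.BijOn (μ v) (Sk v : Set ℕ)
      (((sv ed K v).filter (act K a L v)).disjSum (Rl v) : Finset (Inp E ⊕ ℕ)))
    (hμ' : ∀ v, ∀ j ∈ Sk v, (j, μ v j) ∈ Ad v) :
    CLOn ed ((Sl K).disjSum (Act.sigma Ad)) (rt ch) lab (Sum.inr (Sum.inl none)) L := by
  let On : Slot E ⊕ Wire V E → Prop :=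
    Sum.elim (fun σ => (σ.2 : ℤ) < K σ.1 - a σ.1) fun w => μ w.1 w.2.1 = w.2.2
  have hmem : ∀ v, ∀ j ∈ Sk v, μ v j ∈ ((sv ed K v).filter (act K a L v)).disjSum (Rl v) :=
    fun v j hj => mem_coe.1 ((hμ v).mapsTo (mem_coe.2 hj))
  have key : ∀ v ∈ Act, ∀ u ∈ (sv ed K v).disjSum (Rl v), ¬ (v ∈ L ∧ u = Sum.inl none) →
      ∃! s', s' ∈ (Sl K).disjSum (Act.sigma Ad) ∧ v ∈ ed (rt ch s') ∧
        lab s' v = Sum.inr u ∧ On s' := by
    intro v hv u hu hn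
    by_cases h : u ∈ ((sv ed K v).filter (act K a L v)).disjSum (Rl v)
    · obtain ⟨j, hj, hju⟩ := (hμ v).surjOn (mem_coe.2 h)
      have hj' : j ∈ Sk v := mem_coe.1 hj
      refine ⟨Sum.inr ⟨v, (j, u)⟩, ⟨inr_mem_disjSum.2 (mem_sigma.2 ⟨hv, hju ▸ hμ' v j hj'⟩),
        hch v hv j hj', by simp [lab], hju⟩, ?_⟩
      rintro (σ | ⟨w, j', u'⟩) ⟨h1, -, h3, h4⟩
      · have e : Sum.inl (some σ) = u := by simpa [lab] using h3
        rw [← e, inl_mem_disjSum, mem_filter] at h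
        exact (h.2 h4).elim
      · by_cases hw : v = w
        · subst hw
          have e : u' = u := by simpa [lab] using h3
          subst e
          have h5 := (hAd v _ (mem_sigma.1 (inr_mem_disjSum.1 h1)).2).1
          have h6 : j' = j := (hμ v).injOn (mem_coe.2 h5) hj (Eq.trans h4 hju.symm)
          rw [h6]
        · simp [lab, hw] at h3
    · rcases u with (_ | σ) | r
      · rw [inl_mem_disjSum, mem_filter] at h
        exact (hn ⟨by_contra fun h1 => h ⟨none_mem_sv, h1⟩, rfl⟩).elim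
      · have h1 := some_mem_sv.1 (inl_mem_disjSum.1 hu)
        have h2 : On (Sum.inl σ) := by
          by_contra h3
          exact h (inl_mem_disjSum.2 (mem_filter.2 ⟨inl_mem_disjSum.1 hu, h3⟩))
        refine ⟨Sum.inl σ, ⟨inl_mem_disjSum.2 h1.2, h1.1, rfl, h2⟩, ?_⟩
        rintro (σ' | ⟨w, j', u'⟩) ⟨h3, -, h5, h6⟩
        · simpa [lab] using h5
        · by_cases hw : v = w
          · subst hw
            have e : u' = Sum.inl (some σ) := by simpa [lab] using h5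
            have h7 := hmem v j' (hAd v _ (mem_sigma.1 (inr_mem_disjSum.1 h3)).2).1
            have h8 : μ v j' = u' := h6
            rw [h8, e] at h7
            exact (h h7).elim
          · simp [lab, hw] at h5
      · exact (h (inr_mem_disjSum.2 (inr_mem_disjSum.1 hu))).elim
  refine ⟨On, ?_⟩
  rintro (σ | ⟨w, j, u⟩) hs v hv
  · have h1 := inl_mem_disjSum.1 hs
    refine ⟨fun _ h => by simp [lab] at h, fun _ => ?_⟩
    exact key v (hAct v (MM_pos hv h1)) (Sum.inl (some σ))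
      (inl_mem_disjSum.2 (some_mem_sv.2 ⟨hv, h1⟩)) (by simp)
  · obtain ⟨h1, h2⟩ := mem_sigma.1 (inr_mem_disjSum.1 hs)
    have h3 := hAd w _ h2
    by_cases hw : v = w
    · subst hw
      have e : lab (Sum.inr ⟨v, (j, u)⟩ : Slot E ⊕ Wire V E) v = Sum.inr u := by simp [lab]
      rw [e]
      refine ⟨fun hL h hOn => ?_, fun hn => key v h1 u h3.2 fun h => hn ⟨h.1, by rw [h.2]⟩⟩
      have h4 := hmem v j h3.1
      have h5 : μ v j = u := hOn
      have h6 : u = Sum.inl none := by simpa using h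
      rw [h5, h6, inl_mem_disjSum, mem_filter] at h4
      exact h4.2 hL
    · have e : lab (Sum.inr ⟨w, (j, u)⟩ : Slot E ⊕ Wire V E) v = Sum.inl (w, j) := by
        simp [lab, hw]
      rw [e]
      refine ⟨fun _ h => by simp at h, fun _ => ?_⟩
      refine ⟨Sum.inr ⟨w, (j, μ w j)⟩, ⟨inr_mem_disjSum.2 (mem_sigma.2 ⟨h1, hμ' w j h3.1⟩), hv,
        by simp [lab, hw], rfl⟩, ?_⟩
      rintro (σ' | ⟨w', j', u'⟩) ⟨-, -, h5, h6⟩
      · simp [lab] at h5
      · by_cases hw' : v = w'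
        · simp [lab, hw'] at h5
        · have h7 : w' = w ∧ j' = j := by simpa [lab, hw'] using h5
          obtain ⟨rfl, rfl⟩ := h7
          have h8 : μ w' j' = u' := h6
          rw [h8]

theorem log_bd {M : ℕ} {lg : ℝ} (h1 : 1 ≤ lg) (h : (M : ℝ) ≤ Real.exp lg) :
    1 + Real.log ((2 * M + 1 : ℕ) : ℝ) ≤ 4 * lg := by
  have h2 : (1 : ℝ) ≤ Real.exp lg := Real.one_le_exp (by linarith)
  have h3 : (2 : ℝ) + 1 ≤ Real.exp 2 := Real.add_one_le_exp 2
  have h4 : ((2 * M + 1 : ℕ) : ℝ) ≤ Real.exp (2 + lg) := by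
    rw [Real.exp_add]
    push_cast
    nlinarith
  have h5 := (Real.log_le_iff_le_exp (by positivity)).2 h4
  linarith

end CLSysP

open CLSysP in
theorem clsys (h1 : S_Conc) (h2 : S_Ch) : S_CLSys := by
  classical
  intro V E T _ _ _ _ H X K ε hH hε hlg hX hK
  have hε0 := hH.pos hlg
  have hl1 := hH.lg1
  have hC := hH.C2
  choose Sk Rl Ad hSk hAd hd1 hd2 hμ using
    fun v : V => h1 (Inp E) (sv H.ed K v) (MM H.ed K v + 1)
  let Act : Finset V := X ∪ univ.filter fun v => 0 < MM H.ed K v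
  have hMZ : ∀ f, ∑ v ∈ H.Z f, (MM H.ed K v : ℝ) ≤ ε * H.s f := fun f => by
    rw [sum_MM]; exact hK f
  have hM : ∀ v, (MM H.ed K v : ℝ) ≤ Real.exp H.lg := fun v => by
    have a1 := hH.tch (fun v => (MM H.ed K v : ℝ)) ε (fun _ => Nat.cast_nonneg _) hMZ
    have a2 : (MM H.ed K v : ℝ) ≤ ∑ v, (MM H.ed K v : ℝ) :=
      single_le_sum (f := fun v => (MM H.ed K v : ℝ)) (fun _ _ => Nat.cast_nonneg _) (mem_univ v)
    have a3 := hH.cTot
    have a4 := hH.T0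
    nlinarith
  have hSk' : ∀ v ∈ Act, ((Sk v).card : ℝ) ≤ 80 * H.lg * (ind (v ∈ X) + 3 * MM H.ed K v) := by
    intro v hv
    have a1 := hSk v
    rw [card_sv] at a1
    have a2 := log_bd hl1 (hM v)
    have a3 : ((2 * MM H.ed K v + 1 : ℕ) : ℝ) ≤ ind (v ∈ X) + 3 * MM H.ed K v := by
      push_cast
      rcases mem_union.1 hv with h | h
      · rw [ind_pos h]; linarith [(Nat.cast_nonneg (MM H.ed K v) : (0 : ℝ) ≤ _)]
      · have : (1 : ℝ) ≤ MM H.ed K v := by exact_mod_cast (mem_filter.1 h).2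
        linarith [ind_nonneg (v ∈ X)]
    have a4 : (0 : ℝ) ≤ ((2 * MM H.ed K v + 1 : ℕ) : ℝ) := Nat.cast_nonneg _
    calc _ ≤ 20 * ((2 * MM H.ed K v + 1 : ℕ) : ℝ) * (4 * H.lg) := by
          refine a1.trans ?_
          gcongr
      _ ≤ 20 * (ind (v ∈ X) + 3 * MM H.ed K v) * (4 * H.lg) := by gcongr
      _ = _ := by ring
  have hLd : H.Ld (Act.sigma Sk) (fun i => {i.1}) (320 * H.lg * ε) := fun f => by
    rw [sum_sigma]
    have a1 : ∀ v ∈ Act, ∑ _j ∈ Sk v, ((H.Z f ∩ {v}).card : ℝ)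
        ≤ ind (v ∈ H.Z f) * (80 * H.lg * (ind (v ∈ X) + 3 * MM H.ed K v)) := by
      intro v hv
      rw [sum_const, nsmul_eq_mul, inter_comm, card_inter_eq_sum, sum_singleton, mul_comm]
      exact mul_le_mul_of_nonneg_left (hSk' v hv) (ind_nonneg _)
    have a0 : ∀ v, 0 ≤ 80 * H.lg * (ind (v ∈ X) + 3 * MM H.ed K v) := fun v => by
      have := ind_nonneg (v ∈ X)
      positivity
    have a2 : ∑ v ∈ Act, ind (v ∈ H.Z f) * (80 * H.lg * (ind (v ∈ X) + 3 * MM H.ed K v))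
        ≤ ∑ v ∈ H.Z f, 80 * H.lg * (ind (v ∈ X) + 3 * MM H.ed K v) := by
      rw [← Pool.Agent.P.MP_77d020_co.L.sum_filter_eq_sum_ind]
      exact sum_le_sum_of_subset_of_nonneg (fun v hv => (mem_filter.1 hv).2) fun v _ _ => a0 v
    refine ((sum_le_sum a1).trans a2).trans ?_
    rw [← mul_sum, sum_add_distrib, ← mul_sum, ← card_inter_eq_sum]
    have a3 := hX f
    have a4 := hMZ f
    calc _ ≤ 80 * H.lg * (ε * H.s f + 3 * (ε * H.s f)) := by gcongr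
      _ = _ := by ring
  obtain ⟨ch, hch, hchL⟩ := h2 V E T (Σ _ : V, ℕ) H (Act.sigma Sk) (fun i => i.1)
    (320 * H.lg * ε) hH (by nlinarith) hLd
  have hch' : ∀ v ∈ Act, ∀ j ∈ Sk v, v ∈ H.ed (ch ⟨v, j⟩) := fun v hv j hj =>
    hch ⟨v, j⟩ (mem_sigma.2 ⟨hv, hj⟩)
  refine ⟨Slot E ⊕ Wire V E, (V × ℕ) ⊕ (Inp E ⊕ ℕ), (Sl K).disjSum (Act.sigma Ad), rt ch, lab,
    Sum.inr (Sum.inl none), ⟨fun f => ?_, size H.ed K Act Ad ch hd1 hd2, fun v hv => ?_⟩,
    fun L _ a ha hb => ?_⟩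
  · rw [sum_disjSum, Sl, sum_sigma, sum_sigma]
    have a1 : ∑ e, ∑ i ∈ range (2 * K e), ((H.Z f ∩ H.ed (rt ch (Sum.inl ⟨e, i⟩))).card : ℝ)
        = 2 * ∑ e, (K e : ℝ) * ((H.Z f ∩ H.ed e).card : ℝ) := by
      rw [mul_sum]
      refine sum_congr rfl fun e _ => ?_
      simp only [rt, sum_const, card_range, nsmul_eq_mul]
      push_cast
      ring
    have a2 : ∑ v ∈ Act, ∑ x ∈ Ad v, ((H.Z f ∩ H.ed (rt ch (Sum.inr ⟨v, x⟩))).card : ℝ)
        ≤ 3 * ∑ v ∈ Act, ∑ j ∈ Sk v, ((H.Z f ∩ H.ed (ch ⟨v, j⟩)).card : ℝ) := by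
      rw [mul_sum]
      exact sum_le_sum fun v _ => sum_Ad_le (fun x hx => (hAd v x hx).1) (hd1 v)
        (fun j => ((H.Z f ∩ H.ed (ch ⟨v, j⟩)).card : ℝ)) fun _ => Nat.cast_nonneg _
    have a3 := hchL f
    rw [sum_sigma] at a3
    have a4 := hK f
    have a5 := hH.s1 f
    have a6 : 0 ≤ ε * H.s f := by positivity
    have a7 : 2 ≤ H.C0 * H.lg := by nlinarith
    have a8 := mul_le_mul_of_nonneg_right a7 a6
    rw [a1]
    nlinarith
  · obtain ⟨I, hI1, hI2, hI3⟩ := exists_subsuperset_card_eq (s := {none}) (t := sv H.ed K v)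
      (n := MM H.ed K v + 1) (singleton_subset_iff.2 none_mem_sv) (by simp)
      (by rw [card_sv]; omega)
    obtain ⟨μ, hb, hA⟩ := hμ v I hI2 hI3
    obtain ⟨j, hj, hju⟩ := hb.surjOn
      (mem_coe.2 (inl_mem_disjSum.2 (singleton_subset_iff.1 hI1)))
    have hj' : j ∈ Sk v := mem_coe.1 hj
    have hv' : v ∈ Act := mem_union_left _ hv
    exact ⟨Sum.inr ⟨v, (j, Sum.inl none)⟩, inr_mem_disjSum.2 (mem_sigma.2 ⟨hv', hju ▸ hA j hj'⟩),
      hch' v hv' j hj', by simp [lab]⟩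
  · choose μ hb' hA using fun v => hμ v _ (filter_subset _ _) (card_act ha hb v)
    exact clon H.ed K Act Sk Rl Ad ch L a μ
      (fun v hv => mem_union_right _ (mem_filter.2 ⟨mem_univ _, hv⟩)) hAd hch' hb' hA

end Pool.Agent.P.MP_3b9ee7_co.Q
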