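import Pool.Agent.P.MP_3b9ee7_co.Q.Base

/-! Counting subspaces, and 2-transitivity. -/

namespace Pool.Agent.P.MP_3b9ee7_co.Q

open Finset Module
open Pool.Agent.P.MP_77d020_co.L (ind fs cnt mem_fs)

namespace CntP

variable {K V : Type} [Field K] [AddCommGroup V] [Module K V]

/-- A linear automorphism permutes the subspaces of a given dimension. -/
def act (g : V ≃ₗ[K] V) (j : ℕ) : Equiv.Perm (Sub K V j) where
  toFun B := ⟨B.W.map (g : V →ₗ[K] V), (LinearEquiv.finrank_map_eq g B.W).trans B.h⟩
  invFun B := ⟨B.W.map (g.symm : V →ₗ[K] V), (LinearEquiv.finrank_map_eq g.symm B.W).trans B.h⟩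
  left_inv B := Sub.ext (by simp [← Submodule.map_comp])
  right_inv B := Sub.ext (by simp [← Submodule.map_comp])

theorem act_W (g : V ≃ₗ[K] V) (j : ℕ) (B : Sub K V j) :
    (act g j B).W = B.W.map (g : V →ₗ[K] V) := rfl

theorem li_rep {p p' : Sub K V 1} (h : p ≠ p') : LinearIndependent K ![rep p, rep p'] := by
  rw [LinearIndependent.pair_iff' (rep_ne p)]
  intro a ha
  refine h (pnt_eq_of_mem (rep_ne p') ?_ (rep_mem p'))
  rw [← ha]
  exact p.W.smul_mem a (rep_mem p)

theorem exists_equiv {a b c d : V} (h1 : LinearIndependent K ![a, b])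
    (h2 : LinearIndependent K ![c, d]) : ∃ g : V ≃ₗ[K] V, g a = c ∧ g b = d := by
  have q0 {a b : V} (h : LinearIndependent K ![a, b]) :
      h.linearCombinationEquiv (Finsupp.single 0 1) = a := by simp
  have q1 {a b : V} (h : LinearIndependent K ![a, b]) :
      h.linearCombinationEquiv (Finsupp.single 1 1) = b := by simp
  let f := h1.linearCombinationEquiv.symm ≪≫ₗ h2.linearCombinationEquiv
  have : FiniteDimensional K (Submodule.span K (Set.range ![a, b])) :=
    FiniteDimensional.span_of_finite K (Set.finite_range _)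
  obtain ⟨g, hg⟩ := Submodule.exists_linearEquiv_restrict_eq f
  refine ⟨g, ?_, ?_⟩
  · have := hg (h1.linearCombinationEquiv (Finsupp.single 0 1))
    rw [q0 h1] at this
    rw [← this]
    simp [f]
  · have := hg (h1.linearCombinationEquiv (Finsupp.single 1 1))
    rw [q1 h1] at this
    rw [← this]
    simp [f]

theorem exists_tuple [Finite V] (W : Submodule K V) {k : ℕ} (h : finrank K W = k) :
    ∃ s : Fin k → V, (∀ i, s i ∈ W) ∧ Submodule.span K (Set.range s) = W := by
  let b := Module.finBasisOfFinrankEq K W h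
  refine ⟨fun i => (b i : V), fun i => (b i).2, ?_⟩
  have : Set.range (fun i => (b i : V)) = W.subtype '' Set.range b := by
    rw [← Set.range_comp]; rfl
  rw [this, ← Submodule.map_span, b.span_eq, Submodule.map_subtype_top]

theorem card_mem [Fintype K] [Fintype V] (U : Submodule K V) :
    (fs fun v => v ∈ U).card = Fintype.card K ^ finrank K U := by
  rw [← Nat.card_eq_fintype_card, ← Module.natCard_eq_pow_finrank (K := K) (V := U),
    ← Nat.card_eq_finsetCard]
  exact Nat.card_congr (Equiv.subtypeEquivRight fun v => mem_fs)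

theorem card_tuples [Fintype K] [Fintype V] (U : Submodule K V) (k : ℕ) :
    (Fintype.piFinset fun _ : Fin k => fs fun v => v ∈ U).card
      = (Fintype.card K ^ finrank K U) ^ k := by
  rw [Fintype.card_piFinset, prod_const, card_mem, card_univ, Fintype.card_fin]

end CntP

open CntP

theorem two : S_Two := by
  intro K V _ _ _ _ k p p' x x' hp hx
  obtain ⟨g, h1, h2⟩ := exists_equiv (li_rep hp) (li_rep hx)
  have key : ∀ {y z : Sub K V 1}, g (rep y) = rep z → act g 1 y = z := by
    intro y z h
    refine pnt_eq_of_mem (rep_ne z) ?_ (rep_mem z)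
    rw [act_W, ← h]
    exact Submodule.mem_map_of_mem (rep_mem y)
  refine ⟨act g 1, act g k, fun y B => ?_, key h1, key h2⟩
  rw [mem_gpts, mem_gpts, act_W, act_W]
  exact Submodule.map_le_map_iff_of_injective g.injective _ _

theorem pcnt : S_PCnt := by
  intro K V _ _ _ _ _ U
  have h := Projectivization.card_of_finrank K U (n := finrank K U) rfl
  rw [Nat.card_eq_fintype_card (α := K)] at h
  unfold th
  rw [← h, ← Nat.card_eq_finsetCard]
  have ne : ∀ x : Projectivization K U, (x.rep : V) ≠ 0 := fun x h0 =>
    x.rep_nonzero (Subtype.ext h0)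
  refine (Nat.card_congr (Equiv.ofBijective (fun x : Projectivization K U =>
    (⟨pnt K (x.rep : V) (ne x), mem_upts.2
      ((Submodule.span_singleton_le_iff_mem _ _).2 x.rep.2)⟩ : upts U)) ⟨?_, ?_⟩)).symm
  · intro x y hxy
    have h1 : Submodule.span K {(x.rep : V)} = Submodule.span K {(y.rep : V)} :=
      congrArg (fun z : upts U => z.1.W) hxy
    have h2 : (x.rep : V) ∈ Submodule.span K {(y.rep : V)} :=
      h1 ▸ Submodule.mem_span_singleton_self _
    obtain ⟨a, ha⟩ := Submodule.mem_span_singleton.1 h2
    rw [← x.mk_rep, ← y.mk_rep, Projectivization.mk_eq_mk_iff']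
    exact ⟨a, Subtype.ext ha⟩
  · rintro ⟨p, hp⟩
    have hu : rep p ∈ U := le_iff_rep.1 (mem_upts.1 hp)
    have h0 : (⟨rep p, hu⟩ : U) ≠ 0 := fun h => rep_ne p (congrArg Subtype.val h)
    refine ⟨Projectivization.mk K ⟨rep p, hu⟩ h0, Subtype.ext (eq_pnt (ne _) ?_).symm⟩
    obtain ⟨a, ha⟩ := Projectivization.exists_smul_eq_mk_rep K (⟨rep p, hu⟩ : U) h0
    rw [← ha]
    exact p.W.smul_mem (a : K) (rep_mem p)

theorem bcnt : S_BCnt := by
  intro K V _ _ _ _ _ k
  classical
  let _ : Fintype V := Fintype.ofFinite V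
  refine ⟨fun U => ?_, fun hk => ?_, fun p => ?_⟩
  · choose s hs1 hs2 using fun B : Sub K V k => exists_tuple B.W B.h
    have h := card_le_card_of_injOn (s := fs fun B : Sub K V k => B.W ≤ U)
      (t := Fintype.piFinset fun _ : Fin k => fs fun v => v ∈ U) s
      (fun B hB => by
        have hB' : B.W ≤ U := by simpa using hB
        exact mem_coe.2 (Fintype.mem_piFinset.2 fun i => mem_fs.2 (hB' (hs1 B i))))
      (fun B _ B' _ h => Sub.ext (by rw [← hs2 B, ← hs2 B', h]))
    rw [card_tuples] at h
    unfold cnt
    exact_mod_cast h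
  · have h1 := card_linearIndependent (K := K) (V := V) hk.le
    let sp : {s : Fin k → V // LinearIndependent K s} → Sub K V k := fun s =>
      ⟨Submodule.span K (Set.range s.1), by rw [finrank_span_eq_card s.2, Fintype.card_fin]⟩
    have h2 := card_le_mul_card_image_of_maps_to (f := sp) (s := univ) (t := univ)
      (fun _ _ => mem_univ _) ((Fintype.card K ^ k) ^ k) (fun B _ => by
        have h := card_le_card_of_injOn (s := univ.filter fun s => sp s = B)
          (t := Fintype.piFinset fun _ : Fin k => fs fun v => v ∈ B.W) Subtype.val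
          (fun s hs => by
            have hs' : sp s = B := (mem_filter.1 (mem_coe.1 hs)).2
            refine mem_coe.2 (Fintype.mem_piFinset.2 fun i => mem_fs.2 ?_)
            rw [← hs']
            exact Submodule.subset_span (Set.mem_range_self i))
          Subtype.val_injective.injOn
        rwa [card_tuples, B.h] at h)
    rw [card_univ, card_univ, ← Nat.card_eq_fintype_card, h1, ← pow_mul] at h2
    have hq : 2 ≤ Fintype.card K := Fintype.one_lt_card
    have h3 : (Fintype.card K ^ finrank K V) ^ k
        ≤ 2 ^ k * ∏ i : Fin k, (Fintype.card K ^ finrank K V - Fintype.card K ^ i.val) := by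
      have : ∏ _i : Fin k, Fintype.card K ^ finrank K V
          ≤ ∏ i : Fin k, 2 * (Fintype.card K ^ finrank K V - Fintype.card K ^ i.val) := by
        refine prod_le_prod' fun i _ => ?_
        have a1 : Fintype.card K ^ (i.val + 1) ≤ Fintype.card K ^ finrank K V :=
          Nat.pow_le_pow_right (by omega) (by omega)
        have a2 : Fintype.card K ^ i.val * 2 ≤ Fintype.card K ^ (i.val + 1) := by
          rw [pow_succ]; exact Nat.mul_le_mul_left _ hq
        omega
      simpa [prod_mul_distrib] using this
    have h4 := h3.trans (Nat.mul_le_mul_left _ h2)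
    rw [← mul_assoc] at h4
    exact_mod_cast h4
  · have ex : ∀ B : Sub K V (k + 1), ∃ s : Fin k → V,
        p.W ≤ B.W → p.W ⊔ Submodule.span K (Set.range s) = B.W := by
      intro B
      by_cases h : p.W ≤ B.W
      · obtain ⟨W, hd, hs⟩ := IsModularLattice.exists_disjoint_and_sup_eq h
        have e := Submodule.finrank_sup_add_finrank_inf_eq p.W W
        rw [hs, hd.eq_bot, finrank_bot, B.h, p.h] at e
        obtain ⟨s, -, h2⟩ := exists_tuple W (k := k) (by omega)
        exact ⟨s, fun _ => by rw [h2, hs]⟩
      · exact ⟨0, fun h' => (h h').elim⟩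
    choose s hs using ex
    have h := card_le_card_of_injOn (s := fs fun B : Sub K V (k + 1) => p.W ≤ B.W)
      (t := Fintype.piFinset fun _ : Fin k => fs fun v => v ∈ (⊤ : Submodule K V)) s
      (fun B _ => mem_coe.2 (Fintype.mem_piFinset.2 fun i => mem_fs.2 Submodule.mem_top))
      (fun B hB B' hB' h => Sub.ext (by
        rw [← hs B (by simpa using hB), ← hs B' (by simpa using hB'), h]))
    rw [card_tuples, finrank_top] at h
    unfold cnt
    exact_mod_cast h

end Pool.Agent.P.MP_3b9ee7_co.Q
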