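import Pool.Agent.P.MP_3b9ee7_co.Q.Base

/-! A butterfly concentrator. -/

namespace Pool.Agent.P.MP_3b9ee7_co.Q

open Finset
open Pool.Agent.P.MP_77d020_co.L (ind card_filter_eq_sum_ind)

namespace ConcP

theorem bits {w w' j : ℕ} (h1 : w % 2 ^ j = w' % 2 ^ j) (h2 : w / 2 ^ (j + 1) = w' / 2 ^ (j + 1))
    (h3 : w / 2 ^ j % 2 = w' / 2 ^ j % 2) : w = w' := by
  rw [← Nat.div_add_mod w (2 ^ (j + 1)), ← Nat.div_add_mod w' (2 ^ (j + 1)), h2,
    Nat.mod_pow_succ, Nat.mod_pow_succ, h1, h3]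

/-- position after `j` steps -/
def pp (p r j : ℕ) : ℕ := 2 ^ j * (p / 2 ^ j) + r % 2 ^ j

theorem pp_zero (p r : ℕ) : pp p r 0 = p := by simp [pp, Nat.mod_one]

theorem pp_div (p r j : ℕ) : pp p r j / 2 ^ j = p / 2 ^ j := by
  have h : 0 < 2 ^ j := by positivity
  rw [pp, Nat.mul_add_div h, Nat.div_eq_of_lt (Nat.mod_lt _ h), add_zero]

theorem pp_mod (p r j : ℕ) : pp p r j % 2 ^ j = r % 2 ^ j := by
  rw [pp, Nat.mul_add_mod, Nat.mod_mod]

theorem pp_top {p r L : ℕ} (hp : p < 2 ^ L) (hr : r < 2 ^ L) : pp p r L = r := by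
  rw [pp, Nat.div_eq_of_lt hp, Nat.mod_eq_of_lt hr, mul_zero, zero_add]

theorem pp_lt {p L j : ℕ} (r : ℕ) (hp : p < 2 ^ L) (hj : j ≤ L) : pp p r j < 2 ^ L := by
  obtain ⟨k, rfl⟩ := Nat.exists_eq_add_of_le hj
  have h : 0 < 2 ^ j := by positivity
  have h1 : pp p r j / 2 ^ j < 2 ^ k := by
    rw [pp_div, Nat.div_lt_iff_lt_mul h, mul_comm, ← pow_add]; exact hp
  rwa [Nat.div_lt_iff_lt_mul h, mul_comm, ← pow_add] at h1

theorem pp_succ_mod (p r j : ℕ) : pp p r (j + 1) % 2 ^ j = pp p r j % 2 ^ j := by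
  rw [pp_mod, ← Nat.mod_mod_of_dvd _ (pow_dvd_pow 2 (Nat.le_succ j)), pp_mod,
    Nat.mod_mod_of_dvd _ (pow_dvd_pow 2 (Nat.le_succ j))]

theorem pp_succ_div (p r j : ℕ) : pp p r (j + 1) / 2 ^ (j + 1) = pp p r j / 2 ^ (j + 1) := by
  rw [pp_div, pow_succ, ← Nat.div_div_eq_div_mul, ← Nat.div_div_eq_div_mul, pp_div]

variable {ι : Type}

/-- rank inside `I` -/
def rk (pos : ι → ℕ) (I : Finset ι) (x : ι) : ℕ := (I.filter fun y => pos y < pos x).card

theorem rk_lt (pos : ι → ℕ) {I : Finset ι} {x : ι} (hx : x ∈ I) : rk pos I x < I.card :=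
  card_lt_card (filter_ssubset.2 ⟨x, hx, lt_irrefl _⟩)

theorem rk_gap {pos : ι → ℕ} {I : Finset ι} (hi : Set.InjOn pos I) {x y : ι} (hx : x ∈ I)
    (h : pos x < pos y) : rk pos I x < rk pos I y ∧ rk pos I y ≤ rk pos I x + (pos y - pos x) := by
  classical
  constructor
  · refine card_lt_card ⟨fun z hz => ?_, fun hs => ?_⟩
    · rw [mem_filter] at hz ⊢; exact ⟨hz.1, hz.2.trans h⟩
    · exact lt_irrefl _ (mem_filter.1 (hs (mem_filter.2 ⟨hx, h⟩))).2
  · have h1 : (I.filter fun z => pos z < pos y) ⊆ (I.filter fun z => pos z < pos x) ∪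
        I.filter fun z => pos x ≤ pos z ∧ pos z < pos y := fun z hz => by
      simp only [mem_union, mem_filter] at hz ⊢
      by_cases h2 : pos z < pos x
      · exact Or.inl ⟨hz.1, h2⟩
      · exact Or.inr ⟨hz.1, not_lt.1 h2, hz.2⟩
    have h2 : (I.filter fun z => pos x ≤ pos z ∧ pos z < pos y).card
        ≤ (Ico (pos x) (pos y)).card :=
      card_le_card_of_injOn pos (fun z hz => by
        have := (mem_filter.1 hz).2
        exact mem_coe.2 (mem_Ico.2 this)) (hi.mono fun z hz => (mem_filter.1 hz).1)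
    rw [Nat.card_Ico] at h2
    exact (card_le_card h1).trans ((card_union_le _ _).trans (Nat.add_le_add_left h2 _))

theorem pp_lt_ne {pos : ι → ℕ} {I : Finset ι} (hi : Set.InjOn pos I) {x y : ι} (hx : x ∈ I)
    (h : pos x < pos y) (j : ℕ) : pp (pos x) (rk pos I x) j ≠ pp (pos y) (rk pos I y) j := by
  intro he
  have h1 : pos x / 2 ^ j = pos y / 2 ^ j := by rw [← pp_div _ (rk pos I x), he, pp_div]
  have h2 : rk pos I x % 2 ^ j = rk pos I y % 2 ^ j := by rw [← pp_mod (pos x), he, pp_mod]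
  obtain ⟨h3, h4⟩ := rk_gap hi hx h
  have h0 : 0 < 2 ^ j := by positivity
  have h5 := Nat.div_add_mod (pos x) (2 ^ j)
  have h6 := Nat.div_add_mod (pos y) (2 ^ j)
  have h7 := Nat.mod_lt (pos y) h0
  rw [h1] at h5
  have h8 := Nat.le_of_dvd (by omega) ((Nat.modEq_iff_dvd' h3.le).1 h2)
  omega

theorem pp_inj {pos : ι → ℕ} {I : Finset ι} (hi : Set.InjOn pos I) {x y : ι} (hx : x ∈ I)
    (hy : y ∈ I) {j : ℕ} (he : pp (pos x) (rk pos I x) j = pp (pos y) (rk pos I y) j) : x = y := by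
  rcases lt_trichotomy (pos x) (pos y) with h | h | h
  · exact absurd he (pp_lt_ne hi hx h j)
  · exact hi hx hy h
  · exact absurd he.symm (pp_lt_ne hi hy h j)

theorem rk_surj {pos : ι → ℕ} {I : Finset ι} (hi : Set.InjOn pos I) {u : ℕ} (hu : u < I.card) :
    ∃ x ∈ I, rk pos I x = u := by
  have h1 : Set.InjOn (rk pos I) I := fun x hx y hy he => by
    rcases lt_trichotomy (pos x) (pos y) with h | h | h
    · exact absurd he (rk_gap hi hx h).1.ne
    · exact hi hx hy h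
    · exact absurd he.symm (rk_gap hi hy h).1.ne
  have h2 := surjOn_of_injOn_of_card_le (s := I) (t := range I.card) (rk pos I)
    (fun x hx => mem_coe.2 (mem_range.2 (rk_lt pos hx))) h1 (by rw [card_range])
  obtain ⟨x, hx, h⟩ := h2 (mem_coe.2 (mem_range.2 hu))
  exact ⟨x, hx, h⟩

/-- sinks and relays -/
def Sk (L m : ℕ) : Finset ℕ :=
  ((range (L + 1) ×ˢ range (2 ^ L)).filter fun a => 1 ≤ a.1 ∧ (a.1 < L ∨ a.2 < m)).image
    fun a => Nat.pair a.1 a.2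

theorem mem_Sk {L m a : ℕ} : a ∈ Sk L m ↔ 1 ≤ a.unpair.1 ∧ a.unpair.1 ≤ L ∧ a.unpair.2 < 2 ^ L ∧
    (a.unpair.1 < L ∨ a.unpair.2 < m) := by
  simp only [Sk, mem_image, mem_filter, mem_product, mem_range]
  constructor
  · rintro ⟨b, hb, rfl⟩
    simp only [Nat.unpair_pair]
    exact ⟨hb.2.1, by omega, hb.1.2, hb.2.2⟩
  · rintro ⟨h1, h2, h3, h4⟩
    exact ⟨a.unpair, ⟨⟨by omega, h3⟩, h1, h4⟩, Nat.pair_unpair a⟩

theorem card_Sk (L m : ℕ) : (Sk L m).card ≤ (L + 1) * 2 ^ L := by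
  refine card_image_le.trans ((card_filter_le _ _).trans ?_)
  rw [card_product, card_range, card_range]

/-- level and value of a source -/
def lvl : ι ⊕ ℕ → ℕ := Sum.elim (fun _ => 0) fun a => a.unpair.1
def val (pos : ι → ℕ) : ι ⊕ ℕ → ℕ := Sum.elim pos fun a => a.unpair.2

theorem src_ext {pos : ι → ℕ} {s : Finset ι} (hi : Set.InjOn pos s) {L : ℕ} {y y' : ι ⊕ ℕ}
    (hy : y ∈ s.disjSum (Sk L 0)) (hy' : y' ∈ s.disjSum (Sk L 0)) (h1 : lvl y = lvl y')
    (h2 : val pos y = val pos y') : y = y' := by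
  rcases y with x | a <;> rcases y' with x' | a'
  · exact congrArg _ (hi (inl_mem_disjSum.1 hy) (inl_mem_disjSum.1 hy') h2)
  · have := (mem_Sk.1 (inr_mem_disjSum.1 hy')).1
    simp only [lvl, Sum.elim_inl, Sum.elim_inr] at h1; omega
  · have := (mem_Sk.1 (inr_mem_disjSum.1 hy)).1
    simp only [lvl, Sum.elim_inl, Sum.elim_inr] at h1; omega
  · rw [← Nat.pair_unpair a, ← Nat.pair_unpair a']
    simp only [lvl, val, Sum.elim_inr] at h1 h2
    rw [h1, h2]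

/-- adjacency -/
def adj (pos : ι → ℕ) (x : ℕ × (ι ⊕ ℕ)) : Prop :=
  x.2 = Sum.inr x.1 ∨ (x.1.unpair.1 = lvl x.2 + 1 ∧
    x.1.unpair.2 % 2 ^ lvl x.2 = val pos x.2 % 2 ^ lvl x.2 ∧
    x.1.unpair.2 / 2 ^ (lvl x.2 + 1) = val pos x.2 / 2 ^ (lvl x.2 + 1))

open Classical in
noncomputable def Ad (pos : ι → ℕ) (s : Finset ι) (L m : ℕ) : Finset (ℕ × (ι ⊕ ℕ)) :=
  (Sk L m ×ˢ s.disjSum (Sk L 0)).filter (adj pos)

theorem mem_Ad {pos : ι → ℕ} {s : Finset ι} {L m : ℕ} {x : ℕ × (ι ⊕ ℕ)} :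
    x ∈ Ad pos s L m ↔ (x.1 ∈ Sk L m ∧ x.2 ∈ s.disjSum (Sk L 0)) ∧ adj pos x := by
  simp only [Ad, mem_filter, mem_product]

theorem sum_le_three {α : Type} (A : Finset α) (p : α → Prop) (c : α → ℕ) (hc : ∀ x, c x < 3)
    (h : ∀ x ∈ A, ∀ y ∈ A, p x → p y → c x = c y → x = y) : ∑ x ∈ A, ind (p x) ≤ 3 := by
  classical
  rw [← card_filter_eq_sum_ind]
  have := card_le_card_of_injOn (s := A.filter p) (t := range 3) c
    (fun x _ => mem_coe.2 (mem_range.2 (hc x))) fun x hx y hy he =>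
      h x (mem_filter.1 hx).1 y (mem_filter.1 hy).1 (mem_filter.1 hx).2 (mem_filter.1 hy).2 he
  rw [card_range] at this
  exact_mod_cast this

theorem deg1 {pos : ι → ℕ} {s : Finset ι} (hi : Set.InjOn pos s) (L m j : ℕ) :
    ∑ x ∈ Ad pos s L m, ind (x.1 = j) ≤ 3 := by
  classical
  refine sum_le_three _ _
    (fun x => if x.2 = Sum.inr x.1 then 2 else val pos x.2 / 2 ^ lvl x.2 % 2)
    (fun x => by split_ifs <;> omega) ?_
  rintro ⟨a, y⟩ hx ⟨a', y'⟩ hx' rfl h2 he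
  obtain rfl : a' = a := h2
  obtain ⟨⟨-, h3⟩, h4⟩ := mem_Ad.1 hx
  obtain ⟨⟨-, h3'⟩, h4'⟩ := mem_Ad.1 hx'
  dsimp only at he h3 h3'
  split_ifs at he with h5 h6 h6
  · rw [h5, h6]
  · omega
  · omega
  · obtain ⟨k1, k2, k3⟩ := h4.resolve_left h5
    obtain ⟨k1', k2', k3'⟩ := h4'.resolve_left h6
    dsimp only at k1 k2 k3 k1' k2' k3'
    have hl : lvl y = lvl y' := by omega
    rw [← hl] at k2' k3' he
    rw [src_ext hi h3 h3' hl (bits (k2.symm.trans k2') (k3.symm.trans k3') he)]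

theorem deg2 (pos : ι → ℕ) (s : Finset ι) (L m : ℕ) (u : ι ⊕ ℕ) :
    ∑ x ∈ Ad pos s L m, ind (x.2 = u) ≤ 3 := by
  classical
  refine sum_le_three _ _
    (fun x => if x.2 = Sum.inr x.1 then 2 else x.1.unpair.2 / 2 ^ lvl x.2 % 2)
    (fun x => by split_ifs <;> omega) ?_
  rintro ⟨a, y⟩ hx ⟨a', y'⟩ hx' rfl h2 he
  obtain rfl : y' = y := h2
  obtain ⟨-, h4⟩ := mem_Ad.1 hx
  obtain ⟨-, h4'⟩ := mem_Ad.1 hx'
  dsimp only at he
  split_ifs at he with h5 h6 h6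
  · rw [Sum.inr.inj (h5.symm.trans h6)]
  · omega
  · omega
  · obtain ⟨k1, k2, k3⟩ := h4.resolve_left h5
    obtain ⟨k1', k2', k3'⟩ := h4'.resolve_left h6
    dsimp only at k1 k2 k3 k1' k2' k3'
    rw [← Nat.pair_unpair a, ← Nat.pair_unpair a', k1, k1',
      bits (k2.trans k2'.symm) (k3.trans k3'.symm) he]

/-- the source used by the path of `x` after `j` steps -/
def src (pos : ι → ℕ) (I : Finset ι) (j : ℕ) (x : ι) : ι ⊕ ℕ :=
  if j = 0 then Sum.inl x else Sum.inr (Nat.pair j (pp (pos x) (rk pos I x) j))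

theorem lvl_src (pos : ι → ℕ) (I : Finset ι) (j : ℕ) (x : ι) : lvl (src pos I j x) = j := by
  unfold src; split_ifs with h <;> simp [lvl, h]

theorem val_src (pos : ι → ℕ) (I : Finset ι) (j : ℕ) (x : ι) :
    val pos (src pos I j x) = pp (pos x) (rk pos I x) j := by
  unfold src; split_ifs with h <;> simp [val, h, pp_zero]

open Classical in
noncomputable def mu (pos : ι → ℕ) (I : Finset ι) (a : ℕ) : ι ⊕ ℕ :=
  if h : ∃ x ∈ I, pp (pos x) (rk pos I x) a.unpair.1 = a.unpair.2 then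
    src pos I (a.unpair.1 - 1) h.choose else Sum.inr a

theorem mu_hit {pos : ι → ℕ} {I : Finset ι} (hi : Set.InjOn pos I) {a : ℕ} {x : ι} (hx : x ∈ I)
    (h : pp (pos x) (rk pos I x) a.unpair.1 = a.unpair.2) :
    mu pos I a = src pos I (a.unpair.1 - 1) x := by
  have h1 : ∃ x ∈ I, pp (pos x) (rk pos I x) a.unpair.1 = a.unpair.2 := ⟨x, hx, h⟩
  rw [mu, dif_pos h1, pp_inj hi h1.choose_spec.1 hx (h1.choose_spec.2.trans h.symm)]

theorem mu_miss {pos : ι → ℕ} {I : Finset ι} {a : ℕ}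
    (h : ¬∃ x ∈ I, pp (pos x) (rk pos I x) a.unpair.1 = a.unpair.2) : mu pos I a = Sum.inr a := by
  rw [mu, dif_neg h]

theorem route {pos : ι → ℕ} {s I : Finset ι} {L : ℕ} (hL : 1 ≤ L) (hi : Set.InjOn pos s)
    (hp : ∀ x ∈ s, pos x < 2 ^ L) (hI : I ⊆ s) (hc : I.card ≤ 2 ^ L) :
    Set.BijOn (mu pos I) (Sk L I.card : Set ℕ) (I.disjSum (Sk L 0) : Finset (ι ⊕ ℕ)) ∧
      ∀ a ∈ Sk L I.card, (a, mu pos I a) ∈ Ad pos s L I.card := by
  have hi' : Set.InjOn pos I := hi.mono hI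
  have htop : ∀ x ∈ I, pp (pos x) (rk pos I x) L = rk pos I x := fun x hx =>
    pp_top (hp x (hI hx)) ((rk_lt pos hx).trans_le hc)
  have hmap : ∀ a ∈ Sk L I.card, mu pos I a ∈ I.disjSum (Sk L 0) := fun a ha => by
    obtain ⟨h1, h2, h3, h4⟩ := mem_Sk.1 ha
    by_cases h : ∃ x ∈ I, pp (pos x) (rk pos I x) a.unpair.1 = a.unpair.2
    · obtain ⟨x, hx, h⟩ := h
      rw [mu_hit hi' hx h, src]
      split_ifs with h5
      · exact inl_mem_disjSum.2 hx
      · refine inr_mem_disjSum.2 (mem_Sk.2 ?_)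
        simp only [Nat.unpair_pair]
        exact ⟨by omega, by omega, pp_lt _ (hp x (hI hx)) (by omega), Or.inl (by omega)⟩
    · rw [mu_miss h]
      refine inr_mem_disjSum.2 (mem_Sk.2 ⟨h1, h2, h3, Or.inl ?_⟩)
      by_contra h5
      obtain ⟨x, hx, h6⟩ := rk_surj hi' (h4.resolve_left h5)
      exact h ⟨x, hx, by rw [show a.unpair.1 = L by omega, htop x hx, h6]⟩
  have hstep : ∀ x ∈ I, ∀ j < L, ∃ a ∈ Sk L I.card, mu pos I a = src pos I j x := by
    intro x hx j hj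
    refine ⟨Nat.pair (j + 1) (pp (pos x) (rk pos I x) (j + 1)), mem_Sk.2 ?_, ?_⟩
    · simp only [Nat.unpair_pair]
      refine ⟨by omega, hj, pp_lt _ (hp x (hI hx)) hj, ?_⟩
      by_cases h : j + 1 < L
      · exact Or.inl h
      · rw [show j + 1 = L by omega, htop x hx]; exact Or.inr (rk_lt pos hx)
    · rw [mu_hit hi' hx (by simp only [Nat.unpair_pair])]
      simp only [Nat.unpair_pair, Nat.add_sub_cancel]
  refine ⟨⟨fun a ha => hmap a ha, fun a ha a' ha' he => ?_, fun y hy => ?_⟩, fun a ha => ?_⟩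
  · have h1 := (mem_Sk.1 ha).1
    have h1' := (mem_Sk.1 ha').1
    have key : ∀ b b' : ℕ, ∀ x ∈ I, src pos I (b.unpair.1 - 1) x = Sum.inr b' →
        ∃ x ∈ I, pp (pos x) (rk pos I x) b'.unpair.1 = b'.unpair.2 := fun b b' x hx h => by
      have k1 := lvl_src pos I (b.unpair.1 - 1) x
      have k2 := val_src pos I (b.unpair.1 - 1) x
      rw [h] at k1 k2
      exact ⟨x, hx, by rw [← k1] at k2; exact k2.symm⟩
    by_cases h : ∃ x ∈ I, pp (pos x) (rk pos I x) a.unpair.1 = a.unpair.2 <;>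
      by_cases h' : ∃ x ∈ I, pp (pos x) (rk pos I x) a'.unpair.1 = a'.unpair.2
    · obtain ⟨x, hx, h⟩ := h
      obtain ⟨x', hx', h'⟩ := h'
      rw [mu_hit hi' hx h, mu_hit hi' hx' h'] at he
      have k1 := congrArg lvl he
      have k2 := congrArg (val pos) he
      rw [lvl_src, lvl_src] at k1
      rw [val_src, val_src, ← k1] at k2
      obtain rfl := pp_inj hi' hx hx' k2
      have k3 : a.unpair.1 = a'.unpair.1 := by omega
      rw [← Nat.pair_unpair a, ← Nat.pair_unpair a', ← h, ← h', k3]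
    · obtain ⟨x, hx, h⟩ := h
      rw [mu_hit hi' hx h, mu_miss h'] at he
      exact absurd (key _ _ x hx he) h'
    · obtain ⟨x, hx, h'⟩ := h'
      rw [mu_hit hi' hx h', mu_miss h] at he
      exact absurd (key _ _ x hx he.symm) h
    · rw [mu_miss h, mu_miss h'] at he
      exact Sum.inr.inj he
  · rcases y with x | b
    · obtain ⟨a, ha, h⟩ := hstep x (inl_mem_disjSum.1 hy) 0 hL
      exact ⟨a, ha, h⟩
    · obtain ⟨h1, h2, h3, h4⟩ := mem_Sk.1 (inr_mem_disjSum.1 hy)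
      have h5 : b.unpair.1 < L := by omega
      by_cases h : ∃ x ∈ I, pp (pos x) (rk pos I x) b.unpair.1 = b.unpair.2
      · obtain ⟨x, hx, h⟩ := h
        obtain ⟨a, ha, h6⟩ := hstep x hx _ h5
        refine ⟨a, ha, ?_⟩
        rw [h6, src, if_neg (by omega), h, Nat.pair_unpair]
      · exact ⟨b, mem_Sk.2 ⟨h1, h2, h3, Or.inl h5⟩, mu_miss h⟩
  · refine mem_Ad.2 ⟨⟨ha, disjSum_mono hI (subset_refl _) (hmap a ha)⟩, ?_⟩
    by_cases h : ∃ x ∈ I, pp (pos x) (rk pos I x) a.unpair.1 = a.unpair.2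
    · obtain ⟨x, hx, h⟩ := h
      have h1 := (mem_Sk.1 ha).1
      obtain ⟨j, hj⟩ : ∃ j, a.unpair.1 = j + 1 := ⟨a.unpair.1 - 1, by omega⟩
      refine Or.inr ?_
      dsimp only
      rw [mu_hit hi' hx h, lvl_src, val_src, ← h, hj, Nat.add_sub_cancel]
      exact ⟨rfl, pp_succ_mod _ _ _, pp_succ_div _ _ _⟩
    · exact Or.inl (mu_miss h)

theorem size {n : ℕ} (hn : n ≠ 0) :
    (((Nat.log 2 n + 1 + 1) * 2 ^ (Nat.log 2 n + 1) : ℕ) : ℝ) ≤ 20 * n * (1 + Real.log n) := by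
  have h1 : ((2 : ℝ) ^ Nat.log 2 n) ≤ n := by exact_mod_cast Nat.pow_log_le_self 2 hn
  have h2 : (Nat.log 2 n : ℝ) * Real.log 2 ≤ Real.log n := by
    rw [← Real.log_pow]; exact Real.log_le_log (by positivity) h1
  have h3 := Real.log_two_gt_d9
  have h4 : (0 : ℝ) ≤ Nat.log 2 n := Nat.cast_nonneg _
  have h5 : (Nat.log 2 n : ℝ) ≤ 2 * Real.log n := by nlinarith
  have h6 : (0 : ℝ) ≤ (2 : ℝ) ^ Nat.log 2 n := by positivity
  push_cast
  rw [pow_succ]
  calc ((Nat.log 2 n : ℝ) + 1 + 1) * (2 ^ Nat.log 2 n * 2)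
      ≤ (2 * (1 + Real.log n)) * (n * 2) := by gcongr; linarith
    _ ≤ 20 * n * (1 + Real.log n) := by nlinarith

end ConcP

open ConcP in
theorem conc : S_Conc := by
  classical
  intro ι s m
  by_cases hs : s.card = 0
  · refine ⟨∅, ∅, ∅, by simp [hs], by simp, by simp, by simp, fun I hI _ => ⟨Sum.inr, ?_, by simp⟩⟩
    rw [card_eq_zero] at hs
    rw [hs, subset_empty] at hI
    simp [hI]
  set L := Nat.log 2 s.card + 1 with hL
  have hlt : s.card < 2 ^ L := Nat.lt_pow_succ_log_self (by norm_num) _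
  let pos : ι → ℕ := fun x => if h : x ∈ s then (s.equivFin ⟨x, h⟩ : ℕ) else 0
  have hi : Set.InjOn pos s := fun x hx y hy he => by
    have hx' : x ∈ s := hx
    have hy' : y ∈ s := hy
    simp only [pos, dif_pos hx', dif_pos hy'] at he
    exact congrArg Subtype.val (s.equivFin.injective (Fin.ext he))
  have hp : ∀ x ∈ s, pos x < 2 ^ L := fun x hx => by
    simp only [pos, dif_pos hx]
    exact (Fin.is_lt _).trans hlt
  refine ⟨Sk L m, Sk L 0, Ad pos s L m, ?_, fun x hx => (mem_Ad.1 hx).1, deg1 hi L m,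
    deg2 pos s L m, ?_⟩
  · exact le_trans (by exact_mod_cast card_Sk L m) (size hs)
  · rintro I hI rfl
    exact ⟨mu pos I, route (by omega) hi hp hI ((card_le_card hI).trans hlt.le)⟩

end Pool.Agent.P.MP_3b9ee7_co.Q
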