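import Pool.Agent.P.MP_3b9ee7_co.Q.Base

/-! Design counts and the basic facts on the hypergraph of coloured blocks. -/

namespace Pool.Agent.P.MP_3b9ee7_co.Q

open Finset
open Pool.Agent.P.MP_77d020_co.L (ind fs cnt ind_pos ind_neg ind_nonneg ind_le_one ind_le ind_and
  ind_congr ind_mono ind_or_le mem_fs cnt_eq_sum cnt_nonneg cnt_mem cnt_true cnt_congr cnt_zero
  cnt_mono)

namespace DBaseP

theorem sum_ind_mem {α : Type} [Fintype α] (S : Finset α) : ∑ x, ind (x ∈ S) = S.card := by
  rw [← cnt_eq_sum, cnt_mem]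

theorem ind_exists_le {α : Type} (S : Finset α) (P : α → Prop) :
    ind (∃ x ∈ S, P x) ≤ ∑ x ∈ S, ind (P x) :=
  ind_le (sum_nonneg fun _ _ => ind_nonneg _) fun ⟨_, hx, h⟩ =>
    (ind_pos h).ge.trans (single_le_sum (f := fun x => ind (P x)) (fun _ _ => ind_nonneg _) hx)

variable {Pt Bl C : Type} [Fintype Pt] [Fintype Bl] [Fintype C] [DecidableEq Pt] [DecidableEq Bl]
  [DecidableEq C] {pts : Bl → Finset Pt}

omit [Fintype Pt] in
theorem sum_inl (B : Bl) (F : Bl × C → ℝ) :
    ∑ e, ind (Sum.inl B ∈ edg pts e) * F e = ∑ c, F (B, c) := by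
  rw [Fintype.sum_prod_type, sum_eq_single B]
  · exact sum_congr rfl fun c _ => by rw [ind_pos (by simp), one_mul]
  · intro b _ hb
    exact sum_eq_zero fun c _ => by rw [ind_neg (by simp [Ne.symm hb]), zero_mul]
  · simp

omit [Fintype Pt] in
theorem sum_inr (p : Pt) (c : C) (F : Bl × C → ℝ) :
    ∑ e, ind (Sum.inr (p, c) ∈ edg pts e) * F e = ∑ B, ind (p ∈ pts B) * F (B, c) := by
  rw [Fintype.sum_prod_type]
  refine sum_congr rfl fun B _ => ?_
  rw [sum_eq_single c]
  · rw [ind_congr (Q := p ∈ pts B) (by simp)]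
  · intro b _ hb
    rw [ind_neg (by simp [Ne.symm hb]), zero_mul]
  · simp

variable {θ lam : ℕ}

omit [Fintype C] [DecidableEq Pt] [DecidableEq Bl] [DecidableEq C] in
theorem cod_sum {D : ℕ} (h : Des pts θ D lam) {p p' : Pt} (hp : p ≠ p') :
    ∑ B, ind (p ∈ pts B) * ind (p' ∈ pts B) = lam := by
  rw [← h.cod p p' hp, cnt_eq_sum]; simp only [ind_and]

theorem deg (h : Des pts θ (Fintype.card C) lam) (v : Bl ⊕ Pt × C) :
    ∑ e, ind (v ∈ edg pts e) = Fintype.card C := by
  rcases v with B | ⟨p, c⟩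
  · simpa using sum_inl (pts := pts) (C := C) B fun _ => 1
  · have := sum_inr (pts := pts) p c fun _ => 1
    simp only [mul_one] at this
    rw [this, ← cnt_eq_sum, h.deg]

theorem blk (h : Des pts θ (Fintype.card C) lam) (U : Finset (Bl ⊕ Pt × C)) {ε : ℝ} (hε : 0 ≤ ε)
    (h1 : ∀ p, ((tst pts (Sum.inl p) ∩ U).card : ℝ) ≤ ε * Fintype.card C)
    (h2 : ∀ c, ((tst pts (Sum.inr c) ∩ U).card : ℝ) ≤ ε * Fintype.card Pt) (v : Bl ⊕ Pt × C) :
    cnt (fun e => v ∈ edg pts e ∧ ¬ Disjoint ((edg pts e).erase v) U)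
      ≤ (2 * θ + 1) * ε * Fintype.card C := by
  have hθ : (0 : ℝ) ≤ θ := Nat.cast_nonneg _
  have hD : (0 : ℝ) ≤ ε * Fintype.card C := mul_nonneg hε (Nat.cast_nonneg _)
  rw [cnt_eq_sum]
  simp only [ind_and]
  rcases v with B | ⟨p, c⟩
  · rw [sum_inl]
    calc ∑ c, ind (¬ Disjoint ((edg pts (B, c)).erase (Sum.inl B)) U)
        ≤ ∑ c, ∑ p ∈ pts B, ind (Sum.inr (p, c) ∈ U) := by
          refine sum_le_sum fun c _ => le_trans (ind_mono fun hd => ?_) (ind_exists_le _ _)
          obtain ⟨x, hx, hU⟩ := not_disjoint_iff.1 hd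
          rw [mem_erase] at hx
          rcases x with B' | ⟨p, c'⟩
          · exact (hx.1 (by rw [inl_mem_edg.1 hx.2])).elim
          · obtain ⟨a, b⟩ := inr_mem_edg.1 hx.2
            exact ⟨p, a, by rw [← (show c' = c from b)]; exact hU⟩
      _ ≤ ∑ p ∈ pts B, ε * Fintype.card C := by
          rw [sum_comm]
          refine sum_le_sum fun p _ => le_trans ?_ (h1 p)
          rw [card_tst_inl, ← cnt_eq_sum]
          exact le_add_of_nonneg_left (cnt_nonneg _)
      _ ≤ _ := by rw [sum_const, h.card, nsmul_eq_mul]; nlinarith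
  · rw [sum_inr]
    have hl : (lam : ℝ) * Fintype.card Pt ≤ 2 * θ * Fintype.card C := by exact_mod_cast h.lamP
    calc ∑ B, ind (p ∈ pts B) * ind (¬ Disjoint ((edg pts (B, c)).erase (Sum.inr (p, c))) U)
        ≤ ∑ B, (ind (p ∈ pts B ∧ Sum.inl B ∈ U) + ∑ p' ∈ univ.erase p,
            ind (Sum.inr (p', c) ∈ U) * (ind (p ∈ pts B) * ind (p' ∈ pts B))) := by
          refine sum_le_sum fun B _ => ?_
          simp only [← ind_and]
          refine le_trans (ind_mono ?_) ((ind_or_le _ _).trans
            (add_le_add le_rfl (ind_exists_le _ _)))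
          rintro ⟨hp, hd⟩
          obtain ⟨x, hx, hU⟩ := not_disjoint_iff.1 hd
          rw [mem_erase] at hx
          rcases x with B' | ⟨p', c'⟩
          · exact Or.inl ⟨hp, by rw [← (show B' = B from inl_mem_edg.1 hx.2)]; exact hU⟩
          · obtain ⟨a, b⟩ := inr_mem_edg.1 hx.2
            obtain rfl : c' = c := b
            exact Or.inr ⟨p', mem_erase.2 ⟨fun e => hx.1 (by rw [e]), mem_univ _⟩, hU, hp, a⟩
      _ = cnt (fun B => p ∈ pts B ∧ Sum.inl B ∈ U)
          + ∑ p' ∈ univ.erase p, ind (Sum.inr (p', c) ∈ U) * lam := by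
          rw [sum_add_distrib, cnt_eq_sum, sum_comm]
          congr 1
          refine sum_congr rfl fun p' hp' => ?_
          rw [← mul_sum, cod_sum h (mem_erase.1 hp').1.symm]
      _ ≤ ε * Fintype.card C + ε * Fintype.card Pt * lam := by
          refine add_le_add ?_ ?_
          · refine le_trans ?_ (h1 p)
            rw [card_tst_inl]
            exact le_add_of_nonneg_right (cnt_nonneg _)
          · rw [← sum_mul]
            refine mul_le_mul_of_nonneg_right (le_trans ?_ (h2 c)) (Nat.cast_nonneg _)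
            rw [card_tst_inr, cnt_eq_sum]
            exact sum_le_sum_of_subset_of_nonneg (subset_univ _) fun _ _ _ => ind_nonneg _
      _ ≤ _ := by nlinarith

end DBaseP

open DBaseP

theorem desMk : S_DesMk := by
  intro Pt Bl _ _ _ pts θ h2 hc hθ hP
  have hnt : Nontrivial Pt := Fintype.one_lt_card_iff_nontrivial.1 (by omega)
  obtain ⟨p0, p1, h01⟩ := exists_pair_ne Pt
  set D := (fs fun B => p0 ∈ pts B).card with hD
  set lam := (fs fun B => p0 ∈ pts B ∧ p1 ∈ pts B).card with hlam
  have hdeg : ∀ p, cnt (fun B => p ∈ pts B) = D := fun p => by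
    obtain ⟨p', hp'⟩ := exists_ne p
    obtain ⟨σ, τ, hστ, rfl, -⟩ := h2 p0 p1 p p' h01 hp'.symm
    rw [show (D : ℝ) = cnt (fun B => p0 ∈ pts B) from rfl, cnt_eq_sum, cnt_eq_sum,
      ← Equiv.sum_comp τ]
    simp only [hστ]
  have hcod : ∀ p p', p ≠ p' → cnt (fun B => p ∈ pts B ∧ p' ∈ pts B) = lam := fun p p' hp => by
    obtain ⟨σ, τ, hστ, rfl, rfl⟩ := h2 p0 p1 p p' h01 hp
    rw [show (lam : ℝ) = cnt (fun B => p0 ∈ pts B ∧ p1 ∈ pts B) from rfl, cnt_eq_sum, cnt_eq_sum,
      ← Equiv.sum_comp τ]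
    simp only [hστ]
  have hdbl : (D : ℝ) * Fintype.card Pt = θ * Fintype.card Bl := by
    have e1 : ∑ p, ∑ B, ind (p ∈ pts B) = ∑ B, ∑ p, ind (p ∈ pts B) := sum_comm
    simp only [← cnt_eq_sum, hdeg, cnt_mem, hc, sum_const, card_univ, nsmul_eq_mul] at e1
    linarith
  have hl : (lam : ℝ) * (Fintype.card Pt - 1) + D = D * θ := by
    have e1 : ∑ p, ∑ B, ind (p0 ∈ pts B ∧ p ∈ pts B) = D * θ := by
      rw [sum_comm]
      simp only [ind_and, ← mul_sum, sum_ind_mem, hc]
      rw [← sum_mul, ← cnt_eq_sum, hdeg]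
    rw [← e1, ← sum_erase_add _ _ (mem_univ p0)]
    congr 1
    · rw [sum_congr rfl fun p hp => (cnt_eq_sum _).symm.trans (hcod p0 p (mem_erase.1 hp).1.symm),
        sum_const, card_erase_of_mem (mem_univ _), card_univ, nsmul_eq_mul,
        Nat.cast_sub (by omega), Nat.cast_one, mul_comm]
    · simp only [and_self]
      rw [← cnt_eq_sum, hdeg]
  have hP' : 2 * (θ : ℝ) ≤ Fintype.card Pt := by exact_mod_cast hP
  have hθ' : (2 : ℝ) ≤ θ := by exact_mod_cast hθ
  have hD0 : (0 : ℝ) ≤ D := Nat.cast_nonneg _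
  have hl2 : 2 * (lam : ℝ) ≤ D := by
    have : 2 * (lam : ℝ) * (Fintype.card Pt - 1) ≤ D * (Fintype.card Pt - 1) := by nlinarith
    exact le_of_mul_le_mul_right this (by linarith)
  refine ⟨D, lam, hθ, hP, hc, hdeg, hcod, by exact_mod_cast hl2, ?_, by exact_mod_cast hdbl⟩
  have : (lam : ℝ) * Fintype.card Pt ≤ 2 * θ * D := by nlinarith
  exact_mod_cast this

theorem base : S_Base := by
  intro Pt Bl C _ _ _ _ _ _ pts θ lam lg C0 h hPD hC0 hlg hexp
  have hθ : (2 : ℝ) ≤ θ := by exact_mod_cast h.th2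
  have hP : 2 * (θ : ℝ) ≤ Fintype.card Pt := by exact_mod_cast h.thP
  have hD : (Fintype.card Pt : ℝ) ≤ Fintype.card C := by exact_mod_cast hPD
  have hl : (lam : ℝ) * Fintype.card Pt ≤ 2 * θ * Fintype.card C := by exact_mod_cast h.lamP
  have hdbl : (Fintype.card C : ℝ) * Fintype.card Pt = θ * Fintype.card Bl := by
    exact_mod_cast h.dbl
  have hP0 : (0 : ℝ) < Fintype.card Pt := by linarith
  have hD0 : (0 : ℝ) < Fintype.card C := by linarith
  have hB0 : (0 : ℝ) < Fintype.card Bl := by
    have : 0 < (θ : ℝ) * Fintype.card Bl := by rw [← hdbl]; positivity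
    exact pos_of_mul_pos_left (by rwa [mul_comm] at this) (by linarith) |> fun h => by
      nlinarith [h]
  have hcard : ∀ e : Bl × C, (edg pts e).card = θ + 1 := fun e => by rw [card_edg, h.card]
  have hlam : (lam : ℝ) ≤ 2 * θ * Fintype.card C / Fintype.card Pt := by
    rw [le_div_iff₀ hP0]; exact hl
  have hDP : 1 ≤ (Fintype.card C : ℝ) / Fintype.card Pt := by rw [le_div_iff₀ hP0]; linarith
  constructor
  · have : Nonempty Bl := Fintype.card_pos_iff.1 (by exact_mod_cast hB0)
    have : Nonempty C := Fintype.card_pos_iff.1 (by exact_mod_cast hD0)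
    infer_instance
  · exact hcard
  · show 2 ≤ θ + 1
    have := h.th2
    omega
  · show ((θ + 1 : ℕ) : ℝ) ≤ C0
    push_cast; linarith
  · show (1 : ℝ) ≤ Fintype.card C
    linarith
  · show (1 : ℝ) ≤ Fintype.card Pt
    linarith
  · exact hlg
  · show (0 : ℝ) < Fintype.card C * Fintype.card Pt
    positivity
  · intro v
    rw [cnt_eq_sum]; exact deg h v
  · intro U ε v hε hU
    refine (blk h U hε (fun p => hU (Sum.inl p)) (fun c => hU (Sum.inr c)) v).trans ?_
    show _ ≤ C0 * ε * (Fintype.card C : ℝ)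
    gcongr; linarith
  · intro v f
    show ∑ e, ind (v ∈ edg pts e) * ((tst pts f ∩ edg pts e).card : ℝ) ≤
      C0 * Fintype.card C * (ind (v ∈ tst pts f) +
        Sum.elim (fun _ => (Fintype.card C : ℝ)) (fun _ => (Fintype.card Pt : ℝ)) f
          / (Fintype.card C * Fintype.card Pt))
    have hs : 0 ≤ Sum.elim (fun _ => (Fintype.card C : ℝ)) (fun _ => (Fintype.card Pt : ℝ)) f
        / (Fintype.card C * Fintype.card Pt) := by
      rcases f with p | c <;> simp only [Sum.elim_inl, Sum.elim_inr] <;> positivity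
    have hC : 0 ≤ C0 * Fintype.card C := mul_nonneg (by linarith) hD0.le
    by_cases hv : v ∈ tst pts f
    · rw [ind_pos hv]
      calc ∑ e, ind (v ∈ edg pts e) * ((tst pts f ∩ edg pts e).card : ℝ)
          ≤ ∑ e, ind (v ∈ edg pts e) * C0 := by
            refine sum_le_sum fun e _ => mul_le_mul_of_nonneg_left ?_ (ind_nonneg _)
            have : ((tst pts f ∩ edg pts e).card : ℝ) ≤ (θ + 1 : ℕ) := by
              rw [← hcard e]; exact_mod_cast card_le_card inter_subset_right
            push_cast at this; linarith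
        _ = C0 * Fintype.card C := by rw [← sum_mul, deg h, mul_comm]
        _ ≤ _ := le_mul_of_one_le_right hC (by linarith)
    · rw [ind_neg hv, zero_add]
      rcases v with B | ⟨p, c⟩ <;> rcases f with p' | c'
      · rw [sum_inl]
        simp only [card_tst_inl_edg]
        rw [ind_neg (by simpa using hv), mul_zero, sum_const_zero]
        exact mul_nonneg hC hs
      · rw [sum_inl]
        simp only [card_tst_inr_edg, h.card, Sum.elim_inr]
        have e : ∑ c : C, ind (c = c') = 1 := by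
          rw [sum_eq_single c', ind_pos rfl]
          · intro b _ hb; exact ind_neg hb
          · simp
        rw [← mul_sum, e]
        field_simp
        linarith
      · rw [sum_inr]
        simp only [card_tst_inl_edg, Sum.elim_inl, mul_left_comm _ (2 : ℝ)]
        rw [← mul_sum, cod_sum h (by simpa using hv)]
        field_simp
        nlinarith
      · rw [sum_inr]
        simp only [card_tst_inr_edg]
        rw [ind_neg (P := c = c') (by simpa using hv)]
        simp only [mul_zero, sum_const_zero]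
        exact mul_nonneg hC hs
  · intro g ε hg hZ
    show ∑ v, g v ≤ ε * (Fintype.card C * Fintype.card Pt)
    calc ∑ v, g v ≤ ∑ v, ∑ p, ind (v ∈ tst (C := C) pts (Sum.inl p)) * g v := by
          refine sum_le_sum fun v _ => ?_
          have hp : ∃ p, v ∈ tst (C := C) pts (Sum.inl p) := by
            rcases v with B | ⟨p, c⟩
            · obtain ⟨p, hp⟩ := card_pos.1 (show 0 < (pts B).card by rw [h.card]; linarith [h.th2])
              exact ⟨p, by simpa using hp⟩
            · exact ⟨p, by simp⟩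
          obtain ⟨p, hp⟩ := hp
          refine le_trans (le_of_eq ?_) (single_le_sum
            (f := fun p => ind (v ∈ tst (C := C) pts (Sum.inl p)) * g v)
            (fun _ _ => mul_nonneg (ind_nonneg _) (hg v)) (mem_univ p))
          simp only [ind_pos hp, one_mul]
      _ ≤ ∑ _p : Pt, ε * Fintype.card C := by
          rw [sum_comm]
          refine sum_le_sum fun p _ => le_trans (le_of_eq ?_) (hZ (Sum.inl p))
          show _ = ∑ v ∈ tst pts (Sum.inl p), g v
          rw [← sum_subset (subset_univ (tst (C := C) pts (Sum.inl p)))]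
          · exact sum_congr rfl fun v hv => by rw [ind_pos hv, one_mul]
          · intro v _ hv; rw [ind_neg hv, zero_mul]
      _ = _ := by rw [sum_const, card_univ, nsmul_eq_mul]; ring
  · intro v v' hv
    show cnt (fun e => v ∈ edg pts e ∧ v' ∈ edg pts e) ≤ C0 * Fintype.card C / Fintype.card Pt
    have h1 : 1 ≤ C0 * Fintype.card C / Fintype.card Pt := by
      rw [mul_div_assoc]; nlinarith
    have mixed : ∀ (B : Bl) (p : Pt) (c : C),
        cnt (fun e => Sum.inl B ∈ edg pts e ∧ Sum.inr (p, c) ∈ edg pts e) ≤ 1 := fun B p c => by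
      refine (cnt_mono (Q := fun e => e ∈ ({(B, c)} : Finset (Bl × C))) ?_).trans
        (by rw [cnt_mem]; simp)
      rintro ⟨B', c'⟩ ⟨a, b⟩
      rw [show B = B' from inl_mem_edg.1 a, show c = c' from (inr_mem_edg.1 b).2]
      exact mem_singleton_self _
    rcases v with B | ⟨p, c⟩ <;> rcases v' with B' | ⟨p', c'⟩
    · rw [cnt_zero]
      · linarith
      · rintro e ⟨a, b⟩
        exact hv (by rw [inl_mem_edg.1 a, inl_mem_edg.1 b])
    · exact (mixed B p' c').trans h1
    · rw [cnt_congr fun _ => and_comm]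
      exact (mixed B' p c).trans h1
    · by_cases hc : c = c'
      · subst hc
        have hp : p ≠ p' := fun e => hv (by rw [e])
        rw [cnt_eq_sum]
        simp only [ind_and]
        rw [sum_inr]
        have e : ∀ B, ind (Sum.inr (p', c) ∈ edg pts (B, c)) = ind (p' ∈ pts B) :=
          fun B => ind_congr (by simp)
        simp only [e]
        rw [cod_sum h hp]
        refine hlam.trans ?_
        gcongr; linarith
      · rw [cnt_zero]
        · linarith
        · rintro e ⟨a, b⟩
          exact hc ((inr_mem_edg.1 a).2.trans (inr_mem_edg.1 b).2.symm)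
  · intro f
    show ((tst pts f).card : ℝ) ≤
      2 * Sum.elim (fun _ => (Fintype.card C : ℝ)) (fun _ => (Fintype.card Pt : ℝ)) f
    rw [← inter_univ (tst pts f)]
    rcases f with p | c
    · rw [card_tst_inl]
      simp only [mem_univ, and_true, cnt_true, h.deg, Sum.elim_inl]
      linarith
    · rw [card_tst_inr]
      simp only [mem_univ, cnt_true, Sum.elim_inr]
      linarith
  · rintro (p | c)
    · exact hD
    · exact le_rfl
  · refine le_trans ?_ hexp
    simp only [Fintype.card_sum, Fintype.card_prod]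
    push_cast; nlinarith
  · refine le_trans ?_ hexp
    simp only [Fintype.card_sum]
    push_cast; nlinarith
  · refine le_trans ?_ hexp
    show (Fintype.card C : ℝ) ≤ _
    nlinarith
  · refine le_trans ?_ hexp
    show (Fintype.card C : ℝ) * Fintype.card Pt ≤ _
    nlinarith

end Pool.Agent.P.MP_3b9ee7_co.Q
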