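import Pool.Agent.P.MP_3b9ee7_co.Q.Base

/-! Alternating sums: the polynomial identity and the difference relation. -/

namespace Pool.Agent.P.MP_3b9ee7_co.Q

open Finset Module

namespace DiffP

theorem poly_aux (m d : ℕ) (S : Finset (Fin m)) :
    ∃ c : Finset (Fin m) → ℤ, (∀ I, c I ≠ 0 → I.card < d) ∧
    ∀ (A : Type) [AddCommGroup A] (Γ : AddSubgroup A) (g : Finset (Fin m) → A),
      (∀ S T : Finset (Fin m), S.card = d → Disjoint S T →
        ∑ I ∈ S.powerset, (-1 : ℤ) ^ I.card • g (T ∪ I) ∈ Γ) →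
      g S - ∑ I, c I • g I ∈ Γ := by
  induction S using Finset.strongInduction with
  | H S ih =>
    by_cases hS : S.card < d
    · refine ⟨Pi.single S 1, fun I hI => ?_, fun A _ Γ g _ => ?_⟩
      · by_cases h : I = S
        · exact h ▸ hS
        · simp [h] at hI
      · rw [sum_eq_single S]
        · simp
        · intro b _ hb; simp [hb]
        · simp
    · obtain ⟨S0, hS0, hc⟩ := exists_subset_card_eq (not_lt.1 hS)
      choose! c' hc1 hc2 using ih
      have hss : ∀ I ∈ S0.powerset.erase S0, S \ S0 ∪ I ⊂ S := by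
        intro I hI
        obtain ⟨h1, h2⟩ := mem_erase.1 hI
        have h3 := mem_powerset.1 h2
        obtain ⟨x, hx, hxI⟩ := exists_of_ssubset (lt_of_le_of_ne h3 h1 : I ⊂ S0)
        refine Finset.ssubset_iff_subset_ne.2 ⟨union_subset sdiff_subset (h3.trans hS0), fun h => ?_⟩
        have : x ∈ S \ S0 ∪ I := by rw [h]; exact hS0 hx
        simp [hx, hxI] at this
      refine ⟨fun J => -((-1) ^ d * ∑ I ∈ S0.powerset.erase S0, (-1) ^ I.card * c' (S \ S0 ∪ I) J),
        fun J hJ => ?_, fun A _ Γ g hg => ?_⟩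
      · obtain ⟨I, hI, h⟩ := exists_ne_zero_of_sum_ne_zero
          (right_ne_zero_of_mul (neg_ne_zero.1 hJ))
        exact hc1 _ (hss I hI) J (right_ne_zero_of_mul h)
      · have h1 := hg S0 (S \ S0) hc disjoint_sdiff
        rw [← add_sum_erase _ _ (mem_powerset_self S0), sdiff_union_of_subset hS0, hc] at h1
        have h2 : ∑ I ∈ S0.powerset.erase S0, (-1 : ℤ) ^ I.card •
            (g (S \ S0 ∪ I) - ∑ J, c' (S \ S0 ∪ I) J • g J) ∈ Γ :=
          sum_mem fun I hI => zsmul_mem (hc2 _ (hss I hI) A Γ g hg) _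
        have h3 := zsmul_mem (sub_mem h1 h2) ((-1 : ℤ) ^ d)
        have e1 : (-1 : ℤ) ^ d * (-1) ^ d = 1 := by rw [← mul_pow]; simp
        have e2 : ∑ J, (-((-1 : ℤ) ^ d * ∑ I ∈ S0.powerset.erase S0,
            (-1) ^ I.card * c' (S \ S0 ∪ I) J)) • g J = -((-1 : ℤ) ^ d •
              ∑ I ∈ S0.powerset.erase S0, (-1 : ℤ) ^ I.card • ∑ J, c' (S \ S0 ∪ I) J • g J) := by
          simp only [neg_smul, sum_neg_distrib, mul_smul, sum_smul, ← smul_sum]
          rw [sum_comm]
          simp only [← smul_sum]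
        convert h3 using 1
        rw [e2]
        simp only [smul_sub, sum_sub_distrib, smul_add, smul_smul, e1, one_smul]
        abel

variable {K V : Type} [Field K] [AddCommGroup V] [Module K V]

theorem exists_sub (P0 : Submodule K V) (k : ℕ) (h : k ≤ finrank K P0) :
    ∃ B : Sub K V k, B.W ≤ P0 := by
  obtain ⟨f, hf⟩ := exists_linearIndependent_of_le_finrank h
  have hf' := hf.map' P0.subtype (Submodule.ker_subtype _)
  refine ⟨⟨Submodule.span K (Set.range (P0.subtype ∘ f)), ?_⟩, ?_⟩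
  · rw [finrank_span_eq_card hf', Fintype.card_fin]
  · rw [Submodule.span_le]
    rintro _ ⟨i, rfl⟩
    exact (f i).2

theorem exists_fun (a p : Sub K V 1) (h : p ≠ a) :
    ∃ l : V →ₗ[K] K, l (rep p) = 0 ∧ l (rep a) = 1 := by
  have hv : rep a ∉ p.W := fun hv => h (pnt_eq_of_mem (rep_ne a) hv (rep_mem a))
  obtain ⟨g, h1, h2⟩ := LinearMap.exists_extend_of_notMem (0 : p.W →ₗ[K] K) hv 1
  exact ⟨g, LinearMap.congr_fun h1 ⟨rep p, rep_mem p⟩, h2⟩

theorem exists_fun0 (a : Sub K V 1) : ∃ l : V →ₗ[K] K, l (rep a) = 1 := by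
  have hv : rep a ∉ (⊥ : Submodule K V) := fun hv => rep_ne a ((Submodule.mem_bot K).1 hv)
  obtain ⟨g, -, h2⟩ := LinearMap.exists_extend_of_notMem (0 : (⊥ : Submodule K V) →ₗ[K] K) hv 1
  exact ⟨g, h2⟩

end DiffP

theorem poly : S_Poly := fun m d _ => DiffP.poly_aux m d univ

theorem diff (h : S_Rel1) (h' : S_PCnt) : S_Diff := by
  intro K V ι _ _ _ _ _ k P0 U w u S hk hP0 hU hw hu hS
  classical
  obtain ⟨B0, -⟩ := DiffP.exists_sub P0 k (by omega)
  have hc : (gpts B0).card = S.card + 1 := by rw [gpts, h' K V B0.W, B0.h, hS]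
  obtain ⟨a0, ha0⟩ : (gpts B0).Nonempty := card_pos.1 (by omega)
  have hc' : S.card = ((gpts B0).erase a0).card := by rw [card_erase_of_mem ha0]; omega
  let e := Finset.equivOfCardEq hc'
  obtain ⟨l0, hl0⟩ := DiffP.exists_fun0 a0
  choose! f hf1 hf2 using DiffP.exists_fun a0
  let l : ι → V →ₗ[K] K := fun s => if hs : s ∈ S then f (e ⟨s, hs⟩) else 0
  have hl1 : ∀ s ∈ S, l s (rep a0) = 1 := by
    intro s hs
    simp only [l, dif_pos hs]
    exact hf2 _ (mem_erase.1 (e ⟨s, hs⟩).2).1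
  have hl2 : ∀ p ∈ (gpts B0).erase a0, ∃ s ∈ S, l s (rep p) = 0 := by
    intro p hp
    refine ⟨e.symm ⟨p, hp⟩, (e.symm ⟨p, hp⟩).2, ?_⟩
    simp only [l, dif_pos (e.symm ⟨p, hp⟩).2, Subtype.coe_eta, Equiv.apply_symm_apply]
    exact hf1 _ (mem_erase.1 hp).1
  let φ : Finset ι → V →ₗ[K] V := fun I => l0.smulRight w + ∑ s ∈ I, (l s).smulRight (u s)
  have hφ : ∀ I v, φ I v = l0 v • w + ∑ s ∈ I, l s v • u s := by
    intro I v
    simp only [φ, LinearMap.add_apply, LinearMap.smulRight_apply, LinearMap.coe_sum,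
      Finset.sum_apply]
  have h1 : ∀ I, ∑ p ∈ gpts B0, ptv P0 (φ I (rep p)) ∈ GamU k U := by
    intro I
    refine GamU_mono (sup_le ?_ hU) (h K V k P0 B0 (φ I) hk hP0)
    rintro _ ⟨v, -, rfl⟩
    rw [hφ]
    exact add_mem (U.smul_mem _ hw) (sum_mem fun s _ => U.smul_mem _ (hu s))
  have h2 : ∑ I ∈ S.powerset, (-1 : ℤ) ^ I.card • ∑ p ∈ gpts B0, ptv P0 (φ I (rep p))
      ∈ GamU k U := sum_mem fun I _ => zsmul_mem (h1 I) _
  simp only [smul_sum] at h2
  rw [sum_comm, ← add_sum_erase _ _ ha0, sum_eq_zero (s := (gpts B0).erase a0), add_zero] at h2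
  · convert h2 using 1
    refine sum_congr rfl fun I hI => ?_
    rw [hφ, hl0, one_smul]
    congr 3
    exact sum_congr rfl fun s hs => by rw [hl1 s (mem_powerset.1 hI hs), one_smul]
  · intro p hp
    obtain ⟨s, hs, h0⟩ := hl2 p hp
    rw [← insert_erase hs, sum_powerset_insert (notMem_erase s S), ← sum_add_distrib]
    refine sum_eq_zero fun I hI => ?_
    have hsI : s ∉ I := fun h => notMem_erase s S (mem_powerset.1 hI h)
    rw [card_insert_of_notMem hsI, hφ (insert s I), sum_insert hsI, h0, zero_smul, zero_add, ← hφ,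
      pow_succ, mul_neg_one, neg_smul, add_neg_cancel]

end Pool.Agent.P.MP_3b9ee7_co.Q
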