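import Pool.Agent.P.MP_3b9ee7_co.Q.Base

/-! Greedy embedding, greedy choice of edges, covering a leftover. -/

namespace Pool.Agent.P.MP_3b9ee7_co.Q

open Finset
open Pool.Agent.P.MP_77d020_co.L (ind fs cnt ind_nonneg mem_fs sum_fs cnt_le_add greedy)

namespace EmbP

variable {V E T I : Type} [Fintype V] [Fintype E] [Fintype T] [DecidableEq V] {H : HS V E T}

/-- The budget of the greedy process. -/
theorem budget (hH : H.Ok) {Is : Finset I} {old : I → Finset V} {ε : ℝ} (hl : H.lg ≤ ε * H.m)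
    (hne : ∀ i ∈ Is, (old i).Nonempty) (hL : H.Ld Is old ε) (f : T) :
    1.45 * (∑ i ∈ Is, (((H.Z f ∩ old i).card : ℝ) + H.s f / H.Tot) + H.lg) ≤ 5 * ε * H.s f := by
  have e0 := hH.pos hl
  have s1 := hH.s1 f
  have t0 := hH.T0
  have h1 : (Is.card : ℝ) ≤ ε * H.Tot := by
    refine le_trans ?_ (hL.total hH)
    have := card_nsmul_le_sum Is (fun i => ((old i).card : ℝ)) 1 fun i hi => by
      exact_mod_cast (hne i hi).card_pos
    simpa using this
  have h2 : (Is.card : ℝ) * (H.s f / H.Tot) ≤ ε * H.s f := by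
    calc _ ≤ ε * H.Tot * (H.s f / H.Tot) := by gcongr
      _ = _ := by field_simp
  have h3 : ε * H.m ≤ ε * H.s f := by gcongr; exact hH.sm f
  have h4 := hL f
  rw [sum_add_distrib, sum_const, nsmul_eq_mul]
  nlinarith [mul_pos e0 (zero_lt_one.trans_le s1)]

omit [Fintype V] [Fintype E] [Fintype T] in
theorem unit {W : Finset V} {β : ℝ} (hβ : 0 < β) (h : (W.card : ℝ) ≤ β) (f : T) :
    0 ≤ ((H.Z f ∩ W).card : ℝ) / β ∧ ((H.Z f ∩ W).card : ℝ) / β ≤ 1 := by
  refine ⟨by positivity, (div_le_one hβ).2 (le_trans ?_ h)⟩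
  exact_mod_cast card_le_card inter_subset_right

omit [Fintype V] [Fintype E] [Fintype T] in
theorem single (v : V) (f : T) : ((H.Z f ∩ {v}).card : ℝ) = ind (v ∈ H.Z f) := by
  rw [inter_comm, card_inter_eq_sum, sum_singleton]

end EmbP

open EmbP

theorem emb : S_Emb := by
  intro V E T I O _ _ _ _ H Is val new old U0 τ β ε0 ε hH hO hβ hl hU hτ hne hL hc hop
  classical
  obtain ⟨ch, h1, h2, h3⟩ := greedy I (ℕ × O) T Is univ
    (fun i o f => ((H.Z f ∩ new i o.2).card : ℝ) / β)
    (fun i f => ((H.Z f ∩ old i).card : ℝ) + H.s f / H.Tot) (fun f => 5 * ε * H.s f) H.lg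
    (fun i o => val i o.2 ∧ Disjoint (new i o.2) U0)
    (fun i o j o' => Disjoint (new i o.2) (new j o'.2)) inferInstance
    (fun i hi o ho f _ => unit hβ (hc i hi o.2 ho.1) f)
    (fun i _ f _ => by have := hH.s1 f; have := hH.T0; positivity) (by simpa using hH.cT)
    (fun f _ => budget hH hl hne hL f) (by
      intro t _ i hi _ ch _ _ hb
      have hld : H.Ld t (fun j => new j (ch j).2) (5 * β * ε) := fun f => by
        have := hb f (mem_univ f)
        rw [← sum_div, div_le_iff₀ hβ] at this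
        linarith
      obtain ⟨J, Js, op, hJ, hv, hs⟩ := hop i hi _ ((hU.union hld.sp).mono hH hτ)
      have inj : Function.Injective fun j : Js => ((Js.equivFin j : ℕ), op j) := fun a b h =>
        Js.equivFin.injective (Fin.ext (congrArg Prod.fst h))
      refine ⟨univ.map ⟨_, inj⟩, ?_, ?_, fun f _ => ?_⟩
      · obtain ⟨j, hj⟩ := hJ
        exact ⟨_, mem_map_of_mem _ (mem_univ ⟨j, hj⟩)⟩
      · intro o ho
        obtain ⟨j, -, rfl⟩ := mem_map.1 ho
        obtain ⟨a, b⟩ := hv j j.2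
        rw [disjoint_union_right, disjoint_biUnion_right] at b
        exact ⟨⟨a, b.1⟩, fun k hk => ⟨b.2 k hk, (b.2 k hk).symm⟩⟩
      · rw [sum_map, card_map, card_univ, Fintype.card_coe]
        simp only [Function.Embedding.coeFn_mk]
        rw [sum_coe_sort Js (fun j => ((H.Z f ∩ new i (op j)).card : ℝ) / β), ← sum_div,
          div_le_iff₀ hβ]
        linarith [hs f])
  refine ⟨fun i => (ch i).2, h1, h2, fun f => ?_⟩
  have := h3 f (mem_univ f)
  rw [← sum_div, div_le_iff₀ hβ] at this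
  linarith

theorem chs : S_Ch := by
  intro V E T I _ _ _ _ H Is vx ε hH hl hL
  have hC : 0 < H.C0 := by linarith [hH.C2]
  obtain ⟨ch, h1, -, h3⟩ := greedy I E T Is univ
    (fun _ e f => ((H.Z f ∩ H.ed e).card : ℝ) / H.C0)
    (fun i f => ((H.Z f ∩ {vx i}).card : ℝ) + H.s f / H.Tot) (fun f => 5 * ε * H.s f) H.lg
    (fun i e => vx i ∈ H.ed e) (fun _ _ _ _ => True) hH.neE
    (fun i _ e _ f _ => unit hC (by rw [hH.card]; exact hH.rC) f)
    (fun i _ f _ => by have := hH.s1 f; have := hH.T0; positivity) (by simpa using hH.cT)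
    (fun f _ => budget hH hl (fun i _ => singleton_nonempty _) hL f) (by
      intro t _ i _ _ ch _ _ _
      have hd : ((fs fun e => vx i ∈ H.ed e).card : ℝ) = H.D := hH.deg (vx i)
      refine ⟨fs fun e => vx i ∈ H.ed e, ?_, fun e he =>
        ⟨(mem_fs (x := e)).1 he, fun _ _ => ⟨trivial, trivial⟩⟩, fun f _ => ?_⟩
      · rw [← card_pos, ← Nat.cast_pos (α := ℝ), hd]
        linarith [hH.D1]
      · rw [← sum_div, div_le_iff₀ hC, sum_fs, hd, single]
        linarith [hH.spr (vx i) f])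
  refine ⟨ch, h1, fun f => ?_⟩
  have := h3 f (mem_univ f)
  rw [← sum_div, div_le_iff₀ hC] at this
  linarith

theorem cover (h : S_Emb) : S_Cover := by
  intro V E T _ _ _ _ H X Lf κ γ hH hκ hκ1 hl hγ hd hL hX
  have hC : 0 < H.C0 := by linarith [hH.C2]
  have hD : 0 < H.D := by linarith [hH.D1]
  obtain ⟨ch, h1, h2, -⟩ := h V E T V E H Lf (fun v e => v ∈ H.ed e ∧ (H.ed e).erase v ⊆ X)
    (fun v e => (H.ed e).erase v) (fun v => {v}) ∅ (κ / (2 * H.C0)) (2 * H.C0 / κ) 0 γ hH hH.neE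
    (by positivity) hl (fun f => by simp) (by
      rw [zero_add, le_div_iff₀ (by positivity)]
      calc _ = 20 * H.C0 ^ 2 * γ / κ := by field_simp; ring
        _ ≤ κ ^ 2 / κ := by gcongr
        _ = κ := by field_simp)
    (fun v _ => singleton_nonempty v) hL.ld (fun v _ e _ => by
      have a : (((H.ed e).erase v).card : ℝ) ≤ H.r := by
        rw [← hH.card e]; exact_mod_cast card_erase_le
      have b := hH.rC
      rw [le_div_iff₀ hκ]
      nlinarith [Nat.cast_nonneg (α := ℝ) ((H.ed e).erase v).card]) (by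
      intro v _ U hU
      have b := hH.blk U _ v (by positivity) hU
      have c := cnt_le_add (P := fun e => v ∈ H.ed e ∧ (H.ed e).erase v ⊆ X)
        (Q := fun e => (v ∈ H.ed e ∧ (H.ed e).erase v ⊆ X) ∧ Disjoint ((H.ed e).erase v) U)
        (R := fun e => v ∈ H.ed e ∧ ¬ Disjoint ((H.ed e).erase v) U) fun e he => by
          by_cases hh : Disjoint ((H.ed e).erase v) U
          · exact .inl ⟨he, hh⟩
          · exact .inr ⟨he.1, hh⟩
      have e1 : H.C0 * (κ / (2 * H.C0)) * H.D = κ * H.D / 2 := by field_simp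
      set Js := fs fun e => (v ∈ H.ed e ∧ (H.ed e).erase v ⊆ X) ∧ Disjoint ((H.ed e).erase v) U
      have hJ : κ * H.D / 2 ≤ (Js.card : ℝ) := by
        have : cnt (fun e => (v ∈ H.ed e ∧ (H.ed e).erase v ⊆ X) ∧
          Disjoint ((H.ed e).erase v) U) = Js.card := rfl
        linarith [hX v]
      refine ⟨E, Js, id, ?_, fun e he => (mem_fs (x := e)).1 he, fun f => ?_⟩
      · rw [← card_pos, ← Nat.cast_pos (α := ℝ)]
        have := mul_pos hκ hD
        linarith
      · have s1 := hH.s1 f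
        have t0 := hH.T0
        have i0 := ind_nonneg (v ∈ H.Z f)
        calc _ ≤ ∑ e ∈ Js, ((H.Z f ∩ H.ed e).card : ℝ) := sum_le_sum fun e _ => by
              exact_mod_cast card_le_card (inter_subset_inter_left (erase_subset _ _))
          _ ≤ ∑ e ∈ fs (fun e => v ∈ H.ed e), ((H.Z f ∩ H.ed e).card : ℝ) :=
              sum_le_sum_of_subset_of_nonneg (fun e he => mem_fs.2 (mem_fs.1 he).1.1)
                fun _ _ _ => Nat.cast_nonneg _
          _ ≤ H.C0 * H.D * (ind (v ∈ H.Z f) + H.s f / H.Tot) := by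
              rw [sum_fs]; exact hH.spr v f
          _ = κ * H.D / 2 * (2 * H.C0 / κ * (ind (v ∈ H.Z f) + H.s f / H.Tot)) := by
              field_simp
          _ ≤ _ := by rw [single]; gcongr)
  refine ⟨Lf.biUnion fun v => (H.ed (ch v)).erase v, biUnion_subset.2 fun v hv => (h1 v hv).1.2,
    PM.family Lf ch _ (fun v hv w hw hne => ?_) fun x => ?_⟩
  · rw [disjoint_left]
    intro x hx hx'
    by_cases a : x = v
    · subst a
      exact disjoint_left.1 hd hv ((h1 w hw).1.2 (mem_erase.2 ⟨hne, hx'⟩))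
    · by_cases b : x = w
      · subst b
        exact disjoint_left.1 hd hw ((h1 v hv).1.2 (mem_erase.2 ⟨a, hx⟩))
      · exact disjoint_left.1 (h2 v hv w hw hne) (mem_erase.2 ⟨a, hx⟩) (mem_erase.2 ⟨b, hx'⟩)
  · rw [mem_union, mem_biUnion]
    constructor
    · rintro (hx | ⟨v, hv, hx⟩)
      · exact ⟨x, hx, (h1 x hx).1.1⟩
      · exact ⟨v, hv, mem_of_mem_erase hx⟩
    · rintro ⟨v, hv, hx⟩
      by_cases a : x = v
      · exact .inl (a ▸ hv)
      · exact .inr ⟨v, hv, mem_erase.2 ⟨a, hx⟩⟩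

end Pool.Agent.P.MP_3b9ee7_co.Q

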