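import Pool.Agent.P.MP_3b9ee7_co.Q.MainA

/-! The parallelism of subspaces from the main theorem. -/

namespace Pool.Agent.P.MP_3b9ee7_co.Q

open Finset Module
open Pool.Agent.P.MP_77d020_co.L (ind fs cnt cnt_congr)

namespace FinalP

theorem gfam_mono {Pt Bl : Type} [Fintype Pt] {pts : Bl → Finset Pt} {D c c' : ℝ} {B0 : Bl}
    {ob : Option Bl} (h : GFam pts D c B0 ob) (hc : c ≤ c') : GFam pts D c' B0 ob := by
  obtain ⟨I, J, hI, i0, Ω, g, h1, h2, h3, h4⟩ := h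
  refine ⟨I, J, hI, i0, Ω, g, h1, h2, fun y => (h3 y).trans ?_,
    fun Ub τ h0 h5 => (h4 Ub τ h0 h5).trans ?_⟩ <;> gcongr

theorem growth (A : ℝ) (hA : 0 < A) (b : ℕ) :
    ∃ n1 : ℕ, ∀ n ≥ n1, (A * (n + 1 : ℕ)) ^ b ≤ 2 ^ n := by
  have h := tendsto_pow_const_div_const_pow_of_one_lt b (r := 2) one_lt_two
  have h1 : (0 : ℝ) < 1 / (2 * A ^ b) := by positivity
  obtain ⟨n1, hn⟩ := Filter.eventually_atTop.1 (h.eventually (gt_mem_nhds h1))
  refine ⟨n1, fun n h2 => ?_⟩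
  have h3 := (hn (n + 1) (by omega)).le
  rw [div_le_div_iff₀ (by positivity) (by positivity), pow_succ] at h3
  rw [mul_pow]
  nlinarith

theorem extract {Pt Bl C : Type} [Fintype Pt] [Fintype Bl] [Fintype C] [DecidableEq Pt]
    [DecidableEq Bl] [DecidableEq C] {pts : Bl → Finset Pt} (h : PM (edg (C := C) pts) univ) :
    ∃ col : Bl → C, ∀ p c, ∃! B, p ∈ pts B ∧ col B = c := by
  obtain ⟨M, hM⟩ := h.exists_unique
  have h1 : ∀ B : Bl, ∃ c : C, M (B, c) ∧ ∀ c', M (B, c') → c' = c := fun B => by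
    obtain ⟨⟨B', c⟩, ⟨h2, h3⟩, h4⟩ := hM (Sum.inl B) (mem_univ _)
    obtain rfl : B = B' := inl_mem_edg.1 h3
    exact ⟨c, h2, fun c' h5 => congrArg Prod.snd (h4 (B, c') ⟨h5, inl_mem_edg.2 rfl⟩)⟩
  choose col h2 h3 using h1
  refine ⟨col, fun p c => ?_⟩
  obtain ⟨⟨B, c'⟩, ⟨h4, h5⟩, h6⟩ := hM (Sum.inr (p, c)) (mem_univ _)
  obtain ⟨h7, h8⟩ := inr_mem_edg.1 h5
  obtain rfl : c = c' := h8
  refine ⟨B, ⟨h7, (h3 B c h4).symm⟩, fun B' h9 => ?_⟩
  exact congrArg Prod.fst (h6 (B', c) ⟨h9.2 ▸ h2 B', inr_mem_edg.2 ⟨h9.1, rfl⟩⟩)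

end FinalP

open FinalP MainP in
theorem final (hMain : S_Main) (hDes : S_DesMk) (hAvg : S_GenAvg) (hTwo : S_Two) (hP : S_PCnt)
    (hBc : S_BCnt) (hDec : S_GDec) (hSpr : S_Spr) (hRel : S_Rel2) (hGrid : S_GridB) :
    S_Final := by
  intro K _ _ t ht
  obtain ⟨cd, hDec⟩ := hDec K (t + 1) (by omega)
  obtain ⟨cr, hcr, hRel⟩ := hRel K (t + 1) (by omega)
  obtain ⟨cg, ng, hGrid⟩ := hGrid K t (by omega)
  obtain ⟨q, hq⟩ : ∃ q, q = Fintype.card K := ⟨_, rfl⟩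
  have q2 : 2 ≤ q := hq ▸ Fintype.one_lt_card
  have q2' : (2 : ℝ) ≤ q := by exact_mod_cast q2
  obtain ⟨θ, hθ⟩ : ∃ θ, θ = th q (t + 1) := ⟨_, rfl⟩
  have θ2 : 2 ≤ θ := by
    have h1 := pow_le_th q t
    have h2 : q ≤ q ^ t := Nat.le_self_pow (by omega) q
    omega
  obtain ⟨c, c1, c2, c3, c4, c5⟩ : ∃ c : ℝ, cd ≤ c ∧ 2 * θ * cr ≤ c ∧ cr * q ≤ c ∧ cg ≤ c ∧
      2 ^ (t + 1) * (q : ℝ) ^ ((t + 1) * (t + 1)) ≤ c :=
    ⟨max (max (max cd (2 * θ * cr)) (max (cr * q) cg))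
      (2 ^ (t + 1) * (q : ℝ) ^ ((t + 1) * (t + 1))), by simp, by simp, by simp, by simp, by simp⟩
  obtain ⟨b, lg0, hMain⟩ := hMain θ c
  obtain ⟨A, hA⟩ : ∃ A : ℝ, A = q * (t + 1) + 1 := ⟨_, rfl⟩
  have A1 : 1 ≤ A := by rw [hA]; exact le_add_of_nonneg_left (by positivity)
  obtain ⟨n1, hn1⟩ := growth A (by linarith) b
  refine ⟨n1 + ng + ⌈lg0⌉₊ + t + 3, fun V _ _ _ hn hdv => ?_⟩
  obtain ⟨n, hnd⟩ : ∃ n, finrank K V = n + 1 := ⟨finrank K V - 1, by omega⟩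
  have hth : ∀ B : Sub K V (t + 1), (gpts B).card = θ := fun B => by
    rw [gpts, hP, B.h, hθ, hq]
  have hPt : Fintype.card (Sub K V 1) = th q (n + 1) := by
    have h1 := hP K V ⊤
    rw [finrank_top, hnd, ← hq] at h1
    rw [← h1, ← card_univ]
    congr 1
    ext p; simp
  have P1 : q ^ n ≤ Fintype.card (Sub K V 1) := hPt ▸ pow_le_th q n
  have P2 : Fintype.card (Sub K V 1) ≤ q ^ (n + 1) := hPt ▸ th_le_pow q2 _
  have P3 : 2 * θ ≤ Fintype.card (Sub K V 1) := by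
    have h1 : θ ≤ q ^ (t + 1) := hθ ▸ th_le_pow q2 _
    have h2 : q ^ (t + 2) ≤ q ^ n := Nat.pow_le_pow_right (by omega) (by omega)
    rw [pow_succ] at h2
    nlinarith
  obtain ⟨D, lam, hD⟩ := hDes _ _ gpts θ (hTwo K V (t + 1)) hth θ2 P3
  obtain ⟨h, G, Co, hh, hrel⟩ := hRel V (by omega)
  obtain ⟨p0⟩ : Nonempty (Sub K V 1) := Fintype.card_pos_iff.1 (by omega)
  obtain ⟨P, hPd⟩ : ∃ P : ℝ, P = Fintype.card (Sub K V 1) := ⟨_, rfl⟩
  have P1' : (q : ℝ) ^ n ≤ P := by rw [hPd]; exact_mod_cast P1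
  have P2' : P ≤ (q : ℝ) ^ (n + 1) := by rw [hPd]; exact_mod_cast P2
  have Q1 : (1 : ℝ) ≤ (q : ℝ) ^ n := one_le_pow₀ (by linarith)
  have D1 : (D : ℝ) ≤ ((q : ℝ) ^ (n + 1)) ^ t := by
    have h1 := (hBc K V t).2.2 p0
    rwa [cnt_congr (Q := fun B => p0 ∈ gpts B) (fun B => mem_gpts.symm), hD.deg, hnd, ← hq] at h1
  have D0 : (0 : ℝ) ≤ D := Nat.cast_nonneg _
  have hD' : Des (gpts (K := K) (V := V) (k := t + 1)) θ (Fintype.card (Fin D)) lam := by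
    rwa [Fintype.card_fin]
  have hgr := hGrid V D (by omega) (by rw [hnd, ← hq]; exact D1)
  have pm := hMain _ _ (Fin D) gpts lam (A * (n + 1 : ℕ)) h hD'
    (by
      have h1 : (⌈lg0⌉₊ : ℝ) ≤ (n + 1 : ℕ) := by exact_mod_cast (by omega : ⌈lg0⌉₊ ≤ n + 1)
      have h2 := Nat.le_ceil lg0
      have h3 : (0 : ℝ) ≤ (n + 1 : ℕ) := Nat.cast_nonneg _
      nlinarith)
    (by
      rw [← hPd]
      exact (hn1 n (by omega)).trans ((pow_le_pow_left₀ (by norm_num) q2' n).trans P1'))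
    (by
      rw [← hPd, Fintype.card_fin]
      have h1 : (q : ℝ) ≤ Real.exp q := by linarith [Real.add_one_le_exp (q : ℝ)]
      have h2 : (2 : ℝ) ≤ Real.exp (n + 1 : ℕ) := by
        have := Real.add_one_le_exp ((n + 1 : ℕ) : ℝ)
        have h3 : (1 : ℝ) ≤ (n + 1 : ℕ) := by exact_mod_cast (by omega : 1 ≤ n + 1)
        linarith
      calc 2 * (D : ℝ) * P ≤ 2 * ((q : ℝ) ^ (n + 1)) ^ t * (q : ℝ) ^ (n + 1) := by
            gcongr
            linarith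
        _ = 2 * (q : ℝ) ^ ((n + 1) * (t + 1)) := by ring
        _ ≤ Real.exp (n + 1 : ℕ) * Real.exp q ^ ((n + 1) * (t + 1)) := by gcongr
        _ = Real.exp (A * (n + 1 : ℕ)) := by
            rw [← Real.exp_nat_mul, ← Real.exp_add, hA]
            congr 1
            push_cast
            ring)
    (by
      rw [← hPd, Fintype.card_fin]
      have h1 := (hBc K V (t + 1)).2.1 (by omega)
      rw [hnd, ← hq] at h1
      have h2 : (D : ℝ) * P = θ * Fintype.card (Sub K V (t + 1)) := by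
        rw [hPd]; exact_mod_cast hD.dbl
      have h3 : (Fintype.card (Sub K V (t + 1)) : ℝ) ≤ D * P := by
        have h4 : (1 : ℝ) ≤ θ := by exact_mod_cast (by omega : 1 ≤ θ)
        have h5 : (0 : ℝ) ≤ Fintype.card (Sub K V (t + 1)) := Nat.cast_nonneg _
        nlinarith
      have Pp : 0 < P := by linarith
      have c0 : 0 ≤ c := le_trans (by positivity) c5
      have h6 : P ^ 3 ≤ c * (D * P) :=
        calc P ^ 3 ≤ ((q : ℝ) ^ (n + 1)) ^ 3 := by gcongr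
          _ ≤ ((q : ℝ) ^ (n + 1)) ^ (t + 1) := pow_le_pow_right₀ (by linarith) (by omega)
          _ ≤ _ := h1
          _ ≤ c * (D * P) := by gcongr
      refine le_of_mul_le_mul_right ?_ Pp
      calc P ^ 2 * P = P ^ 3 := by ring
        _ ≤ c * D * P := by linarith)
    (by
      rw [← hPd]
      rw [hnd, ← hq, pow_succ (q : ℝ)] at hh
      calc h ^ 2 ≤ cr * q * (q : ℝ) ^ n := by linarith
        _ ≤ c * P := by
            have c0 : 0 ≤ c := le_trans (by positivity) c5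
            gcongr)
    (gen_mono (hAvg _ _ gpts θ cr h G Co (hTwo K V (t + 1)) hth (by omega) hcr (by omega) hrel) c2)
    (dec_mono (hDec V (by omega)) c1)
    (by
      rw [Fintype.card_fin]
      exact ⟨fun B0 => gfam_mono (hgr.1 B0) c4, fun B0 B1 h1 => gfam_mono (hgr.2 B0 B1 h1) c4⟩)
    (hSpr K V (t + 1) (by omega) hdv)
  obtain ⟨col, hcol⟩ := extract pm
  exact ⟨Fin D, col, fun p c => by simpa only [mem_gpts] using hcol p c⟩

end Pool.Agent.P.MP_3b9ee7_co.Q
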