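import Pool.Agent.P.MP_3b9ee7_co.Q.Base

/-! The local decoder and spreads. -/

namespace Pool.Agent.P.MP_3b9ee7_co.Q

open Finset Module
open Pool.Agent.P.MP_77d020_co.L (ind fs cnt ind_pos ind_neg ind_nonneg ind_le_one mem_fs
  card_filter_eq_sum_ind cnt_eq_sum)

namespace GDecP

theorem ex_ext (K : Type) [Field K] [Fintype K] (n : ℕ) (hn : 1 ≤ n) :
    ∃ (F : Type) (_ : Field F) (_ : Algebra K F), Finite F ∧ finrank K F = n := by
  obtain ⟨p, hp⟩ := CharP.exists K
  have : Fact p.Prime := ⟨CharP.char_is_prime K p⟩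
  have : NeZero n := ⟨by omega⟩
  exact ⟨FiniteField.Extension K p n, inferInstance, inferInstance, inferInstance,
    FiniteField.finrank_extension K p n⟩

variable {K V : Type} [Field K] [Fintype K] [AddCommGroup V] [Module K V] [Finite V]

theorem ex_P {k : ℕ} (hk : k < finrank K V) :
    ∃ P : Sub K V 1 → Submodule K V, (∀ p, finrank K (P p) = k + 1) ∧ (∀ p, p.W ≤ P p) ∧
      ∀ y : Sub K V 1, (fs fun p => y.W ≤ P p).card ≤ Fintype.card K ^ (k + 1) := by
  classical
  obtain ⟨F, _, _, _, hF⟩ := ex_ext K (finrank K V) (by omega)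
  let e : F ≃ₗ[K] V := LinearEquiv.ofFinrankEq F V hF
  obtain ⟨b, hb⟩ := exists_linearIndependent_of_le_finrank (R := K) (M := F) (n := k + 1)
    (by omega)
  let P1 : Submodule K F := Submodule.span K (Set.range b)
  have hP1 : finrank K P1 = k + 1 := by
    rw [finrank_span_eq_card hb, Fintype.card_fin]
  have ha : b 0 ≠ 0 := hb.ne_zero 0
  have haP : b 0 ∈ P1 := Submodule.subset_span ⟨0, rfl⟩
  have hx : ∀ p : Sub K V 1, e.symm (rep p) ≠ 0 := fun p h => rep_ne p (by simpa using h)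
  let L : Sub K V 1 → F →ₗ[K] V := fun p =>
    e.toLinearMap ∘ₗ LinearMap.mulLeft K (e.symm (rep p) / b 0)
  have hL : ∀ p, Function.Injective (L p) := fun p u v h =>
    mul_left_cancel₀ (div_ne_zero (hx p) ha) (e.injective h)
  refine ⟨fun p => P1.map (L p), fun p => ?_, fun p => ?_, fun y => ?_⟩
  · rw [← hP1]
    exact (Submodule.equivMapOfInjective (L p) (hL p) P1).finrank_eq.symm
  · refine le_iff_rep.2 ⟨b 0, haP, ?_⟩
    simp [L, div_mul_cancel₀ _ ha]
  · have : Fintype F := Fintype.ofFinite F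
    have hc : (univ.filter fun v : F => v ∈ P1).card = Fintype.card K ^ (k + 1) := by
      rw [← hP1, ← Module.card_eq_pow_finrank (K := K) (V := P1), Fintype.card_subtype]
    rw [← hc]
    refine card_le_card_of_injOn (fun p => e.symm (rep y) / (e.symm (rep p) / b 0)) ?_ ?_
    · intro p hp
      rw [mem_coe, mem_fs] at hp
      have hp' : y.W ≤ P1.map (L p) := hp
      obtain ⟨u, hu, e1⟩ := le_iff_rep.1 hp'
      have e2 : e.symm (rep y) = e.symm (rep p) / b 0 * u := by
        rw [← e1]; simp [L]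
      simp only [coe_filter, mem_univ, true_and, Set.mem_ofPred_eq]
      rw [e2, mul_div_cancel_left₀ _ (div_ne_zero (hx p) ha)]
      exact hu
    · intro p _ p' _ h
      have h1 : e.symm (rep p) / b 0 = e.symm (rep p') / b 0 := by
        have := h
        simp only [div_eq_mul_inv (e.symm (rep y))] at this
        exact inv_injective (mul_left_cancel₀ (hx y) this)
      have h2 : rep p = rep p' := e.symm.injective ((div_left_inj' ha).1 h1)
      exact Sub.ext (by rw [span_rep p, span_rep p', h2])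

omit [Fintype K] in
theorem bd_fs {k : ℕ} (T P : Submodule K V) (y : Sub K V 1) :
    bd (gpts (K := K) (V := V) (k := k)) (one (fs fun B => T ≤ B.W ∧ B.W ≤ P)) y =
      ((fs fun B : Sub K V k => T ⊔ y.W ≤ B.W ∧ B.W ≤ P).card : ℤ) := by
  classical
  rw [bd, card_eq_sum_ones, ← sum_subset (subset_univ
    (fs fun B : Sub K V k => T ⊔ y.W ≤ B.W ∧ B.W ≤ P))]
  · push_cast
    refine sum_congr rfl fun B hB => ?_
    obtain ⟨h1, h2⟩ := mem_fs.1 hB
    rw [if_pos (mem_gpts.2 (le_sup_right.trans h1)),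
      one_of_mem (mem_fs.2 ⟨le_sup_left.trans h1, h2⟩)]
  · intro B _ hB
    split_ifs with h1
    · exact one_of_notMem fun h2 =>
        hB (mem_fs.2 ⟨sup_le (mem_fs.1 h2).1 (mem_gpts.1 h1), (mem_fs.1 h2).2⟩)
    · rfl

omit [Fintype K] in
theorem rk_two {p y : Sub K V 1} (h : y ≠ p) : finrank K (p.W ⊔ y.W : Submodule K V) = 2 := by
  have h1 : p.W ⊓ y.W = ⊥ := by
    rw [eq_bot_iff]
    intro v hv
    by_contra h0
    exact h (pnt_eq_of_mem h0 hv.2 hv.1)
  have := Submodule.finrank_sup_add_finrank_inf_eq p.W y.W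
  rw [h1, finrank_bot, p.h, y.h] at this
  omega

theorem sum_abs_one {E : Type} [Fintype E] [DecidableEq E] (S : Finset E) :
    ∑ B, |((one S B : ℤ) : ℝ)| = S.card := by
  rw [card_eq_sum_ones, ← sum_subset (subset_univ S)]
  · push_cast
    exact sum_congr rfl fun B hB => by rw [one_of_mem hB]; simp
  · intro B _ hB; rw [one_of_notMem hB]; simp

end GDecP

open GDecP

theorem gdec (h : S_Hyp) (_h' : S_PCnt) : S_GDec := by
  intro K _ _ k hk
  obtain ⟨j, rfl⟩ : ∃ j, k = j + 1 := ⟨k - 1, by omega⟩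
  set q := Fintype.card K with hq
  have hq1 : 1 ≤ q := Fintype.card_pos
  let c1 : ℝ := (th q (j + 1) : ℝ) * th q (j + 1) + th q j * th q (j + 2)
  have hc1 : 0 ≤ c1 := by positivity
  refine ⟨(th q (j + 1) * q ^ j : ℕ) + c1 + (q ^ (j + 2) : ℕ) * c1, fun V _ _ _ hV => ?_⟩
  obtain ⟨P, hP, hpP, hcnt⟩ := ex_P hV
  let S : Submodule K V → Sub K V 1 → Finset (Sub K V (j + 1)) := fun T p =>
    fs fun B => T ≤ B.W ∧ B.W ≤ P p
  let σ : Sub K V 1 → Sub K V (j + 1) → ℤ := fun p =>
    (th q (j + 1) : ℤ) • one (S p.W p) - (th q j : ℤ) • one (S ⊥ p)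
  have hsz : ∀ p, ∑ B, |(σ p B : ℝ)| ≤ c1 := fun p => by
    have e1 : (S p.W p).card = th q (j + 1) := by
      rw [h K V (j + 1) (P p) p.W (hP p) (hpP p), p.h]; rfl
    have e2 : (S ⊥ p).card = th q (j + 2) := by
      rw [h K V (j + 1) (P p) ⊥ (hP p) bot_le, finrank_bot]; rfl
    calc ∑ B, |(σ p B : ℝ)| ≤ ∑ B, ((th q (j + 1) : ℝ) * |((one (S p.W p) B : ℤ) : ℝ)| +
          (th q j : ℝ) * |((one (S ⊥ p) B : ℤ) : ℝ)|) := by
          refine sum_le_sum fun B _ => ?_
          simp only [σ, Pi.sub_apply, Pi.smul_apply, smul_eq_mul]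
          push_cast
          refine (abs_sub _ _).trans (le_of_eq ?_)
          rw [abs_mul, abs_mul, Nat.abs_cast, Nat.abs_cast]
      _ = c1 := by
          rw [sum_add_distrib, ← mul_sum, ← mul_sum, sum_abs_one, sum_abs_one, e1, e2]
  have hN : (0 : ℝ) ≤ (th q (j + 1) * q ^ j : ℕ) := Nat.cast_nonneg _
  have hM : (0 : ℝ) ≤ (q ^ (j + 2) : ℕ) * c1 := by positivity
  refine ⟨th q (j + 1) * q ^ j, σ, ?_, by linarith, fun p y => ?_, fun p => ?_, fun y => ?_⟩
  · have h0 : 0 < q ^ j := by positivity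
    exact Nat.mul_pos (h0.trans_le (pow_le_th q j)) h0
  · simp only [σ, S, bd_sub, bd_smul, Pi.sub_apply, Pi.smul_apply, smul_eq_mul, bd_fs]
    by_cases hy : y.W ≤ P p
    · rw [h K V (j + 1) (P p) _ (hP p) (sup_le (hpP p) hy),
        h K V (j + 1) (P p) _ (hP p) (sup_le bot_le hy), bot_sup_eq, y.h, ← hq]
      split_ifs with e
      · subst e
        rw [sup_idem, y.h, show j + 1 + 1 - 1 = j + 1 by omega]
        have := th_succ q j
        push_cast
        rw [show (th q (j + 1) : ℤ) * th q (j + 1) - th q j * th q (j + 1) =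
          th q (j + 1) * (th q (j + 1) - th q j) by ring, this]
        push_cast; ring
      · rw [rk_two e, show j + 1 + 1 - 1 = j + 1 by omega, show j + 1 + 1 - 2 = j by omega]
        ring
    · have e0 : ∀ T : Submodule K V,
          (fs fun B : Sub K V (j + 1) => T ⊔ y.W ≤ B.W ∧ B.W ≤ P p).card = 0 := fun T =>
        card_eq_zero.2 (eq_empty_of_forall_notMem fun B hB =>
          hy ((le_sup_right.trans (mem_fs.1 hB).1).trans (mem_fs.1 hB).2))
      rw [e0, e0, if_neg fun e => hy (by subst e; exact hpP _)]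
      simp
  · linarith [hsz p]
  · have h1 : ∀ p, ∑ B, ind (y ∈ gpts B) * |(σ p B : ℝ)| ≤ ind (y.W ≤ P p) * c1 := fun p => by
      by_cases hy : y.W ≤ P p
      · rw [ind_pos hy, one_mul]
        exact (sum_le_sum fun B _ =>
          mul_le_of_le_one_left (abs_nonneg _) (ind_le_one _)).trans (hsz p)
      · rw [ind_neg hy, zero_mul]
        refine le_of_eq (sum_eq_zero fun B _ => ?_)
        by_cases hB : y ∈ gpts B
        · have e0 : ∀ T, one (S T p) B = 0 := fun T =>
            one_of_notMem fun h2 => hy ((mem_gpts.1 hB).trans (mem_fs.1 h2).2)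
          simp [σ, e0]
        · rw [ind_neg hB, zero_mul]
    have h2 : ∑ p, ind (y.W ≤ P p) * c1 ≤ (q ^ (j + 2) : ℕ) * c1 := by
      rw [← sum_mul, ← cnt_eq_sum]
      exact mul_le_mul_of_nonneg_right (Nat.cast_le.2 (hcnt y)) hc1
    linarith [sum_le_sum fun p (_ : p ∈ univ) => h1 p]

theorem spr : S_Spr := by
  intro K V _ _ _ _ _ k hk ⟨m, hm⟩
  obtain ⟨E, _, _, _, hE⟩ := ex_ext K k hk
  have hr : finrank K (Fin m → E) = finrank K V := by
    rw [Module.finrank_pi_fintype, hm]; simp [hE, mul_comm]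
  let e : (Fin m → E) ≃ₗ[K] V := LinearEquiv.ofFinrankEq _ _ hr
  let f : Sub E (Fin m → E) 1 → Sub K V k := fun l =>
    ⟨(l.W.restrictScalars K).map e.toLinearMap, by
      rw [LinearEquiv.finrank_map_eq,
        ((Submodule.restrictScalarsEquiv K E _ l.W).restrictScalars K).finrank_eq,
        ← Module.finrank_mul_finrank K E l.W, hE, l.h, mul_one]⟩
  have hf : ∀ l (y : Sub K V 1), y ∈ gpts (f l) ↔ e.symm (rep y) ∈ l.W := fun l y => by
    rw [mem_gpts, le_iff_rep]
    simp [f, Submodule.mem_map_equiv]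
  have hx : ∀ p : Sub K V 1, e.symm (rep p) ≠ 0 := fun p h => rep_ne p (by simpa using h)
  obtain ⟨a, -, ha⟩ := PM.family (ed := gpts (K := K) (V := V) (k := k)) univ f univ
    (fun i _ i' _ hne => disjoint_left.2 fun y h1 h2 =>
      hne (pnt_eq_of_mem (hx y) ((hf i y).1 h1) ((hf i' y).1 h2)))
    fun y => ⟨fun _ => ⟨pnt E _ (hx y), mem_univ _,
      (hf _ y).2 (Submodule.mem_span_singleton_self _)⟩, fun _ => mem_univ _⟩
  exact ⟨a, fun _ _ => trivial, ha⟩

end Pool.Agent.P.MP_3b9ee7_co.Q
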