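import Pool.Agent.P.MP_3b9ee7_co.Q.Base

/-! Averaging over the automorphism group, and the greedy choice of configurations. -/

namespace Pool.Agent.P.MP_3b9ee7_co.Q

open Finset
open Pool.Agent.P.MP_77d020_co.L (ind fs cnt ind_pos ind_neg ind_nonneg ind_congr mem_fs
  cnt_eq_sum cnt_mem greedy)

namespace GenP

variable {Pt Bl : Type} {pts : Bl → Finset Pt}

/-- pairs of permutations that preserve incidence -/
def Au (pts : Bl → Finset Pt) (o : Equiv.Perm Pt × Equiv.Perm Bl) : Prop :=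
  ∀ y B, o.1 y ∈ pts (o.2 B) ↔ y ∈ pts B

theorem Au.mul_iff {o g : Equiv.Perm Pt × Equiv.Perm Bl} (hg : Au pts g) :
    Au pts o ↔ Au pts (o * g) := by
  refine ⟨fun h y B => (h (g.1 y) (g.2 B)).trans (hg y B), fun h y B => ?_⟩
  obtain ⟨y, rfl⟩ := g.1.surjective y
  obtain ⟨B, rfl⟩ := g.2.surjective B
  exact (h y B).trans (hg y B).symm

theorem shift [Fintype (Equiv.Perm Pt × Equiv.Perm Bl)] {g : Equiv.Perm Pt × Equiv.Perm Bl}
    (hg : Au pts g) (F : Equiv.Perm Pt → ℝ) :
    ∑ o ∈ fs (Au pts), F (o.1 * g.1) = ∑ o ∈ fs (Au pts), F o.1 :=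
  sum_equiv (Equiv.mulRight g) (fun o => by simpa using hg.mul_iff) fun _ _ => rfl

theorem thru_map {o : Equiv.Perm Pt × Equiv.Perm Bl} (h : Au pts o) (S : Finset Bl) (y : Pt) :
    thru pts (S.map o.2.symm.toEmbedding) y = thru pts S (o.1 y) := by
  rw [thru, sum_map]
  refine sum_congr rfl fun B _ => ind_congr ?_
  rw [← h]
  simp

variable [Fintype Pt] [Fintype Bl] [DecidableEq Pt]

omit [Fintype Bl] [DecidableEq Pt] in
theorem sum_thru {θ : ℕ} (h : ∀ B, (pts B).card = θ) (S : Finset Bl) (σ : Equiv.Perm Pt) :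
    ∑ y, thru pts S (σ y) = θ * S.card := by
  rw [Equiv.sum_comp σ (thru pts S)]
  unfold thru
  rw [sum_comm, sum_congr rfl fun B _ => (cnt_eq_sum _).symm.trans (cnt_mem (pts B))]
  simp [h, mul_comm]

omit [Fintype Pt] in
theorem bd_map {o : Equiv.Perm Pt × Equiv.Perm Bl} (h : Au pts o) (z : Bl → ℤ) (y : Pt) :
    bd pts (fun B => z (o.2 B)) y = bd pts z (o.1 y) := by
  unfold bd
  rw [← Equiv.sum_comp o.2 fun B => if o.1 y ∈ pts B then z B else 0]
  exact sum_congr rfl fun B _ => if_congr (h y B).symm rfl rfl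

omit [Fintype Pt] in
theorem rel_map {o : Equiv.Perm Pt × Equiv.Perm Bl} (h : Au pts o) {G : Pt → Finset Bl}
    {Co : Finset Bl} (hR : RelA pts G Co) :
    RelA pts (fun p => (G (o.1 p)).map o.2.symm.toEmbedding) (Co.map o.2.symm.toEmbedding) := by
  obtain ⟨ψ, h1, h2⟩ := hR
  refine ⟨fun p B => ψ (o.1 p) (o.2 B), fun p B hB => by simpa using h1 _ _ hB, fun B0 => ?_⟩
  obtain ⟨z, h3, h4⟩ := h2 (o.2 B0)
  refine ⟨fun B => z (o.2 B), fun B hB => by simpa using h3 _ hB, funext fun y => ?_⟩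
  rw [bd_map h, h4]
  simp only [Pi.sub_apply, Finset.sum_apply, bd_map h]
  congr 1
  · exact if_congr (h y B0) rfl rfl
  · exact (sum_equiv o.1 (fun p => (h p B0).symm) fun _ _ => rfl).symm

end GenP

open GenP in
theorem genAvg : S_GenAvg := by
  intro Pt Bl _ _ _ pts θ c h G Co h2 hθ h1 hc hP ⟨hR, hG, hCo⟩
  classical
  have h1' : (1 : ℝ) ≤ θ := by exact_mod_cast h1
  have hP' : (2 : ℝ) ≤ Fintype.card Pt := by exact_mod_cast hP
  have hc' : c ≤ 2 * θ * c := by nlinarith
  have hh : 0 ≤ h := (Nat.cast_nonneg _).trans hCo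
  have hn : (0 : ℝ) ≤ (fs (Au pts)).card := Nat.cast_nonneg _
  refine ⟨_, fs (Au pts), fun o p => (G (o.1 p)).map o.2.symm.toEmbedding,
    fun o => Co.map o.2.symm.toEmbedding, ⟨1, mem_fs.2 fun _ _ => Iff.rfl⟩, fun o ho =>
      ⟨rel_map (mem_fs.1 ho) hR, fun p => by rw [card_map]; exact (hG _).trans hc',
        by rwa [card_map]⟩, fun p y => ?_, fun y => ?_⟩
  · rw [sum_congr rfl fun o ho => thru_map (mem_fs.1 ho) _ _]
    by_cases e : p = y
    · rw [ind_pos e, ← nsmul_eq_mul]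
      refine sum_le_card_nsmul _ _ _ fun o _ => ((thru_le_card _ _).trans (hG _)).trans ?_
      have : (0 : ℝ) ≤ 1 / Fintype.card Pt := by positivity
      nlinarith
    · have h3 : ∀ y' ∈ univ.erase p, ∑ o ∈ fs (Au pts), thru pts (G (o.1 p)) (o.1 y) =
          ∑ o ∈ fs (Au pts), thru pts (G (o.1 p)) (o.1 y') := by
        intro y' hy'
        obtain ⟨σ, τ, h3, h4, h5⟩ := h2 p y p y' e (ne_of_mem_erase hy').symm
        rw [← shift (g := (σ, τ)) h3 fun s => thru pts (G (s p)) (s y)]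
        simp [h4, h5]
      have h4 := sum_congr rfl h3
      rw [sum_const, card_erase_of_mem (mem_univ p), card_univ, nsmul_eq_mul,
        Nat.cast_pred (by omega), sum_comm] at h4
      have h5 : ∑ o ∈ fs (Au pts), ∑ y' ∈ univ.erase p, thru pts (G (o.1 p)) (o.1 y') ≤
          (fs (Au pts)).card * (θ * c) := by
        rw [← nsmul_eq_mul]
        refine sum_le_card_nsmul _ _ _ fun o _ => ?_
        refine (sum_le_sum_of_subset_of_nonneg (erase_subset _ _)
          fun _ _ _ => thru_nonneg _ _).trans ?_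
        rw [sum_thru hθ]
        exact mul_le_mul_of_nonneg_left (hG _) (by positivity)
      have h6 : 0 ≤ ∑ o ∈ fs (Au pts), thru pts (G (o.1 p)) (o.1 y) :=
        sum_nonneg fun _ _ => thru_nonneg _ _
      rw [ind_neg e, zero_add, mul_one_div, ← mul_div_assoc, le_div_iff₀ (by linarith)]
      nlinarith
  · rw [sum_congr rfl fun o ho => thru_map (mem_fs.1 ho) _ _]
    have h3 : ∀ y' ∈ univ, ∑ o ∈ fs (Au pts), thru pts Co (o.1 y) =
        ∑ o ∈ fs (Au pts), thru pts Co (o.1 y') := by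
      intro y' _
      obtain ⟨x, hx⟩ := Fintype.exists_ne_of_one_lt_card (by omega) y
      obtain ⟨x', hx'⟩ := Fintype.exists_ne_of_one_lt_card (by omega) y'
      obtain ⟨σ, τ, h3, -, h5⟩ := h2 x y x' y' hx hx'
      rw [← shift (g := (σ, τ)) h3 fun s => thru pts Co (s y)]
      simp [h5]
    have h4 := sum_congr rfl h3
    rw [sum_const, card_univ, nsmul_eq_mul, sum_comm] at h4
    simp only [sum_thru hθ, sum_const, nsmul_eq_mul] at h4
    rw [← mul_div_assoc, le_div_iff₀ (by linarith), mul_comm, h4]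
    refine mul_le_mul_of_nonneg_left ?_ hn
    nlinarith [mul_le_mul_of_nonneg_left hCo (zero_le_one.trans h1'),
      mul_le_mul_of_nonneg_right hc (mul_nonneg (zero_le_one.trans h1') hh),
      mul_nonneg (zero_le_one.trans h1') hh]

theorem genCh : S_GenCh := by
  intro Pt Bl I _ _ _ pts c h lg b Is y w ⟨O, Os, G, Co, hne, hR, h1, h2⟩ hb hlg hy hw
  obtain ⟨o₀, ho₀⟩ := hne
  have hh : 0 ≤ h := (Nat.cast_nonneg _).trans (hR o₀ ho₀).2.2
  have hc : ∀ _ : Pt, 0 ≤ c := fun x => (Nat.cast_nonneg _).trans ((hR o₀ ho₀).2.1 x)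
  obtain ⟨ch, h3, -, h4⟩ := greedy I O Pt Is univ
    (fun i o x => (∑ p, y i p * thru pts (G o p) x + w i * thru pts (Co o) x) / b)
    (fun i x => c * (y i x + (∑ p, y i p + w i * h) / Fintype.card Pt) / b)
    (fun x => 1.45 * (∑ i ∈ Is,
      c * (y i x + (∑ p, y i p + w i * h) / Fintype.card Pt) / b + lg)) lg
    (fun _ o => o ∈ Os) (fun _ _ _ _ => True) ⟨o₀⟩
    (fun i hi o ho x _ => ⟨div_nonneg (add_nonneg
      (sum_nonneg fun p _ => mul_nonneg ((hy i hi).1 p) (thru_nonneg _ _))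
      (mul_nonneg (hy i hi).2 (thru_nonneg _ _))) hb.le, (div_le_one hb).2 (by
        refine le_trans (add_le_add ?_ (mul_le_mul_of_nonneg_left
          ((thru_le_card _ _).trans (hR o ho).2.2) (hy i hi).2)) (hw i hi)
        rw [mul_comm, sum_mul]
        exact sum_le_sum fun p _ => mul_le_mul_of_nonneg_left
          ((thru_le_card _ _).trans ((hR o ho).2.1 p)) ((hy i hi).1 p))⟩)
    (fun i hi x _ => div_nonneg (mul_nonneg (hc x) (add_nonneg ((hy i hi).1 x) (div_nonneg
      (add_nonneg (sum_nonneg fun p _ => (hy i hi).1 p) (mul_nonneg (hy i hi).2 hh))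
      (Nat.cast_nonneg _)))) hb.le)
    hlg (fun _ _ => le_rfl) fun t _ i hi _ _ _ _ _ =>
      ⟨Os, ⟨o₀, ho₀⟩, fun o ho => ⟨ho, fun _ _ => ⟨trivial, trivial⟩⟩, fun x _ => by
        rw [← sum_div, ← mul_div_assoc, sum_add_distrib, sum_comm, ← mul_sum]
        refine div_le_div_of_nonneg_right ?_ hb.le
        have h5 : ∑ p, ∑ o ∈ Os, y i p * thru pts (G o p) x ≤
            ∑ p, y i p * (Os.card * (c * (ind (p = x) + 1 / Fintype.card Pt))) :=
          sum_le_sum fun p _ => by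
            rw [← mul_sum]
            exact mul_le_mul_of_nonneg_left (h1 p x) ((hy i hi).1 p)
        have h6 : ∑ p, y i p * ind (p = x) = y i x := by
          rw [sum_eq_single x (fun p _ hp => by rw [ind_neg hp, mul_zero]) (by simp),
            ind_pos rfl, mul_one]
        have h7 : ∑ p, y i p * (Os.card * (c * (ind (p = x) + 1 / Fintype.card Pt))) =
            Os.card * (c * (∑ p, y i p * ind (p = x) + (∑ p, y i p) / Fintype.card Pt)) := by
          rw [sum_div, ← sum_add_distrib, mul_sum, mul_sum]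
          exact sum_congr rfl fun p _ => by ring
        rw [h7, h6] at h5
        refine (add_le_add h5 (mul_le_mul_of_nonneg_left (h2 x) (hy i hi).2)).trans_eq ?_
        ring⟩
  refine ⟨fun i => G (ch i), fun i => Co (ch i), fun i hi => hR _ (h3 i hi), fun x => ?_⟩
  have h5 := h4 x (mem_univ x)
  simp only [← sum_div, ← mul_sum] at h5
  rw [div_le_iff₀ hb] at h5
  refine h5.trans_eq ?_
  rw [mul_assoc, add_mul, div_mul_cancel₀ _ hb.ne', mul_comm lg]

end Pool.Agent.P.MP_3b9ee7_co.Q
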