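import Pool.Agent.P.MP_3b9ee7_co.Q.Base

/-! A perfect matching from a state of the switches. -/

namespace Pool.Agent.P.MP_3b9ee7_co.Q

open Finset

namespace GlueP

variable {V E : Type} [Fintype E] [DecidableEq V]

/-- Boundaries of nonnegative edge vectors. -/
def cone (ed : E → Finset V) : AddSubmonoid (V → ℤ) where
  carrier := {x | ∃ a : E → ℤ, (∀ e, 0 ≤ a e) ∧ bd ed a = x}
  zero_mem' := ⟨0, fun _ => le_rfl, bd_zero ed⟩
  add_mem' := by
    rintro _ _ ⟨a, ha, rfl⟩ ⟨b, hb, rfl⟩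
    exact ⟨a + b, fun e => add_nonneg (ha e) (hb e), bd_add ed a b⟩

theorem pm_iff {ed : E → Finset V} {U : Finset V} : PM ed U ↔ one U ∈ cone ed := Iff.rfl

theorem sum_one_single (L : Finset V) : ∑ v ∈ L, one {v} = one L := by
  rw [← one_biUnion L (fun v => {v}) fun i _ j _ h => disjoint_singleton.2 h, biUnion_singleton_eq_self]

end GlueP

open GlueP

theorem glue : S_Glue := by
  intro V E Sw Lb _ _ _ ed Ss rt lab l0 W g hub Hs Wh L hsw hhub hHs hhi dW dH dHW dWL dHL hne hOn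
  classical
  obtain ⟨On, hOn⟩ := hOn
  set T : Sw × V → Finset V := fun y => (ed (g y.1 y.2)).erase y.2 with hT
  set Off : Finset (Sw × V) :=
    (Ss.filter fun s => ¬ On s).biUnion fun s => (ed (rt s)).image fun v => (s, v) with hOff
  have mOff : ∀ s v, (s, v) ∈ Off ↔ s ∈ Ss ∧ v ∈ ed (rt s) ∧ ¬ On s := by
    intro s v
    simp only [hOff, mem_biUnion, mem_filter, mem_image, Prod.mk.injEq]
    constructor
    · rintro ⟨s', ⟨h1, h2⟩, v', h3, rfl, rfl⟩; exact ⟨h1, h3, h2⟩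
    · rintro ⟨h1, h2, h3⟩; exact ⟨s, ⟨h1, h3⟩, v, h2, rfl, rfl⟩
  set eat : Sw × V → Sw × V := fun x => if On x.1 then (hub x.2 (lab x.1 x.2), x.2) else x
    with heat
  have uniq : ∀ s ∈ Ss, ∀ s' ∈ Ss, ∀ v, v ∈ ed (rt s) → v ∈ ed (rt s') → lab s' v = lab s v →
      On s → On s' → s = s' := by
    intro s hs s' hs' v hv hv' hl h1 h2
    obtain ⟨a, b⟩ := hOn s hs v hv
    exact (b fun h => a h.1 h.2 h1).unique ⟨hs, hv, rfl, h1⟩ ⟨hs', hv', hl, h2⟩
  have hubL : ∀ v ∈ L, hub v l0 ∈ Ss ∧ v ∈ ed (rt (hub v l0)) ∧ lab (hub v l0) v = l0 := by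
    intro v hv
    obtain ⟨s, hs, h1, h2⟩ := hne v hv
    have := hhub s hs v h1
    rwa [h2] at this
  have eatOff : ∀ x ∈ Hs, eat x ∈ Off := by
    rintro ⟨s, v⟩ hx
    obtain ⟨h1, h2, h3⟩ := (hHs s v).1 hx
    simp only [heat]
    split_ifs with h
    · obtain ⟨a, b, c⟩ := hhub s h1 v h2
      exact (mOff _ _).2 ⟨a, b, fun h' => h3 (uniq s h1 _ a v h2 b c h h')⟩
    · exact (mOff _ _).2 ⟨h1, h2, h⟩
  have LOff : ∀ v ∈ L, (hub v l0, v) ∈ Off := by
    intro v hv
    obtain ⟨a, b, c⟩ := hubL v hv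
    exact (mOff _ _).2 ⟨a, b, (hOn _ a v b).1 hv c⟩
  have key : ∑ x ∈ Hs, one (T (eat x)) + ∑ v ∈ L, one (T (hub v l0, v)) =
      ∑ y ∈ Off, one (T y) := by
    refine (sum_disjSum Hs L
      fun z => one (T (Sum.elim eat (fun v => (hub v l0, v)) z))).symm.trans ?_
    have hmix : ∀ x ∈ Hs, ∀ v ∈ L, eat x ≠ (hub v l0, v) := by
      rintro ⟨s, w⟩ hx v hv h
      obtain ⟨h1, h2, h3⟩ := (hHs s w).1 hx
      obtain ⟨a, b, c⟩ := hubL v hv
      simp only [heat] at h
      split_ifs at h with ho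
      · obtain ⟨e1, rfl⟩ := Prod.mk.inj h
        have := (hhub s h1 w h2).2.2
        rw [e1, c] at this
        exact (hOn s h1 w h2).1 hv this.symm ho
      · obtain ⟨rfl, rfl⟩ := Prod.mk.inj h
        rw [c] at h3
        exact h3 rfl
    refine sum_nbij (Sum.elim eat fun v => (hub v l0, v)) ?_ ?_ ?_ fun _ _ => rfl
    · rintro (x | v) hz
      · exact eatOff x (inl_mem_disjSum.1 hz)
      · exact LOff v (inr_mem_disjSum.1 hz)
    · rintro (⟨s, v⟩ | v) hz (⟨s', v'⟩ | v') hz' h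
      · obtain ⟨h1, h2, h3⟩ := (hHs s v).1 (inl_mem_disjSum.1 hz)
        obtain ⟨k1, k2, k3⟩ := (hHs s' v').1 (inl_mem_disjSum.1 hz')
        have a := (hhub s h1 v h2).2.2
        have a' := (hhub s' k1 v' k2).2.2
        simp only [Sum.elim_inl, heat] at h
        split_ifs at h with o1 o2 o2
        · obtain ⟨e1, rfl⟩ := Prod.mk.inj h
          rw [e1, a'] at a
          rw [uniq s h1 s' k1 v h2 k2 a o1 o2]
        · obtain ⟨rfl, rfl⟩ := Prod.mk.inj h
          rw [a] at k3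
          exact absurd rfl k3
        · obtain ⟨rfl, rfl⟩ := Prod.mk.inj h
          rw [a'] at h3
          exact absurd rfl h3
        · rw [h]
      · exact absurd h (hmix _ (inl_mem_disjSum.1 hz) _ (inr_mem_disjSum.1 hz'))
      · exact absurd h.symm (hmix _ (inl_mem_disjSum.1 hz') _ (inr_mem_disjSum.1 hz))
      · rw [(Prod.mk.inj h).2]
    · rintro ⟨s, v⟩ hy
      obtain ⟨h1, h2, h3⟩ := (mOff s v).1 hy
      by_cases c1 : s = hub v (lab s v)
      · by_cases c2 : v ∈ L ∧ lab s v = l0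
        · refine ⟨Sum.inr v, inr_mem_disjSum.2 c2.1, ?_⟩
          rw [Sum.elim_inr, ← c2.2, ← c1]
        · obtain ⟨s', ⟨k1, k2, k3, k4⟩, -⟩ := (hOn s h1 v h2).2 c2
          refine ⟨Sum.inl (s', v), inl_mem_disjSum.2 ((hHs s' v).2 ⟨k1, k2, fun h => ?_⟩), ?_⟩
          · rw [k3, ← c1] at h
            exact h3 (h ▸ k4)
          · simp only [Sum.elim_inl, heat, if_pos k4, k3, ← c1]
      · exact ⟨Sum.inl (s, v), inl_mem_disjSum.2 ((hHs s v).2 ⟨h1, h2, c1⟩), by
          simp only [Sum.elim_inl, heat, if_neg h3]⟩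
  have TW : ∀ y ∈ Off, T y ⊆ W y.1 := by
    rintro ⟨s, v⟩ hy
    obtain ⟨h1, h2, -⟩ := (mOff s v).1 hy
    exact (hsw s h1).sub v h2
  have sOff : ∑ y ∈ Off, one (T y) =
      ∑ s ∈ Ss, if On s then 0 else ∑ v ∈ ed (rt s), one (T (s, v)) := by
    rw [hOff, sum_biUnion, sum_filter]
    · refine sum_congr rfl fun s _ => ?_
      rw [sum_image fun a _ b _ h => (Prod.mk.inj h).2, ite_not]
    · intro s _ s' _ hne
      simp only [Function.onFun, disjoint_left, mem_image]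
      rintro _ ⟨v, _, rfl⟩ ⟨v', _, h⟩
      exact hne (Prod.mk.inj h).1.symm
  have hA : ∀ s ∈ Ss, one (W s) - (if On s then 0 else ∑ v ∈ ed (rt s), one (T (s, v))) ∈
      cone ed := by
    intro s hs
    split_ifs
    · rw [sub_zero]; exact (hsw s hs).pm1
    · have := pm_iff.1 (hsw s hs).pm2
      rwa [one_sdiff (biUnion_subset.2 (hsw s hs).sub), one_biUnion _ _ (hsw s hs).dis] at this
  have hB : ∀ x ∈ Hs, one (Wh x) + one (T (eat x)) ∈ cone ed := by
    intro x hx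
    have h1 := eatOff x hx
    have h2 : (eat x).1 ∈ Ss := ((mOff _ _).1 h1).1
    rw [← one_union ((dHW x hx _ h2).mono_right (TW _ h1))]
    simp only [heat]
    split_ifs
    · exact (hhi x hx).2
    · exact (hhi x hx).1
  have hC : ∀ v ∈ L, one {v} + one (T (hub v l0, v)) ∈ cone ed := by
    intro v hv
    obtain ⟨a, b, -⟩ := hubL v hv
    rw [← one_erase ((hsw _ a).mem v b)]
    exact PM.edge _
  have fin := add_mem (add_mem (sum_mem hA) (sum_mem hB)) (sum_mem hC)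
  rw [sum_sub_distrib, sum_add_distrib, sum_add_distrib, ← sOff, ← key, sum_one_single] at fin
  rw [pm_iff, one_union, one_union, one_biUnion _ _ dW, one_biUnion _ _ dH]
  · convert fin using 1; abel
  · rw [disjoint_biUnion_left]
    intro s hs
    rw [disjoint_biUnion_right]
    exact fun x hx => (dHW x hx s hs).symm
  · rw [disjoint_union_left, disjoint_biUnion_left, disjoint_biUnion_left]
    exact ⟨dWL, dHL⟩

end Pool.Agent.P.MP_3b9ee7_co.Q
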