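import Pool.Agent.P.MP_3b9ee7_co.Q.Base

/-! Counting Segre grids. -/

namespace Pool.Agent.P.MP_3b9ee7_co.Q

open Finset Module
open Pool.Agent.P.MP_77d020_co.L (ind fs cnt ind_pos ind_neg ind_nonneg ind_le ind_and ind_congr
  ind_mono mem_fs cnt_eq_sum cnt_nonneg cnt_mono cnt_zero cnt_le_card cnt_le_add one_le_cnt
  exists_of_cnt_pos cnt_and_eq_sum)

namespace GridBP

/-- Averaging over translations. -/
theorem shift {W U : Type} [AddCommGroup W] [Fintype W] [Fintype U] [Nonempty U]
    (O bad : W → Prop) (e : U → W) (b : ℝ) (hO : ∀ w u, O (w + e u) ↔ O w)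
    (h : ∀ w, O w → cnt (fun u => bad (w + e u)) ≤ b * Fintype.card U) :
    cnt (fun w => O w ∧ bad w) ≤ b * cnt O := by
  have hU : (0 : ℝ) < Fintype.card U := by exact_mod_cast Fintype.card_pos
  have h1 : ∀ u, cnt (fun w => O w ∧ bad w) = ∑ w, ind (O w) * ind (bad (w + e u)) := by
    intro u
    rw [cnt_eq_sum, ← Equiv.sum_comp (Equiv.addRight (e u))]
    refine sum_congr rfl fun w _ => ?_
    rw [Equiv.coe_addRight, ind_and, ind_congr (hO w u)]
  have h2 : (Fintype.card U : ℝ) * cnt (fun w => O w ∧ bad w)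
      = ∑ w, ind (O w) * cnt (fun u => bad (w + e u)) := by
    rw [← nsmul_eq_mul, ← card_univ, ← sum_const, sum_congr rfl fun u _ => h1 u, sum_comm]
    refine sum_congr rfl fun w _ => ?_
    rw [cnt_eq_sum, mul_sum]
  have h3 : ∑ w, ind (O w) * cnt (fun u => bad (w + e u))
      ≤ ∑ w, ind (O w) * (b * Fintype.card U) := by
    refine sum_le_sum fun w _ => ?_
    by_cases hw : O w
    · rw [ind_pos hw, one_mul, one_mul]; exact h w hw
    · rw [ind_neg hw, zero_mul, zero_mul]
  rw [← sum_mul, ← cnt_eq_sum, ← h2] at h3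
  nlinarith

theorem ind_exists_le {A : Type} (S : Finset A) {P : Prop} {Q : A → Prop}
    (h : P → ∃ a ∈ S, Q a) : ind P ≤ ∑ a ∈ S, ind (Q a) := by
  refine ind_le (sum_nonneg fun _ _ => ind_nonneg _) fun hP => ?_
  obtain ⟨a, ha, hq⟩ := h hP
  have := single_le_sum (f := fun a => ind (Q a)) (fun _ _ => ind_nonneg _) ha
  rwa [ind_pos hq] at this

/-- Union bound. -/
theorem cnt_exists_le {W A : Type} [Fintype W] (S : Finset A) {P : W → Prop} {Q : A → W → Prop}
    (h : ∀ w, P w → ∃ a ∈ S, Q a w) : cnt P ≤ ∑ a ∈ S, cnt (Q a) := by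
  simp only [cnt_eq_sum]
  rw [sum_comm]
  exact sum_le_sum fun w _ => ind_exists_le S (h w)

theorem cnt_exists_le' {W A : Type} [Fintype W] [Fintype A] {P : W → Prop} {Q : A → W → Prop}
    {b : ℝ} (h : ∀ w, P w → ∃ a, Q a w) (hb : ∀ a, cnt (Q a) ≤ b) :
    cnt P ≤ Fintype.card A * b := by
  refine (cnt_exists_le univ fun w hw => (h w hw).imp fun a ha => ⟨mem_univ _, ha⟩).trans ?_
  rw [← nsmul_eq_mul, ← card_univ]
  exact sum_le_card_nsmul _ _ _ fun a _ => hb a

theorem cnt_le_of_inj {U X : Type} [Fintype U] {P : U → Prop} (f : U → X) (S : Finset X)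
    (hf : Function.Injective f) (h : ∀ u, P u → f u ∈ S) : cnt P ≤ S.card := by
  unfold cnt
  exact_mod_cast card_le_card_of_injOn f (fun u hu => h u (mem_fs.1 hu)) hf.injOn

variable {K V : Type} [Field K] [AddCommGroup V] [Module K V] {t : ℕ}

/-- Fixed positions. -/
def Fx (o : Prop) (i j : Fin (t + 1)) : Prop := i = 0 ∨ (o ∧ j = 0)

/-- Arrays with the given fixed part. -/
def Om (o : Prop) (w0 w : Fin (t + 1) → Fin (t + 1) → V) : Prop :=
  ∀ i j, Fx o i j → w i j = w0 i j

/-- Linear combination of the entries of an array. -/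
def be (c : Fin (t + 1) → Fin (t + 1) → K) (w : Fin (t + 1) → Fin (t + 1) → V) : V :=
  ∑ i, ∑ j, c i j • w i j

variable (K) in
/-- Independent arrays. -/
def LI (w : Fin (t + 1) → Fin (t + 1) → V) : Prop :=
  LinearIndependent K (fun x : Fin (t + 1) × Fin (t + 1) => w x.1 x.2)

theorem LI_iff {w : Fin (t + 1) → Fin (t + 1) → V} :
    LI K w ↔ ∀ c : Fin (t + 1) → Fin (t + 1) → K, be c w = 0 → ∀ i j, c i j = 0 := by
  unfold LI be
  rw [Fintype.linearIndependent_iff]
  constructor
  · intro h c hc i j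
    exact h (fun x => c x.1 x.2) (by rw [Fintype.sum_prod_type]; exact hc) (i, j)
  · intro h g hg x
    rw [Fintype.sum_prod_type] at hg
    exact h (fun i j => g (i, j)) hg x.1 x.2

theorem Om_add {o : Prop} {w0 e : Fin (t + 1) → Fin (t + 1) → V}
    (he : ∀ i j, Fx o i j → e i j = 0) (w : Fin (t + 1) → Fin (t + 1) → V) :
    Om o w0 (w + e) ↔ Om o w0 w := by
  refine forall_congr' fun i => forall_congr' fun j => forall_congr' fun h => ?_
  rw [Pi.add_apply, Pi.add_apply, he i j h, add_zero]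

theorem be_add_single (c : Fin (t + 1) → Fin (t + 1) → K) (w : Fin (t + 1) → Fin (t + 1) → V)
    (i j : Fin (t + 1)) (u : V) :
    be c (w + Pi.single i (Pi.single j u)) = be c w + c i j • u := by
  unfold be
  simp only [Pi.add_apply, smul_add, sum_add_distrib]
  congr 1
  rw [sum_eq_single i, sum_eq_single j]
  · simp
  · intro b _ hb; simp [hb]
  · simp
  · intro b _ hb; simp [hb]
  · simp

variable [Fintype V]

/-- A combination with a nonzero free coefficient is uniformly distributed. -/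
theorem pt_bound (o : Prop) (w0 : Fin (t + 1) → Fin (t + 1) → V)
    {c : Fin (t + 1) → Fin (t + 1) → K} {i j : Fin (t + 1)} (hf : ¬ Fx o i j) (hc : c i j ≠ 0)
    (S : Finset V) :
    cnt (fun w => Om o w0 w ∧ be c w ∈ S) ≤ (S.card / Fintype.card V) * cnt (Om o w0) := by
  have hV : (0 : ℝ) < Fintype.card V := by exact_mod_cast Fintype.card_pos
  refine shift (Om o w0) (fun w => be c w ∈ S) (fun u : V => Pi.single i (Pi.single j u)) _
    (fun w u => Om_add (fun i' j' h => ?_) w) fun w _ => ?_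
  · by_cases h1 : i' = i
    · subst h1
      by_cases h2 : j' = j
      · exact absurd (h2 ▸ h) hf
      · simp [h2]
    · simp [h1]
  · rw [div_mul_cancel₀ _ hV.ne']
    refine cnt_le_of_inj (fun u => be c w + c i j • u) S (fun u u' h => ?_) fun u hu => ?_
    · exact smul_right_injective V hc (add_left_cancel h)
    · rwa [be_add_single] at hu

/-- A block through a fixed vector with free other generators rarely lies in a sparse family. -/
theorem blk_bound [Fintype K] (o : Prop) (w0 : Fin (t + 1) → Fin (t + 1) → V)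
    (r : (Fin (t + 1) → Fin (t + 1) → V) → Fin (t + 1) → V)
    (e : (Fin t → V) → Fin (t + 1) → Fin (t + 1) → V) {α : K} (hα : α ≠ 0)
    (he : ∀ v i j, Fx o i j → e v i j = 0)
    (hr : ∀ w v j, r (w + e v) j = r w j + α • (Fin.cons 0 v : Fin (t + 1) → V) j)
    (Ub : Finset (Sub K V (t + 1))) {τ : ℝ} (hτ : 0 ≤ τ)
    (hU : ∀ y, thru gpts Ub y ≤ τ * (Fintype.card V : ℝ) ^ t) :
    cnt (fun w => Om o w0 w ∧ (r w 0 ≠ 0 ∧ ∃ B ∈ Ub, ∀ j, r w j ∈ B.W))
      ≤ (τ * ((Fintype.card K : ℝ) ^ (t + 1)) ^ t) * cnt (Om o w0) := by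
  classical
  refine shift (Om o w0) _ e _ (fun w v => Om_add (he v) w) fun w _ => ?_
  have h0 : ∀ v, r (w + e v) 0 = r w 0 := fun v => by rw [hr]; simp
  by_cases hu : r w 0 = 0
  · rw [cnt_zero fun v hv => hv.1 ((h0 v).trans hu)]
    positivity
  have h1 : cnt (fun v => r (w + e v) 0 ≠ 0 ∧ ∃ B ∈ Ub, ∀ j, r (w + e v) j ∈ B.W)
      ≤ ∑ B ∈ Ub, cnt (fun v => ∀ j, r (w + e v) j ∈ B.W) :=
    cnt_exists_le Ub fun v hv => hv.2
  have h2 : ∀ B ∈ Ub, cnt (fun v => ∀ j, r (w + e v) j ∈ B.W)
      ≤ ind (pnt K (r w 0) hu ∈ gpts B) * ((Fintype.card K : ℝ) ^ (t + 1)) ^ t := by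
    intro B _
    by_cases hB : r w 0 ∈ B.W
    · rw [ind_pos (mem_gpts.2 ((Submodule.span_singleton_le_iff_mem _ _).2 hB)), one_mul]
      have hc : (univ.filter fun x => x ∈ B.W).card = Fintype.card K ^ (t + 1) := by
        rw [← Fintype.card_subtype, Module.card_eq_pow_finrank (K := K), B.h]
      refine (cnt_le_of_inj (fun v l => r w l.succ + α • v l)
        (Fintype.piFinset fun _ : Fin t => univ.filter fun x => x ∈ B.W) (fun v v' h => ?_)
        fun v hv => ?_).trans ?_
      · funext l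
        exact smul_right_injective V hα (add_left_cancel (congrFun h l))
      · rw [Fintype.mem_piFinset]
        intro l
        have := hv l.succ
        rw [hr, Fin.cons_succ] at this
        exact mem_filter.2 ⟨mem_univ _, this⟩
      · rw [Fintype.card_piFinset, prod_const, hc, card_univ, Fintype.card_fin]
        push_cast
        exact le_rfl
    · rw [cnt_zero fun v hv => hB (h0 v ▸ hv 0)]
      exact mul_nonneg (ind_nonneg _) (by positivity)
  refine h1.trans ((sum_le_sum h2).trans ?_)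
  rw [← sum_mul, Fintype.card_fun, Fintype.card_fin]
  have h3 := hU (pnt K (r w 0) hu)
  unfold thru at h3
  push_cast
  calc _ ≤ τ * (Fintype.card V : ℝ) ^ t * ((Fintype.card K : ℝ) ^ (t + 1)) ^ t := by gcongr
    _ = _ := by ring

/-- At least half of the arrays are independent. -/
theorem half [Fintype K] (o : Prop) (w0 : Fin (t + 1) → Fin (t + 1) → V)
    (hind : ∀ c : Fin (t + 1) → Fin (t + 1) → K, (∀ i j, ¬ Fx o i j → c i j = 0) → be c w0 = 0 →
      ∀ i j, c i j = 0)
    (hn : 2 * (Fintype.card (Fin (t + 1) → Fin (t + 1) → K) : ℝ) ≤ Fintype.card V) :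
    cnt (Om o w0) ≤ 2 * cnt (fun w => Om o w0 w ∧ LI K w) := by
  classical
  have hV : (0 : ℝ) < Fintype.card V := by exact_mod_cast Fintype.card_pos
  have h0 := cnt_nonneg (Om o w0)
  have h1 : cnt (fun w => Om o w0 w ∧ ¬ LI K w)
      ≤ Fintype.card (Fin (t + 1) → Fin (t + 1) → K) * ((1 / Fintype.card V) * cnt (Om o w0)) := by
    refine cnt_exists_le' (Q := fun c w => (∃ i j, ¬ Fx o i j ∧ c i j ≠ 0) ∧
      (Om o w0 w ∧ be c w ∈ ({0} : Finset V))) (fun w hw => ?_) fun c => ?_
    · obtain ⟨hO, hL⟩ := hw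
      rw [LI_iff] at hL
      push Not at hL
      obtain ⟨c, hc, i, j, hij⟩ := hL
      refine ⟨c, ?_, hO, mem_singleton.2 hc⟩
      by_contra hcon
      push Not at hcon
      refine hij (hind c hcon ?_ i j)
      rw [← hc]
      refine sum_congr rfl fun i _ => sum_congr rfl fun j _ => ?_
      by_cases hf : Fx o i j
      · rw [hO i j hf]
      · rw [hcon i j hf, zero_smul, zero_smul]
    · by_cases hc : ∃ i j, ¬ Fx o i j ∧ c i j ≠ 0
      · obtain ⟨i, j, hf, hc⟩ := hc
        have := pt_bound o w0 hf hc ({0} : Finset V)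
        rw [card_singleton, Nat.cast_one] at this
        exact (cnt_mono fun w hw => hw.2).trans this
      · rw [cnt_zero fun w hw => hc hw.1]
        positivity
  have h2 : cnt (Om o w0) ≤ cnt (fun w => Om o w0 w ∧ LI K w)
      + cnt (fun w => Om o w0 w ∧ ¬ LI K w) :=
    cnt_le_add fun w hw => (em (LI K w)).imp (fun h => ⟨hw, h⟩) fun h => ⟨hw, h⟩
  have h3 : (Fintype.card (Fin (t + 1) → Fin (t + 1) → K) : ℝ) * (1 / Fintype.card V) ≤ 1 / 2 := by
    rw [mul_one_div, div_le_div_iff₀ hV (by norm_num)]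
    linarith
  have h4 := mul_le_mul_of_nonneg_right h3 h0
  rw [mul_assoc] at h4
  linarith

omit [Fintype V] in
theorem span_smul {ι : Type} (f : ι → V) {γ : K} (hγ : γ ≠ 0) :
    Submodule.span K (Set.range fun j => γ • f j) = Submodule.span K (Set.range f) := by
  apply le_antisymm
  · rw [Submodule.span_le]
    rintro _ ⟨j, rfl⟩
    exact Submodule.smul_mem _ _ (Submodule.subset_span ⟨j, rfl⟩)
  · rw [Submodule.span_le]
    rintro _ ⟨j, rfl⟩
    have : f j = γ⁻¹ • γ • f j := by rw [smul_smul, inv_mul_cancel₀ hγ, one_smul]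
    rw [this]
    exact Submodule.smul_mem _ _ (Submodule.subset_span ⟨j, rfl⟩)

variable (K t) in
/-- The first coordinate point. -/
def pt0 : Sub K (Fin (t + 1) → K) 1 :=
  pnt K (Pi.single 0 1) fun h => by simpa using congrFun h 0

theorem rep_pt0 : ∃ γ : K, γ ≠ 0 ∧ rep (pt0 K t) = Pi.single 0 γ := by
  obtain ⟨γ, h⟩ := Submodule.mem_span_singleton.1 (rep_mem (pt0 K t))
  have e : rep (pt0 K t) = Pi.single 0 γ := by
    rw [← h]
    funext i
    by_cases hi : i = 0 <;> simp [hi]
  refine ⟨γ, fun h0 => rep_ne (pt0 K t) ?_, e⟩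
  rw [e, h0, Pi.single_zero]

theorem ne_pt0 {a : Sub K (Fin (t + 1) → K) 1} (h : a ≠ pt0 K t) : ∃ i, i ≠ 0 ∧ rep a i ≠ 0 := by
  by_contra hc
  push Not at hc
  refine h (pnt_eq_of_mem (rep_ne a) (rep_mem a) (Submodule.mem_span_singleton.2 ⟨rep a 0, ?_⟩))
  funext i
  by_cases hi : i = 0
  · simp [hi]
  · simp [hi, hc i hi]

theorem free_col {o : Prop} {b : Sub K (Fin (t + 1) → K) 1} (h : o → b ≠ pt0 K t) :
    ∃ j, (o → j ≠ 0) ∧ rep b j ≠ 0 := by
  by_cases ho : o
  · obtain ⟨j, h1, h2⟩ := ne_pt0 (h ho)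
    exact ⟨j, fun _ => h1, h2⟩
  · obtain ⟨j, hj⟩ := Function.ne_iff.1 (rep_ne b)
    exact ⟨j, fun h => absurd h ho, hj⟩

theorem card_pt_le : Fintype.card (Sub K V 1) ≤ Fintype.card V :=
  Fintype.card_le_of_injective rep fun p p' h => Sub.ext (by rw [span_rep p, span_rep p', h])

/-- The family of grids with a given fixed part. -/
theorem core (hA : S_GridA) [Fintype K] (B0 : Sub K V (t + 1)) (ob : Option (Sub K V (t + 1)))
    (w0 : Fin (t + 1) → Fin (t + 1) → V)
    (hind : ∀ c : Fin (t + 1) → Fin (t + 1) → K, (∀ i j, ¬ Fx (ob ≠ none) i j → c i j = 0) →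
      be c w0 = 0 → ∀ i j, c i j = 0)
    (hn : 2 * (Fintype.card (Fin (t + 1) → Fin (t + 1) → K) : ℝ) ≤ Fintype.card V)
    {D : ℝ} (hD : D ≤ (Fintype.card V : ℝ) ^ t)
    (h0 : Submodule.span K (Set.range (w0 0)) = B0.W)
    (h1 : ∀ B1, ob = some B1 → Submodule.span K (Set.range fun i => w0 i 0) = B1.W) :
    GFam gpts D (2 * (Fintype.card (Sub K (Fin (t + 1) → K) 1) : ℝ) ^ 2 * Fintype.card K
      + 4 * Fintype.card (Sub K (Fin (t + 1) → K) 1) * ((Fintype.card K : ℝ) ^ (t + 1)) ^ t)
      B0 ob := by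
  classical
  set o : Prop := ob ≠ none with ho
  set θ : ℝ := (Fintype.card (Sub K (Fin (t + 1) → K) 1) : ℝ) with hθ
  set q : ℝ := (Fintype.card K : ℝ) with hq
  have hθ0 : 0 ≤ θ := Nat.cast_nonneg _
  have hq0 : 0 ≤ q := Nat.cast_nonneg _
  have hV : (0 : ℝ) < Fintype.card V := by exact_mod_cast Fintype.card_pos
  have hh := half o w0 hind hn
  have hpos : 1 ≤ cnt (Om o w0) := one_le_cnt (x := w0) fun _ _ _ => rfl
  obtain ⟨w1, hw1⟩ := exists_of_cnt_pos (P := fun w => Om o w0 w ∧ LI K w) (by linarith)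
  have hA' := hA K V (t + 1)
  have : Nonempty (Gr (Sub K (Fin (t + 1) → K) 1) (Sub K V 1) (Sub K V (t + 1))) :=
    ⟨(hA' w1 hw1.2).choose⟩
  choose! g hg using hA'
  obtain ⟨γ, hγ, eγ⟩ := rep_pt0 (K := K) (t := t)
  have hcard : ((fs fun w => Om o w0 w ∧ LI K w).card : ℝ) = cnt fun w => Om o w0 w ∧ LI K w := rfl
  refine ⟨_, _, inferInstance, pt0 K t, fs fun w => Om o w0 w ∧ LI K w, g, ⟨w1, mem_fs.2 hw1⟩,
    fun w hw => ?_, fun y => ?_, fun Ub τ hτ hU => ?_⟩
  · obtain ⟨hO, hL⟩ := mem_fs.1 hw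
    obtain ⟨g1, g2, g3, -⟩ := hg w hL
    refine ⟨g1, Sub.ext ?_, fun B1 hB => Sub.ext ?_⟩
    · rw [g2, ← h0, ← span_smul (w0 0) hγ]
      congr 2
      funext j
      rw [eγ, sum_eq_single 0, hO 0 j (Or.inl rfl)]
      · simp
      · intro b _ hb; simp [hb]
      · simp
    · rw [g3, ← h1 B1 hB, ← span_smul (fun i => w0 i 0) hγ]
      congr 2
      funext i
      rw [eγ, sum_eq_single 0, hO i 0 (Or.inr ⟨by simp [ho, hB], rfl⟩)]
      · simp
      · intro b _ hb; simp [hb]
      · simp
  · rw [← cnt_and_eq_sum, hcard]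
    set S : Finset V := univ.image fun c : K => c • rep y with hS
    have hS1 : (S.card : ℝ) ≤ q := by
      rw [hq, ← card_univ]; exact_mod_cast card_image_le
    have k1 : cnt (fun w => (Om o w0 w ∧ LI K w) ∧
        ∃ a b, a ≠ pt0 K t ∧ (o → b ≠ pt0 K t) ∧ (g w).p a b = y)
        ≤ Fintype.card (Sub K (Fin (t + 1) → K) 1 × Sub K (Fin (t + 1) → K) 1) *
          ((q / Fintype.card V) * cnt (Om o w0)) := by
      refine cnt_exists_le' (A := Sub K (Fin (t + 1) → K) 1 × Sub K (Fin (t + 1) → K) 1)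
        (Q := fun x w => (x.1 ≠ pt0 K t ∧ (o → x.2 ≠ pt0 K t)) ∧
        (Om o w0 w ∧ be (fun i j => rep x.1 i * rep x.2 j) w ∈ S)) (fun w hw => ?_) fun x => ?_
      · obtain ⟨⟨hO, hL⟩, a, b, ha, hb, e⟩ := hw
        refine ⟨(a, b), ⟨ha, hb⟩, hO, ?_⟩
        have e1 := (hg w hL).2.2.2 a b
        rw [e, span_rep y] at e1
        have e2 : be (fun i j => rep a i * rep b j) w ∈ Submodule.span K {rep y} := by
          rw [e1]; exact Submodule.mem_span_singleton_self _
        obtain ⟨c, hc⟩ := Submodule.mem_span_singleton.1 e2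
        exact mem_image.2 ⟨c, mem_univ _, hc⟩
      · by_cases hx : x.1 ≠ pt0 K t ∧ (o → x.2 ≠ pt0 K t)
        · obtain ⟨i, hi, hi'⟩ := ne_pt0 hx.1
          obtain ⟨j, hj, hj'⟩ := free_col hx.2
          have hf : ¬ Fx o i j := fun h => h.elim hi fun h => hj h.1 h.2
          refine (cnt_mono fun w hw => hw.2).trans ((pt_bound o w0
            (c := fun i j => rep x.1 i * rep x.2 j) hf (mul_ne_zero hi' hj') S).trans ?_)
          gcongr
        · rw [cnt_zero fun w hw => hx hw.1]
          positivity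
    rw [Fintype.card_prod, Nat.cast_mul, ← hθ] at k1
    have : Nonempty (Sub K V 1) := ⟨y⟩
    have hP : (0 : ℝ) < Fintype.card (Sub K V 1) := by exact_mod_cast Fintype.card_pos
    have hP' : (Fintype.card (Sub K V 1) : ℝ) ≤ Fintype.card V := by exact_mod_cast card_pt_le
    have hc0 := cnt_nonneg fun w => Om o w0 w ∧ LI K w
    refine k1.trans ?_
    calc θ * θ * (q / Fintype.card V * cnt (Om o w0))
        ≤ θ * θ * (q / Fintype.card (Sub K V 1) * (2 * cnt fun w => Om o w0 w ∧ LI K w)) := by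
          gcongr
      _ = (cnt fun w => Om o w0 w ∧ LI K w) * (2 * θ ^ 2 * q / Fintype.card (Sub K V 1)) := by
          ring
      _ ≤ _ := by
          gcongr
          exact le_add_of_nonneg_right (by positivity)
  · rw [← cnt_and_eq_sum, hcard]
    have hU' : ∀ y, thru gpts Ub y ≤ τ * (Fintype.card V : ℝ) ^ t := fun y =>
      (hU y).trans (mul_le_mul_of_nonneg_left hD hτ)
    have k1 : cnt (fun w => (Om o w0 w ∧ LI K w) ∧ ∃ a, a ≠ pt0 K t ∧ (g w).A a ∈ Ub)
        ≤ θ * ((τ * (q ^ (t + 1)) ^ t) * cnt (Om o w0)) := by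
      refine cnt_exists_le' (Q := fun a w => a ≠ pt0 K t ∧ (Om o w0 w ∧
        ((∑ i, rep a i • w i 0) ≠ 0 ∧ ∃ B ∈ Ub, ∀ j, (∑ i, rep a i • w i j) ∈ B.W)))
        (fun w hw => ?_) fun a => ?_
      · obtain ⟨⟨hO, hL⟩, a, ha, e⟩ := hw
        refine ⟨a, ha, hO, fun hz => ?_, _, e, fun j => ?_⟩
        · refine rep_ne a (funext fun i => ?_)
          have := LI_iff.1 hL (fun i j => if j = 0 then rep a i else 0) (by
            rw [← hz]
            refine sum_congr rfl fun i _ => ?_
            simp) i 0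
          simpa using this
        · rw [(hg w hL).2.1 a]
          exact Submodule.subset_span ⟨j, rfl⟩
      · by_cases ha : a ≠ pt0 K t
        · obtain ⟨i, hi, hi'⟩ := ne_pt0 ha
          refine (cnt_mono fun w hw => hw.2).trans (blk_bound o w0
            (fun w j => ∑ i, rep a i • w i j)
            (fun v => Pi.single i (Fin.cons 0 v : Fin (t + 1) → V)) hi' (fun v i' j h => ?_)
            (fun w v j => ?_) Ub hτ hU')
          · by_cases e : i' = i
            · subst e
              rcases h with h | h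
              · exact absurd h hi
              · simp [h.2]
            · simp [e]
          · simp only [Pi.add_apply, smul_add, sum_add_distrib]
            congr 1
            rw [sum_eq_single i]
            · simp
            · intro b _ hb; simp [hb]
            · simp
        · rw [cnt_zero fun w hw => ha hw.1]
          positivity
    have k2 : cnt (fun w => (Om o w0 w ∧ LI K w) ∧ ∃ b, (o → b ≠ pt0 K t) ∧ (g w).B b ∈ Ub)
        ≤ θ * ((τ * (q ^ (t + 1)) ^ t) * cnt (Om o w0)) := by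
      refine cnt_exists_le' (Q := fun b w => (o → b ≠ pt0 K t) ∧ (Om o w0 w ∧
        ((∑ j, rep b j • w 0 j) ≠ 0 ∧ ∃ B ∈ Ub, ∀ i, (∑ j, rep b j • w i j) ∈ B.W)))
        (fun w hw => ?_) fun b => ?_
      · obtain ⟨⟨hO, hL⟩, b, hb, e⟩ := hw
        refine ⟨b, hb, hO, fun hz => ?_, _, e, fun i => ?_⟩
        · refine rep_ne b (funext fun j => ?_)
          have := LI_iff.1 hL (fun i j => if i = 0 then rep b j else 0) (by
            rw [← hz]
            unfold be
            rw [sum_eq_single 0]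
            · simp
            · intro i _ hi; simp [hi]
            · simp) 0 j
          simpa using this
        · rw [(hg w hL).2.2.1 b]
          exact Submodule.subset_span ⟨i, rfl⟩
      · by_cases hb : o → b ≠ pt0 K t
        · obtain ⟨j, hj, hj'⟩ := free_col hb
          refine (cnt_mono fun w hw => hw.2).trans (blk_bound o w0
            (fun w i => ∑ j, rep b j • w i j)
            (fun v i => Pi.single j ((Fin.cons 0 v : Fin (t + 1) → V) i)) hj' (fun v i j' h => ?_)
            (fun w v i => ?_) Ub hτ hU')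
          · rcases h with h | h
            · simp [h]
            · have : j' ≠ j := fun e => hj h.1 (e ▸ h.2)
              simp [this]
          · simp only [Pi.add_apply, smul_add, sum_add_distrib]
            congr 1
            rw [sum_eq_single j]
            · simp
            · intro b _ hb; simp [hb]
            · simp
        · rw [cnt_zero fun w hw => hb hw.1]
          positivity
    have hc0 := cnt_nonneg fun w => Om o w0 w ∧ LI K w
    refine (cnt_le_add (fun w hw => hw.2.imp (fun h => ⟨hw.1, h⟩) fun h => ⟨hw.1, h⟩)).trans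
      ((add_le_add k1 k2).trans ?_)
    calc _ = 2 * θ * (τ * (q ^ (t + 1)) ^ t) * cnt (Om o w0) := by ring
      _ ≤ 2 * θ * (τ * (q ^ (t + 1)) ^ t) * (2 * cnt fun w => Om o w0 w ∧ LI K w) := by gcongr
      _ = (cnt fun w => Om o w0 w ∧ LI K w) * (4 * θ * (q ^ (t + 1)) ^ t * τ) := by ring
      _ ≤ _ := by
          gcongr
          exact le_add_of_nonneg_left (by positivity)

omit [Fintype V] in
/-- A basis of a block with prescribed first vector. -/
theorem exists_basis (B : Sub K V (t + 1)) {u : V} (hu : u ≠ 0) (hB : u ∈ B.W) :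
    ∃ f : Fin (t + 1) → V, LinearIndependent K f ∧ f 0 = u ∧
      Submodule.span K (Set.range f) = B.W := by
  have : FiniteDimensional K B.W := Module.finite_of_finrank_eq_succ B.h
  have key : ∀ m, m ≤ t → ∃ f : Fin (m + 1) → B.W, LinearIndependent K f ∧ f 0 = ⟨u, hB⟩ := by
    intro m
    induction m with
    | zero =>
      intro _
      refine ⟨fun _ : Fin 1 => ⟨u, hB⟩,
        (linearIndependent_unique_iff (ι := Fin 1)).2 fun h => hu ?_, rfl⟩
      exact congrArg Subtype.val h
    | succ m ih =>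
      intro hm
      obtain ⟨f, h1, h2⟩ := ih (by omega)
      obtain ⟨x, hx⟩ := exists_linearIndependent_snoc_of_lt_finrank h1 (by rw [B.h]; omega)
      refine ⟨_, hx, ?_⟩
      rw [← h2, ← Fin.castSucc_zero, Fin.snoc_castSucc]
  obtain ⟨f, h1, h2⟩ := key t le_rfl
  refine ⟨B.W.subtype ∘ f, h1.map' _ (Submodule.ker_subtype _), by simp [h2], ?_⟩
  rw [Set.range_comp, ← Submodule.map_span,
    h1.span_eq_top_of_card_eq_finrank (by rw [B.h, Fintype.card_fin]), Submodule.map_top,
    Submodule.range_subtype]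

omit [Fintype V] in
theorem exists_mem (B : Sub K V (t + 1)) : ∃ u, u ≠ 0 ∧ u ∈ B.W := by
  have h : B.W ≠ ⊥ := fun e => by
    have := B.h
    rw [e, finrank_bot] at this
    omega
  obtain ⟨u, h1, h2⟩ := Submodule.exists_mem_ne_zero_of_ne_bot h
  exact ⟨u, h2, h1⟩

end GridBP

open GridBP in
theorem gridB (h : S_GridA) (_h' : S_PCnt) : S_GridB := by
  intro K _ _ t _
  refine ⟨2 * (Fintype.card (Sub K (Fin (t + 1) → K) 1) : ℝ) ^ 2 * Fintype.card K
    + 4 * Fintype.card (Sub K (Fin (t + 1) → K) 1) * ((Fintype.card K : ℝ) ^ (t + 1)) ^ t,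
    (t + 1) * (t + 1) + 1, fun V _ _ _ D hn hD => ?_⟩
  classical
  have : Fintype V := Fintype.ofFinite V
  have hV : (Fintype.card V : ℝ) = (Fintype.card K : ℝ) ^ finrank K V := by
    rw [Module.card_eq_pow_finrank (K := K)]; push_cast; rfl
  rw [← hV] at hD
  have hn' : 2 * (Fintype.card (Fin (t + 1) → Fin (t + 1) → K) : ℝ) ≤ Fintype.card V := by
    have hq : (2 : ℝ) ≤ Fintype.card K := by exact_mod_cast Fintype.one_lt_card
    rw [hV, Fintype.card_fun, Fintype.card_fun, Fintype.card_fin]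
    push_cast
    rw [← pow_mul]
    calc _ ≤ (Fintype.card K : ℝ) ^ ((t + 1) * (t + 1) + 1) := by
          rw [pow_succ, mul_comm]; gcongr
      _ ≤ _ := pow_le_pow_right₀ (by linarith) hn
  refine ⟨fun B0 => ?_, fun B0 B1 hc => ?_⟩
  · obtain ⟨u, hu, hB⟩ := exists_mem B0
    obtain ⟨f, f1, -, f3⟩ := exists_basis B0 hu hB
    refine core h B0 none (fun _ => f) (fun c hc he i j => ?_) hn' hD f3 fun B1 e => by cases e
    have c0 : ∀ i j, i ≠ 0 → c i j = 0 := fun i j hi =>
      hc i j fun hf => hf.elim hi fun h => h.1 rfl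
    by_cases hi : i = 0
    · subst hi
      refine Fintype.linearIndependent_iff.1 f1 (c 0) ?_ j
      rw [← he]
      unfold be
      symm
      rw [sum_eq_single 0]
      · intro b _ hb; simp [c0 b _ hb]
      · simp
    · exact c0 i j hi
  · obtain ⟨p, hp⟩ := card_eq_one.1 hc
    have hp' : p ∈ gpts B0 ∩ gpts B1 := by rw [hp]; exact mem_singleton_self _
    rw [mem_inter, mem_gpts, mem_gpts, le_iff_rep, le_iff_rep] at hp'
    obtain ⟨f, f1, f2, f3⟩ := exists_basis B0 (rep_ne p) hp'.1
    obtain ⟨g, g1, g2, g3⟩ := exists_basis B1 (rep_ne p) hp'.2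
    have hm : ∀ x, x ∈ B0.W → x ∈ B1.W → ∃ l : K, l • g 0 = x := by
      intro x x0 x1
      by_cases hx : x = 0
      · exact ⟨0, by rw [hx, zero_smul]⟩
      · have : pnt K x hx ∈ gpts B0 ∩ gpts B1 :=
          mem_inter.2 ⟨mem_gpts.2 ((Submodule.span_singleton_le_iff_mem _ _).2 x0),
            mem_gpts.2 ((Submodule.span_singleton_le_iff_mem _ _).2 x1)⟩
        rw [hp, mem_singleton] at this
        have e : x ∈ p.W := by rw [← this]; exact Submodule.mem_span_singleton_self _
        rw [span_rep, ← g2] at e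
        exact Submodule.mem_span_singleton.1 e
    refine core h B0 (some B1) (fun i j => if i = 0 then f j else g i) (fun c hc he => ?_) hn' hD
      (by simpa using f3) fun B e => ?_
    · have c0 : ∀ i j, i ≠ 0 → j ≠ 0 → c i j = 0 := fun i j hi hj =>
        hc i j fun hf => hf.elim hi fun h => hj h.2
      have e1 : ∑ j, c 0 j • f j + ∑ l : Fin t, c l.succ 0 • g l.succ = 0 := by
        rw [← he]
        unfold be
        rw [Fin.sum_univ_succ (fun i => ∑ j, c i j • if i = 0 then f j else g i)]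
        congr 1
        refine sum_congr rfl fun l _ => ?_
        rw [sum_eq_single 0]
        · simp
        · intro b _ hb; simp [c0 _ b (Fin.succ_ne_zero l) hb]
        · simp
      have m0 : ∑ j, c 0 j • f j ∈ B0.W := by
        rw [← f3]
        exact sum_mem fun j _ => Submodule.smul_mem _ _ (Submodule.subset_span ⟨j, rfl⟩)
      have m1 : ∑ j, c 0 j • f j ∈ B1.W := by
        rw [eq_neg_of_add_eq_zero_left e1, ← g3]
        exact neg_mem (sum_mem fun j _ => Submodule.smul_mem _ _ (Submodule.subset_span ⟨_, rfl⟩))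
      obtain ⟨l, hl⟩ := hm _ m0 m1
      have e2 := Fintype.linearIndependent_iff.1 g1
        (Fin.cons l fun l : Fin t => c l.succ 0 : Fin (t + 1) → K) (by
          rw [Fin.sum_univ_succ]
          simp only [Fin.cons_zero, Fin.cons_succ]
          rw [hl, e1])
      have l0 : l = 0 := by simpa using e2 0
      rw [l0, zero_smul] at hl
      intro i j
      refine Fin.cases ?_ (fun i => ?_) i
      · exact Fintype.linearIndependent_iff.1 f1 (c 0) hl.symm j
      · by_cases hj : j = 0
        · subst hj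
          simpa using e2 i.succ
        · exact c0 _ j (Fin.succ_ne_zero i) hj
    · cases e
      rw [← g3]
      congr 2
      funext i
      by_cases hi : i = 0
      · rw [if_pos hi, hi, f2, g2]
      · rw [if_neg hi]

end Pool.Agent.P.MP_3b9ee7_co.Q
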