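import Pool.Agent.P.MP_3b9ee7_co.Q.Base

/-! The number of hyperplanes of `P` that contain `T`. -/

namespace Pool.Agent.P.MP_3b9ee7_co.Q

open Finset Module
open Pool.Agent.P.MP_77d020_co.L (ind fs cnt mem_fs)

theorem hyp (h : S_PCnt) : S_Hyp := by
  intro K V _ _ _ _ _ k P T hP hT
  haveI : Finite (Dual K P) := Finite.of_injective _ DFunLike.coe_injective
  haveI : FiniteDimensional K V := Module.Finite.of_finite
  have hc : ∀ U : Submodule K V, U ≤ P →
      finrank K U + finrank K (U.comap P.subtype).dualAnnihilator = k + 1 := fun U hU => by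
    rw [← hP, ← (Submodule.comapSubtypeEquivOfLe hU).finrank_eq]
    exact Subspace.finrank_add_finrank_dualAnnihilator_eq _
  have e : k + 1 - finrank K T = finrank K (T.comap P.subtype).dualAnnihilator := by
    have := hc T hT
    omega
  rw [e, ← h K (Dual K P) (T.comap P.subtype).dualAnnihilator]
  refine card_bij'
    (fun B hB => ⟨(B.W.comap P.subtype).dualAnnihilator, by
      have := hc B.W (mem_fs.1 hB).2
      rw [B.h] at this
      omega⟩)
    (fun p _ => ⟨p.W.dualCoannihilator.map P.subtype, by
      have := Subspace.finrank_add_finrank_dualCoannihilator_eq p.W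
      rw [p.h, hP] at this
      rw [Submodule.finrank_map_subtype_eq]
      omega⟩) (fun B hB => ?_) (fun p hp => ?_) (fun B hB => ?_) (fun p hp => ?_)
  · exact mem_fs.2 (Submodule.dualAnnihilator_anti (Submodule.comap_mono (mem_fs.1 hB).1))
  · refine mem_fs.2 ⟨?_, Submodule.map_subtype_le _ _⟩
    have h0 : p.W ≤ (T.comap P.subtype).dualAnnihilator := by
      simpa only [upts, mem_fs] using hp
    have h1 := Submodule.le_dualAnnihilator_iff_le_dualCoannihilator.1 h0
    have h2 := Submodule.map_mono (f := P.subtype) h1
    rwa [Submodule.map_comap_subtype, inf_eq_right.2 hT] at h2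
  · refine Sub.ext ?_
    simp only [Subspace.dualAnnihilator_dualCoannihilator_eq, Submodule.map_comap_subtype]
    exact inf_eq_right.2 (mem_fs.1 hB).2
  · refine Sub.ext ?_
    simp only [Submodule.comap_map_eq_of_injective P.injective_subtype,
      Subspace.dualCoannihilator_dualAnnihilator_eq]

end Pool.Agent.P.MP_3b9ee7_co.Q
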