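import Pool.Agent.P.MP_3b9ee7_co.Q.MainA

/-! The main theorem for designs with colours. -/

namespace Pool.Agent.P.MP_3b9ee7_co.Q

open Finset
open Pool.Agent.P.MP_77d020_co.L (ind fs cnt cnt_eq_add)

namespace MainP

variable {Pt Bl C : Type} [Fintype Pt] [Fintype Bl] [Fintype C] [DecidableEq Pt] [DecidableEq Bl]
  [DecidableEq C] {pts : Bl → Finset Pt}

/-- The absorber. -/
theorem absorber (hCS : S_CLSys) (hCR : S_CLReal) (hRed : S_Red) {θ lam : ℕ} {lg C0 ε ε' : ℝ}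
    (hD : Des pts θ (Fintype.card C) lam) (hH : (dsys C pts θ lg C0).Ok)
    (hS : (dsys C pts θ lg C0).Seg) (hdec : Dec pts C0) {X : Finset (Bl ⊕ Pt × C)}
    {S : Finset (Bl × C)} (hX : (dsys C pts θ lg C0).Sp X ε)
    (hL : (dsys C pts θ lg C0).Ld S (edg pts) ε)
    (hS2 : ∀ L ⊆ X, Adm pts (one L) → one L ∈ Lat (edg pts) fun e => e ∈ S)
    (n1 : lg ≤ ε * Fintype.card Pt) (he : ε' = 5000 * C0 * lg * (10 * C0 ^ 2 * ε))
    (n2 : 200 * C0 ^ 3 * ε' ≤ 1) :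
    ∃ A : Finset (Bl ⊕ Pt × C), Disjoint A X ∧ (dsys C pts θ lg C0).Sp X ε' ∧
      (dsys C pts θ lg C0).Sp A (200 * C0 ^ 2 * ε') ∧
      ∀ L ⊆ X, Adm pts (one L) → PM (edg pts) (A ∪ L) := by
  set H := dsys C pts θ lg C0 with hHd
  have hC : 2 ≤ C0 := hH.C2
  have l1 : 1 ≤ lg := hH.lg1
  have e0 : 0 < ε := hH.pos n1
  have hP : (1 : ℝ) ≤ Fintype.card Pt := hH.m1
  have c2 : 1 ≤ C0 ^ 2 := one_le_pow₀ (by linarith)
  have c3 : 1 ≤ C0 ^ 3 := one_le_pow₀ (by linarith)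
  have a1 : ε ≤ 10 * C0 ^ 2 * ε := by nlinarith
  have a0 : 1 ≤ 5000 * C0 * lg := by nlinarith
  have a2 : 10 * C0 ^ 2 * ε ≤ ε' := by rw [he]; nlinarith
  have a3 : ε' ≤ 1 := by nlinarith
  obtain ⟨K, hK, hK2⟩ := hRed _ _ _ pts θ lam lg C0 ε X S hD hH hdec hX hL
  obtain ⟨Sw, Lb, Ss, rt, lab, l0, hCL, hOn⟩ := hCS _ _ _ H X K _ hH (a2.trans a3)
    (n1.trans (mul_le_mul_of_nonneg_right a1 (by linarith))) (hX.mono hH a1) hK
  have hCL' : H.CL X Ss rt lab l0 ε' := by rw [he]; exact hCL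
  obtain ⟨A, h1, h2, h3⟩ := hCR _ _ _ _ _ H X Ss rt lab l0 ε' hH hS
    (n1.trans (mul_le_mul_of_nonneg_right (a1.trans a2) (by linarith))) n2
    (hX.mono hH (a1.trans a2)) hCL'
  refine ⟨A, h1, hX.mono hH (a1.trans a2), h2, fun L hLX hA => ?_⟩
  obtain ⟨a, ha, hb⟩ := hK2 L hLX (hS2 L hLX hA)
  exact h3 L hLX (hOn L hLX a ha hb)

omit [Fintype Pt] in
theorem bal_union {X A : Finset (Bl ⊕ Pt × C)} (hAX : Disjoint A X) (pA : PM (edg pts) A) (p : Pt) :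
    cnt (fun B => p ∈ pts B ∧ Sum.inl B ∈ X ∪ A) - cnt (fun c => Sum.inr (p, c) ∈ X ∪ A) =
      cnt (fun B => p ∈ pts B ∧ Sum.inl B ∈ X) - cnt (fun c => Sum.inr (p, c) ∈ X) := by
  rw [cnt_eq_add (Q := fun B => p ∈ pts B ∧ Sum.inl B ∈ X) (R := fun B => p ∈ pts B ∧ Sum.inl B ∈ A)
      (fun B => by rw [mem_union]; tauto) fun B h h' => disjoint_left.1 hAX h'.2 h.2,
    cnt_eq_add (Q := fun c => Sum.inr (p, c) ∈ X) (R := fun c => Sum.inr (p, c) ∈ A)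
      (fun c => mem_union) fun c h h' => disjoint_left.1 hAX h' h, adm_bal (adm_pm pA)]
  ring

end MainP

open MainP in
theorem main (hRG : S_RG) (hRes : S_Res) (hCov : S_Cover) (hCS : S_CLSys) (hCR : S_CLReal)
    (hB : S_Base) (hBo : S_Boost) (hSup : S_Sup) (hRed : S_Red) (hSeg : S_SegC) : S_Main := by
  intro θ c
  obtain ⟨a, γ0, ha, hγ0, hRG⟩ := hRG (θ + 1)
  obtain ⟨Cs, hSeg⟩ := hSeg θ c
  obtain ⟨C0, c1, c2, c3⟩ : ∃ C0 : ℝ, c ≤ C0 ∧ Cs ≤ C0 ∧ 4 * (θ : ℝ) + 2 ≤ C0 :=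
    ⟨max (max c Cs) (4 * θ + 2), (le_max_left _ _).trans (le_max_left _ _),
      (le_max_right _ _).trans (le_max_left _ _), le_max_right _ _⟩
  obtain ⟨C1, hC1, hSup⟩ := hSup C0
  obtain ⟨r, hr⟩ : ∃ r, r = θ + 1 := ⟨_, rfl⟩
  obtain ⟨N, hN⟩ : ∃ N, N = (4 * r + 1) * a := ⟨_, rfl⟩
  have hN1 : 4 * r + 1 ≤ N := by rw [hN]; exact Nat.le_mul_of_pos_right _ ha
  refine ⟨2 * N + 10, 10 ^ 10 * C0 ^ 7 * C1 + 1 / γ0, ?_⟩
  intro Pt Bl C _ _ _ _ _ _ pts lam x h hD hx hP hs hPD hh hgen hdec hgr hsp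
  obtain ⟨P, hPd⟩ : ∃ P : ℝ, P = Fintype.card Pt := ⟨_, rfl⟩
  obtain ⟨D, hDd⟩ : ∃ D : ℝ, D = Fintype.card C := ⟨_, rfl⟩
  have C2 : 2 ≤ C0 := by have : (0 : ℝ) ≤ θ := Nat.cast_nonneg _; linarith
  have ig : 0 < 1 / γ0 := by positivity
  have pw : ∀ j ≤ 7, C0 ^ j ≤ C0 ^ 7 := fun j hj => pow_le_pow_right₀ (by linarith) hj
  have c7 : 1 ≤ C0 ^ 7 := one_le_pow₀ (by linarith)
  have xb : 10 ^ 10 * C0 ^ 7 * C1 ≤ x := by linarith
  have xc : ∀ j ≤ 7, 10 ^ 10 * C0 ^ j ≤ x := fun j hj => by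
    have := pw j hj
    nlinarith only [this, xb, hC1, c7]
  have x0 := xc 0 (by norm_num)
  have x1 := xc 1 (by norm_num)
  have x2 := xc 2 (by norm_num)
  rw [pow_zero] at x0
  rw [pow_one] at x1
  have xp : 0 < x := by linarith
  have xo : 1 ≤ x := by linarith
  have key : ∀ (A : ℝ) (j : ℕ), A ≤ x → j ≤ 2 * N + 9 → A * x ^ j ≤ P := fun A j hA hj => by
    calc A * x ^ j ≤ x * x ^ j := by gcongr
      _ = x ^ (j + 1) := by ring
      _ ≤ x ^ (2 * N + 10) := pow_le_pow_right₀ xo (by omega)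
      _ ≤ P := hPd ▸ hP
  have P1 : x ≤ P := by simpa using key x 0 le_rfl (by omega)
  have Pp : 0 < P := by linarith
  have D0 : 0 ≤ D := hDd ▸ Nat.cast_nonneg _
  have hPD' : P ^ 2 ≤ C0 * D := by
    rw [hPd, hDd]; exact hPD.trans (mul_le_mul_of_nonneg_right c1 (Nat.cast_nonneg _))
  have hle : P ≤ D := by
    by_contra h1
    nlinarith only [not_le.1 h1, hPD', P1, x1, C2, D0, Pp]
  have hle' : Fintype.card Pt ≤ Fintype.card C := by
    rw [hPd, hDd] at hle; exact_mod_cast hle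
  have hH := hB _ _ _ pts θ lam x C0 hD hle' c3 xo hs
  have hS := hSeg _ _ _ pts lam x C0 c2 hD hle' hgr
  obtain ⟨ε, hε⟩ : ∃ ε : ℝ, ε = 1 / x ^ 2 := ⟨_, rfl⟩
  obtain ⟨γ, hγ⟩ : ∃ γ : ℝ, γ = 1 / x ^ (4 * r + 1) := ⟨_, rfl⟩
  have hγa : γ ^ a = 1 / x ^ N := by rw [hγ, hN, one_div_pow, ← pow_mul]
  have e0 : 0 < ε := by rw [hε]; positivity
  have g0 : 0 < γ := by rw [hγ]; positivity
  have xx : x ≤ x ^ 2 := by nlinarith only [xo]
  have e4 : 4 * ε ≤ 1 := by rw [hε, mul_one_div, div_le_one (by positivity)]; linarith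
  have ge : γ ^ a ≤ ε := by
    rw [hγa, hε]
    exact one_div_le_one_div_of_le (by positivity) (pow_le_pow_right₀ xo (by omega))
  have ga : 0 < γ ^ a := pow_pos g0 a
  obtain ⟨X, hX, hbal, hR⟩ := reserve (ε := ε) (ξ := γ ^ a / 6) hRes hD hH e0 (by linarith)
    (by positivity) (by linarith) hs
    (by
      have := key 3600 (2 * N + 1) (by linarith) (by omega)
      rw [← hPd, hγa, div_pow, one_div_pow, ← pow_mul, div_mul_eq_mul_div, div_mul_eq_mul_div,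
        le_div_iff₀ (by positivity), le_div_iff₀ (by positivity)]
      calc 100 * x * 6 ^ 2 * x ^ (N * 2) = 3600 * x ^ (2 * N + 1) := by ring
        _ ≤ 1 * P := by linarith)
    (by
      have := key (200 * C0 ^ 2) (2 * r + 1) (by linarith) (by omega)
      rw [← hPd, hε, ← hr, one_div_pow, ← pow_mul, div_mul_eq_mul_div, le_div_iff₀ (by positivity)]
      calc 200 * C0 ^ 2 * x * x ^ (2 * r) = 200 * C0 ^ 2 * x ^ (2 * r + 1) := by ring
        _ ≤ 1 * P := by linarith)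
  have eP : 4 * ε * P = 4 * P / x ^ 2 := by rw [hε]; ring
  have s1 : x ≤ 4 * ε * P := by
    have := key 1 3 xo (by omega)
    rw [eP, le_div_iff₀ (by positivity)]
    linarith only [this, Pp]
  obtain ⟨S, hSl, hS2⟩ := hSup _ _ _ pts θ lam x h (4 * ε) X hD hH (gen_mono hgen c1) e4
    (hPd ▸ s1)
    (by
      have k1 := key C0 4 (by linarith) (by omega)
      have k2 : h ^ 2 ≤ C0 * P := by
        rw [hPd]; exact hh.trans (mul_le_mul_of_nonneg_right c1 (Nat.cast_nonneg _))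
      rw [← hPd, eP]
      refine abs_le_of_sq_le_sq' (k2.trans ?_) (by positivity) |>.2
      rw [div_pow, le_div_iff₀ (by positivity)]
      nlinarith only [k1, Pp])
    (by
      have k1 := key C0 5 (by linarith) (by omega)
      have k2 : C0 * (P * x ^ 5) ≤ C0 * D := by nlinarith only [k1, Pp, hPD']
      have k3 : P * x ^ 5 ≤ D := le_of_mul_le_mul_left k2 (by linarith)
      rw [← hPd, ← hDd, hε, mul_one_div, div_pow, div_mul_eq_mul_div, le_div_iff₀ (by positivity)]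
      linarith only [k3, D0]) hX
  obtain ⟨ε', hε'⟩ : ∃ ε' : ℝ, ε' = 5000 * C0 * x * (10 * C0 ^ 2 * (C1 * (4 * ε))) := ⟨_, rfl⟩
  have ee : ε' = 200000 * C0 ^ 3 * C1 / x := by rw [hε', hε]; field_simp; norm_num
  have u1 : 4 * ε ≤ C1 * (4 * ε) := by nlinarith only [hC1, e0]
  have u2 : 20100 * C0 ^ 4 * ε' ≤ 1 := by
    rw [ee, ← mul_div_assoc, div_le_one xp]
    have : 0 ≤ C0 ^ 7 * C1 := by positivity
    linarith only [this, xb]
  have u0 : 0 < ε' := by rw [ee]; positivity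
  have u3 : C0 ^ 3 ≤ C0 ^ 4 := pow_le_pow_right₀ (by linarith) (by norm_num)
  obtain ⟨A, hAX, hX', hA, hA2⟩ := absorber hCS hCR hRed hD hH hS (dec_mono hdec c1)
    (hX.mono hH u1) hSl hS2 (by rw [← hPd]; nlinarith only [s1, u1, Pp]) hε'
    (by nlinarith only [u0, u2, u3, pow_pos (by linarith : 0 < C0) 3])
  have pA : PM (edg pts) A := by
    have := hA2 ∅ (empty_subset _) (adm_pm PM.empty)
    rwa [union_empty] at this
  have c22 : 1 ≤ C0 ^ 2 := one_le_pow₀ (by linarith)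
  have u4 : ε ≤ ε' := by
    have v1 : 1 ≤ 5000 * C0 * x := by nlinarith only [C2, xo]
    have v2 : ε ≤ 10 * C0 ^ 2 * (C1 * (4 * ε)) := by nlinarith only [c22, u1, e0]
    rw [hε']; nlinarith only [v1, v2, e0]
  obtain ⟨φ, f1, f2, f3⟩ := hBo _ _ _ pts θ lam x C0 (201 * C0 ^ 2 * ε') (2 * (γ ^ a / 6)) (X ∪ A)
    hD hH (by positivity) (by nlinarith only [c22, u4, ge, u0, ga]) (by linarith only [u2])
    ((hX'.union hA).mono hH (by nlinarith only [c22, u0])) fun p => by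
      rw [bal_union hAX pA]; exact hbal p
  have xr : x ≤ x ^ (4 * r + 1) := le_self_pow₀ xo (by omega)
  refine finish (γ := γ) (κ := ε ^ (θ + 1) / 4) hCov hD hH hsp
    (fun V E F _ Vs Es Fs ed φ Z s => hRG V E F Vs Es Fs ed φ Z s γ (by have := hD.th2; omega) g0 ?_)
    hAX hA2 hR f1 f2 (fun v hv => (f3 v hv).trans (le_of_eq (by ring))) g0 (by positivity) ?_ ?_
    ?_ ?_ ?_
  · rw [hγ, div_le_iff₀ (by positivity)]
    have : 1 / γ0 ≤ x ^ (4 * r + 1) := by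
      have : 0 ≤ C0 ^ 7 * C1 := by positivity
      linarith only [this, hx, xr]
    rw [div_le_iff₀ hγ0] at this
    linarith
  · have : ε ^ (θ + 1) ≤ 1 := pow_le_one₀ e0.le (by linarith)
    linarith
  · have := key (2 * C0) N (by linarith) (by omega)
    rw [← hPd, hγa, div_mul_eq_mul_div, le_div_iff₀ (by positivity)]
    linarith
  · rw [hγ, one_div_one_div]; exact xr
  · have := key 1 (4 * r + 2) xo (by omega)
    rw [← hPd, hγ, mul_one_div, div_mul_eq_mul_div, le_div_iff₀ (by positivity)]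
    calc x * x ^ (4 * r + 1) = 1 * x ^ (4 * r + 2) := by ring
      _ ≤ 2 * P := by linarith
  · rw [← hr, hγ, hε, one_div_pow, ← pow_mul]
    have e1 : 20 * C0 ^ 2 * (2 * (1 / x ^ (4 * r + 1))) = (40 * C0 ^ 2 / x) / x ^ (4 * r) := by
      field_simp; ring
    have e2 : (1 / x ^ (2 * r) / 4) ^ 2 = (1 / 16) / x ^ (4 * r) := by
      field_simp; ring
    rw [e1, e2]
    refine div_le_div_of_nonneg_right ?_ (by positivity)
    rw [div_le_iff₀ xp]
    linarith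

end Pool.Agent.P.MP_3b9ee7_co.Q
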