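import Pool.Agent.P.MP_3b9ee7_co.Q.Base

/-! Reduction modulo `N` and decoding. -/

namespace Pool.Agent.P.MP_3b9ee7_co.Q

open Finset
open Pool.Agent.P.MP_77d020_co.L (ind fs cnt ind_pos ind_neg ind_nonneg cnt_eq_sum cnt_nonneg)

namespace RedP

theorem red0 {C : Type} [Fintype C] [DecidableEq C] (z : C → ℤ) {N : ℤ} (hN : 0 < N)
    (h0 : 0 ≤ ∑ c, z c) (h1 : ∑ c, z c ≤ 1) :
    ∃ z' w : C → ℤ, (∀ c, z c - z' c = N * w c) ∧ ∑ c, z' c = ∑ c, z c ∧ (∀ c, |z' c| ≤ N) ∧
      ∀ c, z c = 0 → z' c = 0 := by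
  set A : Finset C := univ.filter fun c => z c ≠ 0 with hA
  set r : C → ℤ := fun c => if z c = 0 then 0 else (z c - 1) % N + 1 with hr
  set u : C → ℤ := fun c => if z c = 0 then 0 else (z c - 1) / N with hu
  have hru : ∀ c, z c - r c = N * u c := fun c => by
    simp only [hr, hu]
    split_ifs with h
    · simp [h]
    · have := Int.emod_add_mul_ediv (z c - 1) N
      linarith
  have hr1 : ∀ c ∈ A, 1 ≤ r c ∧ r c ≤ N := fun c hc => by
    have h : z c ≠ 0 := (mem_filter.1 hc).2
    simp only [hr, if_neg h]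
    have := Int.emod_nonneg (z c - 1) hN.ne'
    have := Int.emod_lt_of_pos (z c - 1) hN
    omega
  have hsum : ∑ c, r c = ∑ c ∈ A, r c := by
    refine (sum_subset (subset_univ A) fun c _ hc => ?_).symm
    have h : z c = 0 := by simpa [hA] using hc
    simp [hr, h]
  have lo : (A.card : ℤ) ≤ ∑ c, r c := by
    rw [hsum]
    simpa using card_nsmul_le_sum A r 1 fun c hc => (hr1 c hc).1
  have hi : ∑ c, r c ≤ A.card * N := by
    rw [hsum]
    simpa using sum_le_card_nsmul A r N fun c hc => (hr1 c hc).2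
  have hz : ∑ c, z c ≤ A.card := by
    rcases A.eq_empty_or_nonempty with h | h
    · have : ∑ c, z c = 0 := sum_eq_zero fun c _ => by
        by_contra hc
        have : c ∈ A := mem_filter.2 ⟨mem_univ _, hc⟩
        simp [h] at this
      simp [this]
    · have : (1 : ℤ) ≤ A.card := by exact_mod_cast h.card_pos
      linarith
  have ht : ∑ c, z c - ∑ c, r c = N * ∑ c, u c := by
    rw [← sum_sub_distrib, mul_sum]; exact sum_congr rfl fun c _ => hru c
  have t0 : 0 ≤ -∑ c, u c := by nlinarith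
  have t1 : -∑ c, u c ≤ A.card := by nlinarith
  obtain ⟨t, ht'⟩ := Int.eq_ofNat_of_zero_le t0
  obtain ⟨T, hT, hc⟩ := exists_subset_card_eq (s := A) (n := t) (by omega)
  refine ⟨fun c => r c - N * one T c, fun c => u c + one T c, fun c => ?_, ?_, fun c => ?_,
    fun c h => ?_⟩
  · linear_combination hru c
  · have : ∑ c, one T c = t := by simp [one, hc]
    rw [sum_sub_distrib, ← mul_sum, this]
    linear_combination -ht + N * ht'
  · show |r c - N * one T c| ≤ N
    by_cases h : c ∈ T
    · have := hr1 c (hT h)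
      rw [one_of_mem h, abs_le]; omega
    · rw [one_of_notMem h, abs_le]
      by_cases h' : c ∈ A
      · have := hr1 c h'
        omega
      · have h2 : z c = 0 := by simpa [hA] using h'
        simp only [hr, if_pos h2]; omega
  · have h' : c ∉ T := fun hc => (mem_filter.1 (hT hc)).2 h
    simp [one_of_notMem h', hr, h]

variable {Pt Bl C : Type} [Fintype Pt] [Fintype Bl] [Fintype C] [DecidableEq Pt] [DecidableEq Bl]
  [DecidableEq C]

/-- The bound for the quotient. -/
def mm (pts : Bl → Finset Pt) (X : Finset (Bl ⊕ Pt × C)) (S : Finset (Bl × C)) (p : Pt) (c : C) :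
    ℕ :=
  (if Sum.inr (p, c) ∈ X then 1 else 0) + ∑ B, if (B, c) ∈ S ∧ p ∈ pts B then 1 else 0

omit [Fintype Pt] [Fintype C] in
theorem mm_cast (pts : Bl → Finset Pt) (X : Finset (Bl ⊕ Pt × C)) (S : Finset (Bl × C)) (p : Pt)
    (c : C) : (mm pts X S p c : ℝ) =
      ind (Sum.inr (p, c) ∈ X) + ∑ B, ind ((B, c) ∈ S) * ind (p ∈ pts B) := by
  unfold mm
  push_cast
  congr 1
  · split_ifs with h
    · rw [ind_pos h]
    · rw [ind_neg h]
  · refine sum_congr rfl fun B _ => ?_
    by_cases h1 : (B, c) ∈ S <;> by_cases h2 : p ∈ pts B <;> simp [h1, h2, ind]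

omit [Fintype Pt] [DecidableEq Pt] [DecidableEq Bl] [DecidableEq C] in
theorem sum_S (S : Finset (Bl × C)) (F : Bl × C → ℝ) :
    ∑ e ∈ S, F e = ∑ e, ind (e ∈ S) * F e := by
  rw [← sum_subset (subset_univ S)]
  · exact sum_congr rfl fun e he => by rw [ind_pos he, one_mul]
  · intro e _ he; rw [ind_neg he, zero_mul]

theorem repr (pts : Bl → Finset Pt) (X : Finset (Bl ⊕ Pt × C)) (S : Finset (Bl × C)) (N : ℕ)
    (σ : Pt → Bl → ℤ) (hN : 0 < N) (hσ : ∀ p y, bd pts (σ p) y = if y = p then (N : ℤ) else 0)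
    (L : Finset (Bl ⊕ Pt × C)) (hL : L ⊆ X) (h : one L ∈ Lat (edg pts) fun e => e ∈ S) :
    ∃ a : Bl × C → ℤ, (∀ e, |a e| ≤
      (((if e ∈ S then N else 0) + ∑ p, (σ p e.1).natAbs * mm pts X S p e.2 : ℕ) : ℤ)) ∧
      bd (edg pts) a = one L := by
  obtain ⟨z, hz, hb⟩ := h
  have hN' : (0 : ℤ) < N := by exact_mod_cast hN
  have hB : ∀ B, ∑ c, z (B, c) = one L (Sum.inl B) := fun B => by rw [← hb, bd_edg_inl]
  have hP : ∀ p c, bd pts (fun B => z (B, c)) p = one L (Sum.inr (p, c)) := fun p c => by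
    rw [← hb, bd_edg_inr]
  have := fun B => red0 (fun c => z (B, c)) hN'
    (by rw [hB]; unfold one; split_ifs <;> simp) (by rw [hB]; unfold one; split_ifs <;> simp)
  choose z' w h1 h2 h3 h4 using this
  set ρ : Pt → C → ℤ := fun p c => bd pts (fun B => w B c) p with hρ
  have hw : ∀ B, ∑ c, w B c = 0 := fun B => by
    have : (N : ℤ) * ∑ c, w B c = 0 := by
      rw [mul_sum, ← sum_congr rfl fun c _ => h1 B c, sum_sub_distrib, h2, sub_self]
    exact (mul_eq_zero.1 this).resolve_left hN'.ne'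
  have hρ0 : ∀ p, ∑ c, ρ p c = 0 := fun p => by
    simp only [hρ, bd]
    rw [sum_comm]
    refine sum_eq_zero fun B _ => ?_
    split_ifs
    · exact hw B
    · simp
  have hρ1 : ∀ p c, N * ρ p c = one L (Sum.inr (p, c)) - bd pts (fun B => z' B c) p := by
    intro p c
    rw [← hP]
    simp only [hρ, bd, mul_sum, ← sum_sub_distrib]
    refine sum_congr rfl fun B _ => ?_
    split_ifs
    · exact (h1 B c).symm
    · simp
  have hz' : ∀ B c, |z' B c| ≤ if (B, c) ∈ S then (N : ℤ) else 0 := fun B c => by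
    split_ifs with hS
    · exact h3 B c
    · have : z (B, c) = 0 := by by_contra h0; exact hS (hz _ h0)
      rw [h4 B c this, abs_zero]
  have hρ2 : ∀ p c, |ρ p c| ≤ mm pts X S p c := fun p c => by
    refine le_of_mul_le_mul_left ?_ hN'
    rw [← abs_of_pos hN', ← abs_mul, hρ1, abs_of_pos hN']
    refine (abs_sub _ _).trans ?_
    unfold mm
    push_cast
    rw [mul_add, mul_sum]
    refine add_le_add ?_ ((abs_sum_le_sum_abs _ _).trans (sum_le_sum fun B _ => ?_))
    · unfold one
      by_cases h5 : Sum.inr (p, c) ∈ L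
      · rw [if_pos h5, if_pos (hL h5)]; simp; omega
      · rw [if_neg h5]; split_ifs <;> simp
    · have := hz' B c
      by_cases h5 : (B, c) ∈ S <;> by_cases h6 : p ∈ pts B <;> simp_all
  refine ⟨fun e => z' e.1 e.2 + ∑ p, ρ p e.2 * σ p e.1, fun e => ?_, ?_⟩
  · push_cast
    refine (abs_add_le _ _).trans (add_le_add (hz' e.1 e.2)
      ((abs_sum_le_sum_abs _ _).trans (sum_le_sum fun p _ => ?_)))
    rw [abs_mul, mul_comm]
    exact mul_le_mul_of_nonneg_left (hρ2 p e.2) (abs_nonneg _)
  · funext v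
    rcases v with B | ⟨y, c⟩
    · rw [bd_edg_inl, sum_add_distrib, h2, hB, sum_comm]
      simp only [← sum_mul, hρ0, zero_mul, sum_const_zero, add_zero]
    · rw [bd_edg_inr]
      have e : (fun B => z' B c + ∑ p, ρ p c * σ p B)
          = (fun B => z' B c) + ∑ p, ρ p c • σ p := by
        funext B; simp [Finset.sum_apply]
      simp only
      rw [e, bd_add, bd_sum]
      simp only [bd_smul, Pi.add_apply, Finset.sum_apply, Pi.smul_apply, smul_eq_mul, hσ]
      rw [sum_eq_single y]
      · rw [if_pos rfl]; linear_combination hρ1 y c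
      · intro p _ hp; rw [if_neg hp.symm, mul_zero]
      · simp

end RedP

open RedP in
theorem red : S_Red := by
  intro Pt Bl C _ _ _ _ _ _ pts θ lam lg C0 ε X S hD hH hDec hX hS
  obtain ⟨N, σ, hN, hNc, hσ, hσ1, hσ2⟩ := hDec
  refine ⟨fun e => (if e ∈ S then N else 0) + ∑ p, (σ p e.1).natAbs * mm pts X S p e.2, ?_,
    fun L hL h => repr pts X S N σ hN hσ L hL h⟩
  have hC := hH.C2
  have hθ : (θ : ℝ) ≤ C0 := by
    have := hH.rC
    simp only [dsys] at this
    push_cast at this
    linarith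
  change (2 : ℝ) ≤ C0 at hC
  have key : ∀ f, ∑ e : Bl × C,
      (((if e ∈ S then N else 0) + ∑ p, (σ p e.1).natAbs * mm pts X S p e.2 : ℕ) : ℝ)
        * ((tst pts f ∩ edg pts e).card : ℝ)
      = N * ∑ e ∈ S, ((tst pts f ∩ edg pts e).card : ℝ)
        + ∑ e : Bl × C, ∑ p, |(σ p e.1 : ℝ)| * mm pts X S p e.2
          * ((tst pts f ∩ edg pts e).card : ℝ) := fun f => by
    rw [sum_S S, mul_sum, ← sum_add_distrib]
    refine sum_congr rfl fun e _ => ?_
    rw [← sum_mul]
    push_cast
    simp only [Nat.cast_natAbs, Int.cast_abs]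
    split_ifs with h
    · rw [ind_pos h]; ring
    · rw [ind_neg h]; ring
  intro f
  have hs := hS f
  have hx := hX f
  have h0 : 0 ≤ ε * (dsys C pts θ lg C0).s f := (Nat.cast_nonneg _).trans hx
  have a1 : (N : ℝ) * ∑ e ∈ S, ((tst pts f ∩ edg pts e).card : ℝ)
      ≤ C0 * (ε * (dsys C pts θ lg C0).s f) :=
    mul_le_mul hNc hs (sum_nonneg fun _ _ => Nat.cast_nonneg _) (by linarith)
  have a2 : ∑ e : Bl × C, ∑ p, |(σ p e.1 : ℝ)| * mm pts X S p e.2
      * ((tst pts f ∩ edg pts e).card : ℝ) ≤ 4 * C0 ^ 2 * (ε * (dsys C pts θ lg C0).s f) := by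
    rcases f with y | c
    · have hm : ∀ p, ∑ c, (mm pts X S p c : ℝ) ≤ 2 * (ε * Fintype.card C) := fun p => by
        have b1 := hX (Sum.inl p)
        have b2 := hS (Sum.inl p)
        simp only [dsys, Sum.elim_inl] at b1 b2
        rw [card_tst_inl, cnt_eq_sum (fun c => Sum.inr (p, c) ∈ X)] at b1
        simp only [card_tst_inl_edg] at b2
        rw [sum_S, Fintype.sum_prod_type_right] at b2
        simp only [mm_cast, sum_add_distrib]
        have b3 : ∑ c, ∑ B, ind ((B, c) ∈ S) * ind (p ∈ pts B)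
            ≤ ∑ c, ∑ B, ind ((B, c) ∈ S) * (2 * ind (p ∈ pts B)) :=
          sum_le_sum fun c _ => sum_le_sum fun B _ =>
            mul_le_mul_of_nonneg_left (by linarith [ind_nonneg (p ∈ pts B)]) (ind_nonneg _)
        linarith [cnt_nonneg fun B => p ∈ pts B ∧ Sum.inl B ∈ X]
      simp only [dsys, Sum.elim_inl] at h0 ⊢
      calc _ = ∑ p, ∑ B, 2 * (ind (y ∈ pts B) * |(σ p B : ℝ)|) * ∑ c, (mm pts X S p c : ℝ) := by
            rw [sum_comm]
            refine sum_congr rfl fun p _ => ?_
            rw [Fintype.sum_prod_type]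
            refine sum_congr rfl fun B _ => ?_
            rw [mul_sum]
            refine sum_congr rfl fun c _ => ?_
            rw [card_tst_inl_edg]; ring
        _ ≤ ∑ p, ∑ B, 2 * (ind (y ∈ pts B) * |(σ p B : ℝ)|) * (2 * (ε * Fintype.card C)) :=
            sum_le_sum fun p _ => sum_le_sum fun B _ => mul_le_mul_of_nonneg_left (hm p)
              (mul_nonneg zero_le_two (mul_nonneg (ind_nonneg _) (abs_nonneg _)))
        _ = 4 * (∑ p, ∑ B, ind (y ∈ pts B) * |(σ p B : ℝ)|) * (ε * Fintype.card C) := by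
            simp only [← sum_mul, ← mul_sum]; ring
        _ ≤ _ := by
            refine mul_le_mul_of_nonneg_right ?_ h0
            nlinarith [hσ2 y]
    · have hm : ∑ p, (mm pts X S p c : ℝ) ≤ 2 * (ε * Fintype.card Pt) := by
        simp only [dsys, Sum.elim_inr] at hx hs
        rw [card_tst_inr, cnt_eq_sum] at hx
        simp only [card_tst_inr_edg] at hs
        rw [sum_S, Fintype.sum_prod_type] at hs
        simp only [mm_cast, sum_add_distrib]
        have b3 : ∑ p, ∑ B, ind ((B, c) ∈ S) * ind (p ∈ pts B)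
            = ∑ B, ∑ c', ind ((B, c') ∈ S) * (((pts B).card : ℝ) * ind (c' = c)) := by
          rw [sum_comm]
          refine sum_congr rfl fun B _ => ?_
          rw [sum_eq_single c, ← mul_sum, ← card_inter_eq_sum, univ_inter, ind_pos rfl, mul_one]
          · intro b _ hb; rw [ind_neg hb]; simp
          · simp
        linarith
      simp only [dsys, Sum.elim_inr] at h0 ⊢
      calc _ = ∑ p, θ * (∑ B, |(σ p B : ℝ)|) * (mm pts X S p c : ℝ) := by
            rw [sum_comm]
            refine sum_congr rfl fun p _ => ?_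
            rw [Fintype.sum_prod_type, mul_sum, sum_mul]
            refine sum_congr rfl fun B _ => ?_
            rw [sum_eq_single c, card_tst_inr_edg, hD.card, ind_pos rfl]
            · ring
            · intro b _ hb; rw [card_tst_inr_edg, ind_neg hb]; simp
            · simp
        _ ≤ ∑ p, C0 * C0 * (mm pts X S p c : ℝ) :=
            sum_le_sum fun p _ => mul_le_mul_of_nonneg_right
              (mul_le_mul hθ (hσ1 p) (sum_nonneg fun _ _ => abs_nonneg _) (by linarith))
              (Nat.cast_nonneg _)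
        _ ≤ C0 * C0 * (2 * (ε * Fintype.card Pt)) := by
            rw [← mul_sum]; exact mul_le_mul_of_nonneg_left hm (by positivity)
        _ ≤ _ := by nlinarith [mul_nonneg (sq_nonneg C0) h0]
  refine (key f).le.trans ?_
  have : C0 ≤ C0 ^ 2 := by nlinarith
  nlinarith [mul_le_mul_of_nonneg_right this h0, mul_nonneg (sq_nonneg C0) h0]

end Pool.Agent.P.MP_3b9ee7_co.Q
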