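import Pool.Agent.P.MP_3b9ee7_co.Q.Base

/-! Lattice relations between indicator vectors of subspaces. -/

namespace Pool.Agent.P.MP_3b9ee7_co.Q

open Finset Module
open Pool.Agent.P.MP_77d020_co.L (ind fs cnt mem_fs)

namespace Rel1P

variable {K V : Type} [Field K] [AddCommGroup V] [Module K V] [Finite V]

theorem ext_dim (T U : Submodule K V) (hTU : T ≤ U) (n : ℕ) (h : finrank K T + n ≤ finrank K U) :
    ∃ Q : Submodule K V, T ≤ Q ∧ Q ≤ U ∧ finrank K Q = finrank K T + n := by
  have : Module.Finite K V := Module.Finite.of_finite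
  induction n with
  | zero => exact ⟨T, le_rfl, hTU, rfl⟩
  | succ n ih =>
    obtain ⟨Q, h1, h2, h3⟩ := ih (by omega)
    have h4 : ¬ U ≤ Q := fun h5 => by
      have := Submodule.finrank_mono h5
      omega
    obtain ⟨v, hv, hv'⟩ := SetLike.not_le_iff_exists.1 h4
    refine ⟨Q ⊔ Submodule.span K {v}, h1.trans le_sup_left,
      sup_le h2 ((Submodule.span_singleton_le_iff_mem _ _).2 hv), ?_⟩
    rw [Submodule.finrank_sup_span_singleton hv', h3]
    omega

theorem rank_null (W : Submodule K V) (φ : V →ₗ[K] V) :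
    finrank K (W.map φ) + finrank K (W ⊓ LinearMap.ker φ : Submodule K V) = finrank K W := by
  have : Module.Finite K V := Module.Finite.of_finite
  have h := LinearMap.finrank_range_add_finrank_ker (φ.domRestrict W)
  rw [LinearMap.range_domRestrict, LinearMap.ker_domRestrict] at h
  rw [← h]
  congr 1
  have e : Submodule.comap W.subtype (LinearMap.ker φ)
      = Submodule.comap W.subtype (W ⊓ LinearMap.ker φ) := by
    ext x
    simp
  rw [e]
  exact (Submodule.comapSubtypeEquivOfLe inf_le_left).finrank_eq.symm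

theorem dim_inf (T : Submodule K V) (y : Sub K V 1) :
    (y.W ≤ T → finrank K (T ⊓ y.W : Submodule K V) = 1) ∧
    (¬ y.W ≤ T → finrank K (T ⊓ y.W : Submodule K V) = 0 ∧
      finrank K (T ⊔ y.W : Submodule K V) = finrank K T + 1) := by
  have : Module.Finite K V := Module.Finite.of_finite
  refine ⟨fun h => by rw [inf_eq_right.2 h, y.h], fun h => ?_⟩
  have h1 : finrank K (T ⊔ y.W : Submodule K V) = finrank K T + 1 := by
    rw [span_rep y]
    exact Submodule.finrank_sup_span_singleton fun h2 => h (le_iff_rep.2 h2)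
  have h2 := Submodule.finrank_sup_add_finrank_inf_eq T y.W
  rw [y.h] at h2
  exact ⟨by omega, h1⟩

variable [Fintype K]

theorem key (h : S_Hyp) (k j : ℕ) (P T : Submodule K V) (hP : finrank K P = k + 1) (hT : T ≤ P)
    (hj : finrank K T + j = k) :
    (Fintype.card K ^ j : ℕ) • one (upts T) + th (Fintype.card K) j • one (upts P) ∈ GamU k P := by
  classical
  refine ⟨one (fs fun B : Sub K V k => T ≤ B.W ∧ B.W ≤ P), fun B hB => ?_, ?_⟩
  · by_contra h1
    exact hB (one_of_notMem fun h2 => h1 (mem_fs.1 h2).2)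
  funext y
  have e : bd gpts (one (fs fun B : Sub K V k => T ≤ B.W ∧ B.W ≤ P)) y
      = ((fs fun B : Sub K V k => T ⊔ y.W ≤ B.W ∧ B.W ≤ P).card : ℤ) := by
    rw [bd, card_eq_sum_ones, Nat.cast_sum, ← sum_subset (subset_univ
      (fs fun B : Sub K V k => T ⊔ y.W ≤ B.W ∧ B.W ≤ P))]
    · refine sum_congr rfl fun B hB => ?_
      have h1 := mem_fs.1 hB
      rw [if_pos (mem_gpts.2 (le_sup_right.trans h1.1)),
        one_of_mem (mem_fs.2 ⟨le_sup_left.trans h1.1, h1.2⟩), Nat.cast_one]
    · intro B _ hB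
      split_ifs with h1
      · exact one_of_notMem fun h2 =>
          hB (mem_fs.2 ⟨sup_le (mem_fs.1 h2).1 (mem_gpts.1 h1), (mem_fs.1 h2).2⟩)
      · rfl
  rw [e]
  rw [Pi.add_apply, Pi.smul_apply, Pi.smul_apply, nsmul_eq_mul, nsmul_eq_mul]
  by_cases h1 : y.W ≤ T
  · rw [sup_eq_left.2 h1, h K V k P T hP hT, one_of_mem (mem_upts.2 h1),
      one_of_mem (mem_upts.2 (h1.trans hT)), show k + 1 - finrank K T = j + 1 by omega, th_succ]
    push_cast
    ring
  · rw [one_of_notMem fun h2 => h1 (mem_upts.1 h2)]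
    by_cases h2 : y.W ≤ P
    · rw [h K V k P _ hP (sup_le hT h2), ((dim_inf T y).2 h1).2, one_of_mem (mem_upts.2 h2),
        show k + 1 - (finrank K T + 1) = j by omega]
      ring
    · rw [one_of_notMem fun h3 => h2 (mem_upts.1 h3), card_eq_zero.2]
      · simp
      · exact eq_empty_of_forall_notMem fun B hB =>
          h2 ((le_sup_right.trans (mem_fs.1 hB).1).trans (mem_fs.1 hB).2)

theorem near (h : S_Hyp) (k : ℕ) (P P' : Submodule K V) (hk : 1 ≤ k) (hP : finrank K P = k + 1)
    (hP' : finrank K P' = k + 1) (hd : k ≤ finrank K (P ⊓ P' : Submodule K V) + 1) :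
    one (upts P) - one (upts P') ∈ GamU k (P ⊔ P') := by
  obtain ⟨T, -, h2, h3⟩ := ext_dim ⊥ (P ⊓ P') bot_le (k - 1) (by rw [finrank_bot]; omega)
  rw [finrank_bot] at h3
  have a := GamU_mono (le_sup_left (a := P) (b := P'))
    (key h k 1 P T hP (h2.trans inf_le_left) (by omega))
  have b := GamU_mono (le_sup_right (a := P) (b := P'))
    (key h k 1 P' T hP' (h2.trans inf_le_right) (by omega))
  have c := sub_mem a b
  have e : th (Fintype.card K) 1 = 1 := by simp [th]
  rw [e, one_nsmul, one_nsmul, add_sub_add_left_eq_sub] at c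
  exact c

theorem congn (h : S_Hyp) (k : ℕ) (hk : 1 ≤ k) (P' : Submodule K V) (hP' : finrank K P' = k + 1)
    (n : ℕ) : ∀ P : Submodule K V, finrank K P = k + 1 →
      k ≤ finrank K (P ⊓ P' : Submodule K V) + 1 + n →
      one (upts P) - one (upts P') ∈ GamU k (P ⊔ P') := by
  have : Module.Finite K V := Module.Finite.of_finite
  induction n with
  | zero => exact fun P hP hd => near h k P P' hk hP hP' hd
  | succ n ih =>
    intro P hP hd
    by_cases h0 : k ≤ finrank K (P ⊓ P' : Submodule K V) + 1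
    · exact near h k P P' hk hP hP' h0
    obtain ⟨Q, q1, q2, q3⟩ := ext_dim (P ⊓ P') P inf_le_left
      (k - finrank K (P ⊓ P' : Submodule K V)) (by omega)
    have h4 : ¬ P' ≤ P := fun h5 => by
      rw [inf_eq_right.2 h5] at h0
      omega
    obtain ⟨v, hv, hv'⟩ := SetLike.not_le_iff_exists.1 h4
    have hs : Submodule.span K {v} ≤ P' := (Submodule.span_singleton_le_iff_mem _ _).2 hv
    have d1 : finrank K (Q ⊔ Submodule.span K {v} : Submodule K V) = k + 1 := by
      rw [Submodule.finrank_sup_span_singleton fun h5 => hv' (q2 h5)]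
      omega
    have d2 : finrank K Q ≤ finrank K (P ⊓ (Q ⊔ Submodule.span K {v}) : Submodule K V) :=
      Submodule.finrank_mono (le_inf q2 le_sup_left)
    have d3 : finrank K (P ⊓ P' ⊔ Submodule.span K {v} : Submodule K V)
        ≤ finrank K ((Q ⊔ Submodule.span K {v}) ⊓ P' : Submodule K V) :=
      Submodule.finrank_mono (le_inf (sup_le_sup_right q1 _) (sup_le inf_le_right hs))
    rw [Submodule.finrank_sup_span_singleton fun h5 => hv' (Submodule.mem_inf.1 h5).1] at d3
    have a := GamU_mono (U' := P ⊔ P')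
      (sup_le le_sup_left (sup_le (q2.trans le_sup_left) (hs.trans le_sup_right)))
      (near h k P _ hk hP d1 (by omega))
    have b := GamU_mono (U' := P ⊔ P')
      (sup_le (sup_le (q2.trans le_sup_left) (hs.trans le_sup_right)) le_sup_right)
      (ih _ d1 (by omega))
    have c := add_mem a b
    rwa [sub_add_sub_cancel] at c

theorem sum_ptv (h' : S_PCnt) (k j : ℕ) (P0 : Submodule K V) (B0 : Sub K V k) (φ : V →ₗ[K] V)
    (hj : finrank K (B0.W ⊓ LinearMap.ker φ : Submodule K V) = j) :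
    ∑ p ∈ gpts B0, ptv P0 (φ (rep p)) = (Fintype.card K ^ j : ℕ) • one (upts (B0.W.map φ))
      + th (Fintype.card K) j • one (upts P0) := by
  classical
  funext y
  have c0 : ∑ p ∈ gpts B0, (if φ (rep p) = 0 then (1 : ℤ) else 0) = th (Fintype.card K) j := by
    rw [← hj, ← h' K V, sum_boole]
    congr 2
    ext p
    simp only [mem_filter, mem_gpts, mem_upts, le_iff_rep, Submodule.mem_inf, LinearMap.mem_ker]
  have c1 : ∑ p ∈ gpts B0, (if φ (rep p) ∈ y.W then (1 : ℤ) else 0)
      = th (Fintype.card K) (finrank K (B0.W.map φ ⊓ y.W : Submodule K V) + j) := by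
    have r := rank_null (B0.W ⊓ y.W.comap φ) φ
    have e : (B0.W ⊓ y.W.comap φ) ⊓ LinearMap.ker φ = B0.W ⊓ LinearMap.ker φ := by
      rw [inf_assoc, inf_eq_right.2 (LinearMap.ker_le_comap φ)]
    rw [e, hj, ← Submodule.map_inf_eq_map_inf_comap] at r
    rw [r, ← h' K V, sum_boole]
    congr 2
    ext p
    simp only [mem_filter, mem_gpts, mem_upts, le_iff_rep, Submodule.mem_inf, Submodule.mem_comap]
  have c2 : ∀ p : Sub K V 1, ptv P0 (φ (rep p)) y
      = (if φ (rep p) = 0 then (1 : ℤ) else 0) * (one (upts P0) y - 1)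
        + (if φ (rep p) ∈ y.W then (1 : ℤ) else 0) := by
    intro p
    by_cases h1 : φ (rep p) = 0
    · simp [ptv, h1, one]
    · simp [ptv, h1]
  rw [Finset.sum_apply, sum_congr rfl fun p _ => c2 p, sum_add_distrib, ← sum_mul, c0, c1]
  rw [Pi.add_apply, Pi.smul_apply, Pi.smul_apply, nsmul_eq_mul, nsmul_eq_mul]
  by_cases h1 : y.W ≤ B0.W.map φ
  · rw [(dim_inf _ y).1 h1, one_of_mem (mem_upts.2 h1), add_comm 1 j, th_succ]
    push_cast
    ring
  · rw [((dim_inf _ y).2 h1).1, one_of_notMem fun h2 => h1 (mem_upts.1 h2), zero_add]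
    ring

end Rel1P

open Rel1P

theorem cong (h : S_Hyp) : S_Cong := by
  intro K V _ _ _ _ _ k P P' hk hP hP'
  exact congn h k hk P' hP' k P hP (by omega)

theorem rel1 (h : S_Hyp) (h' : S_PCnt) (h'' : S_Cong) : S_Rel1 := by
  intro K V _ _ _ _ _ k P0 B0 φ hk hP0
  have : Module.Finite K V := Module.Finite.of_finite
  have r := rank_null B0.W φ
  rw [B0.h] at r
  have d : finrank K P0 ≤ finrank K (B0.W.map φ ⊔ P0 : Submodule K V) :=
    Submodule.finrank_mono le_sup_right
  obtain ⟨P, p1, p2, p3⟩ := ext_dim (B0.W.map φ) (B0.W.map φ ⊔ P0) le_sup_left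
    (finrank K (B0.W ⊓ LinearMap.ker φ : Submodule K V) + 1) (by omega)
  have hP : finrank K P = k + 1 := by omega
  have a := GamU_mono p2 (key h k _ P _ hP p1 r)
  have b := GamU_mono (U' := B0.W.map φ ⊔ P0) (sup_le le_sup_right p2) (h'' K V k P0 P hk hP0 hP)
  have c := add_mem a (nsmul_mem b
    (th (Fintype.card K) (finrank K (B0.W ⊓ LinearMap.ker φ : Submodule K V))))
  rw [sum_ptv h' k _ P0 B0 φ rfl]
  rwa [smul_sub, add_assoc, add_sub_cancel] at c

end Pool.Agent.P.MP_3b9ee7_co.Q
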