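import Pool.Agent.P.MP_3b9ee7_co.Q.Base

/-! Gadgets and core for the subspace design. -/

noncomputable section

namespace Pool.Agent.P.MP_3b9ee7_co.Q

open Finset Module
open Pool.Agent.P.MP_77d020_co.L (ind fs cnt mem_fs)

namespace Rel2P

variable {K V : Type} [Field K] [AddCommGroup V] [Module K V] {n m : ℕ}

/-- The class of a coordinate. -/
def cl (hm : 0 < m) (x : Fin n) : Fin m := ⟨x % m, Nat.mod_lt _ hm⟩

/-- Projection onto the coordinates of one class. -/
def pr (hm : 0 < m) (b : Basis (Fin n) K V) (i : Fin m) : V →ₗ[K] V :=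
  ∑ x ∈ univ.filter (fun x => cl hm x = i), (b.coord x).smulRight (b x)

/-- The span of the basis vectors with class in `I`. -/
def VI (hm : 0 < m) (b : Basis (Fin n) K V) (I : Finset (Fin m)) : Submodule K V :=
  Submodule.span K (Set.range fun x : univ.filter (fun x : Fin n => cl hm x ∈ I) => b x)

theorem sum_pr (hm : 0 < m) (b : Basis (Fin n) K V) (v : V) : ∑ i, pr hm b i v = v := by
  simp only [pr, LinearMap.sum_apply, LinearMap.smulRight_apply, Basis.coord_apply]
  rw [sum_fiberwise]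
  exact b.sum_repr v

theorem pr_mem (hm : 0 < m) (b : Basis (Fin n) K V) (I : Finset (Fin m)) (v : V) :
    (∑ i ∈ I, pr hm b i) v ∈ VI hm b I := by
  simp only [pr, LinearMap.sum_apply, LinearMap.smulRight_apply]
  refine sum_mem fun i hi => sum_mem fun x hx => Submodule.smul_mem _ _ ?_
  refine Submodule.subset_span ⟨⟨x, mem_filter.2 ⟨mem_univ _, ?_⟩⟩, rfl⟩
  rw [(mem_filter.1 hx).2]; exact hi

theorem card_cl (hm : 0 < m) (I : Finset (Fin m)) :
    (univ.filter fun x : Fin n => cl hm x ∈ I).card ≤ I.card * (n / m + 1) := by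
  rw [← card_range (n / m + 1), ← card_product]
  refine card_le_card_of_injOn (fun x => (cl hm x, x.val / m)) (fun x hx => ?_) ?_
  · simp only [coe_filter, mem_univ, true_and, Set.mem_ofPred_eq] at hx
    simp only [coe_product, Set.mem_prod, mem_coe, mem_range]
    exact ⟨hx, Nat.lt_succ_of_le (Nat.div_le_div_right x.2.le)⟩
  · intro x _ y _ h
    simp only [cl, Prod.mk.injEq, Fin.mk.injEq] at h
    apply Fin.ext
    rw [← Nat.div_add_mod x m, ← Nat.div_add_mod y m, h.1, h.2]

theorem finrank_VI (hm : 0 < m) (b : Basis (Fin n) K V) (I : Finset (Fin m)) :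
    finrank K (VI hm b I) ≤ I.card * (n / m + 1) := by
  refine (finrank_range_le_card _).trans ?_
  rw [Fintype.card_coe]
  exact card_cl hm I

theorem ex_P0 (b : Basis (Fin n) K V) {j : ℕ} (h : j ≤ n) :
    ∃ P0 : Submodule K V, finrank K P0 = j :=
  ⟨_, (finrank_span_eq_card (b.linearIndependent.comp _ (Fin.castLE_injective h))).trans
    (Fintype.card_fin j)⟩

theorem ptv_rep (P0 : Submodule K V) (p : Sub K V 1) : ptv P0 (rep p) = one {p} := by
  funext y
  simp only [ptv, if_neg (rep_ne p), one, mem_singleton]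
  congr 1
  exact propext ⟨fun h => pnt_eq_of_mem (rep_ne p) h (rep_mem p), fun h => h ▸ rep_mem p⟩

theorem one_eq_sum {A : Type} [DecidableEq A] (U : Finset A) : one U = ∑ p ∈ U, one {p} := by
  funext y
  simp [one, Finset.sum_apply]

end Rel2P

open Rel2P in
theorem rel2 (h1 : S_Rel1) (h2 : S_Poly) (h3 : S_Diff) (_h4 : S_PCnt) (h5 : S_BCnt) : S_Rel2 := by
  classical
  intro K _ _ k hk
  have hq : (1 : ℝ) ≤ Fintype.card K := by exact_mod_cast Fintype.card_pos
  obtain ⟨d, hd⟩ : ∃ d, d + 1 = th (Fintype.card K) k ∧ 1 ≤ d := by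
    obtain ⟨j, rfl⟩ := Nat.exists_eq_add_of_le' hk
    have a1 : 0 < Fintype.card K ^ j := pow_pos Fintype.card_pos _
    have a2 : 0 < Fintype.card K ^ (j + 1) := pow_pos Fintype.card_pos _
    refine ⟨th (Fintype.card K) (j + 2) - 1, ?_⟩
    rw [th_succ, th_succ]
    omega
  obtain ⟨m, hm⟩ : ∃ m, m = 2 * k * d := ⟨_, rfl⟩
  have hm0 : 0 < m := by rw [hm]; have := hd.2; positivity
  obtain ⟨c, hc, hP⟩ := h2 m d hd.2
  generalize hqq : (Fintype.card K : ℝ) = q at hq
  have b1 : (1 : ℝ) ≤ (2 ^ m) ^ 2 := one_le_pow₀ (one_le_pow₀ one_le_two)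
  have b2 : 1 ≤ (q ^ (m + (k + 1))) ^ k := one_le_pow₀ (one_le_pow₀ hq)
  have b3 : 1 ≤ q ^ (2 * k * (d + (k + 1))) := one_le_pow₀ hq
  have b4 := one_le_mul_of_one_le_of_one_le b1 b3
  refine ⟨(2 ^ m) ^ 2 * q ^ (2 * k * (d + (k + 1))) * (q ^ (m + (k + 1))) ^ k,
    one_le_mul_of_one_le_of_one_le b4 b2, fun V _ _ _ hV => ?_⟩
  have : Module.Finite K V := Module.Finite.of_finite
  let b := Module.finBasis K V
  obtain ⟨P0, hP0⟩ := ex_P0 b (show k + 1 ≤ finrank K V from hV)
  have cnt : ∀ (U : Submodule K V) (j : ℕ), finrank K U ≤ j →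
      ((fs fun B : Sub K V k => B.W ≤ U ⊔ P0).card : ℝ) ≤ (q ^ (j + (k + 1))) ^ k := by
    intro U j hj
    refine ((h5 K V k).1 (U ⊔ P0)).trans ?_
    have := Submodule.finrank_add_le_finrank_add_finrank U P0
    rw [hqq]
    gcongr
    omega
  let U : Sub K V 1 → Submodule K V := fun p =>
    Submodule.span K (Set.range fun i => pr hm0 b i (rep p))
  have hU : ∀ p i, pr hm0 b i (rep p) ∈ U p ⊔ P0 := fun p i =>
    Submodule.mem_sup_left (Submodule.subset_span ⟨i, rfl⟩)
  have key : ∀ p : Sub K V 1, one {p} - ∑ I, c I • ptv P0 ((∑ i ∈ I, pr hm0 b i) (rep p)) ∈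
      GamU k (U p ⊔ P0) := by
    intro p
    have := hP _ (GamU k (U p ⊔ P0)) (fun I => ptv P0 ((∑ i ∈ I, pr hm0 b i) (rep p)))
      fun S T hS hST => by
        have := h3 K V (Fin m) k P0 (U p ⊔ P0) (∑ i ∈ T, pr hm0 b i (rep p))
          (fun i => pr hm0 b i (rep p)) S (by omega) hP0 le_sup_right
          (sum_mem fun i _ => hU p i) (hU p) (by rw [hS, hd.1])
        convert this using 2 with I hI
        rw [sum_union (hST.symm.mono_right (mem_powerset.1 hI)), LinearMap.add_apply,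
          LinearMap.sum_apply, LinearMap.sum_apply]
    rwa [LinearMap.sum_apply, sum_pr, ptv_rep] at this
  choose ψ hψ eψ using key
  refine ⟨2 ^ m * (q ^ (d * (finrank K V / m + 1) + (k + 1))) ^ k,
    fun p => fs fun B => B.W ≤ U p ⊔ P0,
    (univ.filter fun I : Finset (Fin m) => I.card < d).biUnion
      fun I => fs fun B => B.W ≤ VI hm0 b I ⊔ P0, ?_,
    ⟨ψ, fun p B h => mem_fs.2 (hψ p B h), fun B0 => ?_⟩, fun p => ?_, ?_⟩
  · have e : ((q ^ (d * (finrank K V / m + 1) + (k + 1))) ^ k) ^ 2 =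
        q ^ (2 * k * (d + (k + 1))) * q ^ (m * (finrank K V / m)) := by
      rw [← pow_mul, ← pow_mul, ← pow_add]
      congr 1
      generalize finrank K V / m = t
      rw [hm]; ring
    have e2 : q ^ (m * (finrank K V / m)) ≤ (q ^ (m + (k + 1))) ^ k * q ^ finrank K V :=
      (pow_le_pow_right₀ hq (Nat.mul_div_le _ _)).trans
        (le_mul_of_one_le_left (by positivity) b2)
    rw [mul_pow, e, ← mul_assoc, mul_assoc _ (_ ^ k)]
    exact mul_le_mul_of_nonneg_left e2 (by positivity)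
  · simp only [eψ]
    rw [sum_sub_distrib, ← one_eq_sum, sub_sub_cancel, sum_comm]
    refine sum_mem fun I _ => ?_
    rw [← smul_sum]
    by_cases h : c I = 0
    · rw [h, zero_smul]; exact zero_mem _
    · refine zsmul_mem (Lat_mono (fun B hB => ?_) (h1 K V k P0 B0 _ (by omega) hP0)) _
      refine mem_biUnion.2 ⟨I, mem_filter.2 ⟨mem_univ _, hc I h⟩, mem_fs.2 (hB.trans ?_)⟩
      refine sup_le_sup_right ?_ _
      rintro _ ⟨v, -, rfl⟩
      exact pr_mem hm0 b I v
  · refine (cnt (U p) m ((finrank_range_le_card _).trans (Fintype.card_fin m).le)).trans ?_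
    exact le_mul_of_one_le_left (by positivity) b4
  · refine (Nat.cast_le.2 card_biUnion_le).trans ?_
    push_cast
    refine (sum_le_card_nsmul _ _ ((q ^ (d * (finrank K V / m + 1) + (k + 1))) ^ k)
      fun I hI => cnt _ _ ((finrank_VI hm0 b I).trans
        (Nat.mul_le_mul_right _ (mem_filter.1 hI).2.le))).trans ?_
    rw [nsmul_eq_mul]
    gcongr
    have := card_filter_le (univ : Finset (Finset (Fin m))) fun I => I.card < d
    rw [card_univ, Fintype.card_finset, Fintype.card_fin] at this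
    exact_mod_cast this

end Pool.Agent.P.MP_3b9ee7_co.Q
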