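import Pool.Agent.P.MP_3b9ee7_co.Q.Base
import Pool.Agent.P.MP_77d020_co.L.Prob

/-! The random reserve. -/

namespace Pool.Agent.P.MP_3b9ee7_co.Q

open Finset
open Pool.Agent.P.MP_77d020_co.L (ind fs cnt Pr IsP Dep bern bern_isP pl_bern chernoff'
  chernoff_coord Pr_all Pr_le_add Pr_zero Pr_mono Pr_true Pr_exists_le_card exists_not_of_Pr_lt
  ind_nonneg mem_fs cnt_and_eq_sum)

namespace ResP

/-- Greedy choice of pairwise non-conflicting elements. -/
theorem greedy_set {E : Type} (S : Finset E) (cf : E → E → Prop) (hs : ∀ e e', cf e e' → cf e' e)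
    (hr : ∀ e ∈ S, cf e e) {Δ : ℝ} (hΔ : 0 ≤ Δ)
    (hc : ∀ e ∈ S, ∀ T ⊆ S, (∀ e' ∈ T, cf e e') → (T.card : ℝ) ≤ Δ) (n : ℕ)
    (hn : n * Δ < S.card + Δ) :
    ∃ F ⊆ S, F.card = n ∧ ∀ e ∈ F, ∀ e' ∈ F, e ≠ e' → ¬cf e e' := by
  classical
  induction n with
  | zero => exact ⟨∅, empty_subset _, rfl, fun e he => absurd he (notMem_empty _)⟩
  | succ n ih =>
    push_cast at hn
    obtain ⟨F, hF, hcard, hp⟩ := ih (by linarith)
    have h1 : ((F.biUnion fun e => S.filter (cf e)).card : ℝ) < S.card := by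
      have h2 : ((F.biUnion fun e => S.filter (cf e)).card : ℝ)
          ≤ ∑ e ∈ F, ((S.filter (cf e)).card : ℝ) := by exact_mod_cast card_biUnion_le
      have h3 : ∑ e ∈ F, ((S.filter (cf e)).card : ℝ) ≤ ∑ _e ∈ F, Δ :=
        sum_le_sum fun e he => hc e (hF he) _ (filter_subset _ _) fun e' h => (mem_filter.1 h).2
      rw [sum_const, hcard, nsmul_eq_mul] at h3
      linarith
    obtain ⟨e, he, hne⟩ := exists_mem_notMem_of_card_lt_card (Nat.cast_lt.1 h1)
    have h2 : ∀ e' ∈ F, ¬cf e' e := fun e' he' h =>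
      hne (mem_biUnion.2 ⟨e', he', mem_filter.2 ⟨he, h⟩⟩)
    have h3 : e ∉ F := fun h => h2 e h (hr e he)
    refine ⟨insert e F, insert_subset he hF, by rw [card_insert_of_notMem h3, hcard], ?_⟩
    intro a ha b hb hab
    rcases mem_insert.1 ha with rfl | ha' <;> rcases mem_insert.1 hb with rfl | hb'
    · exact absurd rfl hab
    · exact fun h => h2 b hb' (hs _ _ h)
    · exact h2 a ha'
    · exact hp a ha' b hb' hab

/-- Peeling off good families one after the other. -/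
theorem peel {ι α E : Type} [Fintype ι] [Fintype α] {q : ι → α → ℝ} (hq : IsP q) (S0 : Finset E)
    (ev : E → (ι → α) → Prop) {p h δ : ℝ} (hp : 0 ≤ p) (hδ : 0 ≤ δ)
    (hF : ∀ S ⊆ S0, h ≤ S.card → ∃ F ⊆ S, F.Nonempty ∧
      Pr q (fun ω => ∑ e ∈ F, ind (ev e ω) < F.card * p) ≤ δ) (n : ℕ) :
    ∀ S ⊆ S0, S.card ≤ n →
      Pr q (fun ω => ∑ e ∈ S, ind (ev e ω) < (S.card - h) * p) ≤ n * δ := by
  classical
  have base : ∀ S : Finset E, (S.card : ℝ) < h →
      Pr q (fun ω => ∑ e ∈ S, ind (ev e ω) < (S.card - h) * p) = 0 := fun S hS =>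
    Pr_zero hq fun ω => not_lt.2 ((mul_nonpos_of_nonpos_of_nonneg (by linarith) hp).trans
      (sum_nonneg fun _ _ => ind_nonneg _))
  induction n with
  | zero =>
    intro S hS hn
    rcases lt_or_ge (S.card : ℝ) h with h1 | h1
    · rw [base S h1]; simp
    · obtain ⟨F, hFS, hne, -⟩ := hF S hS h1
      have := (hne.mono hFS).card_pos
      omega
  | succ n ih =>
    intro S hS hn
    rcases lt_or_ge (S.card : ℝ) h with h1 | h1
    · rw [base S h1]; positivity
    · obtain ⟨F, hFS, hne, hP⟩ := hF S hS h1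
      have h2 := hne.card_pos
      have h3 := card_sdiff_add_card_eq_card hFS
      have h4 := ih (S \ F) (sdiff_subset.trans hS) (by omega)
      have h5 : ((S \ F).card : ℝ) + F.card = S.card := by exact_mod_cast h3
      refine (Pr_le_add hq (fun ω hω => ?_) hP h4).trans (le_of_eq (by push_cast; ring))
      rw [← sum_sdiff hFS, ← h5] at hω
      by_contra hc
      simp only [not_or, not_lt] at hc
      nlinarith [hc.1, hc.2]

variable {V E T : Type} [Fintype V] [Fintype E] [Fintype T] [DecidableEq V] {H : HS V E T}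

theorem conf_le (hH : H.Ok) (v : V) (e : E) (S : Finset E)
    (hS : ∀ e' ∈ S, v ∈ H.ed e' ∧ ¬Disjoint ((H.ed e).erase v) ((H.ed e').erase v)) :
    (S.card : ℝ) ≤ H.r * (H.C0 * H.D / H.m) := by
  classical
  have h0 : 0 ≤ H.C0 * H.D / H.m := by
    have := hH.C2; have := hH.D1; have := hH.m1; positivity
  have h1 : S ⊆ ((H.ed e).erase v).biUnion fun u => fs fun e' => v ∈ H.ed e' ∧ u ∈ H.ed e' := by
    intro e' he'
    obtain ⟨h2, h3⟩ := hS e' he'
    obtain ⟨u, hu, hu'⟩ := not_disjoint_iff.1 h3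
    exact mem_biUnion.2 ⟨u, hu, mem_fs.2 ⟨h2, mem_of_mem_erase hu'⟩⟩
  have h2 : (S.card : ℝ) ≤ ∑ u ∈ (H.ed e).erase v, cnt fun e' => v ∈ H.ed e' ∧ u ∈ H.ed e' := by
    unfold cnt
    exact_mod_cast (card_le_card h1).trans card_biUnion_le
  have h3 : ∑ u ∈ (H.ed e).erase v, (cnt fun e' => v ∈ H.ed e' ∧ u ∈ H.ed e')
      ≤ ∑ _u ∈ (H.ed e).erase v, H.C0 * H.D / H.m :=
    sum_le_sum fun u hu => hH.cod v u (ne_of_mem_erase hu).symm
  rw [sum_const, nsmul_eq_mul] at h3
  have h4 : (((H.ed e).erase v).card : ℝ) ≤ H.r := by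
    rw [← hH.card e]; exact_mod_cast card_erase_le
  exact h2.trans (h3.trans (mul_le_mul_of_nonneg_right h4 h0))

theorem vertex (hH : H.Ok) {ε : ℝ} (h0 : 0 < ε) (h1 : ε ≤ 1)
    (hm : 200 * H.C0 ^ 2 * H.lg ≤ ε ^ H.r * H.m) (v : V) :
    Pr (bern fun _ : V => ε) (fun ω => ∑ e ∈ fs (fun e => v ∈ H.ed e),
      ind (∀ u ∈ (H.ed e).erase v, ω u = true) < ε ^ H.r * H.D / 4)
      ≤ H.D * (2 * Real.exp (-(6 * H.lg))) := by
  have hq : IsP (bern fun _ : V => ε) := bern_isP (fun _ => h0.le) fun _ => h1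
  have hC := hH.C2
  have hD := hH.D1
  have hm1 := hH.m1
  have hl := hH.lg1
  have hr : (2 : ℝ) ≤ H.r := by exact_mod_cast hH.r2
  have hrC := hH.rC
  set p := ε ^ (H.r - 1) with hp
  have hp0 : 0 < p := pow_pos h0 _
  have hpε : ε ^ H.r ≤ p := pow_le_pow_of_le_one h0.le h1 (Nat.sub_le _ _)
  set M := ⌈H.m / (2 * H.r * H.C0)⌉₊ with hM
  have hx : 0 < H.m / (2 * H.r * H.C0) := by positivity
  have hM1 : H.m / (2 * H.r * H.C0) ≤ M := Nat.le_ceil _
  have hM2 : (M : ℝ) < H.m / (2 * H.r * H.C0) + 1 := Nat.ceil_lt_add_one hx.le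
  have hμ : 100 * H.lg ≤ M * p := by
    have h2 : H.m / (2 * H.C0 ^ 2) ≤ H.m / (2 * H.r * H.C0) :=
      div_le_div_of_nonneg_left (by linarith) (by positivity) (by nlinarith)
    have h3 : 100 * H.lg ≤ H.m / (2 * H.C0 ^ 2) * ε ^ H.r := by
      rw [div_mul_eq_mul_div, le_div_iff₀ (by positivity)]; linarith
    exact h3.trans (mul_le_mul (h2.trans hM1) hpε (pow_pos h0 _).le (Nat.cast_nonneg _))
  have hdeg : ((fs fun e => v ∈ H.ed e).card : ℝ) = H.D := hH.deg v
  have key := peel hq (fs fun e => v ∈ H.ed e) (fun e ω => ∀ u ∈ (H.ed e).erase v, ω u = true)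
    (p := p / 2) (h := H.D / 2) (δ := 2 * Real.exp (-(6 * H.lg))) (by positivity) (by positivity)
    (fun S hS hc => ?_) _ _ Subset.rfl le_rfl
  · rw [hdeg] at key
    refine (Pr_mono hq fun ω hω => hω.trans_le ?_).trans key
    nlinarith
  have hv : ∀ e ∈ S, v ∈ H.ed e := fun e he => by simpa only [mem_fs] using hS he
  have hcard : ∀ e ∈ S, ((H.ed e).erase v).card = H.r - 1 := fun e he => by
    rw [card_erase_of_mem (hv e he), hH.card]
  obtain ⟨F, hFS, hFc, hFd⟩ := greedy_set S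
    (fun e e' => ¬Disjoint ((H.ed e).erase v) ((H.ed e').erase v))
    (fun e e' h h' => h h'.symm)
    (fun e he h => by
      have h2 := hcard e he
      rw [disjoint_self.1 h] at h2
      have := hH.r2
      simp at h2
      omega)
    (Δ := H.r * (H.C0 * H.D / H.m)) (by positivity)
    (fun e _ T hT h => conf_le hH v e T fun e' he' => ⟨hv e' (hT he'), h e' he'⟩) M
    (by
      have h2 : 0 < H.r * (H.C0 * H.D / H.m) := by positivity
      have h3 : H.m / (2 * H.r * H.C0) * (H.r * (H.C0 * H.D / H.m)) = H.D / 2 := by field_simp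
      nlinarith [mul_lt_mul_of_pos_right hM2 h2])
  have hM0 : (0 : ℝ) < M := hx.trans_le hM1
  refine ⟨F, hFS, card_pos.1 (by rw [hFc]; exact_mod_cast hM0), ?_⟩
  have hsum : ∑ e ∈ F, Pr (bern fun _ : V => ε) (fun ω => ∀ u ∈ (H.ed e).erase v, ω u = true)
      = M * p := by
    rw [sum_congr rfl (g := fun _ => p) fun e he => ?_, sum_const, hFc, nsmul_eq_mul]
    rw [Pr_all hq _ fun _ b => b = true]
    simp only [pl_bern, prod_const, hcard e (hFS he), hp]
  have hch := chernoff' hq F (fun e ω => ∀ u ∈ (H.ed e).erase v, ω u = true)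
    (fun e u => u ∈ (H.ed e).erase v) (fun e _ ω ω' h h' u hu => h u hu ▸ h' u hu)
    (fun e he e' he' hne u hu => disjoint_left.1 (not_not.1 (hFd e he e' he' hne)) hu)
    (μ := M * p) (a := M * p / 2) hsum.le (by positivity) (by nlinarith [mul_pos hM0 hp0])
  rw [hsum] at hch
  refine (Pr_mono hq fun ω hω => ?_).trans (hch.trans ?_)
  · rw [hFc] at hω
    exact lt_abs.2 (Or.inr (by linarith))
  · have h2 : (M * p / 2) ^ 2 / (4 * (M * p)) = M * p / 16 := by field_simp; norm_num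
    rw [h2]
    gcongr
    linarith

omit [Fintype E] [Fintype T] [DecidableEq V] in
theorem test {ε ξ sz lg : ℝ} (h0 : 0 < ε) (h1 : ε ≤ 1) (hξ : 0 < ξ) (hξ1 : ξ ≤ 1) (hl : 1 ≤ lg)
    (Y : Finset V) (hY : (Y.card : ℝ) ≤ sz) (hs : 100 * lg ≤ ξ ^ 2 * sz) :
    Pr (bern fun _ : V => ε) (fun ω => ξ * sz < |∑ u ∈ Y, ind (ω u = true) - ε * Y.card|)
      ≤ 2 * Real.exp (-(6 * lg)) := by
  have hq : IsP (bern fun _ : V => ε) := bern_isP (fun _ => h0.le) fun _ => h1
  have hsz : 0 < sz := by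
    by_contra h
    nlinarith [mul_nonneg (sq_nonneg ξ) (neg_nonneg.2 (not_lt.1 h))]
  have hc := chernoff_coord hq Y id (fun b => b = true) (fun _ => True) (fun _ => False)
    (Dep.const _ _) (Set.injOn_id _) (fun _ _ h => h) (μ := sz) (a := ξ * sz)
    (by
      simp only [pl_bern, sum_const, nsmul_eq_mul]
      exact (mul_le_of_le_one_right (Nat.cast_nonneg _) h1).trans hY)
    (by positivity) (by nlinarith)
  simp only [pl_bern, sum_const, nsmul_eq_mul, true_and, Pr_true hq, one_mul, id,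
    mul_comm (Y.card : ℝ) ε] at hc
  refine hc.trans ?_
  have h2 : (ξ * sz) ^ 2 / (4 * sz) = ξ ^ 2 * sz / 4 := by field_simp
  rw [h2]
  gcongr
  linarith

end ResP

open ResP in
theorem res : S_Res := by
  intro V E T F _ _ _ _ _ H Y sz ε ξ hH h0 h1 hξ hξ1 hF hY hm
  have hq : IsP (bern fun _ : V => ε) := bern_isP (fun _ => h0.le) fun _ => h1
  have hl := hH.lg1
  have hD := hH.D1
  have hA := Pr_exists_le_card hq (univ : Finset F) _
    fun f _ => test h0 h1 hξ hξ1 hl (Y f) (hY f).1 (hY f).2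
  have hB := Pr_exists_le_card hq (univ : Finset V) _ fun v _ => vertex hH h0 h1 hm v
  have hC := Pr_le_add hq (fun _ h => h) hA hB
  rw [card_univ, card_univ] at hC
  have e1 : Real.exp (2 * H.lg) * Real.exp (-(6 * H.lg)) ≤ 1 / 5 := by
    rw [← Real.exp_add, le_div_iff₀ (by norm_num)]
    have h2 := Real.add_one_le_exp (4 * H.lg)
    have h3 : Real.exp (2 * H.lg + -(6 * H.lg)) * Real.exp (4 * H.lg) = 1 := by
      rw [← Real.exp_add, ← Real.exp_zero]; congr 1; ring
    nlinarith [Real.exp_pos (2 * H.lg + -(6 * H.lg))]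
  have e2 : (Fintype.card V : ℝ) * H.D ≤ Real.exp (2 * H.lg) := by
    rw [two_mul, Real.exp_add]
    exact mul_le_mul hH.cV hH.cD (by linarith) (Real.exp_pos _).le
  have e3 := Real.exp_pos (-(6 * H.lg))
  obtain ⟨ω, hω⟩ := exists_not_of_Pr_lt hq (hC.trans_lt (by
    nlinarith [mul_le_mul_of_nonneg_right hF e3.le, mul_le_mul_of_nonneg_right e2 e3.le]))
  simp only [not_or, not_exists, not_and, not_lt, mem_univ, true_imp_iff] at hω
  refine ⟨fs fun u => ω u = true, fun f => ?_, fun v => ?_⟩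
  · rw [card_inter_eq_sum]
    simp only [mem_fs]
    exact hω.1 f
  · rw [cnt_and_eq_sum]
    simp only [subset_iff, mem_fs]
    exact hω.2 v

end Pool.Agent.P.MP_3b9ee7_co.Q
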