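import Pool.Agent.P.MP_3b9ee7_co.Q.Base

/-! Switches and hinges from well spread families of grids. -/

namespace Pool.Agent.P.MP_3b9ee7_co.Q

open Finset
open Pool.Agent.P.MP_77d020_co.L (ind fs cnt ind_pos ind_neg ind_nonneg ind_le_one mem_fs
  card_filter_eq_sum_ind cnt_eq_sum ind_le ind_mono ind_or_le cnt_nonneg ind_and ind_congr)

namespace SegCP

variable {Pt Bl C I J : Type}

/-- Points of the prescribed blocks. -/
def oldp (pts : Bl → Finset Pt) (B0 : Bl) (ob : Option Bl) (y : Pt) : Prop :=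
  y ∈ pts B0 ∨ ∃ B1, ob = some B1 ∧ y ∈ pts B1

/-- The other points of a grid. -/
def newp (g : Gr I Pt Bl) (i0 : I) (ob : Option Bl) (y : Pt) : Prop :=
  ∃ a b, a ≠ i0 ∧ (ob ≠ none → b ≠ i0) ∧ g.p a b = y

/-- A new block of the grid lies in `Ub`. -/
def badb (g : Gr I Pt Bl) (i0 : I) (ob : Option Bl) (Ub : Finset Bl) : Prop :=
  (∃ a, a ≠ i0 ∧ g.A a ∈ Ub) ∨ ∃ b, (ob ≠ none → b ≠ i0) ∧ g.B b ∈ Ub

variable {pts : Bl → Finset Pt}

theorem old_or_new {g : Gr I Pt Bl} {i0 : I} {B0 : Bl} {ob : Option Bl} (hg : g.Ok pts)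
    (hA : g.A i0 = B0) (hB : ∀ B1, ob = some B1 → g.B i0 = B1) (a b : I) :
    oldp pts B0 ob (g.p a b) ∨ newp g i0 ob (g.p a b) := by
  by_cases ha : a = i0
  · exact Or.inl (Or.inl (by rw [← hA, ha]; exact (hg.hA _ _).2 ⟨b, rfl⟩))
  by_cases hb : ob ≠ none → b ≠ i0
  · exact Or.inr ⟨a, b, ha, hb, rfl⟩
  · rw [Classical.not_imp, not_not] at hb
    obtain ⟨B1, h1⟩ := Option.ne_none_iff_exists'.1 hb.1
    exact Or.inl (Or.inr ⟨B1, h1, by rw [← hB B1 h1, hb.2]; exact (hg.hB _ _).2 ⟨a, rfl⟩⟩)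

theorem card_I [Fintype I] [DecidableEq Pt] {g : Gr I Pt Bl} (hg : g.Ok pts) (i0 : I) :
    Fintype.card I = (pts (g.A i0)).card := by
  have : pts (g.A i0) = univ.image (g.p i0) := by
    ext y; simp [hg.hA]
  rw [this, card_image_of_injective _ fun b b' h => (hg.inj _ _ _ _ h).2, card_univ]

variable [Fintype Pt] [Fintype Bl] [Fintype C] [DecidableEq Pt] [DecidableEq Bl] [DecidableEq C]

theorem card_le_ind {α : Type} [DecidableEq α] {Z W O : Finset α} {R : ℝ} {Q Q' : Prop}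
    (hR : (W.card : ℝ) ≤ R) (h : ∀ v ∈ Z, v ∈ W → Q ∨ Q') :
    ((Z ∩ (W \ O)).card : ℝ) ≤ R * (ind Q + ind Q') := by
  have h0 : 0 ≤ R := (Nat.cast_nonneg _).trans hR
  by_cases hQ : Q ∨ Q'
  · have h1 : 1 ≤ ind Q + ind Q' := (ind_pos hQ).ge.trans (ind_or_le _ _)
    have h2 : ((Z ∩ (W \ O)).card : ℝ) ≤ W.card :=
      Nat.cast_le.2 (card_le_card (inter_subset_right.trans sdiff_subset))
    nlinarith
  · have : Z ∩ (W \ O) = ∅ := eq_empty_of_forall_notMem fun v hv =>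
      hQ (h v (mem_inter.1 hv).1 (mem_sdiff.1 (mem_inter.1 hv).2).1)
    rw [this, card_empty, Nat.cast_zero]
    exact mul_nonneg h0 (add_nonneg (ind_nonneg _) (ind_nonneg _))

theorem ind_le_card {α : Type} [DecidableEq α] {Z O : Finset α} {Q : Prop}
    (h : Q → ∃ v, v ∈ Z ∧ v ∈ O) : ind Q ≤ ((Z ∩ O).card : ℝ) :=
  ind_le (Nat.cast_nonneg _) fun hQ => by
    obtain ⟨v, h1, h2⟩ := h hQ
    exact_mod_cast card_pos.2 ⟨v, mem_inter.2 ⟨h1, h2⟩⟩

theorem core {i0 : I} {Ω : Finset J} {g : J → Gr I Pt Bl} {B0 : Bl} {ob : Option Bl}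
    {k τ R β : ℝ} (hΩ : Ω.Nonempty)
    (hg : ∀ j ∈ Ω, (g j).Ok pts ∧ (g j).A i0 = B0 ∧ ∀ B1, ob = some B1 → (g j).B i0 = B1)
    (hf : ∀ y, ∑ j ∈ Ω, ind (newp (g j) i0 ob y) ≤ Ω.card * (k / Fintype.card Pt))
    (hb : ∀ (Ub : Finset Bl) (τ : ℝ), 0 ≤ τ → (∀ y, thru pts Ub y ≤ τ * Fintype.card C) →
      ∑ j ∈ Ω, ind (badb (g j) i0 ob Ub) ≤ Ω.card * (k * τ))
    (c : C) (old U : Finset (Bl ⊕ Pt × C)) (Cg : Finset C) (hτ : 0 ≤ τ) (hkτ : 6 * (k * τ) ≤ 1)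
    (hβ : 5 * R ≤ β) (hβ' : 2 * R * k ≤ β) (hB0 : (pts B0).Nonempty) (hCg : Cg.Nonempty)
    (hU1 : ∀ y, ((tst pts (Sum.inl y) ∩ U).card : ℝ) ≤ τ * Fintype.card C)
    (hU2 : ∀ c, ((tst pts (Sum.inr c) ∩ U).card : ℝ) ≤ τ * Fintype.card Pt)
    (ho1 : Sum.inl B0 ∈ old) (ho2 : ∀ B1, ob = some B1 → Sum.inl B1 ∈ old)
    (ho3 : ∀ y, oldp pts B0 ob y → Sum.inr (y, c) ∈ old)
    (ho4 : ∀ c' ∈ Cg, ∀ y, oldp pts B0 ob y → Sum.inr (y, c') ∈ old ∨ Sum.inr (y, c') ∉ U)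
    (ho5 : ∀ c' ∈ Cg, (1 : ℝ) ≤ 2 * Cg.card *
      (((tst pts (Sum.inr c') ∩ old).card : ℝ) + 1 / Fintype.card C))
    (hR : ∀ c' ∈ Cg, ∀ j ∈ Ω, (((g j).reg c c').card : ℝ) ≤ R) :
    ∃ Js : Finset (C × J), Js.Nonempty ∧
      (∀ x ∈ Js, x.1 ∈ Cg ∧ x.2 ∈ Ω ∧ Disjoint ((g x.2).reg c x.1 \ old) U) ∧
      (∀ y, ∑ x ∈ Js, ((tst pts (Sum.inl y) ∩ ((g x.2).reg c x.1 \ old)).card : ℝ) ≤
        Js.card * (β * (((tst pts (Sum.inl y) ∩ old).card : ℝ) + 1 / Fintype.card Pt))) ∧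
      ∀ c'', ∑ x ∈ Js, ((tst pts (Sum.inr c'') ∩ ((g x.2).reg c x.1 \ old)).card : ℝ) ≤
        Js.card * (β * (((tst pts (Sum.inr c'') ∩ old).card : ℝ) + 1 / Fintype.card C)) := by
  classical
  obtain ⟨y0, hy0⟩ := hB0
  have hP : (0 : ℝ) < Fintype.card Pt := by exact_mod_cast Fintype.card_pos_iff.2 ⟨y0⟩
  have hD : (0 : ℝ) < Fintype.card C := by exact_mod_cast Fintype.card_pos_iff.2 ⟨c⟩
  have hΩ0 : (0 : ℝ) < Ω.card := by exact_mod_cast card_pos.2 hΩ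
  have hCg0 : (0 : ℝ) < Cg.card := by exact_mod_cast card_pos.2 hCg
  have hk : 0 ≤ k / Fintype.card Pt :=
    nonneg_of_mul_nonneg_right ((sum_nonneg fun _ _ => ind_nonneg _).trans (hf y0)) hΩ0
  have hR0 : 0 ≤ R := by
    obtain ⟨c', hc'⟩ := hCg
    obtain ⟨j, hj⟩ := hΩ
    exact (Nat.cast_nonneg _).trans (hR c' hc' j hj)
  set Ub : Finset Bl := fs fun B => Sum.inl B ∈ U with hUb
  have h1 : ∑ j ∈ Ω, ind (badb (g j) i0 ob Ub) ≤ Ω.card * (k * τ) := by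
    refine hb Ub τ hτ fun y => ?_
    have := hU1 y
    rw [card_tst_inl] at this
    have e : thru pts Ub y = cnt (fun B => y ∈ pts B ∧ Sum.inl B ∈ U) := by
      rw [thru, hUb, Pool.Agent.P.MP_77d020_co.L.sum_fs, cnt_eq_sum]
      exact sum_congr rfl fun B _ => by rw [ind_and, mul_comm]
    linarith [cnt_nonneg fun c => Sum.inr (y, c) ∈ U]
  have h2 : ∀ c', ∑ j ∈ Ω, ind (∃ y, newp (g j) i0 ob y ∧ Sum.inr (y, c') ∈ U) ≤
      Ω.card * (k * τ) := fun c' => by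
    have h3 := hU2 c'
    rw [card_tst_inr, cnt_eq_sum] at h3
    calc _ ≤ ∑ j ∈ Ω, ∑ y, ind (Sum.inr (y, c') ∈ U) * ind (newp (g j) i0 ob y) := by
          refine sum_le_sum fun j _ => ind_le (sum_nonneg fun _ _ =>
            mul_nonneg (ind_nonneg _) (ind_nonneg _)) ?_
          rintro ⟨y, h4, h5⟩
          refine le_trans ?_ (single_le_sum (fun _ _ =>
            mul_nonneg (ind_nonneg _) (ind_nonneg _)) (mem_univ y))
          rw [ind_pos h4, ind_pos h5, mul_one]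
      _ = ∑ y, ind (Sum.inr (y, c') ∈ U) * ∑ j ∈ Ω, ind (newp (g j) i0 ob y) := by
          rw [sum_comm]; simp only [mul_sum]
      _ ≤ ∑ y, ind (Sum.inr (y, c') ∈ U) * (Ω.card * (k / Fintype.card Pt)) :=
          sum_le_sum fun y _ => mul_le_mul_of_nonneg_left (hf y) (ind_nonneg _)
      _ ≤ τ * Fintype.card Pt * (Ω.card * (k / Fintype.card Pt)) := by
          rw [← sum_mul]
          exact mul_le_mul_of_nonneg_right h3 (mul_nonneg hΩ0.le hk)
      _ = _ := by field_simp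
  set good : C × J → Prop := fun x => ¬ badb (g x.2) i0 ob Ub ∧
    (¬ ∃ y, newp (g x.2) i0 ob y ∧ Sum.inr (y, c) ∈ U) ∧
    ¬ ∃ y, newp (g x.2) i0 ob y ∧ Sum.inr (y, x.1) ∈ U with hgood
  set Js := (Cg ×ˢ Ω).filter good with hJs
  have hmem : ∀ x ∈ Js, x.1 ∈ Cg ∧ x.2 ∈ Ω ∧ good x := fun x hx => by
    have := mem_filter.1 hx
    exact ⟨(mem_product.1 this.1).1, (mem_product.1 this.1).2, this.2⟩
  have hJ : (Cg.card : ℝ) * Ω.card ≤ 2 * Js.card := by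
    rw [hJs, card_filter_eq_sum_ind, sum_product, mul_sum]
    refine le_trans (le_of_eq (by rw [sum_const, nsmul_eq_mul])) (sum_le_sum (f := fun _ =>
      (Ω.card : ℝ)) fun c' _ => ?_)
    have h4 : ∑ j ∈ Ω, (1 : ℝ) ≤ ∑ j ∈ Ω, (ind (good (c', j)) + ind (badb (g j) i0 ob Ub) +
        ind (∃ y, newp (g j) i0 ob y ∧ Sum.inr (y, c) ∈ U) +
        ind (∃ y, newp (g j) i0 ob y ∧ Sum.inr (y, c') ∈ U)) := by
      refine sum_le_sum fun j _ => ?_
      have a0 := ind_nonneg (good (c', j))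
      have a1 := ind_nonneg (badb (g j) i0 ob Ub)
      have a2 := ind_nonneg (∃ y, newp (g j) i0 ob y ∧ Sum.inr (y, c) ∈ U)
      have a3 := ind_nonneg (∃ y, newp (g j) i0 ob y ∧ Sum.inr (y, c') ∈ U)
      by_cases b1 : badb (g j) i0 ob Ub
      · linarith [ind_pos b1]
      by_cases b2 : ∃ y, newp (g j) i0 ob y ∧ Sum.inr (y, c) ∈ U
      · linarith [ind_pos b2]
      by_cases b3 : ∃ y, newp (g j) i0 ob y ∧ Sum.inr (y, c') ∈ U
      · linarith [ind_pos b3]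
      · linarith [ind_pos (show good (c', j) from ⟨b1, b2, b3⟩)]
    simp only [sum_add_distrib, sum_const, nsmul_eq_mul, mul_one] at h4
    nlinarith [h2 c, h2 c']
  have hJ0 : (0 : ℝ) < Js.card := by nlinarith
  have hsub : ∀ F : C × J → ℝ, (∀ x, 0 ≤ F x) →
      ∑ x ∈ Js, F x ≤ ∑ c' ∈ Cg, ∑ j ∈ Ω, F (c', j) := fun F hF => by
    rw [← sum_product']
    exact sum_le_sum_of_subset_of_nonneg (filter_subset _ _) fun x _ _ => hF x
  refine ⟨Js, card_pos.1 (by exact_mod_cast hJ0), fun x hx => ?_, fun y => ?_, fun c'' => ?_⟩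
  · obtain ⟨hx1, hx2, b1, b2, b3⟩ := hmem x hx
    obtain ⟨g1, g2, g3⟩ := hg _ hx2
    refine ⟨hx1, hx2, disjoint_left.2 fun v hv hvU => ?_⟩
    obtain ⟨hv1, hv2⟩ := mem_sdiff.1 hv
    rw [Gr.reg, mem_fs] at hv1
    rcases v with B | ⟨y, c'⟩
    · have hB : B ∈ Ub := mem_fs.2 hvU
      rcases hv1 with ⟨a, rfl⟩ | ⟨b, rfl⟩
      · exact b1 (Or.inl ⟨a, fun e => hv2 (by rw [e, g2]; exact ho1), hB⟩)
      · refine b1 (Or.inr ⟨b, fun h e => ?_, hB⟩)
        obtain ⟨B1, h1⟩ := Option.ne_none_iff_exists'.1 h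
        exact hv2 (by rw [e, g3 B1 h1]; exact ho2 B1 h1)
    · obtain ⟨⟨a, b, e⟩, hc⟩ := hv1
      have h5 := old_or_new g1 g2 g3 a b
      dsimp only at e hc
      rw [e] at h5
      rcases hc with rfl | rfl
      · exact h5.elim (fun h => hv2 (ho3 y h)) fun h => b2 ⟨y, h, hvU⟩
      · exact h5.elim (fun h => (ho4 _ hx1 y h).elim hv2 fun h' => h' hvU) fun h => b3 ⟨y, h, hvU⟩
  · have a1 : ind (oldp pts B0 ob y) ≤ ((tst pts (Sum.inl y) ∩ old).card : ℝ) :=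
      ind_le_card fun h => ⟨_, by simp, ho3 y h⟩
    have a2 : ∑ x ∈ Js, ind (newp (g x.2) i0 ob y) ≤ 2 * Js.card * (k / Fintype.card Pt) := by
      refine (hsub _ fun _ => ind_nonneg _).trans ((sum_le_sum fun _ _ => hf y).trans ?_)
      rw [sum_const, nsmul_eq_mul, ← mul_assoc]
      exact mul_le_mul_of_nonneg_right hJ hk
    have a3 : ∑ x ∈ Js, ((tst pts (Sum.inl y) ∩ ((g x.2).reg c x.1 \ old)).card : ℝ) ≤
        ∑ x ∈ Js, R * (ind (oldp pts B0 ob y) + ind (newp (g x.2) i0 ob y)) := by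
      refine sum_le_sum fun x hx => ?_
      obtain ⟨hx1, hx2, -⟩ := hmem x hx
      obtain ⟨g1, g2, g3⟩ := hg _ hx2
      refine card_le_ind (hR _ hx1 _ hx2) fun v hv hv1 => ?_
      rw [Gr.reg, mem_fs] at hv1
      have : ∃ a b, (g x.2).p a b = y := by
        rcases v with B | z
        · rw [inl_mem_tst_inl] at hv
          rcases hv1 with ⟨a, rfl⟩ | ⟨b, rfl⟩
          · exact ⟨a, (g1.hA _ _).1 hv⟩
          · obtain ⟨a, e⟩ := (g1.hB _ _).1 hv
            exact ⟨a, b, e⟩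
        · rw [inr_mem_tst_inl] at hv
          exact hv ▸ hv1.1
      obtain ⟨a, b, rfl⟩ := this
      exact old_or_new g1 g2 g3 a b
    rw [← mul_sum, sum_add_distrib, sum_const, nsmul_eq_mul] at a3
    have a4 : R * (k / Fintype.card Pt) * 2 ≤ β * (1 / Fintype.card Pt) := by
      rw [show R * (k / Fintype.card Pt) * 2 = 2 * R * k * (1 / Fintype.card Pt) by ring]
      exact mul_le_mul_of_nonneg_right hβ' (by positivity)
    have a5 : R * ind (oldp pts B0 ob y) ≤ β * ((tst pts (Sum.inl y) ∩ old).card : ℝ) :=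
      mul_le_mul (by linarith) a1 (ind_nonneg _) (by linarith)
    have a6 := mul_le_mul_of_nonneg_left a2 hR0
    have a7 := mul_le_mul_of_nonneg_left (add_le_add a4 a5) hJ0.le
    linarith
  · set z : ℝ := ((tst pts (Sum.inr c'') ∩ old).card : ℝ) with hz
    have z0 : 0 ≤ z := Nat.cast_nonneg _
    have d0 : (0 : ℝ) < 1 / Fintype.card C := by positivity
    have a1 : ind (c'' = c) ≤ z :=
      ind_le_card fun h => ⟨_, by simp [h], ho3 y0 (Or.inl hy0)⟩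
    have a2 : ∑ x ∈ Js, ind (c'' = x.1) ≤ 4 * Js.card * (z + 1 / Fintype.card C) := by
      refine (hsub _ fun _ => ind_nonneg _).trans ?_
      by_cases hc : c'' ∈ Cg
      · rw [sum_eq_single c'' (fun b _ hb => sum_eq_zero fun _ _ => ind_neg (Ne.symm hb))
          fun h => (h hc).elim]
        simp only [ind_pos, sum_const, nsmul_eq_mul, mul_one]
        have b1 := mul_le_mul_of_nonneg_left (ho5 c'' hc) hΩ0.le
        have b2 := mul_le_mul_of_nonneg_right hJ (add_nonneg z0 d0.le)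
        linarith
      · rw [sum_eq_zero fun b hb => sum_eq_zero fun _ _ => ind_neg fun e => hc (by rw [e]; exact hb)]
        positivity
    have a3 : ∑ x ∈ Js, ((tst pts (Sum.inr c'') ∩ ((g x.2).reg c x.1 \ old)).card : ℝ) ≤
        ∑ x ∈ Js, R * (ind (c'' = c) + ind (c'' = x.1)) := by
      refine sum_le_sum fun x hx => ?_
      obtain ⟨hx1, hx2, -⟩ := hmem x hx
      refine card_le_ind (hR _ hx1 _ hx2) fun v hv hv1 => ?_
      rw [Gr.reg, mem_fs] at hv1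
      rcases v with B | z
      · exact (inl_mem_tst_inr hv).elim
      · rw [inr_mem_tst_inr] at hv
        exact hv ▸ hv1.2
    rw [← mul_sum, sum_add_distrib, sum_const, nsmul_eq_mul] at a3
    have a4 := mul_le_mul_of_nonneg_left a2 hR0
    have a5 : R * ind (c'' = c) ≤ R * (z + 1 / Fintype.card C) :=
      mul_le_mul_of_nonneg_left (by linarith) hR0
    have a6 := mul_le_mul_of_nonneg_right hβ (add_nonneg z0 d0.le)
    have a7 := mul_le_mul_of_nonneg_left a5 hJ0.le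
    have a8 := mul_le_mul_of_nonneg_left a6 hJ0.le
    linarith

theorem free {θ lam : ℕ} (hd : Des pts θ (Fintype.card C) lam)
    (hP : Fintype.card Pt ≤ Fintype.card C) {τ : ℝ} (hτ : 0 ≤ τ) (hθτ : 8 * (θ * τ) ≤ 1)
    (c : C) (B0 : Bl) (ob : Option Bl) {U : Finset (Bl ⊕ Pt × C)}
    (hU1 : ∀ y, ((tst pts (Sum.inl y) ∩ U).card : ℝ) ≤ τ * Fintype.card C) :
    ∃ Cg : Finset C, (∀ c' ∈ Cg, c ≠ c' ∧ ∀ y, oldp pts B0 ob y → Sum.inr (y, c') ∉ U) ∧
      (Fintype.card C : ℝ) ≤ 2 * Cg.card := by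
  set S := pts B0 ∪ pts (ob.getD B0) with hS
  have hS1 : (S.card : ℝ) ≤ 2 * θ := by
    have := card_union_le (pts B0) (pts (ob.getD B0))
    rw [hd.card, hd.card, ← two_mul] at this
    exact_mod_cast this
  have hS2 : ∀ y, oldp pts B0 ob y → y ∈ S := by
    rintro y (h | ⟨B1, rfl, h⟩)
    · exact mem_union_left _ h
    · exact mem_union_right _ h
  have hD : (4 : ℝ) ≤ Fintype.card C := by
    have := hd.th2
    have := hd.thP
    exact_mod_cast (by omega : 4 ≤ Fintype.card C)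
  refine ⟨fs fun c' => c ≠ c' ∧ ∀ y, oldp pts B0 ob y → Sum.inr (y, c') ∉ U,
    fun c' h => by rwa [mem_fs] at h, ?_⟩
  have h1 : ∑ _c' : C, (1 : ℝ) ≤
      ∑ c', (ind (c ≠ c' ∧ ∀ y, oldp pts B0 ob y → Sum.inr (y, c') ∉ U) + ind (c' = c) +
        ∑ y ∈ S, ind (Sum.inr (y, c') ∈ U)) := by
    refine sum_le_sum fun c' _ => ?_
    have a0 := ind_nonneg (c ≠ c' ∧ ∀ y, oldp pts B0 ob y → Sum.inr (y, c') ∉ U)
    have a1 := ind_nonneg (c' = c)
    have a2 : 0 ≤ ∑ y ∈ S, ind (Sum.inr (y, c') ∈ U) := sum_nonneg fun _ _ => ind_nonneg _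
    by_cases b1 : c' = c
    · linarith [ind_pos b1]
    by_cases b2 : ∀ y, oldp pts B0 ob y → Sum.inr (y, c') ∉ U
    · linarith [ind_pos (And.intro (Ne.symm b1) b2)]
    · push Not at b2
      obtain ⟨y, h1, h2⟩ := b2
      have := single_le_sum (f := fun y => ind (Sum.inr (y, c') ∈ U))
        (fun _ _ => ind_nonneg _) (hS2 y h1)
      linarith [ind_pos h2]
  have h2 : ∑ c', ind (c' = c) = 1 := by
    rw [sum_eq_single c (fun b _ hb => ind_neg hb) (by simp), ind_pos rfl]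
  have h3 : ∑ c', ∑ y ∈ S, ind (Sum.inr (y, c') ∈ U) ≤ S.card * (τ * Fintype.card C) := by
    rw [sum_comm, ← nsmul_eq_mul, ← sum_const]
    refine sum_le_sum fun y _ => ?_
    have := hU1 y
    rw [card_tst_inl, cnt_eq_sum (fun c => Sum.inr (y, c) ∈ U)] at this
    linarith [cnt_nonneg fun B => y ∈ pts B ∧ Sum.inl B ∈ U]
  rw [sum_add_distrib, sum_add_distrib, h2, ← cnt_eq_sum, sum_const, card_univ, nsmul_eq_mul,
    mul_one] at h1
  have h4 := mul_le_mul_of_nonneg_right hS1 (mul_nonneg hτ (Nat.cast_nonneg (Fintype.card C)))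
  have h5 := mul_le_mul_of_nonneg_right hθτ (Nat.cast_nonneg (α := ℝ) (Fintype.card C))
  unfold cnt at h1
  linarith

theorem opts {O : Type} (h : S_SegP) {θ lam : ℕ} {k lg C0 : ℝ}
    (hd : Des pts θ (Fintype.card C) lam)
    (hC : 100 * (2 * θ + 2 * (θ : ℝ) ^ 2) * (|k| + 1) ≤ C0) {B0 : Bl} {ob : Option Bl}
    (hG : GFam pts (Fintype.card C) k B0 ob) (c : C) (old : Finset (Bl ⊕ Pt × C))
    (val : O → Prop) (new : O → Finset (Bl ⊕ Pt × C)) (ok : C → Prop) (o0 : O)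
    (ho1 : Sum.inl B0 ∈ old) (ho2 : ∀ B1, ob = some B1 → Sum.inl B1 ∈ old)
    (ho3 : ∀ y, oldp pts B0 ob y → Sum.inr (y, c) ∈ old)
    (hCg : ∀ (U : Finset (Bl ⊕ Pt × C)) (τ : ℝ), 0 ≤ τ → 8 * (θ * τ) ≤ 1 →
      (∀ y, ((tst pts (Sum.inl y) ∩ U).card : ℝ) ≤ τ * Fintype.card C) →
      ∃ Cg : Finset C, Cg.Nonempty ∧ ∀ c' ∈ Cg, c ≠ c' ∧ ok c' ∧
        (∀ y, oldp pts B0 ob y → Sum.inr (y, c') ∈ old ∨ Sum.inr (y, c') ∉ U) ∧
        (1 : ℝ) ≤ 2 * Cg.card * (((tst pts (Sum.inr c') ∩ old).card : ℝ) + 1 / Fintype.card C))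
    (hval : ∀ (I : Type) [Fintype I] (g : Gr I Pt Bl) (i0 : I) (c' : C), g.Ok pts → g.A i0 = B0 →
      (∀ B1, ob = some B1 → g.B i0 = B1) → c ≠ c' → ok c' → 2 ≤ Fintype.card I →
      ((g.reg c c' \ old).card : ℝ) ≤ C0 → ∃ o, val o ∧ new o = g.reg c c' \ old) :
    (dsys C pts θ lg C0).Opts val new old (1 / C0) C0 := by
  intro U hU
  obtain ⟨I, J, _, i0, Ω, g, hΩ, hg, hf, hb⟩ := hG
  have hθ : (2 : ℝ) ≤ θ := by exact_mod_cast hd.th2
  set R : ℝ := 2 * θ + 2 * (θ : ℝ) ^ 2 with hR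
  have r1 : (θ : ℝ) ≤ R := by nlinarith
  have k0 := abs_nonneg k
  have k1 := le_abs_self k
  have c1 : 100 * R ≤ C0 := by nlinarith
  have c2 : 100 * (R * k) ≤ C0 := by nlinarith
  have c3 : 100 * k ≤ C0 := by nlinarith
  have c0 : 0 < C0 := by linarith
  have hI : ∀ j ∈ Ω, Fintype.card I = θ := fun j hj => by rw [card_I (hg j hj).1 i0, hd.card]
  have hU1 : ∀ y, ((tst pts (Sum.inl y) ∩ U).card : ℝ) ≤ 1 / C0 * Fintype.card C :=
    fun y => hU (Sum.inl y)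
  have hU2 : ∀ c, ((tst pts (Sum.inr c) ∩ U).card : ℝ) ≤ 1 / C0 * Fintype.card Pt :=
    fun c => hU (Sum.inr c)
  obtain ⟨Cg, hne, hC⟩ := hCg U (1 / C0) (by positivity)
    (by rw [mul_one_div, ← mul_div_assoc, div_le_one c0]; linarith) hU1
  have hRR : ∀ c' ∈ Cg, ∀ j ∈ Ω, (((g j).reg c c').card : ℝ) ≤ R := fun c' hc' j hj => by
    have := (h I Pt Bl C pts (g j) c c' i0 (hg j hj).1 (hC c' hc').1
      (by rw [hI j hj]; exact hd.th2)).1
    rw [hI j hj] at this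
    rw [hR]
    exact_mod_cast this
  have hB0 : (pts B0).Nonempty := card_pos.1 (by rw [hd.card]; linarith [hd.th2])
  obtain ⟨Js, hJ, h1, h2, h3⟩ := core (β := C0) hΩ hg hf hb c old U Cg (by positivity)
    (by rw [mul_one_div, ← mul_div_assoc, div_le_one c0]; linarith) (by linarith) (by linarith)
    hB0 hne hU1 hU2 ho1 ho2 ho3 (fun c' hc' => (hC c' hc').2.2.1) (fun c' hc' => (hC c' hc').2.2.2)
    hRR
  have key : ∀ x : C × J, ∃ o, x ∈ Js → val o ∧ new o = (g x.2).reg c x.1 \ old := fun x => by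
    by_cases hx : x ∈ Js
    · obtain ⟨x1, x2, -⟩ := h1 x hx
      obtain ⟨o, ho⟩ := hval I (g x.2) i0 x.1 (hg _ x2).1 (hg _ x2).2.1 (hg _ x2).2.2 (hC _ x1).1
        (hC _ x1).2.1 (by rw [hI _ x2]; exact hd.th2)
        (le_trans (Nat.cast_le.2 (card_le_card sdiff_subset)) ((hRR _ x1 _ x2).trans (by linarith)))
      exact ⟨o, fun _ => ho⟩
    · exact ⟨o0, fun a => (hx a).elim⟩
  choose op hop using key
  refine ⟨C × J, Js, op, hJ, fun x hx => ⟨(hop x hx).1, ?_⟩, fun f => ?_⟩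
  · rw [(hop x hx).2]; exact (h1 x hx).2.2
  · obtain ⟨y0, -⟩ := hB0
    have hP : (0 : ℝ) < Fintype.card Pt := by exact_mod_cast Fintype.card_pos_iff.2 ⟨y0⟩
    have hD : (0 : ℝ) < Fintype.card C := by exact_mod_cast Fintype.card_pos_iff.2 ⟨c⟩
    rw [sum_congr rfl fun x hx => by rw [(hop x hx).2]]
    rcases f with y | c''
    · have e : (dsys C pts θ lg C0).s (Sum.inl y) / (dsys C pts θ lg C0).Tot =
          1 / Fintype.card Pt := by
        simp only [dsys, Sum.elim_inl]; field_simp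
      rw [e]; exact h2 y
    · have e : (dsys C pts θ lg C0).s (Sum.inr c'') / (dsys C pts θ lg C0).Tot =
          1 / Fintype.card C := by
        simp only [dsys, Sum.elim_inr]; field_simp
      rw [e]; exact h3 c''

theorem free' {θ lam : ℕ} (hd : Des pts θ (Fintype.card C) lam)
    (hP : Fintype.card Pt ≤ Fintype.card C) (c : C) (B0 : Bl) (ob : Option Bl)
    (old U : Finset (Bl ⊕ Pt × C)) (τ : ℝ) (hτ : 0 ≤ τ) (hθτ : 8 * (θ * τ) ≤ 1)
    (hU1 : ∀ y, ((tst pts (Sum.inl y) ∩ U).card : ℝ) ≤ τ * Fintype.card C) :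
    ∃ Cg : Finset C, Cg.Nonempty ∧ ∀ c' ∈ Cg, c ≠ c' ∧ True ∧
      (∀ y, oldp pts B0 ob y → Sum.inr (y, c') ∈ old ∨ Sum.inr (y, c') ∉ U) ∧
      (1 : ℝ) ≤ 2 * Cg.card * (((tst pts (Sum.inr c') ∩ old).card : ℝ) + 1 / Fintype.card C) := by
  obtain ⟨Cg, h1, h2⟩ := free hd hP hτ hθτ c B0 ob hU1
  have hD : (0 : ℝ) < Fintype.card C := by exact_mod_cast Fintype.card_pos_iff.2 ⟨c⟩
  have h0 : (0 : ℝ) < Cg.card := by linarith
  refine ⟨Cg, card_pos.1 (by exact_mod_cast h0), fun c' hc' =>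
    ⟨(h1 c' hc').1, trivial, fun y hy => Or.inr ((h1 c' hc').2 y hy), ?_⟩⟩
  have h3 : (1 : ℝ) ≤ 2 * Cg.card * (1 / Fintype.card C) := by
    rw [mul_one_div, le_div_iff₀ hD]; linarith
  have h4 : (0 : ℝ) ≤ 2 * Cg.card * ((tst pts (Sum.inr c') ∩ old).card : ℝ) := by positivity
  linarith

end SegCP

open SegCP in
theorem segC (h : S_SegP) : S_SegC := by
  intro θ k
  refine ⟨100 * (2 * θ + 2 * (θ : ℝ) ^ 2) * (|k| + 1), ?_⟩
  intro Pt Bl C _ _ _ _ _ _ pts lam lg C0 hC hd hP hG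
  refine ⟨?_, ?_⟩
  · rintro ⟨B0, c⟩
    refine opts h hd hC (hG.1 B0) c (edg pts (B0, c)) _ _ (fun _ => True) (∅, fun _ => (B0, c))
      (by simp) (by simp) (fun y hy => ?_) (free' hd hP c B0 none _) ?_
    · rcases hy with hy | ⟨_, hy, -⟩
      · simpa using hy
      · cases hy
    · rintro I _ g i0 c' hg rfl - hc - hI hcard
      obtain ⟨tok, ht⟩ := (h I Pt Bl C pts g c c' i0 hg hc hI).2.1
      exact ⟨(_, tok), ⟨ht, hcard⟩, rfl⟩
  · rintro (B | ⟨p, c⟩) ⟨B0, c0⟩ ⟨B1, c1⟩ h0 h1 hdis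
    · change Sum.inl B ∈ edg pts (B0, c0) at h0
      change Sum.inl B ∈ edg pts (B1, c1) at h1
      change Disjoint ((edg pts (B0, c0)).erase _) ((edg pts (B1, c1)).erase _) at hdis
      rw [inl_mem_edg] at h0 h1
      dsimp only at h0 h1
      subst h0 h1
      obtain ⟨y0, hy0⟩ : (pts B).Nonempty := card_pos.1 (by rw [hd.card]; linarith [hd.th2])
      have hc : c0 ≠ c1 := by
        rintro rfl
        exact (disjoint_left.1 hdis : ∀ ⦃a⦄, _ → _) (a := Sum.inr (y0, c0)) (by simp [hy0])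
          (by simp [hy0])
      have ho : ∀ y, oldp pts B none y → y ∈ pts B := by
        rintro y (hy | ⟨_, hy, -⟩)
        · exact hy
        · cases hy
      refine opts h hd hC (hG.1 B) c0 (edg pts (B, c0) ∪ edg pts (B, c1)) _ _ (fun c => c = c1) ∅
        (by simp) (by simp) (fun y hy => by simp [ho y hy]) (fun U τ _ _ _ => ?_) ?_
      · refine ⟨{c1}, singleton_nonempty _, fun c' hc' => ?_⟩
        rw [mem_singleton] at hc'
        subst hc'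
        refine ⟨hc, rfl, fun y hy => Or.inl (by simp [ho y hy]), ?_⟩
        have a1 : (1 : ℝ) ≤ ((tst pts (Sum.inr c') ∩
            (edg pts (B, c0) ∪ edg pts (B, c'))).card : ℝ) := by
          exact_mod_cast card_pos.2 ⟨Sum.inr (y0, c'), by simp [hy0]⟩
        have a2 : (0 : ℝ) ≤ 1 / Fintype.card C := by positivity
        rw [card_singleton, Nat.cast_one]
        linarith
      · rintro I _ g i0 c' hg rfl - hc rfl hI hcard
        exact ⟨_, ⟨(h I Pt Bl C pts g c0 c' i0 hg hc hI).2.2.1, hcard⟩, rfl⟩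
    · change Sum.inr (p, c) ∈ edg pts (B0, c0) at h0
      change Sum.inr (p, c) ∈ edg pts (B1, c1) at h1
      change Disjoint ((edg pts (B0, c0)).erase _) ((edg pts (B1, c1)).erase _) at hdis
      rw [inr_mem_edg] at h0 h1
      obtain ⟨p0, e0⟩ := h0
      obtain ⟨p1, e1⟩ := h1
      dsimp only at p0 p1 e0 e1
      subst e0 e1
      have hp : ∀ y, y ∈ pts B0 → y ∈ pts B1 → y = p := fun y a b => by
        by_contra e
        exact (disjoint_left.1 hdis : ∀ ⦃a⦄, _ → _) (a := Sum.inr (y, c)) (by simp [a, e])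
          (by simp [b, e])
      have h1 : (pts B0 ∩ pts B1).card = 1 := card_eq_one.2 ⟨p, eq_singleton_iff_unique_mem.2
        ⟨mem_inter.2 ⟨p0, p1⟩, fun y hy => hp y (mem_inter.1 hy).1 (mem_inter.1 hy).2⟩⟩
      refine opts h hd hC (hG.2 B0 B1 h1) c (edg pts (B0, c) ∪ edg pts (B1, c)) _ _
        (fun _ => True) ∅ (by simp) (by simp) (fun y hy => ?_) (free' hd hP c B0 (some B1) _) ?_
      · rcases hy with hy | ⟨_, e, hy⟩
        · simp [hy]
        · cases e; simp [hy]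
      · rintro I _ g i0 c' hg rfl hB hc - hI hcard
        obtain rfl := hB B1 rfl
        obtain rfl := hp (g.p i0 i0) ((hg.hA _ _).2 ⟨_, rfl⟩) ((hg.hB _ _).2 ⟨_, rfl⟩)
        exact ⟨_, ⟨(h I Pt Bl C pts g c c' i0 hg hc hI).2.2.2, hcard⟩, rfl⟩

end Pool.Agent.P.MP_3b9ee7_co.Q
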