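import Pool.Agent.P.MP_3b9ee7_co.Q.Base

/-! The two matchings of a grid give a switch and two hinges. -/

namespace Pool.Agent.P.MP_3b9ee7_co.Q

open Finset
open Pool.Agent.P.MP_77d020_co.L (ind fs cnt mem_fs)

namespace SegPP

section Abs

variable {V E J : Type} [DecidableEq V] [Fintype E] [Fintype J] {ed : E → Finset V}

/-- The edges `f j` form a partition of `R`. -/
structure Cov (ed : E → Finset V) (f : J → E) (R : Finset V) : Prop where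
  dis : ∀ j j' v, v ∈ ed (f j) → v ∈ ed (f j') → j = j'
  cov : ∀ v, v ∈ R ↔ ∃ j, v ∈ ed (f j)

theorem Cov.pm {f : J → E} {R : Finset V} (h : Cov ed f R) (P : J → Prop) (U : Finset V)
    (hU : ∀ v, v ∈ U ↔ ∃ j, P j ∧ v ∈ ed (f j)) : PM ed U := by
  classical
  refine PM.family (univ.filter P) f U (fun i _ i' _ hne => ?_) fun v => ?_
  · exact disjoint_left.2 fun v h1 h2 => hne (h.dis i i' v h1 h2)
  · rw [hU]; simp

theorem Cov.pm_sdiff {f : J → E} {R : Finset V} (h : Cov ed f R) (j : J) :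
    PM ed (R \ ed (f j)) := by
  refine h.pm (fun i => i ≠ j) _ fun v => ?_
  rw [mem_sdiff, h.cov]
  constructor
  · rintro ⟨⟨i, hi⟩, h2⟩
    exact ⟨i, fun e => h2 (e ▸ hi), hi⟩
  · rintro ⟨i, hi, h2⟩
    exact ⟨⟨i, h2⟩, fun h3 => hi (h.dis i j v h2 h3)⟩

theorem hinge_eq {R A B : Finset V} {v : V} (hA : A ⊆ R) (hB : v ∈ B)
    (h : ∀ x, x ∈ A → x ∈ B → x = v) : R \ (A ∪ B) ∪ A.erase v = R \ B := by
  ext x
  simp only [mem_union, mem_sdiff, mem_erase, not_or]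
  constructor
  · rintro (⟨h1, -, h3⟩ | ⟨h1, h2⟩)
    · exact ⟨h1, h3⟩
    · exact ⟨hA h2, fun h3 => h1 (h x h2 h3)⟩
  · rintro ⟨h1, h2⟩
    by_cases h3 : x ∈ A
    · exact Or.inr ⟨fun e => h2 (e ▸ hB), h3⟩
    · exact Or.inl ⟨h1, h3, h2⟩

theorem hinge {f1 f2 : J → E} {R : Finset V} (h1 : Cov ed f1 R) (h2 : Cov ed f2 R) (j1 j2 : J)
    {v : V} (m1 : v ∈ ed (f1 j1)) (m2 : v ∈ ed (f2 j2))
    (h : ∀ x, x ∈ ed (f1 j1) → x ∈ ed (f2 j2) → x = v) :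
    HiV ed (f1 j1) (f2 j2) v (R \ (ed (f1 j1) ∪ ed (f2 j2))) := by
  constructor
  · rw [hinge_eq (fun x hx => (h1.cov x).2 ⟨j1, hx⟩) m2 h]
    exact h2.pm_sdiff j2
  · rw [union_comm (ed (f1 j1)),
      hinge_eq (fun x hx => (h2.cov x).2 ⟨j2, hx⟩) m1 fun x a b => h x b a]
    exact h1.pm_sdiff j1

theorem switch {f1 f2 : J → E} {R : Finset V} (h1 : Cov ed f1 R) (h2 : Cov ed f2 R) (j1 : J)
    (h : ∀ j x y, x ∈ ed (f1 j1) → y ∈ ed (f1 j1) → x ∈ ed (f2 j) → y ∈ ed (f2 j) → x = y) :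
    ∃ tok, SwV ed (f1 j1) (R \ ed (f1 j1)) tok := by
  have ht : ∀ v, ∃ j, v ∈ ed (f1 j1) → v ∈ ed (f2 j) := fun v => by
    by_cases hv : v ∈ ed (f1 j1)
    · obtain ⟨j, hj⟩ := (h2.cov v).1 ((h1.cov v).2 ⟨j1, hv⟩)
      exact ⟨j, fun _ => hj⟩
    · exact ⟨j1, fun h => (hv h).elim⟩
  choose t ht using ht
  refine ⟨fun v => f2 (t v), ht, fun v hv x hx => ?_, fun v hv v' hv' hne => ?_,
    h1.pm_sdiff j1, ?_⟩
  · rw [mem_erase] at hx
    exact mem_sdiff.2 ⟨(h2.cov x).2 ⟨_, hx.2⟩, fun h3 => hx.1 (h _ x v h3 hv hx.2 (ht v hv))⟩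
  · refine disjoint_left.2 fun x a b => hne ?_
    have e := h2.dis _ _ x (mem_of_mem_erase a) (mem_of_mem_erase b)
    exact h (t v) v v' hv hv' (ht v hv) (e ▸ ht v' hv')
  · refine h2.pm (fun j => ∀ u ∈ ed (f1 j1), t u ≠ j) _ fun v => ?_
    simp only [mem_sdiff, mem_biUnion, mem_erase, not_exists, not_and]
    constructor
    · rintro ⟨⟨a, b⟩, c⟩
      obtain ⟨j, hj⟩ := (h2.cov v).1 a
      refine ⟨j, fun u hu e => c u hu (fun e' => b (e' ▸ hu)) (e ▸ hj), hj⟩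
    · rintro ⟨j, a, b⟩
      exact ⟨⟨(h2.cov v).2 ⟨j, b⟩, fun hv => a v hv (h2.dis _ _ v (ht v hv) b)⟩,
        fun u hu _ hv => a u hu (h2.dis _ _ v hv b)⟩

end Abs

section Grid

variable {I Pt Bl C : Type} [Fintype I] [Fintype Pt] [Fintype Bl] [Fintype C] [DecidableEq Pt]
  [DecidableEq Bl] [DecidableEq C] {pts : Bl → Finset Pt} {g : Gr I Pt Bl}

/-- One side of the grid. -/
def fam (g : Gr I Pt Bl) (c c' : C) : I ⊕ I → Bl × C :=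
  Sum.elim (fun a => (g.A a, c)) fun b => (g.B b, c')

omit [Fintype I] [Fintype Pt] [Fintype Bl] [DecidableEq Pt] [DecidableEq Bl] in
theorem A_inj (h : g.Ok pts) {a a' : I} (e : g.A a = g.A a') : a = a' := by
  obtain ⟨b, hb⟩ := (h.hA a' (g.p a a)).1 (e ▸ (h.hA a _).2 ⟨a, rfl⟩)
  exact (h.inj _ _ _ _ hb).1.symm

omit [Fintype I] [Fintype Pt] [Fintype Bl] [DecidableEq Pt] [DecidableEq Bl] in
theorem B_inj (h : g.Ok pts) {b b' : I} (e : g.B b = g.B b') : b = b' := by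
  obtain ⟨a, ha⟩ := (h.hB b' (g.p b b)).1 (e ▸ (h.hB b _).2 ⟨b, rfl⟩)
  exact (h.inj _ _ _ _ ha).2.symm

omit [Fintype Pt] [Fintype Bl] [DecidableEq Pt] [DecidableEq Bl] in
theorem A_ne_B (h : g.Ok pts) (h2 : 2 ≤ Fintype.card I) (a b : I) : g.A a ≠ g.B b := fun e => by
  obtain ⟨b', hb'⟩ := Fintype.exists_ne_of_one_lt_card h2 b
  obtain ⟨a', ha'⟩ := (h.hB b (g.p a b')).1 (e ▸ (h.hA a _).2 ⟨b', rfl⟩)
  exact hb' (h.inj _ _ _ _ ha').2.symm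

omit [Fintype I] [Fintype Pt] [Fintype Bl] [DecidableEq Pt] [DecidableEq Bl] in
theorem AB (h : g.Ok pts) {a b : I} {y : Pt} (h1 : y ∈ pts (g.A a)) (h2 : y ∈ pts (g.B b)) :
    y = g.p a b := by
  obtain ⟨b', hb⟩ := (h.hA a y).1 h1
  obtain ⟨a', ha⟩ := (h.hB b y).1 h2
  rw [← hb, (h.inj _ _ _ _ (hb.trans ha.symm)).2]

omit [Fintype I] [DecidableEq Pt] [DecidableEq Bl] [DecidableEq C] in
theorem reg_comm (c c' : C) : g.reg c' c = g.reg c c' := by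
  ext v
  rcases v with B | x <;> simp [Gr.reg, or_comm]

theorem cov (h : g.Ok pts) (h2 : 2 ≤ Fintype.card I) {c c' : C} (hc : c ≠ c') :
    Cov (edg pts) (fam g c c') (g.reg c c') := by
  constructor
  · rintro (a | b) (a' | b') (B | x) <;>
      simp only [fam, Sum.elim_inl, Sum.elim_inr, inl_mem_edg, inr_mem_edg]
    · intro e1 e2; rw [A_inj h (e1.symm.trans e2)]
    · rintro ⟨e1, -⟩ ⟨e2, -⟩
      obtain ⟨b, hb⟩ := (h.hA _ _).1 e1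
      obtain ⟨b', hb'⟩ := (h.hA _ _).1 e2
      rw [(h.inj _ _ _ _ (hb.trans hb'.symm)).1]
    · intro e1 e2; exact (A_ne_B h h2 _ _ (e1.symm.trans e2)).elim
    · rintro ⟨-, e1⟩ ⟨-, e2⟩; exact (hc (e1.symm.trans e2)).elim
    · intro e1 e2; exact (A_ne_B h h2 _ _ (e2.symm.trans e1)).elim
    · rintro ⟨-, e1⟩ ⟨-, e2⟩; exact (hc (e2.symm.trans e1)).elim
    · intro e1 e2; rw [B_inj h (e1.symm.trans e2)]
    · rintro ⟨e1, -⟩ ⟨e2, -⟩
      obtain ⟨a, ha⟩ := (h.hB _ _).1 e1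
      obtain ⟨a', ha'⟩ := (h.hB _ _).1 e2
      rw [(h.inj _ _ _ _ (ha.trans ha'.symm)).2]
  · rintro (B | x) <;>
      simp only [Gr.reg, mem_fs, fam, Sum.exists, Sum.elim_inl, Sum.elim_inr, inl_mem_edg,
        inr_mem_edg]
    · simp only [eq_comm]
    · simp only [h.hA, h.hB]
      constructor
      · rintro ⟨⟨a, b, e⟩, e' | e'⟩
        · exact Or.inl ⟨a, ⟨b, e⟩, e'⟩
        · exact Or.inr ⟨b, ⟨a, e⟩, e'⟩
      · rintro (⟨a, ⟨b, e⟩, e'⟩ | ⟨b, ⟨a, e⟩, e'⟩)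
        · exact ⟨⟨a, b, e⟩, Or.inl e'⟩
        · exact ⟨⟨a, b, e⟩, Or.inr e'⟩

theorem card_reg (c c' : C) :
    (g.reg c c').card ≤ 2 * Fintype.card I + 2 * Fintype.card I ^ 2 := by
  have hs : g.reg c c' ⊆ univ.image
      (Sum.elim (fun i : I ⊕ I => Sum.inl (Sum.elim g.A g.B i))
        fun q : I × I ⊕ I × I => Sum.inr
          (Sum.elim (fun q => (g.p q.1 q.2, c)) (fun q => (g.p q.1 q.2, c')) q)) := by
    rintro (B | ⟨y, d⟩) hv <;> simp only [Gr.reg, mem_fs, Sum.elim_inl, Sum.elim_inr] at hv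
    · rcases hv with ⟨a, rfl⟩ | ⟨b, rfl⟩
      · exact mem_image.2 ⟨Sum.inl (Sum.inl a), mem_univ _, rfl⟩
      · exact mem_image.2 ⟨Sum.inl (Sum.inr b), mem_univ _, rfl⟩
    · obtain ⟨⟨a, b, rfl⟩, rfl | rfl⟩ := hv
      · exact mem_image.2 ⟨Sum.inr (Sum.inl (a, b)), mem_univ _, rfl⟩
      · exact mem_image.2 ⟨Sum.inr (Sum.inr (a, b)), mem_univ _, rfl⟩
  refine (card_le_card hs).trans (card_image_le.trans (le_of_eq ?_))
  simp only [card_univ, Fintype.card_sum, Fintype.card_prod]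
  ring

end Grid

end SegPP

open SegPP in
theorem segP : S_SegP := by
  intro I Pt Bl C _ _ _ _ _ _ _ pts g c c' i0 h hc h2
  have h1 := cov h h2 hc
  have h1' := cov h h2 hc.symm
  rw [reg_comm] at h1'
  refine ⟨card_reg c c', switch h1 h1' (Sum.inl i0) ?_,
    hinge h1 h1' (Sum.inl i0) (Sum.inl i0) ?_ ?_ ?_,
    hinge h1 h1' (Sum.inl i0) (Sum.inr i0) ?_ ?_ ?_⟩
  · rintro (a | b) (B | x) (B' | x') <;>
      simp only [fam, Sum.elim_inl, Sum.elim_inr, inl_mem_edg, inr_mem_edg]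
    · intro e1 e2 _ _; rw [e1, e2]
    · rintro - ⟨-, e1⟩ - ⟨-, e2⟩; exact (hc (e1.symm.trans e2)).elim
    · rintro ⟨-, e1⟩ - ⟨-, e2⟩ -; exact (hc (e1.symm.trans e2)).elim
    · rintro ⟨-, e1⟩ - ⟨-, e2⟩ -; exact (hc (e1.symm.trans e2)).elim
    · intro e1 e2 _ _; rw [e1, e2]
    · rintro e1 - e2 -; exact (A_ne_B h h2 _ _ (e1.symm.trans e2)).elim
    · rintro - e1 - e2; exact (A_ne_B h h2 _ _ (e1.symm.trans e2)).elim
    · rintro ⟨e1, e2⟩ ⟨e3, e4⟩ ⟨e5, -⟩ ⟨e6, -⟩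
      rw [Prod.ext ((AB h e1 e5).trans (AB h e3 e6).symm) (e2.trans e4.symm)]
  · simp [fam]
  · simp [fam]
  · rintro (B | x) <;> simp only [fam, Sum.elim_inl, inl_mem_edg, inr_mem_edg]
    · intro e1 _; rw [e1]
    · rintro ⟨-, e1⟩ ⟨-, e2⟩; exact (hc (e1.symm.trans e2)).elim
  · simp only [fam, Sum.elim_inl, inr_mem_edg, and_true]
    exact (h.hA _ _).2 ⟨i0, rfl⟩
  · simp only [fam, Sum.elim_inr, inr_mem_edg, and_true]
    exact (h.hB _ _).2 ⟨i0, rfl⟩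
  · rintro (B | x) <;> simp only [fam, Sum.elim_inl, Sum.elim_inr, inl_mem_edg, inr_mem_edg]
    · intro e1 e2; exact (A_ne_B h h2 _ _ (e1.symm.trans e2)).elim
    · rintro ⟨e1, e2⟩ ⟨e3, -⟩
      rw [← AB h e1 e3, ← e2]

end Pool.Agent.P.MP_3b9ee7_co.Q
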