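import Pool.Agent.P.MP_3b9ee7_co.Q.Base

/-! The support family and its loads. -/

namespace Pool.Agent.P.MP_3b9ee7_co.Q

open Finset
open Pool.Agent.P.MP_77d020_co.L (ind fs cnt ind_pos ind_neg ind_nonneg ind_le_one mem_fs
  cnt_eq_sum card_filter_eq_sum_ind ind_le ind_mono cnt_nonneg ind_congr)

namespace SupP

theorem modfib {A : Type} (s : Finset A) (ix : A → ℕ) (n g i : ℕ)
    (hinj : ∀ a ∈ s, ∀ a' ∈ s, ix a = ix a' → a = a') (hlt : ∀ a ∈ s, ix a < n) :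
    ∑ a ∈ s, ind (ix a % g = i) ≤ (n : ℝ) / g + 1 := by
  classical
  rw [← card_filter_eq_sum_ind]
  have h : (s.filter fun a => ix a % g = i).card ≤ (range (n / g + 1)).card := by
    refine card_le_card_of_injOn (fun a => ix a / g) (fun a ha => ?_) fun a ha a' ha' e => ?_
    · have h1 := hlt a (mem_filter.1 ha).1
      exact mem_coe.2 (mem_range.2 (Nat.lt_succ_of_le (Nat.div_le_div_right h1.le)))
    · have h1 := mem_filter.1 (mem_coe.1 ha)
      have h2 := mem_filter.1 (mem_coe.1 ha')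
      refine hinj a h1.1 a' h2.1 ?_
      have e' : ix a / g = ix a' / g := e
      rw [← Nat.div_add_mod (ix a) g, ← Nat.div_add_mod (ix a') g, e', h1.2, h2.2]
  rw [card_range] at h
  have h2 : ((n / g : ℕ) : ℝ) ≤ (n : ℝ) / g := Nat.cast_div_le
  have h3 : ((s.filter fun a => ix a % g = i).card : ℝ) ≤ ((n / g + 1 : ℕ) : ℝ) := Nat.cast_le.2 h
  push_cast at h3
  linarith

theorem bal {A : Type} (s : Finset A) (g : ℕ) (hg : 0 < g) :
    ∃ f : A → ℕ, (∀ a, f a < g) ∧ ∀ i, ∑ a ∈ s, ind (f a = i) ≤ (s.card : ℝ) / g + 1 := by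
  classical
  refine ⟨fun a => (if h : a ∈ s then (s.equivFin ⟨a, h⟩ : ℕ) else 0) % g,
    fun a => Nat.mod_lt _ hg, fun i => modfib s _ s.card g i (fun a ha a' ha' e => ?_)
      fun a ha => ?_⟩
  · simp only [dif_pos ha, dif_pos ha'] at e
    exact congrArg Subtype.val (s.equivFin.injective (Fin.ext e))
  · simp only [dif_pos ha]
    exact (s.equivFin ⟨a, ha⟩).2

theorem index (C : Type) [Fintype C] (h : 0 < Fintype.card C) :
    ∃ (ix : C → ℕ) (ci : ℕ → C), (∀ c, ix c < Fintype.card C) ∧ (∀ c c', ix c = ix c' → c = c') ∧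
      ∀ n < Fintype.card C, ix (ci n) = n := by
  refine ⟨fun c => Fintype.equivFin C c, fun n => (Fintype.equivFin C).symm
    ⟨n % Fintype.card C, Nat.mod_lt _ h⟩, fun c => (Fintype.equivFin C c).2,
    fun c c' e => (Fintype.equivFin C).injective (Fin.ext e), fun n hn => ?_⟩
  simp [Nat.mod_eq_of_lt hn]

theorem kappa {Bl : Type} (C : Type) [Fintype C] (h : 0 < Fintype.card C) (s : Finset Bl) :
    ∃ κ : Bl → C, ∀ c, ∑ B ∈ s, ind (κ B = c) ≤ (s.card : ℝ) / Fintype.card C + 1 := by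
  obtain ⟨ix, ci, -, -, h3⟩ := index C h
  obtain ⟨f, hf, hf'⟩ := bal s _ h
  refine ⟨fun B => ci (f B), fun c => le_trans (sum_le_sum fun B _ => ind_mono fun e => ?_)
    (hf' (ix c))⟩
  rw [← e, h3 _ (hf B)]

theorem colours (C Pt : Type) [Fintype C] [Fintype Pt] (ε : ℝ) (h0 : 0 < ε) (h1 : ε ≤ 1)
    (hD : 1 / ε ≤ Fintype.card C) :
    ∃ (J : ℕ) (grp : C → ℕ) (col : ℕ → Pt → C) (cst : ℕ → C), (∀ c, grp c < J) ∧
      (∀ j < J, grp (cst j) = j ∧ ∀ p, grp (col j p) = j) ∧ (J : ℝ) ≤ ε * Fintype.card C ∧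
      (∀ j, ∑ c, ind (grp c = j) ≤ 5 / ε) ∧
      ∀ j < J, ∀ c, ∑ p, ind (col j p = c) ≤ ε * Fintype.card Pt + 1 := by
  obtain ⟨g, hg⟩ : ∃ g, g = ⌈1 / ε⌉₊ := ⟨_, rfl⟩
  have hi : 0 < 1 / ε := by positivity
  have hi1 : 1 ≤ 1 / ε := by rw [le_div_iff₀ h0]; linarith
  have g1 : 1 / ε ≤ g := hg ▸ Nat.le_ceil _
  have g2 : (g : ℝ) < 1 / ε + 1 := hg ▸ Nat.ceil_lt_add_one hi.le
  have g3 : g ≤ Fintype.card C := hg ▸ Nat.ceil_le.2 hD
  have g0 : 0 < g := by exact_mod_cast hi.trans_le g1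
  have g0' : (0 : ℝ) < g := by exact_mod_cast g0
  have g4 : 1 ≤ ε * g := by rw [div_le_iff₀ h0] at g1; linarith
  obtain ⟨ix, ci, i1, i2, i3⟩ := index C (g0.trans_le g3)
  obtain ⟨f, hf, hf'⟩ := bal (univ : Finset Pt) g g0
  obtain ⟨J, hJ⟩ : ∃ J, J = Fintype.card C / g := ⟨_, rfl⟩
  have J0 : 0 < J := hJ ▸ Nat.div_pos g3 g0
  have J1 : J * g ≤ Fintype.card C := hJ ▸ Nat.div_mul_le_self _ _
  have J2 : Fintype.card C < g * (J + 1) := hJ ▸ Nat.lt_mul_div_succ _ g0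
  have key : ∀ j < J, ∀ i < g, ix (ci (j + J * i)) = j + J * i := fun j hj i hi => i3 _ (by
    have : J * (i + 1) ≤ J * g := Nat.mul_le_mul_left _ hi
    rw [Nat.mul_succ] at this
    omega)
  refine ⟨J, fun c => ix c % J, fun j p => ci (j + J * f p), fun j => ci (j + J * 0),
    fun c => Nat.mod_lt _ J0, fun j hj => ⟨?_, fun p => ?_⟩, ?_, fun j => ?_, fun j hj c => ?_⟩
  · show ix (ci (j + J * 0)) % J = j
    rw [key j hj 0 g0, Nat.add_mul_mod_self_left, Nat.mod_eq_of_lt hj]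
  · show ix (ci (j + J * f p)) % J = j
    rw [key j hj _ (hf p), Nat.add_mul_mod_self_left, Nat.mod_eq_of_lt hj]
  · have : (J : ℝ) * g ≤ Fintype.card C := by exact_mod_cast J1
    have h2 : (0 : ℝ) ≤ J := Nat.cast_nonneg _
    nlinarith
  · refine (modfib univ ix (Fintype.card C) J j (fun a _ a' _ => i2 a a') fun a _ => i1 a).trans ?_
    have J0' : (1 : ℝ) ≤ J := by exact_mod_cast J0
    have J2' : (Fintype.card C : ℝ) < g * (J + 1) := by exact_mod_cast J2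
    have : (Fintype.card C : ℝ) / J ≤ 2 * g := by
      rw [div_le_iff₀ (by linarith)]; nlinarith
    have e : 5 / ε = 5 * (1 / ε) := by ring
    linarith
  · refine le_trans (sum_le_sum fun p _ => ind_mono (Q := f p = (ix c - j) / J) fun e => ?_)
      ((hf' _).trans ?_)
    · rw [← e, key j hj _ (hf p), Nat.add_sub_cancel_left, Nat.mul_div_cancel_left _ J0]
    · rw [card_univ]
      have : (Fintype.card Pt : ℝ) / g ≤ ε * Fintype.card Pt := by
        rw [div_le_iff₀ g0']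
        have h2 : (0 : ℝ) ≤ Fintype.card Pt := Nat.cast_nonneg _
        nlinarith
      linarith

theorem sum_union_le {E : Type} [DecidableEq E] (s t : Finset E) (φ : E → ℝ) (h : ∀ e, 0 ≤ φ e) :
    ∑ e ∈ s ∪ t, φ e ≤ ∑ e ∈ s, φ e + ∑ e ∈ t, φ e := by
  rw [← sum_union_inter]
  linarith [sum_nonneg (s := s ∩ t) fun e _ => h e]

theorem sum_biUnion_le {I E : Type} [DecidableEq E] (s : Finset I) (t : I → Finset E) (φ : E → ℝ)
    (h : ∀ e, 0 ≤ φ e) : ∑ e ∈ s.biUnion t, φ e ≤ ∑ i ∈ s, ∑ e ∈ t i, φ e := by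
  classical
  induction s using Finset.induction_on with
  | empty => simp
  | insert a s ha ih =>
    rw [biUnion_insert, sum_insert ha]
    linarith [sum_union_le (t a) (s.biUnion t) φ h]

theorem sum_ind_eq {C : Type} [Fintype C] (c : C) (F : C → ℝ) :
    ∑ c', ind (c' = c) * F c' = F c := by
  rw [sum_eq_single c]
  · rw [ind_pos rfl, one_mul]
  · intro b _ hb; rw [ind_neg hb, zero_mul]
  · simp

theorem sum_ind_mem {A : Type} [Fintype A] (s : Finset A) (F : A → ℝ) :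
    ∑ a, ind (a ∈ s) * F a = ∑ a ∈ s, F a := by
  rw [← sum_subset (subset_univ s)]
  · exact sum_congr rfl fun a ha => by rw [ind_pos ha, one_mul]
  · intro a _ ha; rw [ind_neg ha, zero_mul]

theorem sum_grp {J : ℕ} {n : ℕ} (h : n < J) (F : ℕ → ℝ) :
    ∑ j ∈ range J, ind (n = j) * F j = F n := by
  rw [sum_eq_single n]
  · rw [ind_pos rfl, one_mul]
  · intro b _ hb; rw [ind_neg (Ne.symm hb), zero_mul]
  · intro h'; exact (h' (mem_range.2 h)).elim

variable {Pt Bl C : Type} [DecidableEq Bl] [DecidableEq C]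

/-- Bounds on the point degrees and the colour classes of a family of coloured blocks. -/
def LB (pts : Bl → Finset Pt) (S : Finset (Bl × C)) (a : Pt → ℝ) (b : C → ℝ) : Prop :=
  (∀ x, ∑ e ∈ S, ind (x ∈ pts e.1) ≤ a x) ∧ ∀ c, ∑ e ∈ S, ind (e.2 = c) ≤ b c

variable {pts : Bl → Finset Pt}

omit [DecidableEq Bl] [DecidableEq C] in
theorem LB.mono {S : Finset (Bl × C)} {a a' : Pt → ℝ} {b b' : C → ℝ} (h : LB pts S a b)
    (ha : ∀ x, a x ≤ a' x) (hb : ∀ c, b c ≤ b' c) : LB pts S a' b' :=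
  ⟨fun x => (h.1 x).trans (ha x), fun c => (h.2 c).trans (hb c)⟩

theorem LB.union {S S' : Finset (Bl × C)} {a a' : Pt → ℝ} {b b' : C → ℝ} (h : LB pts S a b)
    (h' : LB pts S' a' b') : LB pts (S ∪ S') (fun x => a x + a' x) fun c => b c + b' c :=
  ⟨fun x => (sum_union_le _ _ _ fun _ => ind_nonneg _).trans (add_le_add (h.1 x) (h'.1 x)),
    fun c => (sum_union_le _ _ _ fun _ => ind_nonneg _).trans (add_le_add (h.2 c) (h'.2 c))⟩

theorem LB.biUnion {I : Type} (Is : Finset I) {S : I → Finset (Bl × C)} {a : I → Pt → ℝ}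
    {b : I → C → ℝ} (h : ∀ i ∈ Is, LB pts (S i) (a i) (b i)) :
    LB pts (Is.biUnion S) (fun x => ∑ i ∈ Is, a i x) fun c => ∑ i ∈ Is, b i c :=
  ⟨fun x => (sum_biUnion_le _ _ _ fun _ => ind_nonneg _).trans
      (sum_le_sum fun i hi => (h i hi).1 x),
    fun c => (sum_biUnion_le _ _ _ fun _ => ind_nonneg _).trans
      (sum_le_sum fun i hi => (h i hi).2 c)⟩

/-- The blocks of `G` with colour `c`. -/
def lay (G : Finset Bl) (c : C) : Finset (Bl × C) := G.image fun B => (B, c)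

theorem mem_lay {G : Finset Bl} {B : Bl} (c : C) (h : B ∈ G) : (B, c) ∈ lay G c :=
  mem_image_of_mem _ h

theorem LB.lay (G : Finset Bl) (c : C) {n : ℝ} (hn : (G.card : ℝ) ≤ n) :
    LB pts (lay G c) (thru pts G) fun c' => n * ind (c = c') := by
  have hi : Set.InjOn (fun B : Bl => (B, c)) G := fun _ _ _ _ e => congrArg Prod.fst e
  refine ⟨fun x => ?_, fun c' => ?_⟩
  · rw [SupP.lay, sum_image hi]; exact le_rfl
  · rw [SupP.lay, sum_image hi]
    simp only [sum_const, nsmul_eq_mul]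
    exact mul_le_mul_of_nonneg_right hn (ind_nonneg _)

/-- A configuration of gadgets and core, coloured. -/
def cfg (G : Pt → Finset Bl) (Co : Finset Bl) (Yp : Finset Pt) (cf : Pt → C) (c0 : C) :
    Finset (Bl × C) := (Yp.biUnion fun p => lay (G p) (cf p)) ∪ lay Co c0

theorem mem_cfg1 {G : Pt → Finset Bl} (Co : Finset Bl) {Yp : Finset Pt} (cf : Pt → C) (c0 : C)
    {p : Pt} {B : Bl} (hp : p ∈ Yp) (hB : B ∈ G p) : (B, cf p) ∈ cfg G Co Yp cf c0 :=
  mem_union_left _ (mem_biUnion.2 ⟨p, hp, mem_lay _ hB⟩)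

theorem mem_cfg2 (G : Pt → Finset Bl) {Co : Finset Bl} (Yp : Finset Pt) (cf : Pt → C) (c0 : C)
    {B : Bl} (hB : B ∈ Co) : (B, c0) ∈ cfg G Co Yp cf c0 :=
  mem_union_right _ (mem_lay _ hB)

theorem LB.cfg {G : Pt → Finset Bl} {Co : Finset Bl} (Yp : Finset Pt) (cf : Pt → C) (c0 : C)
    {n h : ℝ} (hG : ∀ p, ((G p).card : ℝ) ≤ n) (hC : (Co.card : ℝ) ≤ h) :
    LB pts (cfg G Co Yp cf c0) (fun x => ∑ p ∈ Yp, thru pts (G p) x + thru pts Co x)
      fun c => n * ∑ p ∈ Yp, ind (cf p = c) + h * ind (c0 = c) :=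
  ((LB.biUnion Yp fun p _ => LB.lay (G p) (cf p) (hG p)).union (LB.lay Co c0 hC)).mono
    (fun _ => le_rfl) fun c => by rw [mul_sum]

theorem layer1 [Fintype Pt] (J : ℕ) (grp : C → ℕ) (col : ℕ → Pt → C) (cst : ℕ → C)
    (G : ℕ → Pt → Finset Bl) (Co : ℕ → Finset Bl) (n h v : ℝ) (k : ℕ) (hn : 0 ≤ n) (hh : 0 ≤ h)
    (hv : 0 ≤ v) (hg : ∀ j < J, grp (cst j) = j ∧ ∀ p, grp (col j p) = j)
    (hc : ∀ j < J, ∀ c, ∑ p, ind (col j p = c) ≤ v)
    (hG : ∀ j < J, (∀ p, ((G j p).card : ℝ) ≤ n) ∧ ((Co j).card : ℝ) ≤ h) :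
    ∃ S : Finset (Bl × C), (∀ j < J, j + k < J → (∀ p, ∀ B ∈ G j p, (B, col (j + k) p) ∈ S) ∧
      ∀ B ∈ Co j, (B, cst (j + k)) ∈ S) ∧
      LB pts S (fun x => ∑ j ∈ range J, (∑ p, thru pts (G j p) x + thru pts (Co j) x))
        fun _ => n * v + h := by
  refine ⟨((range J).filter fun j => j + k < J).biUnion fun j =>
    cfg (G j) (Co j) univ (col (j + k)) (cst (j + k)), fun j hj hk => ⟨fun p B hB => ?_,
      fun B hB => ?_⟩, ?_⟩
  · exact mem_biUnion.2 ⟨j, mem_filter.2 ⟨mem_range.2 hj, hk⟩, mem_cfg1 _ _ _ (mem_univ p) hB⟩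
  · exact mem_biUnion.2 ⟨j, mem_filter.2 ⟨mem_range.2 hj, hk⟩, mem_cfg2 _ _ _ _ hB⟩
  refine (LB.biUnion _ fun j hj => LB.cfg univ (col (j + k)) (cst (j + k))
    (hG j (mem_range.1 (mem_filter.1 hj).1)).1 (hG j (mem_range.1 (mem_filter.1 hj).1)).2).mono
    (fun x => ?_) fun c => ?_
  · exact sum_le_sum_of_subset_of_nonneg (filter_subset _ _) fun j _ _ =>
      add_nonneg (sum_nonneg fun _ _ => thru_nonneg _ _) (thru_nonneg _ _)
  · have hb : 0 ≤ n * v + h := by positivity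
    by_cases hj : grp c - k ∈ (range J).filter fun j => j + k < J
    · rw [sum_eq_single_of_mem _ hj]
      · have := hc _ (mem_filter.1 hj).2 c
        have h2 := ind_le_one (cst (grp c - k + k) = c)
        nlinarith
      · intro j hj' hne
        have h2 := hg _ (mem_filter.1 hj').2
        rw [sum_eq_zero fun p _ => ind_neg fun e => hne (by rw [← e, h2.2 p]; omega),
          ind_neg fun e => hne (by rw [← e, h2.1]; omega)]
        ring
    · rw [sum_eq_zero]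
      · exact hb
      · intro j hj'
        have h2 := hg _ (mem_filter.1 hj').2
        have hne : j ≠ grp c - k := fun e => hj (e ▸ hj')
        rw [sum_eq_zero fun p _ => ind_neg fun e => hne (by rw [← e, h2.2 p]; omega),
          ind_neg fun e => hne (by rw [← e, h2.1]; omega)]
        ring

theorem layer2 [Fintype Pt] [Fintype C] (J : ℕ) (grp : C → ℕ) (Y : C → Finset Pt)
    (G : ℕ → Pt → Finset Bl) (Co : ℕ → Finset Bl) (n h : ℝ) (hg : ∀ c, grp c < J)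
    (hG : ∀ j < J, (∀ p, ((G j p).card : ℝ) ≤ n) ∧ ((Co j).card : ℝ) ≤ h) :
    ∃ S : Finset (Bl × C), (∀ c, (∀ p ∈ Y c, ∀ B ∈ G (grp c) p, (B, c) ∈ S) ∧
      ∀ B ∈ Co (grp c), (B, c) ∈ S) ∧
      LB pts S (fun x => ∑ j ∈ range J,
        (∑ p, (∑ c, ind (grp c = j) * ind (p ∈ Y c)) * thru pts (G j p) x +
          (∑ c, ind (grp c = j)) * thru pts (Co j) x)) fun c => n * (Y c).card + h := by
  refine ⟨univ.biUnion fun c => cfg (G (grp c)) (Co (grp c)) (Y c) (fun _ => c) c,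
    fun c => ⟨fun p hp B hB => ?_, fun B hB => ?_⟩, ?_⟩
  · exact mem_biUnion.2 ⟨c, mem_univ _, mem_cfg1 _ (fun _ => c) _ hp hB⟩
  · exact mem_biUnion.2 ⟨c, mem_univ _, mem_cfg2 _ _ _ _ hB⟩
  refine (LB.biUnion _ fun c _ => LB.cfg (Y c) (fun _ => c) c
    (hG _ (hg c)).1 (hG _ (hg c)).2).mono (fun x => le_of_eq ?_) fun c => le_of_eq ?_
  · have e : ∀ j, (∑ p, (∑ c, ind (grp c = j) * ind (p ∈ Y c)) * thru pts (G j p) x +
        (∑ c, ind (grp c = j)) * thru pts (Co j) x) =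
        ∑ c, ind (grp c = j) * (∑ p ∈ Y c, thru pts (G j p) x + thru pts (Co j) x) := fun j => by
      simp only [sum_mul, mul_add, sum_add_distrib]
      congr 1
      rw [sum_comm]
      refine sum_congr rfl fun c _ => ?_
      rw [← sum_ind_mem (Y c), mul_sum]
      exact sum_congr rfl fun p _ => mul_assoc _ _ _
    simp only [e]
    rw [sum_comm]
    exact sum_congr rfl fun c _ => (sum_grp (hg c) fun j =>
      ∑ p ∈ Y c, thru pts (G j p) x + thru pts (Co j) x).symm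
  · rw [← sum_ind_eq c fun c' => n * (Y c').card + h]
    refine sum_congr rfl fun c' _ => ?_
    rw [sum_const, nsmul_eq_mul]; ring

omit [DecidableEq Bl] [DecidableEq C] in
theorem shadow [Fintype Pt] [Fintype C] (X : Finset (Bl ⊕ Pt × C)) (S0 : Finset (Bl × C))
    (θ : ℕ) (a b a0 b0 : ℝ) (hθ : ∀ B, (pts B).card = θ) (hS : LB pts S0 (fun _ => a) fun _ => b)
    (ha : ∀ p, cnt (fun c => Sum.inr (p, c) ∈ X) ≤ a0)
    (hb : ∀ c, cnt (fun p => Sum.inr (p, c) ∈ X) ≤ b0) :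
    ∃ Y : C → Finset Pt, (∀ p c, Sum.inr (p, c) ∈ X → p ∈ Y c) ∧ (∀ e ∈ S0, pts e.1 ⊆ Y e.2) ∧
      (∀ p, ∑ c, ind (p ∈ Y c) ≤ a0 + a) ∧ ∀ c, ((Y c).card : ℝ) ≤ b0 + θ * b := by
  obtain ⟨Y, hY⟩ : ∃ Y : C → Finset Pt, ∀ p c, p ∈ Y c ↔
      Sum.inr (p, c) ∈ X ∨ ∃ e ∈ S0, c = e.2 ∧ p ∈ pts e.1 :=
    ⟨fun c => fs fun p => Sum.inr (p, c) ∈ X ∨ ∃ e ∈ S0, c = e.2 ∧ p ∈ pts e.1,
      fun _ _ => mem_fs⟩
  have key : ∀ p c, ind (p ∈ Y c) ≤ ind (Sum.inr (p, c) ∈ X) +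
      ∑ e ∈ S0, ind (c = e.2) * ind (p ∈ pts e.1) := fun p c => by
    have h0 : ∀ e ∈ S0, 0 ≤ ind (c = e.2) * ind (p ∈ pts e.1) := fun e _ =>
      mul_nonneg (ind_nonneg _) (ind_nonneg _)
    refine ind_le (add_nonneg (ind_nonneg _) (sum_nonneg h0)) fun h => ?_
    rcases (hY p c).1 h with h | ⟨e, he, h1, h2⟩
    · rw [ind_pos h]; linarith [sum_nonneg h0]
    · have := single_le_sum h0 he
      rw [ind_pos h1, ind_pos h2] at this
      linarith [ind_nonneg (Sum.inr (p, c) ∈ X)]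
  refine ⟨Y, fun p c h => (hY p c).2 (Or.inl h), fun e he p hp => (hY p _).2
    (Or.inr ⟨e, he, rfl, hp⟩), fun p => ?_, fun c => ?_⟩
  · refine (sum_le_sum fun c _ => key p c).trans ?_
    rw [sum_add_distrib, ← cnt_eq_sum, sum_comm]
    refine add_le_add (ha p) (le_trans (le_of_eq (sum_congr rfl fun e _ => ?_)) (hS.1 p))
    exact sum_ind_eq e.2 fun _ => ind (p ∈ pts e.1)
  · have e1 : ∀ s : Finset Pt, (s.card : ℝ) = ∑ p, ind (p ∈ s) := fun s => by
      have := sum_ind_mem s fun _ => (1 : ℝ)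
      simp only [mul_one, sum_const, nsmul_eq_mul] at this
      exact this.symm
    rw [e1]
    refine (sum_le_sum fun p _ => key p c).trans ?_
    rw [sum_add_distrib, ← cnt_eq_sum, sum_comm]
    refine add_le_add (hb c) (le_trans (le_of_eq ?_)
      (mul_le_mul_of_nonneg_left (hS.2 c) (Nat.cast_nonneg θ)))
    rw [mul_sum]
    refine sum_congr rfl fun e _ => ?_
    rw [← mul_sum, ← e1, hθ, mul_comm, ind_congr eq_comm]

theorem num1 (c P J h u lg : ℝ) (hc : 2 ≤ c) (hP : 0 < P) (hJ0 : 0 ≤ J) (hJ : J ≤ u) (hh : h ≤ P)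
    (hl : P * lg ≤ u) : 1.45 * (c * (J * (1 + (P + h) / P)) + 2 * c * P * lg) ≤ 8 * c * u := by
  have h1 : (P + h) / P ≤ 2 := by rw [div_le_iff₀ hP]; linarith
  have h2 : J * (1 + (P + h) / P) ≤ 3 * u := by nlinarith
  have h3 : c * (J * (1 + (P + h) / P)) ≤ c * (3 * u) := mul_le_mul_of_nonneg_left h2 (by linarith)
  have h4 : c * (P * lg) ≤ c * u := mul_le_mul_of_nonneg_left hl (by linarith)
  have h5 : 0 ≤ c * u := mul_nonneg (by linarith) (by linarith)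
  nlinarith

theorem num2 (c s t u : ℝ) (hc : 2 ≤ c) (hu : 0 ≤ u) (hs : s ≤ 18 * c * u + (18 * c * u + u))
    (ht : t ≤ 10 * c * u) : 1.45 * (c * s + t) ≤ 66 * c ^ 2 * u := by
  have h3 : c * s ≤ c * (18 * c * u + (18 * c * u + u)) :=
    mul_le_mul_of_nonneg_left hs (by linarith)
  have h5 : 0 ≤ c * u := mul_nonneg (by linarith) hu
  have h6 : 2 * (c * u) ≤ c * (c * u) := mul_le_mul_of_nonneg_right hc h5
  nlinarith

theorem num3 (c u : ℝ) (hc : 2 ≤ c) (hu : 0 ≤ u) :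
    2 * (17 * c * u + 66 * c ^ 2 * u) ≤ (200 * c ^ 4 + 1) * u := by
  have h1 : c ≤ c ^ 2 := by nlinarith
  have h2 : c ^ 2 ≤ c ^ 4 := pow_le_pow_right₀ (by linarith) (by norm_num)
  have h3 : 2 * (17 * c + 66 * c ^ 2) ≤ 200 * c ^ 4 + 1 := by nlinarith
  nlinarith

theorem num4 (c θ v : ℝ) (hc : 2 ≤ c) (hv : 0 ≤ v) (h0 : 0 ≤ θ) (hθ : θ ≤ c) :
    θ * (8 * c * v + (c * (v + θ * (8 * c * v)) + v)) ≤ (200 * c ^ 4 + 1) * v := by
  have c0 : 0 ≤ c := by linarith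
  have h1 : θ * (8 * c * v + (c * (v + θ * (8 * c * v)) + v)) ≤
      c * (8 * c * v + (c * (v + c * (8 * c * v)) + v)) := by gcongr
  have h2 : c ^ 2 ≤ c ^ 4 := pow_le_pow_right₀ (by linarith) (by norm_num)
  have h3 : c ≤ c ^ 2 := by nlinarith
  have h4 : 9 * c ^ 2 + 8 * c ^ 4 + c ≤ 200 * c ^ 4 + 1 := by nlinarith
  have h5 := mul_le_mul_of_nonneg_right h4 hv
  nlinarith

end SupP

open SupP in
theorem sup (h1 : S_GenCh) (h2 : S_SupA) : S_Sup := by
  intro C0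
  refine ⟨200 * C0 ^ 4 + 1, by have : 0 ≤ C0 ^ 4 := by positivity
                               linarith, ?_⟩
  intro Pt Bl C _ _ _ _ _ _ pts θ lam lg h ε X hD hO hG e1 hl hh hPl hX
  have e0 : 0 < ε := hO.pos hl
  have c2 : 2 ≤ C0 := hO.C2
  have lg1 : 1 ≤ lg := hO.lg1
  have P1 : (1 : ℝ) ≤ Fintype.card Pt := hO.m1
  have D1 : (1 : ℝ) ≤ Fintype.card C := hO.D1
  have θC : (θ : ℝ) ≤ C0 := by
    have : ((θ + 1 : ℕ) : ℝ) ≤ C0 := hO.rC
    push_cast at this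
    linarith
  have h0 : 0 ≤ h := by
    obtain ⟨O, Os, G, Co, ⟨o, ho⟩, hR, -⟩ := hG
    exact (Nat.cast_nonneg _).trans (hR o ho).2.2
  have hexp : (Fintype.card Pt : ℝ) ≤ Real.exp lg := by
    have : (Fintype.card C : ℝ) * Fintype.card Pt ≤ Real.exp lg := hO.cTot
    nlinarith
  obtain ⟨P, hP⟩ : ∃ P : ℝ, P = Fintype.card Pt := ⟨_, rfl⟩
  obtain ⟨D, hD'⟩ : ∃ D : ℝ, D = Fintype.card C := ⟨_, rfl⟩
  have hXp : ∀ p, cnt (fun B => p ∈ pts B ∧ Sum.inl B ∈ X) + cnt (fun c => Sum.inr (p, c) ∈ X) ≤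
      ε * D := fun p => by rw [← card_tst_inl, hD']; exact hX (Sum.inl p)
  have hXc : ∀ c, cnt (fun p => Sum.inr (p, c) ∈ X) ≤ ε * P := fun c => by
    rw [← card_tst_inr (pts := pts), hP]; exact hX (Sum.inr c)
  have hXt : (X.card : ℝ) ≤ ε * (D * P) := by
    have := HS.Ld.total hO hX.ld
    simp only [card_singleton, Nat.cast_one, sum_const, nsmul_eq_mul, mul_one] at this
    rw [hD', hP]; exact this
  rw [← hP] at hl hh hPl P1
  rw [← hD'] at hPl D1
  have v1 : 1 ≤ ε * P := lg1.trans hl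
  have vP : ε * P ≤ P := by nlinarith
  have u0 : 0 ≤ ε * D := by positivity
  have hPu : P * lg ≤ ε * D := by nlinarith
  have hiD : 1 / ε ≤ D := by
    rw [div_le_iff₀ e0]; nlinarith
  obtain ⟨J, grp, col, cst, g1, g2, g3, g4, g5⟩ := colours C Pt ε e0 e1 (hD' ▸ hiD)
  rw [← hD'] at g3
  rw [← hP] at g5
  obtain ⟨XB, hXB⟩ : ∃ XB : Finset Bl, ∀ B, B ∈ XB ↔ Sum.inl B ∈ X :=
    ⟨fs fun B => Sum.inl B ∈ X, fun _ => mem_fs⟩
  have hXB' : (XB.card : ℝ) ≤ ε * (D * P) := le_trans (Nat.cast_le.2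
    (card_le_card_of_injOn Sum.inl (fun B hB => (hXB B).1 hB) fun _ _ _ _ e => Sum.inl.inj e)) hXt
  obtain ⟨κ, hκ⟩ := kappa C (by rw [hD'] at D1; exact_mod_cast D1) XB
  rw [← hD'] at hκ
  have Lκ : LB pts (XB.biUnion fun B => lay {B} (κ B)) (fun _ => ε * D) fun _ => 2 * (ε * P) := by
    refine (LB.biUnion XB fun B _ => LB.lay {B} (κ B) (n := 1) (by simp)).mono (fun x => ?_)
      fun c => ?_
    · have := hXp x
      have e : ∑ B ∈ XB, thru pts {B} x = cnt fun B => x ∈ pts B ∧ Sum.inl B ∈ X := by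
        rw [cnt_eq_sum, ← sum_ind_mem XB]
        refine sum_congr rfl fun B _ => ?_
        rw [thru, sum_singleton, Pool.Agent.P.MP_77d020_co.L.ind_and, mul_comm, ind_congr (hXB B)]
      linarith [cnt_nonneg fun c => Sum.inr (x, c) ∈ X]
    · simp only [one_mul]
      have : (XB.card : ℝ) / D ≤ ε * P := by rw [div_le_iff₀ (by linarith)]; linarith
      linarith [hκ c]
  obtain ⟨G1, Co1, r1, t1⟩ := h1 Pt Bl ℕ pts C0 h lg (2 * C0 * P) (range J) (fun _ _ => 1)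
    (fun _ => 1) hG (by positivity) hexp (fun _ _ => ⟨fun _ => zero_le_one, zero_le_one⟩)
    fun _ _ => by
      simp only [sum_const, card_univ, nsmul_eq_mul, mul_one, one_mul, ← hP]
      nlinarith
  have t1' : ∀ x, ∑ j ∈ range J, (∑ p, thru pts (G1 j p) x + thru pts (Co1 j) x) ≤
      8 * C0 * (ε * D) := fun x => by
    have := t1 x
    simp only [sum_const, card_univ, nsmul_eq_mul, mul_one, one_mul, ← hP, card_range] at this
    exact this.trans (num1 C0 P J h (ε * D) lg c2 (by linarith) (Nat.cast_nonneg _) g3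
      (hh.trans vP) hPu)
  have s1 : ∀ j < J, (∀ p, ((G1 j p).card : ℝ) ≤ C0) ∧ ((Co1 j).card : ℝ) ≤ h := fun j hj =>
    (r1 j (mem_range.2 hj)).2
  obtain ⟨Sa, a1, a2⟩ := layer1 (pts := pts) J grp col cst G1 Co1 C0 h (ε * P + 1) 0 (by linarith)
    h0 (by linarith) g2 g5 s1
  obtain ⟨Sb, b1, b2⟩ := layer1 (pts := pts) J grp col cst G1 Co1 C0 h (ε * P + 1) 1 (by linarith)
    h0 (by linarith) g2 g5 s1
  obtain ⟨S0, hS0⟩ : ∃ S0, S0 = (XB.biUnion fun B => lay {B} (κ B)) ∪ (Sa ∪ Sb) := ⟨_, rfl⟩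
  have L0 : LB pts S0 (fun _ => 17 * C0 * (ε * D)) fun _ => 8 * C0 * (ε * P) := by
    rw [hS0]
    refine (Lκ.union (a2.union b2)).mono (fun x => ?_) fun c => ?_
    · have := t1' x
      nlinarith
    · nlinarith
  obtain ⟨Y, y1, y2, y3, y4⟩ := shadow X S0 θ _ _ (ε * D) (ε * P) hD.card L0
    (fun p => by linarith [hXp p, cnt_nonneg fun B => p ∈ pts B ∧ Sum.inl B ∈ X]) hXc
  have y3' : ∀ p, ∑ c, ind (p ∈ Y c) ≤ 18 * C0 * (ε * D) := fun p => by
    have := y3 p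
    nlinarith
  have yw : ∀ j p, ∑ c, ind (grp c = j) * ind (p ∈ Y c) ≤ 5 / ε := fun j p =>
    le_trans (sum_le_sum fun c _ => mul_le_of_le_one_right (ind_nonneg _) (ind_le_one _)) (g4 j)
  have ie : 0 < 5 / ε := by positivity
  obtain ⟨G2, Co2, r2, t2⟩ := h1 Pt Bl ℕ pts C0 h lg (2 * C0 * P * (5 / ε)) (range J)
    (fun j p => ∑ c, ind (grp c = j) * ind (p ∈ Y c)) (fun j => ∑ c, ind (grp c = j)) hG
    (by positivity) hexp (fun _ _ => ⟨fun _ => sum_nonneg fun _ _ =>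
      mul_nonneg (ind_nonneg _) (ind_nonneg _), sum_nonneg fun _ _ => ind_nonneg _⟩)
    fun j _ => by
      have k1 : ∑ p, ∑ c, ind (grp c = j) * ind (p ∈ Y c) ≤ P * (5 / ε) := by
        refine (sum_le_sum fun p _ => yw j p).trans ?_
        rw [sum_const, card_univ, nsmul_eq_mul, hP]
      have k2 : (∑ c, ind (grp c = j)) * h ≤ 5 / ε * P :=
        mul_le_mul (g4 j) (hh.trans vP) h0 ie.le
      have k3 := mul_le_mul_of_nonneg_left k1 (show 0 ≤ C0 by linarith)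
      have k4 : 0 ≤ P * (5 / ε) := by positivity
      nlinarith
  obtain ⟨S2, d1, d2⟩ := layer2 (pts := pts) J grp Y G2 Co2 C0 h g1 fun j hj =>
    (r2 j (mem_range.2 hj)).2
  have k0 : ∀ x, ∑ j ∈ range J, ∑ c, ind (grp c = j) * ind (x ∈ Y c) ≤ 18 * C0 * (ε * D) :=
    fun x => by
      rw [sum_comm]
      refine le_trans (le_of_eq (sum_congr rfl fun c _ => ?_)) (y3' x)
      exact sum_grp (g1 c) fun _ => ind (x ∈ Y c)
  have L2 : LB pts S2 (fun _ => 66 * C0 ^ 2 * (ε * D))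
      fun _ => C0 * (ε * P + θ * (8 * C0 * (ε * P))) + ε * P := by
    refine d2.mono (fun x => (t2 x).trans (num2 _ _ _ _ c2 u0 ?_ ?_)) fun c => ?_
    · rw [sum_add_distrib, ← sum_div, sum_add_distrib, ← hP]
      refine add_le_add (k0 x) ?_
      rw [div_le_iff₀ (by linarith), add_mul]
      refine add_le_add ?_ ?_
      · rw [sum_comm]
        refine (sum_le_sum fun p _ => k0 p).trans ?_
        rw [sum_const, card_univ, nsmul_eq_mul, hP, mul_comm]
      · rw [← sum_mul, sum_comm, sum_congr rfl fun c _ => (by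
          simpa using sum_grp (g1 c) fun _ => 1 : ∑ j ∈ range J, ind (grp c = j) = 1)]
        rw [sum_const, card_univ, nsmul_eq_mul, mul_one, ← hD']
        nlinarith
    · have e : 2 * C0 * P * (5 / ε) * lg = 10 * C0 * (P * lg / ε) := by ring
      rw [e]
      refine mul_le_mul_of_nonneg_left ?_ (by linarith)
      rw [div_le_iff₀ e0]; nlinarith
    · have := mul_le_mul_of_nonneg_left (y4 c) (show 0 ≤ C0 by linarith)
      linarith
  have LS := L0.union L2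
  refine ⟨S0 ∪ S2, fun f => ?_, fun L hL hA => ?_⟩
  · rcases f with p | c
    · show ∑ e ∈ S0 ∪ S2, ((tst pts (Sum.inl p) ∩ edg pts e).card : ℝ) ≤
        (200 * C0 ^ 4 + 1) * ε * Fintype.card C
      simp only [card_tst_inl_edg]
      rw [← mul_sum, ← hD', mul_assoc]
      linarith [LS.1 p, num3 C0 (ε * D) c2 u0]
    · show ∑ e ∈ S0 ∪ S2, ((tst pts (Sum.inr c) ∩ edg pts e).card : ℝ) ≤
        (200 * C0 ^ 4 + 1) * ε * Fintype.card Pt
      simp only [card_tst_inr_edg, hD.card]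
      rw [← mul_sum, ← hP, mul_assoc]
      exact (mul_le_mul_of_nonneg_left (LS.2 c) (Nat.cast_nonneg θ)).trans
        (num4 C0 θ (ε * P) c2 (by linarith) (Nat.cast_nonneg θ) θC)
  · have sa : Sa ⊆ S0 := hS0 ▸ subset_union_left.trans subset_union_right
    have sb : Sb ⊆ S0 := hS0 ▸ subset_union_right.trans subset_union_right
    refine h2 Pt Bl C pts J grp col cst κ G1 G2 Co1 Co2 Y S0 (S0 ∪ S2) L g1 g2
      (fun j hj => ⟨(r1 j (mem_range.2 hj)).1, (r2 j (mem_range.2 hj)).1⟩) (fun B hB => ?_)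
      (fun j hj p B hB => ⟨sa ((a1 j hj hj).1 p B hB), fun hk => sb ((b1 j hj hk).1 p B hB)⟩)
      (fun j hj B hB => ⟨sa ((a1 j hj hj).2 B hB), fun hk => sb ((b1 j hj hk).2 B hB)⟩)
      (fun p c hp => y1 p c (hL hp)) y2 subset_union_left
      (fun c p hp B hB => mem_union_right _ ((d1 c).1 p hp B hB))
      (fun c B hB => mem_union_right _ ((d1 c).2 B hB)) hA
    rw [hS0]
    exact mem_union_left _ (mem_biUnion.2 ⟨B, (hXB B).2 (hL hB), mem_lay _ (mem_singleton_self B)⟩)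

end Pool.Agent.P.MP_3b9ee7_co.Q
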