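import Pool.Agent.P.MP_3b9ee7_co.Q.RG
import Pool.Agent.P.MP_3b9ee7_co.Q.Res
import Pool.Agent.P.MP_3b9ee7_co.Q.Emb
import Pool.Agent.P.MP_3b9ee7_co.Q.Conc
import Pool.Agent.P.MP_3b9ee7_co.Q.CLSys
import Pool.Agent.P.MP_3b9ee7_co.Q.Glue
import Pool.Agent.P.MP_3b9ee7_co.Q.CLReal
import Pool.Agent.P.MP_3b9ee7_co.Q.DBase
import Pool.Agent.P.MP_3b9ee7_co.Q.Boost
import Pool.Agent.P.MP_3b9ee7_co.Q.Gen
import Pool.Agent.P.MP_3b9ee7_co.Q.SupA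
import Pool.Agent.P.MP_3b9ee7_co.Q.Sup
import Pool.Agent.P.MP_3b9ee7_co.Q.Red
import Pool.Agent.P.MP_3b9ee7_co.Q.SegP
import Pool.Agent.P.MP_3b9ee7_co.Q.SegC
import Pool.Agent.P.MP_3b9ee7_co.Q.Cnt
import Pool.Agent.P.MP_3b9ee7_co.Q.Hyp
import Pool.Agent.P.MP_3b9ee7_co.Q.GDec
import Pool.Agent.P.MP_3b9ee7_co.Q.Rel1
import Pool.Agent.P.MP_3b9ee7_co.Q.Diff
import Pool.Agent.P.MP_3b9ee7_co.Q.Rel2
import Pool.Agent.P.MP_3b9ee7_co.Q.GridA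
import Pool.Agent.P.MP_3b9ee7_co.Q.GridB
import Pool.Agent.P.MP_3b9ee7_co.Q.Main
import Pool.Agent.P.MP_3b9ee7_co.Q.Final

/-! Assembly of all packages. -/

namespace Pool.Agent.P.MP_3b9ee7_co.Q

theorem main_all : S_Main :=
  main rg res (cover emb) (clsys conc chs) (clreal emb glue) base boost (sup genCh supA) red
    (segC segP)

theorem rel1_all : S_Rel1 := rel1 (hyp pcnt) pcnt (cong (hyp pcnt))

theorem final_all : S_Final :=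
  final main_all desMk genAvg two pcnt bcnt (gdec (hyp pcnt) pcnt) spr
    (rel2 rel1_all poly (diff rel1_all pcnt) pcnt bcnt) (gridB gridA pcnt)

end Pool.Agent.P.MP_3b9ee7_co.Q
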