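import Pool.Agent.P.MP_3b9ee7_co.Q.Stm

/-! Basic lemmas. -/

namespace Pool.Agent.P.MP_3b9ee7_co.Q

open Finset Module
open Pool.Agent.P.MP_77d020_co.L (ind fs cnt ind_pos ind_neg ind_nonneg ind_le_one mem_fs
  card_filter_eq_sum_ind cnt_eq_sum)

section Hyp

variable {V E T : Type} [DecidableEq V]

theorem one_of_mem {U : Finset V} {v : V} (h : v ∈ U) : one U v = 1 := if_pos h

theorem one_of_notMem {U : Finset V} {v : V} (h : v ∉ U) : one U v = 0 := if_neg h

theorem one_empty : one (∅ : Finset V) = 0 := by funext v; simp [one]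

theorem one_union {U U' : Finset V} (h : Disjoint U U') : one (U ∪ U') = one U + one U' := by
  funext v
  by_cases h1 : v ∈ U
  · have h2 : v ∉ U' := disjoint_left.1 h h1
    simp [one, h1, h2]
  · by_cases h2 : v ∈ U' <;> simp [one, h1, h2]

theorem one_sdiff {U U' : Finset V} (h : U' ⊆ U) : one (U \ U') = one U - one U' := by
  have := one_union (sdiff_disjoint (s := U') (t := U))
  rw [sdiff_union_of_subset h] at this
  rw [this]; simp

theorem one_biUnion {I : Type} (Is : Finset I) (W : I → Finset V)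
    (h : ∀ i ∈ Is, ∀ i' ∈ Is, i ≠ i' → Disjoint (W i) (W i')) :
    one (Is.biUnion W) = ∑ i ∈ Is, one (W i) := by
  classical
  induction Is using Finset.induction_on with
  | empty => simp [one_empty]
  | insert a s ha ih =>
    rw [biUnion_insert, sum_insert ha, one_union, ih fun i hi i' hi' =>
      h i (mem_insert_of_mem hi) i' (mem_insert_of_mem hi')]
    rw [disjoint_biUnion_right]
    exact fun i hi => h a (mem_insert_self _ _) i (mem_insert_of_mem hi) fun e => ha (e ▸ hi)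

theorem one_erase {U : Finset V} {v : V} (h : v ∈ U) : one U = one {v} + one (U.erase v) := by
  rw [← one_union (by simp), ← insert_eq, insert_erase h]

theorem card_inter_eq_sum (Z U : Finset V) : ((Z ∩ U).card : ℝ) = ∑ v ∈ Z, ind (v ∈ U) := by
  rw [← card_filter_eq_sum_ind, filter_mem_eq_inter]

variable [Fintype E] {ed : E → Finset V}

theorem bd_sub (a b : E → ℤ) : bd ed (a - b) = bd ed a - bd ed b := by
  rw [sub_eq_add_neg, bd_add, bd_neg, sub_eq_add_neg]

theorem bd_smul (n : ℤ) (a : E → ℤ) : bd ed (n • a) = n • bd ed a := by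
  funext v
  simp only [bd, Pi.smul_apply, smul_eq_mul, mul_sum]
  exact sum_congr rfl fun e _ => by split_ifs <;> simp

theorem bd_sum {I : Type} (Is : Finset I) (a : I → E → ℤ) :
    bd ed (∑ i ∈ Is, a i) = ∑ i ∈ Is, bd ed (a i) := by
  classical
  induction Is using Finset.induction_on with
  | empty => simp [bd_zero]
  | insert i s hi ih => rw [sum_insert hi, sum_insert hi, bd_add, ih]

theorem bd_eq_sum (a : E → ℤ) : bd ed a = ∑ e, a e • one (ed e) := by
  funext v
  simp only [bd, Finset.sum_apply, Pi.smul_apply, one, smul_eq_mul]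
  exact sum_congr rfl fun e _ => by split_ifs <;> simp

theorem bd_single [DecidableEq E] (e : E) : bd ed (Pi.single e 1) = one (ed e) := by
  rw [bd_eq_sum, sum_eq_single e]
  · simp
  · intro b _ hb; simp [hb]
  · simp

theorem bd_one [DecidableEq E] (M : Finset E) : bd ed (one M) = ∑ e ∈ M, one (ed e) := by
  rw [bd_eq_sum, ← sum_subset (subset_univ M)]
  · exact sum_congr rfl fun e he => by simp [one_of_mem he]
  · intro e _ he; simp [one_of_notMem he]

theorem mem_Lat {S : E → Prop} {x : V → ℤ} :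
    x ∈ Lat ed S ↔ ∃ z : E → ℤ, (∀ e, z e ≠ 0 → S e) ∧ bd ed z = x := Iff.rfl

theorem Lat_mono {S S' : E → Prop} (h : ∀ e, S e → S' e) : Lat ed S ≤ Lat ed S' :=
  fun _ ⟨z, hz, e⟩ => ⟨z, fun b hb => h b (hz b hb), e⟩

theorem one_mem_Lat {S : E → Prop} {e : E} (h : S e) : one (ed e) ∈ Lat ed S := by
  classical
  refine ⟨Pi.single e 1, fun b hb => ?_, bd_single e⟩
  by_cases h1 : b = e
  · exact h1 ▸ h
  · simp [h1] at hb

theorem bd_mem_Lat (a : E → ℤ) : bd ed a ∈ Lat ed fun _ => True := ⟨a, fun _ _ => trivial, rfl⟩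

theorem PM.empty : PM ed ∅ := ⟨0, fun _ => le_rfl, by rw [bd_zero, one_empty]⟩

theorem PM.edge (e : E) : PM ed (ed e) := by
  classical
  refine ⟨Pi.single e 1, fun b => ?_, bd_single e⟩
  by_cases h1 : b = e <;> simp [h1]

theorem PM.union {U U' : Finset V} (h : PM ed U) (h' : PM ed U') (hd : Disjoint U U') :
    PM ed (U ∪ U') := by
  obtain ⟨a, ha, e⟩ := h
  obtain ⟨a', ha', e'⟩ := h'
  exact ⟨a + a', fun b => add_nonneg (ha b) (ha' b), by rw [bd_add, e, e', one_union hd]⟩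

theorem PM.biUnion {I : Type} (Is : Finset I) (W : I → Finset V) (h : ∀ i ∈ Is, PM ed (W i))
    (hd : ∀ i ∈ Is, ∀ i' ∈ Is, i ≠ i' → Disjoint (W i) (W i')) : PM ed (Is.biUnion W) := by
  classical
  choose! a ha using h
  refine ⟨∑ i ∈ Is, a i, fun e => ?_, ?_⟩
  · rw [Finset.sum_apply]; exact sum_nonneg fun i hi => (ha i hi).1 e
  · rw [bd_sum, one_biUnion Is W hd]; exact sum_congr rfl fun i hi => (ha i hi).2

/-- A family of pairwise disjoint edges is a perfect matching of its union. -/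
theorem PM.family {I : Type} (Is : Finset I) (f : I → E) (U : Finset V)
    (hd : ∀ i ∈ Is, ∀ i' ∈ Is, i ≠ i' → Disjoint (ed (f i)) (ed (f i')))
    (hU : ∀ v, v ∈ U ↔ ∃ i ∈ Is, v ∈ ed (f i)) : PM ed U := by
  have : U = Is.biUnion fun i => ed (f i) := by ext v; rw [hU, mem_biUnion]
  rw [this]
  exact PM.biUnion Is _ (fun i _ => PM.edge _) hd

/-- Each vertex of `U` lies in exactly one edge of a perfect matching. -/
theorem PM.exists_unique {U : Finset V} (h : PM ed U) :
    ∃ M : E → Prop, ∀ v ∈ U, ∃! e, M e ∧ v ∈ ed e := by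
  classical
  obtain ⟨a, ha, e⟩ := h
  refine ⟨fun b => a b ≠ 0, fun v hv => ?_⟩
  have h1 : ∑ b, (if v ∈ ed b then a b else 0) = 1 := (congrFun e v).trans (one_of_mem hv)
  have h0 : ∀ b, 0 ≤ (if v ∈ ed b then a b else 0) := fun b => by
    split_ifs
    · exact ha b
    · exact le_rfl
  obtain ⟨b, -, hb⟩ := exists_ne_zero_of_sum_ne_zero (h1.trans_ne one_ne_zero)
  have hvb : v ∈ ed b := by by_contra h2; simp [h2] at hb
  rw [if_pos hvb] at hb
  refine ⟨b, ⟨hb, hvb⟩, fun b' hb' => ?_⟩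
  by_contra hne
  have h3 := sum_le_sum_of_subset_of_nonneg (subset_univ {b', b}) fun x _ _ => h0 x
  rw [sum_pair hne, h1, if_pos hvb, if_pos hb'.2] at h3
  have := ha b
  have := ha b'
  have := hb'.1
  omega

end Hyp

namespace HS

variable {V E T : Type} [DecidableEq V] {H : HS V E T}

theorem Sp.subset {U U' : Finset V} {ε : ℝ} (h : H.Sp U ε) (hU : U' ⊆ U) : H.Sp U' ε :=
  fun f => (Nat.cast_le.2 (card_le_card (inter_subset_inter_left hU))).trans (h f)

theorem Sp.union {U U' : Finset V} {ε ε' : ℝ} (h : H.Sp U ε) (h' : H.Sp U' ε') :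
    H.Sp (U ∪ U') (ε + ε') := fun f => by
  rw [inter_union_distrib_left, add_mul]
  refine le_trans ?_ (add_le_add (h f) (h' f))
  exact_mod_cast card_union_le _ _

theorem Ld.sp {I : Type} {Is : Finset I} {W : I → Finset V} {ε : ℝ} (h : H.Ld Is W ε) :
    H.Sp (Is.biUnion W) ε := fun f => by
  refine le_trans ?_ (h f)
  rw [inter_biUnion]
  exact_mod_cast card_biUnion_le

theorem Sp.ld {U : Finset V} {ε : ℝ} (h : H.Sp U ε) : H.Ld U (fun v => {v}) ε := fun f => by
  refine le_trans (le_of_eq ?_) (h f)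
  rw [inter_comm, card_inter_eq_sum]
  refine sum_congr rfl fun v _ => ?_
  rw [inter_comm, card_inter_eq_sum, sum_singleton]

variable [Fintype V] [Fintype E] [Fintype T]

theorem Ok.s1 (hH : H.Ok) (f : T) : 1 ≤ H.s f := hH.m1.trans (hH.sm f)

theorem Ok.C2 (hH : H.Ok) : 2 ≤ H.C0 := le_trans (by exact_mod_cast hH.r2) hH.rC

theorem Ok.pos (hH : H.Ok) {ε : ℝ} (h : H.lg ≤ ε * H.m) : 0 < ε := by
  by_contra h1
  have := mul_nonpos_of_nonpos_of_nonneg (not_lt.1 h1) (zero_le_one.trans hH.m1)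
  linarith [hH.lg1]

theorem Sp.mono (hH : H.Ok) {U : Finset V} {ε ε' : ℝ} (h : H.Sp U ε) (he : ε ≤ ε') :
    H.Sp U ε' := fun f =>
  (h f).trans (mul_le_mul_of_nonneg_right he (zero_le_one.trans (hH.s1 f)))

theorem Ld.mono (hH : H.Ok) {I : Type} {Is : Finset I} {W : I → Finset V} {ε ε' : ℝ}
    (h : H.Ld Is W ε) (he : ε ≤ ε') : H.Ld Is W ε' := fun f =>
  (h f).trans (mul_le_mul_of_nonneg_right he (zero_le_one.trans (hH.s1 f)))

/-- The total size of a family of small load. -/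
theorem Ld.total (hH : H.Ok) {I : Type} {Is : Finset I} {W : I → Finset V} {ε : ℝ}
    (h : H.Ld Is W ε) : ∑ i ∈ Is, ((W i).card : ℝ) ≤ ε * H.Tot := by
  have := hH.tch (fun v => ∑ i ∈ Is, ind (v ∈ W i)) ε
    (fun v => sum_nonneg fun _ _ => ind_nonneg _) fun f => by
      rw [sum_comm]
      refine le_trans (le_of_eq (sum_congr rfl fun i _ => ?_)) (h f)
      rw [card_inter_eq_sum]
  rw [sum_comm] at this
  refine le_trans (le_of_eq (sum_congr rfl fun i _ => ?_)) this
  rw [← card_inter_eq_sum, univ_inter]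

end HS

section Des

variable {Pt Bl C : Type} [Fintype Pt] [Fintype Bl] [Fintype C] [DecidableEq Pt] [DecidableEq Bl]
  [DecidableEq C] {pts : Bl → Finset Pt}

omit [Fintype Pt] [Fintype Bl] [Fintype C] in
@[simp] theorem inl_mem_edg {e : Bl × C} {B : Bl} : Sum.inl B ∈ edg pts e ↔ B = e.1 := by
  simp [edg]

omit [Fintype Pt] [Fintype Bl] [Fintype C] in
@[simp] theorem inr_mem_edg {e : Bl × C} {x : Pt × C} :
    Sum.inr x ∈ edg pts e ↔ x.1 ∈ pts e.1 ∧ x.2 = e.2 := by
  obtain ⟨p, c⟩ := x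
  simp [edg, eq_comm]

omit [Fintype Pt] [Fintype Bl] [Fintype C] in
theorem card_edg (e : Bl × C) : (edg pts e).card = (pts e.1).card + 1 := by
  rw [edg, card_insert_of_notMem (by simp), card_image_of_injective _ fun _ _ h => by simpa using h]

omit [DecidableEq Pt] [DecidableEq Bl] [DecidableEq C] in
@[simp] theorem inl_mem_tst_inl {p : Pt} {B : Bl} :
    Sum.inl B ∈ tst (C := C) pts (Sum.inl p) ↔ p ∈ pts B := by simp [tst, mem_fs]

omit [DecidableEq Pt] [DecidableEq Bl] [DecidableEq C] in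
@[simp] theorem inr_mem_tst_inl {p : Pt} {x : Pt × C} :
    Sum.inr x ∈ tst pts (Sum.inl p) ↔ x.1 = p := by simp [tst, mem_fs]

omit [DecidableEq Pt] [DecidableEq Bl] [DecidableEq C] in
@[simp] theorem inl_mem_tst_inr {c : C} {B : Bl} : Sum.inl B ∉ tst pts (Sum.inr c) := by
  simp [tst, mem_fs]

omit [DecidableEq Pt] [DecidableEq Bl] [DecidableEq C] in
@[simp] theorem inr_mem_tst_inr {c : C} {x : Pt × C} :
    Sum.inr x ∈ tst pts (Sum.inr c) ↔ x.2 = c := by simp [tst, mem_fs]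

theorem card_tst_inl (p : Pt) (U : Finset (Bl ⊕ Pt × C)) :
    ((tst pts (Sum.inl p) ∩ U).card : ℝ) =
      cnt (fun B => p ∈ pts B ∧ Sum.inl B ∈ U) + cnt (fun c => Sum.inr (p, c) ∈ U) := by
  have h : ((tst pts (Sum.inl p) ∩ U).card : ℝ) =
      ∑ v, ind (v ∈ tst pts (Sum.inl p) ∩ U) := by rw [← card_inter_eq_sum, univ_inter]
  rw [h, Fintype.sum_sum_type, cnt_eq_sum, cnt_eq_sum, Fintype.sum_prod_type]
  congr 1
  · simp
  · rw [sum_eq_single p]
    · simp
    · intro b _ hb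
      exact sum_eq_zero fun c _ => ind_neg (by simp [hb])
    · simp

theorem card_tst_inr (c : C) (U : Finset (Bl ⊕ Pt × C)) :
    ((tst pts (Sum.inr c) ∩ U).card : ℝ) = cnt (fun p => Sum.inr (p, c) ∈ U) := by
  have h : ((tst pts (Sum.inr c) ∩ U).card : ℝ) =
      ∑ v, ind (v ∈ tst pts (Sum.inr c) ∩ U) := by rw [← card_inter_eq_sum, univ_inter]
  rw [h, Fintype.sum_sum_type, cnt_eq_sum, Fintype.sum_prod_type,
    sum_eq_zero fun B _ => ind_neg (by simp), zero_add]
  refine sum_congr rfl fun p _ => ?_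
  rw [sum_eq_single c]
  · simp
  · intro b _ hb
    exact ind_neg (by simp [hb])
  · simp

theorem card_tst_inl_edg (p : Pt) (e : Bl × C) :
    ((tst pts (Sum.inl p) ∩ edg pts e).card : ℝ) = 2 * ind (p ∈ pts e.1) := by
  rw [card_tst_inl, cnt_eq_sum, cnt_eq_sum, sum_eq_single e.1, sum_eq_single e.2]
  · simp [two_mul]
  · intro b _ hb; exact ind_neg (by simp [hb])
  · simp
  · intro b _ hb; exact ind_neg (by simp [hb])
  · simp

theorem card_tst_inr_edg (c : C) (e : Bl × C) :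
    ((tst pts (Sum.inr c) ∩ edg pts e).card : ℝ) = (pts e.1).card * ind (e.2 = c) := by
  rw [card_tst_inr, cnt_eq_sum]
  by_cases h : e.2 = c
  · rw [ind_pos h, mul_one, ← univ_inter (pts e.1), card_inter_eq_sum]
    simp [h]
  · rw [ind_neg h, mul_zero]
    exact sum_eq_zero fun p _ => ind_neg (by simp [Ne.symm h])

omit [Fintype Pt] in
theorem bd_edg_inl (a : Bl × C → ℤ) (B : Bl) : bd (edg pts) a (Sum.inl B) = ∑ c, a (B, c) := by
  rw [bd, Fintype.sum_prod_type, sum_eq_single B]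
  · simp
  · intro b _ hb; simp [Ne.symm hb]
  · simp

omit [Fintype Pt] in
theorem bd_edg_inr (a : Bl × C → ℤ) (p : Pt) (c : C) :
    bd (edg pts) a (Sum.inr (p, c)) = bd pts (fun B => a (B, c)) p := by
  rw [bd, bd, Fintype.sum_prod_type]
  refine sum_congr rfl fun B _ => ?_
  rw [sum_eq_single c]
  · simp
  · intro b _ hb; simp [Ne.symm hb]
  · simp

omit [DecidableEq Bl] in
/-- The linear form of `RelA`. -/
theorem RelA.gen {G : Pt → Finset Bl} {Co : Finset Bl} (h : RelA pts G Co) :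
    ∃ ψ : Pt → Bl → ℤ, (∀ p B, ψ p B ≠ 0 → B ∈ G p) ∧ ∀ δ ∈ Lat pts fun _ => True,
      ∃ ζ : Bl → ℤ, (∀ B, ζ B ≠ 0 → B ∈ Co) ∧ bd pts (∑ p, δ p • ψ p + ζ) = δ := by
  obtain ⟨ψ, h1, h2⟩ := h
  refine ⟨ψ, h1, ?_⟩
  rintro _ ⟨x, -, rfl⟩
  have h3 : bd pts x - ∑ p, bd pts x p • bd pts (ψ p) ∈ Lat pts fun B => B ∈ Co := by
    have e : bd pts x - ∑ p, bd pts x p • bd pts (ψ p) =
        ∑ B, x B • (one (pts B) - ∑ p ∈ pts B, bd pts (ψ p)) := by
      simp only [smul_sub, sum_sub_distrib, ← bd_eq_sum]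
      congr 1
      simp only [bd, sum_smul]
      rw [sum_comm]
      refine sum_congr rfl fun B _ => ?_
      rw [smul_sum, ← sum_subset (subset_univ (pts B))]
      · exact sum_congr rfl fun p hp => by rw [if_pos hp]
      · intro p _ hp; rw [if_neg hp, zero_smul]
    rw [e]
    exact sum_mem fun B _ => zsmul_mem (h2 B) _
  obtain ⟨ζ, hζ, e⟩ := h3
  refine ⟨ζ, hζ, ?_⟩
  rw [bd_add, e, bd_sum]
  simp only [bd_smul]
  abel

omit [Fintype Pt] [Fintype Bl] [DecidableEq Pt] [DecidableEq Bl] in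
theorem thru_nonneg (S : Finset Bl) (y : Pt) : 0 ≤ thru pts S y :=
  sum_nonneg fun _ _ => ind_nonneg _

omit [Fintype Pt] [Fintype Bl] [DecidableEq Pt] [DecidableEq Bl] in
theorem thru_le_card (S : Finset Bl) (y : Pt) : thru pts S y ≤ S.card := by
  have := sum_le_card_nsmul S (fun B => ind (y ∈ pts B)) 1 fun _ _ => ind_le_one _
  simpa [thru] using this

end Des

section Geo

theorem th_succ (q d : ℕ) : th q (d + 1) = th q d + q ^ d := sum_range_succ _ _

theorem pow_le_th (q d : ℕ) : q ^ d ≤ th q (d + 1) := by rw [th_succ]; omega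

theorem th_le_pow {q : ℕ} (hq : 2 ≤ q) (d : ℕ) : th q d ≤ q ^ d := by
  induction d with
  | zero => simp [th]
  | succ d ih => rw [th_succ, pow_succ]; nlinarith

variable {K V : Type} [Field K] [AddCommGroup V] [Module K V]

theorem rep_ne (p : Sub K V 1) : rep p ≠ 0 := (exists_rep p).choose_spec.1

theorem span_rep (p : Sub K V 1) : p.W = Submodule.span K {rep p} := (exists_rep p).choose_spec.2

theorem rep_mem (p : Sub K V 1) : rep p ∈ p.W := by
  rw [span_rep]; exact Submodule.mem_span_singleton_self _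

theorem le_iff_rep {p : Sub K V 1} {U : Submodule K V} : p.W ≤ U ↔ rep p ∈ U := by
  rw [span_rep, Submodule.span_singleton_le_iff_mem]

/-- The point spanned by a nonzero vector. -/
def pnt (K : Type) [Field K] [Module K V] (v : V) (h : v ≠ 0) : Sub K V 1 :=
  ⟨Submodule.span K {v}, finrank_span_singleton h⟩

theorem eq_pnt {p : Sub K V 1} {v : V} (h : v ≠ 0) (hv : v ∈ p.W) : p = pnt K v h := by
  have : FiniteDimensional K p.W := Module.finite_of_finrank_eq_succ p.h
  exact Sub.ext (Submodule.eq_of_le_of_finrank_eq ((Submodule.span_singleton_le_iff_mem _ _).2 hv)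
    ((finrank_span_singleton h).trans p.h.symm)).symm

theorem pnt_eq_of_mem {p p' : Sub K V 1} {v : V} (h : v ≠ 0) (hv : v ∈ p.W) (hv' : v ∈ p'.W) :
    p = p' := (eq_pnt h hv).trans (eq_pnt h hv').symm

variable [Finite V]

@[simp] theorem mem_upts {U : Submodule K V} {p : Sub K V 1} : p ∈ upts U ↔ p.W ≤ U := mem_fs

@[simp] theorem mem_gpts {k : ℕ} {B : Sub K V k} {p : Sub K V 1} : p ∈ gpts B ↔ p.W ≤ B.W :=
  mem_fs

theorem GamU_mono {k : ℕ} {U U' : Submodule K V} (h : U ≤ U') : GamU k U ≤ GamU k U' :=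
  Lat_mono fun _ hB => hB.trans h

end Geo

end Pool.Agent.P.MP_3b9ee7_co.Q
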