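import Pool.Agent.P.MP_77d020_co.L.Greedy

/-!
Definitions for the asymptotic parallelism theorem. Three levels: abstract hypergraphs with test
sets (`HS`), designs with colours (`edg`, `tst`, `dsys`), and subspaces (`Sub`, `gpts`).
-/

noncomputable section

namespace Pool.Agent.P.MP_3b9ee7_co.Q

open Finset
open Pool.Agent.P.MP_77d020_co.L (ind fs cnt)

section Hyp

variable {V E T : Type} [DecidableEq V]

/-- Integer indicator of a finite set. -/
def one (U : Finset V) (v : V) : ℤ := if v ∈ U then 1 else 0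

/-- Boundary of an integer vector of edges. -/
def bd [Fintype E] (ed : E → Finset V) (a : E → ℤ) (v : V) : ℤ :=
  ∑ e, if v ∈ ed e then a e else 0

/-- `U` has a perfect matching. -/
def PM [Fintype E] (ed : E → Finset V) (U : Finset V) : Prop :=
  ∃ a : E → ℤ, (∀ e, 0 ≤ a e) ∧ bd ed a = one U

theorem bd_zero [Fintype E] (ed : E → Finset V) : bd ed 0 = 0 := by
  funext v; simp [bd]

theorem bd_add [Fintype E] (ed : E → Finset V) (a b : E → ℤ) :
    bd ed (a + b) = bd ed a + bd ed b := by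
  funext v
  simp only [bd, Pi.add_apply, ← sum_add_distrib]
  exact sum_congr rfl fun e _ => by split_ifs <;> simp

theorem bd_neg [Fintype E] (ed : E → Finset V) (a : E → ℤ) : bd ed (-a) = -bd ed a := by
  funext v
  simp only [bd, Pi.neg_apply, ← sum_neg_distrib]
  exact sum_congr rfl fun e _ => by split_ifs <;> simp

/-- The lattice generated by the edges with property `S`. -/
def Lat [Fintype E] (ed : E → Finset V) (S : E → Prop) : AddSubgroup (V → ℤ) where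
  carrier := {x | ∃ z : E → ℤ, (∀ e, z e ≠ 0 → S e) ∧ bd ed z = x}
  zero_mem' := ⟨0, fun _ h => (h rfl).elim, bd_zero ed⟩
  add_mem' := by
    rintro _ _ ⟨z, hz, rfl⟩ ⟨z', hz', rfl⟩
    refine ⟨z + z', fun e h => ?_, bd_add ed z z'⟩
    by_cases h1 : z e = 0
    · exact hz' e fun h2 => h (by simp [h1, h2])
    · exact hz e h1
  neg_mem' := by
    rintro _ ⟨z, hz, rfl⟩
    exact ⟨-z, fun e h => hz e fun h1 => h (by simp [h1]), bd_neg ed z⟩

/-- A hypergraph `ed` with test sets `Z f` of scale `s f`, and its constants. -/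
structure HS (V E T : Type) where
  ed : E → Finset V
  Z : T → Finset V
  s : T → ℝ
  r : ℕ
  D : ℝ
  Tot : ℝ
  m : ℝ
  lg : ℝ
  C0 : ℝ

namespace HS

variable (H : HS V E T)

/-- `U` is sparse. -/
def Sp (U : Finset V) (ε : ℝ) : Prop := ∀ f, ((H.Z f ∩ U).card : ℝ) ≤ ε * H.s f

/-- The family of sets `W i`, `i ∈ Is`, has small load. -/
def Ld {I : Type} (Is : Finset I) (W : I → Finset V) (ε : ℝ) : Prop :=
  ∀ f, ∑ i ∈ Is, ((H.Z f ∩ W i).card : ℝ) ≤ ε * H.s f

/-- The multiset of edges `K` has small load. -/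
def LdK [Fintype E] (K : E → ℕ) (ε : ℝ) : Prop :=
  ∀ f, ∑ e, (K e : ℝ) * ((H.Z f ∩ H.ed e).card : ℝ) ≤ ε * H.s f

/-- The basic facts on the hypergraph and its tests. -/
structure Ok [Fintype V] [Fintype E] [Fintype T] : Prop where
  neE : Nonempty E
  card : ∀ e, (H.ed e).card = H.r
  r2 : 2 ≤ H.r
  rC : (H.r : ℝ) ≤ H.C0
  D1 : 1 ≤ H.D
  m1 : 1 ≤ H.m
  lg1 : 1 ≤ H.lg
  T0 : 0 < H.Tot
  deg : ∀ v, cnt (fun e => v ∈ H.ed e) = H.D
  blk : ∀ U ε v, 0 ≤ ε → H.Sp U ε →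
    cnt (fun e => v ∈ H.ed e ∧ ¬ Disjoint ((H.ed e).erase v) U) ≤ H.C0 * ε * H.D
  spr : ∀ v f, ∑ e, ind (v ∈ H.ed e) * ((H.Z f ∩ H.ed e).card : ℝ) ≤
    H.C0 * H.D * (ind (v ∈ H.Z f) + H.s f / H.Tot)
  tch : ∀ (g : V → ℝ) (ε : ℝ), (∀ v, 0 ≤ g v) → (∀ f, ∑ v ∈ H.Z f, g v ≤ ε * H.s f) →
    ∑ v, g v ≤ ε * H.Tot
  cod : ∀ v v', v ≠ v' → cnt (fun e => v ∈ H.ed e ∧ v' ∈ H.ed e) ≤ H.C0 * H.D / H.m
  Zs : ∀ f, ((H.Z f).card : ℝ) ≤ 2 * H.s f
  sm : ∀ f, H.m ≤ H.s f
  cV : (Fintype.card V : ℝ) ≤ Real.exp H.lg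
  cT : (Fintype.card T : ℝ) ≤ Real.exp H.lg
  cD : H.D ≤ Real.exp H.lg
  cTot : H.Tot ≤ Real.exp H.lg

/-- Whatever sparse set `U` is forbidden, there is a well spread family of valid options whose
new region avoids `U`. -/
def Opts {O : Type} (val : O → Prop) (new : O → Finset V) (old : Finset V) (τ β : ℝ) : Prop :=
  ∀ U, H.Sp U τ → ∃ (J : Type) (Js : Finset J) (op : J → O), Js.Nonempty ∧
    (∀ j ∈ Js, val (op j) ∧ Disjoint (new (op j)) U) ∧
    ∀ f, ∑ j ∈ Js, ((H.Z f ∩ new (op j)).card : ℝ) ≤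
      Js.card * (β * (((H.Z f ∩ old).card : ℝ) + H.s f / H.Tot))

end HS

/-- A switch on the edge `e`: region `W`, token edges `g v`, tokens `(ed (g v)).erase v`. -/
structure SwV [Fintype E] (ed : E → Finset V) (e : E) (W : Finset V) (g : V → E) : Prop where
  mem : ∀ v ∈ ed e, v ∈ ed (g v)
  sub : ∀ v ∈ ed e, (ed (g v)).erase v ⊆ W
  dis : ∀ v ∈ ed e, ∀ v' ∈ ed e, v ≠ v' → Disjoint ((ed (g v)).erase v) ((ed (g v')).erase v')
  pm1 : PM ed W
  pm2 : PM ed (W \ (ed e).biUnion fun v => (ed (g v)).erase v)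

/-- A hinge with region `W` between the tokens of the edges `f`, `f'` at `v`. -/
def HiV [Fintype E] (ed : E → Finset V) (f f' : E) (v : V) (W : Finset V) : Prop :=
  PM ed (W ∪ (ed f).erase v) ∧ PM ed (W ∪ (ed f').erase v)

/-- Switches and hinges can be placed anywhere. -/
structure HS.Seg [Fintype E] (H : HS V E T) : Prop where
  sw : ∀ e, H.Opts (fun o : Finset V × (V → E) => SwV H.ed e o.1 o.2 ∧ (o.1.card : ℝ) ≤ H.C0)
    Prod.fst (H.ed e) (1 / H.C0) H.C0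
  hi : ∀ v f f', v ∈ H.ed f → v ∈ H.ed f' → Disjoint ((H.ed f).erase v) ((H.ed f').erase v) →
    H.Opts (fun W : Finset V => HiV H.ed f f' v W ∧ (W.card : ℝ) ≤ H.C0) id
      (H.ed f ∪ H.ed f') (1 / H.C0) H.C0

/-- A labelled system of switches `Ss` with root edges `rt`. The group of `(v, l)` is the set of
switches whose root contains `v` and whose label at `v` is `l`. -/
structure HS.CL (H : HS V E T) {Sw Lb : Type} (X : Finset V) (Ss : Finset Sw) (rt : Sw → E)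
    (lab : Sw → V → Lb) (l0 : Lb) (ε : ℝ) : Prop where
  ld : H.Ld Ss (fun s => H.ed (rt s)) ε
  sz : ∀ v l, ∑ s ∈ Ss, ind (v ∈ H.ed (rt s) ∧ lab s v = l) ≤ 4
  ne : ∀ v ∈ X, ∃ s ∈ Ss, v ∈ H.ed (rt s) ∧ lab s v = l0

/-- A state of the switches for the leftover `L`: the group `(v, l0)` with `v ∈ L` has no switch
on, every other nonempty group has exactly one. -/
def CLOn (ed : E → Finset V) {Sw Lb : Type} (Ss : Finset Sw) (rt : Sw → E) (lab : Sw → V → Lb)
    (l0 : Lb) (L : Finset V) : Prop :=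
  ∃ On : Sw → Prop, ∀ s ∈ Ss, ∀ v ∈ ed (rt s),
    (v ∈ L → lab s v = l0 → ¬ On s) ∧
    (¬ (v ∈ L ∧ lab s v = l0) →
      ∃! s', s' ∈ Ss ∧ v ∈ ed (rt s') ∧ lab s' v = lab s v ∧ On s')

end Hyp

section Des

variable {Pt Bl C : Type} [Fintype Pt] [Fintype Bl] [Fintype C] [DecidableEq Pt] [DecidableEq Bl]
  [DecidableEq C]

/-- The edge of a coloured block. -/
def edg (pts : Bl → Finset Pt) (e : Bl × C) : Finset (Bl ⊕ Pt × C) :=
  insert (Sum.inl e.1) ((pts e.1).image fun p => Sum.inr (p, e.2))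

/-- Tests: blocks through a point and pairs at that point; pairs of a colour. -/
def tst (pts : Bl → Finset Pt) : Pt ⊕ C → Finset (Bl ⊕ Pt × C)
  | Sum.inl p => fs (Sum.elim (fun B => p ∈ pts B) fun x => x.1 = p)
  | Sum.inr c => fs (Sum.elim (fun _ => False) fun x => x.2 = c)

variable (C) in
/-- The hypergraph of coloured blocks. -/
def dsys (pts : Bl → Finset Pt) (θ : ℕ) (lg C0 : ℝ) : HS (Bl ⊕ Pt × C) (Bl × C) (Pt ⊕ C) where
  ed := edg pts
  Z := tst pts
  s := Sum.elim (fun _ => Fintype.card C) fun _ => Fintype.card Pt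
  r := θ + 1
  D := Fintype.card C
  Tot := Fintype.card C * Fintype.card Pt
  m := Fintype.card Pt
  lg := lg
  C0 := C0

/-- A 2-design with block size `θ`, replication number `D` and index `lam`. -/
structure Des (pts : Bl → Finset Pt) (θ D lam : ℕ) : Prop where
  th2 : 2 ≤ θ
  thP : 2 * θ ≤ Fintype.card Pt
  card : ∀ B, (pts B).card = θ
  deg : ∀ p, cnt (fun B => p ∈ pts B) = D
  cod : ∀ p p', p ≠ p' → cnt (fun B => p ∈ pts B ∧ p' ∈ pts B) = lam
  lam2 : 2 * lam ≤ D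
  lamP : lam * Fintype.card Pt ≤ 2 * θ * D
  dbl : D * Fintype.card Pt = θ * Fintype.card Bl

/-- Admissible vectors. -/
def Adm (pts : Bl → Finset Pt) (x : Bl ⊕ Pt × C → ℤ) : Prop :=
  (∀ c, (fun p => x (Sum.inr (p, c))) ∈ Lat pts fun _ => True) ∧
    ∀ p, ∑ c, x (Sum.inr (p, c)) = bd pts (fun B => x (Sum.inl B)) p

/-- The automorphism group is 2-transitive on points. -/
def Two (pts : Bl → Finset Pt) : Prop :=
  ∀ p p' x x' : Pt, p ≠ p' → x ≠ x' → ∃ (σ : Equiv.Perm Pt) (τ : Equiv.Perm Bl),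
    (∀ y B, σ y ∈ pts (τ B) ↔ y ∈ pts B) ∧ σ p = x ∧ σ p' = x'

/-- Gadgets `G p` and a core `Co`: a linear map moves the block lattice into the core lattice. -/
def RelA (pts : Bl → Finset Pt) (G : Pt → Finset Bl) (Co : Finset Bl) : Prop :=
  ∃ ψ : Pt → Bl → ℤ, (∀ p B, ψ p B ≠ 0 → B ∈ G p) ∧
    ∀ B0, one (pts B0) - ∑ p ∈ pts B0, bd pts (ψ p) ∈ Lat pts fun B => B ∈ Co

/-- One configuration of gadgets and core, with size bounds. -/
def Rel (pts : Bl → Finset Pt) (c h : ℝ) (G : Pt → Finset Bl) (Co : Finset Bl) : Prop :=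
  RelA pts G Co ∧ (∀ p, ((G p).card : ℝ) ≤ c) ∧ (Co.card : ℝ) ≤ h

/-- Number of blocks of `S` through `y`. -/
def thru (pts : Bl → Finset Pt) (S : Finset Bl) (y : Pt) : ℝ := ∑ B ∈ S, ind (y ∈ pts B)

/-- A well spread family of configurations. -/
def Gen (pts : Bl → Finset Pt) (c h : ℝ) : Prop :=
  ∃ (O : Type) (Os : Finset O) (G : O → Pt → Finset Bl) (Co : O → Finset Bl), Os.Nonempty ∧
    (∀ o ∈ Os, Rel pts c h (G o) (Co o)) ∧
    (∀ p y, ∑ o ∈ Os, thru pts (G o p) y ≤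
      Os.card * (c * (ind (p = y) + 1 / Fintype.card Pt))) ∧
    ∀ y, ∑ o ∈ Os, thru pts (Co o) y ≤ Os.card * (c * h / Fintype.card Pt)

/-- A linear decoder of bounded size and overlap. -/
def Dec (pts : Bl → Finset Pt) (c : ℝ) : Prop :=
  ∃ (N : ℕ) (σ : Pt → Bl → ℤ), 0 < N ∧ (N : ℝ) ≤ c ∧
    (∀ p y, bd pts (σ p) y = if y = p then (N : ℤ) else 0) ∧
    (∀ p, ∑ B, |(σ p B : ℝ)| ≤ c) ∧ ∀ y, ∑ p, ∑ B, ind (y ∈ pts B) * |(σ p B : ℝ)| ≤ c

/-- A grid: two families of blocks on the same points. -/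
structure Gr (I Pt Bl : Type) where
  A : I → Bl
  B : I → Bl
  p : I → I → Pt

structure Gr.Ok {I : Type} (g : Gr I Pt Bl) (pts : Bl → Finset Pt) : Prop where
  inj : ∀ a b a' b', g.p a b = g.p a' b' → a = a' ∧ b = b'
  hA : ∀ a y, y ∈ pts (g.A a) ↔ ∃ b, g.p a b = y
  hB : ∀ b y, y ∈ pts (g.B b) ↔ ∃ a, g.p a b = y

/-- The vertices of a grid with two colours. -/
def Gr.reg {I : Type} (g : Gr I Pt Bl) (c c' : C) : Finset (Bl ⊕ Pt × C) :=
  fs (Sum.elim (fun B => (∃ a, g.A a = B) ∨ ∃ b, g.B b = B)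
    fun x => (∃ a b, g.p a b = x.1) ∧ (x.2 = c ∨ x.2 = c'))

/-- A well spread family of grids with `A i0 = B0`, and with `B i0 = B1` if `ob = some B1`. -/
def GFam (pts : Bl → Finset Pt) (D c : ℝ) (B0 : Bl) (ob : Option Bl) : Prop :=
  ∃ (I J : Type) (_ : Fintype I) (i0 : I) (Ω : Finset J) (g : J → Gr I Pt Bl), Ω.Nonempty ∧
    (∀ j ∈ Ω, (g j).Ok pts ∧ (g j).A i0 = B0 ∧ ∀ B1, ob = some B1 → (g j).B i0 = B1) ∧
    (∀ y, ∑ j ∈ Ω, ind (∃ a b, a ≠ i0 ∧ (ob ≠ none → b ≠ i0) ∧ (g j).p a b = y) ≤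
      Ω.card * (c / Fintype.card Pt)) ∧
    ∀ (Ub : Finset Bl) (τ : ℝ), 0 ≤ τ → (∀ y, thru pts Ub y ≤ τ * D) →
      ∑ j ∈ Ω, ind ((∃ a, a ≠ i0 ∧ (g j).A a ∈ Ub) ∨
        ∃ b, (ob ≠ none → b ≠ i0) ∧ (g j).B b ∈ Ub) ≤ Ω.card * (c * τ)

/-- Grids exist on every block and on every pair of blocks with one common point. -/
def Grids (pts : Bl → Finset Pt) (D c : ℝ) : Prop :=
  (∀ B0, GFam pts D c B0 none) ∧
    ∀ B0 B1, (pts B0 ∩ pts B1).card = 1 → GFam pts D c B0 (some B1)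

end Des

section Geo

/-- Number of points of a subspace of dimension `d`. -/
def th (q d : ℕ) : ℕ := ∑ i ∈ range d, q ^ i

/-- Subspaces of dimension `j`. -/
@[ext] structure Sub (K V : Type) [Field K] [AddCommGroup V] [Module K V] (j : ℕ) where
  W : Submodule K V
  h : Module.finrank K W = j

variable {K V : Type} [Field K] [AddCommGroup V] [Module K V]

instance [Finite V] (j : ℕ) : Fintype (Sub K V j) :=
  have : Finite (Sub K V j) :=
    Finite.of_injective (fun x => (x.W : Set V)) fun _ _ h => Sub.ext (SetLike.coe_injective h)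
  Fintype.ofFinite _

instance (j : ℕ) : DecidableEq (Sub K V j) := Classical.decEq _

/-- The points of a subspace. -/
def upts [Finite V] (U : Submodule K V) : Finset (Sub K V 1) := fs fun p => p.W ≤ U

/-- The points of a block. -/
def gpts [Finite V] {k : ℕ} (B : Sub K V k) : Finset (Sub K V 1) := upts B.W

theorem exists_rep (p : Sub K V 1) : ∃ v : V, v ≠ 0 ∧ p.W = Submodule.span K {v} := by
  obtain ⟨v, hv0, hv⟩ := finrank_eq_one_iff'.mp p.h
  refine ⟨v.1, fun h => hv0 (Subtype.ext h), le_antisymm (fun w hw => ?_) ?_⟩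
  · obtain ⟨c, hc⟩ := hv ⟨w, hw⟩
    exact Submodule.mem_span_singleton.2 ⟨c, congrArg Subtype.val hc⟩
  · exact (Submodule.span_singleton_le_iff_mem _ _).2 v.2

/-- A nonzero vector on a point. -/
def rep (p : Sub K V 1) : V := (exists_rep p).choose

open scoped Classical in
/-- The point of a vector; the zero vector is sent to the indicator of `P0`. -/
def ptv (P0 : Submodule K V) (v : V) (y : Sub K V 1) : ℤ :=
  if v = 0 then (if y.W ≤ P0 then 1 else 0) else if v ∈ y.W then 1 else 0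

/-- The lattice generated by the `k`-dimensional subspaces of `U`. -/
def GamU [Finite V] (k : ℕ) (U : Submodule K V) : AddSubgroup (Sub K V 1 → ℤ) :=
  Lat (gpts (K := K) (V := V) (k := k)) fun B => B.W ≤ U

end Geo

end Pool.Agent.P.MP_3b9ee7_co.Q
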