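import Pool.Agent.P.MP_3b9ee7_co.Q.Base

/-!
The Segre grid spanned by an independent square array of vectors.
-/

noncomputable section

namespace Pool.Agent.P.MP_3b9ee7_co.Q

open Finset

namespace GridAP

variable {K V : Type} [Field K] [AddCommGroup V] [Module K V] {k : ℕ} {w : Fin k → Fin k → V}

/-- The bilinear map of the array. -/
def be (w : Fin k → Fin k → V) (a b : Fin k → K) : V := ∑ i, ∑ j, (a i * b j) • w i j

theorem be_row (a b : Fin k → K) : be w a b = ∑ j, b j • ∑ i, a i • w i j := by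
  unfold be
  rw [sum_comm]
  simp only [smul_sum, smul_smul, mul_comm]

theorem be_col (a b : Fin k → K) : be w a b = ∑ i, a i • ∑ j, b j • w i j := by
  unfold be
  simp only [smul_sum, smul_smul]

theorem be_smul (c : K) (a b : Fin k → K) : be w a (c • b) = c • be w a b := by
  simp only [be, smul_sum, smul_smul, Pi.smul_apply, smul_eq_mul, mul_left_comm]

theorem be_smul' (c : K) (a b : Fin k → K) : be w (c • a) b = c • be w a b := by
  simp only [be, smul_sum, smul_smul, Pi.smul_apply, smul_eq_mul, mul_assoc]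

theorem be_coef (hw : LinearIndependent K (fun x : Fin k × Fin k => w x.1 x.2))
    {a b a' b' : Fin k → K} (h : be w a b = be w a' b') (i j : Fin k) :
    a i * b j = a' i * b' j := by
  refine Fintype.linearIndependent_iffₛ.1 hw (fun x => a x.1 * b x.2) (fun x => a' x.1 * b' x.2)
    ?_ (i, j)
  simpa only [Fintype.sum_prod_type, be] using h

theorem be_ne (hw : LinearIndependent K (fun x : Fin k × Fin k => w x.1 x.2))
    {a b : Fin k → K} (ha : a ≠ 0) (hb : b ≠ 0) : be w a b ≠ 0 := by
  intro h
  obtain ⟨i, hi⟩ := Function.ne_iff.1 ha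
  obtain ⟨j, hj⟩ := Function.ne_iff.1 hb
  have := be_coef hw (a' := 0) (b' := 0) (h.trans (by simp [be])) i j
  exact mul_ne_zero hi hj (by simpa using this)

theorem row_li (hw : LinearIndependent K (fun x : Fin k × Fin k => w x.1 x.2))
    {a : Fin k → K} (ha : a ≠ 0) : LinearIndependent K fun j => ∑ i, a i • w i j := by
  refine Fintype.linearIndependent_iff.2 fun b hb => ?_
  by_contra h
  exact be_ne hw ha (fun h0 => h fun j => congrFun h0 j) ((be_row a b).trans hb)

theorem col_li (hw : LinearIndependent K (fun x : Fin k × Fin k => w x.1 x.2))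
    {b : Fin k → K} (hb : b ≠ 0) : LinearIndependent K fun i => ∑ j, b j • w i j := by
  refine Fintype.linearIndependent_iff.2 fun a ha => ?_
  by_contra h
  exact be_ne hw (fun h0 => h fun j => congrFun h0 j) hb ((be_col a b).trans ha)

theorem par {a b : Sub K (Fin k → K) 1} {x y : K} (hx : x ≠ 0)
    (h : ∀ i, rep a i * x = rep b i * y) : a = b := by
  refine pnt_eq_of_mem (rep_ne a) (rep_mem a) ?_
  have : rep a = (y / x) • rep b := by
    funext i
    rw [Pi.smul_apply, smul_eq_mul, div_mul_eq_mul_div, eq_div_iff hx, h i, mul_comm]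
  rw [this]
  exact b.W.smul_mem _ (rep_mem b)

theorem exists_rep_smul {b : Fin k → K} (hb : b ≠ 0) :
    ∃ (p : Sub K (Fin k → K) 1) (c : K), c • rep p = b :=
  ⟨pnt K b hb, Submodule.mem_span_singleton.1
    (span_rep (pnt K b hb) ▸ Submodule.mem_span_singleton_self b)⟩

end GridAP

open GridAP in
theorem gridA : S_GridA := by
  intro K V _ _ _ _ _ k w hw
  refine ⟨⟨fun a => ⟨_, (finrank_span_eq_card (row_li hw (rep_ne a))).trans (Fintype.card_fin k)⟩,
    fun b => ⟨_, (finrank_span_eq_card (col_li hw (rep_ne b))).trans (Fintype.card_fin k)⟩,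
    fun a b => pnt K (be w (rep a) (rep b)) (be_ne hw (rep_ne a) (rep_ne b))⟩,
    ⟨fun a b a' b' h => ?_, fun a y => ?_, fun b y => ?_⟩, fun _ => rfl, fun _ => rfl,
    fun _ _ => rfl⟩
  · have h1 : be w (rep a) (rep b) ∈ Submodule.span K {be w (rep a') (rep b')} :=
      (congrArg Sub.W h).le (Submodule.mem_span_singleton_self _)
    obtain ⟨c, hc⟩ := Submodule.mem_span_singleton.1 h1
    have h2 := be_coef hw (hc.symm.trans (be_smul c _ _).symm)
    have h3 := be_coef hw (hc.symm.trans (be_smul' c _ _).symm)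
    obtain ⟨i, hi⟩ := Function.ne_iff.1 (rep_ne a)
    obtain ⟨j, hj⟩ := Function.ne_iff.1 (rep_ne b)
    exact ⟨par hj fun i => h2 i j, par hi fun j => by rw [mul_comm, h3 i j, mul_comm]⟩
  · simp only [gpts, upts, MP_77d020_co.L.mem_fs, le_iff_rep,
      Submodule.mem_span_range_iff_exists_fun, ← be_row]
    constructor
    · rintro ⟨b, hb⟩
      obtain ⟨p, c, rfl⟩ := exists_rep_smul (b := b) fun h => rep_ne y (by
        rw [← hb, h]; simp [be])
      refine ⟨p, pnt_eq_of_mem (rep_ne y) ?_ (rep_mem y)⟩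
      rw [← hb, be_smul]
      exact Submodule.smul_mem _ _ (Submodule.mem_span_singleton_self _)
    · rintro ⟨b, rfl⟩
      obtain ⟨c, hc⟩ := Submodule.mem_span_singleton.1
        (rep_mem (pnt K _ (be_ne hw (rep_ne a) (rep_ne b))))
      exact ⟨c • rep b, (be_smul c _ _).trans hc⟩
  · simp only [gpts, upts, MP_77d020_co.L.mem_fs, le_iff_rep,
      Submodule.mem_span_range_iff_exists_fun, ← be_col]
    constructor
    · rintro ⟨a, ha⟩
      obtain ⟨p, c, rfl⟩ := exists_rep_smul (b := a) fun h => rep_ne y (by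
        rw [← ha, h]; simp [be])
      refine ⟨p, pnt_eq_of_mem (rep_ne y) ?_ (rep_mem y)⟩
      rw [← ha, be_smul']
      exact Submodule.smul_mem _ _ (Submodule.mem_span_singleton_self _)
    · rintro ⟨a, rfl⟩
      obtain ⟨c, hc⟩ := Submodule.mem_span_singleton.1
        (rep_mem (pnt K _ (be_ne hw (rep_ne a) (rep_ne b))))
      exact ⟨c • rep a, (be_smul' c _ _).trans hc⟩

end Pool.Agent.P.MP_3b9ee7_co.Q
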