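import Pool.Agent.P.MP_3b9ee7_co.Q.Base

/-! Admissible vectors, monotonicity, and the combinatorial core of the main theorem. -/

namespace Pool.Agent.P.MP_3b9ee7_co.Q

open Finset
open Pool.Agent.P.MP_77d020_co.L (ind fs cnt ind_pos ind_neg ind_nonneg ind_le_one mem_fs
  cnt_eq_sum cnt_eq_add cnt_congr)

namespace MainP

variable {Pt Bl C : Type} [Fintype Pt] [Fintype Bl] [Fintype C] [DecidableEq Pt] [DecidableEq Bl]
  [DecidableEq C] {pts : Bl → Finset Pt}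

omit [Fintype Pt] in
theorem adm_bd (a : Bl × C → ℤ) : Adm pts (bd (edg pts) a) := by
  refine ⟨fun c => ?_, fun p => ?_⟩
  · have : (fun p => bd (edg pts) a (Sum.inr (p, c))) = bd pts fun B => a (B, c) :=
      funext fun p => bd_edg_inr a p c
    rw [this]; exact bd_mem_Lat _
  · simp only [bd_edg_inr, bd_edg_inl]
    simp only [bd]
    rw [sum_comm]
    refine sum_congr rfl fun B _ => ?_
    split_ifs <;> simp

omit [Fintype Pt] in
theorem adm_pm {U : Finset (Bl ⊕ Pt × C)} (h : PM (edg pts) U) : Adm pts (one U) := by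
  obtain ⟨a, -, e⟩ := h
  rw [← e]; exact adm_bd a

omit [Fintype Pt] [DecidableEq Bl] [DecidableEq C] in
theorem adm_sub {x y : Bl ⊕ Pt × C → ℤ} (hx : Adm pts x) (hy : Adm pts y) : Adm pts (x - y) := by
  refine ⟨fun c => sub_mem (hx.1 c) (hy.1 c), fun p => ?_⟩
  have e : (fun B => (x - y) (Sum.inl B)) = (fun B => x (Sum.inl B)) - fun B => y (Sum.inl B) := rfl
  rw [e, bd_sub, Pi.sub_apply, ← hx.2, ← hy.2, ← sum_sub_distrib]
  rfl

omit [Fintype Pt] [Fintype C] in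
theorem bd_cast (U : Finset (Bl ⊕ Pt × C)) (p : Pt) :
    ((bd pts (fun B => one U (Sum.inl B)) p : ℤ) : ℝ) =
      cnt fun B => p ∈ pts B ∧ Sum.inl B ∈ U := by
  rw [cnt_eq_sum, bd, Int.cast_sum]
  refine sum_congr rfl fun B _ => ?_
  by_cases h : p ∈ pts B <;> by_cases h' : Sum.inl B ∈ U <;> simp [one, h, h', ind]

omit [Fintype Pt] [Fintype Bl] in
theorem sum_cast (U : Finset (Bl ⊕ Pt × C)) (p : Pt) :
    ((∑ c, one U (Sum.inr (p, c)) : ℤ) : ℝ) = cnt fun c => Sum.inr (p, c) ∈ U := by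
  rw [cnt_eq_sum, Int.cast_sum]
  refine sum_congr rfl fun c _ => ?_
  by_cases h' : Sum.inr (p, c) ∈ U <;> simp [one, h', ind]

omit [Fintype Pt] in
theorem adm_bal {U : Finset (Bl ⊕ Pt × C)} (h : Adm pts (one U)) (p : Pt) :
    cnt (fun B => p ∈ pts B ∧ Sum.inl B ∈ U) = cnt fun c => Sum.inr (p, c) ∈ U := by
  rw [← bd_cast, ← sum_cast, h.2]

theorem adm_univ {θ lam : ℕ} (hD : Des pts θ (Fintype.card C) lam)
    (h : one univ ∈ Lat pts fun _ => True) : Adm pts (one (univ : Finset (Bl ⊕ Pt × C))) := by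
  refine ⟨fun c => ?_, fun p => ?_⟩
  · have : (fun p : Pt => one (univ : Finset (Bl ⊕ Pt × C)) (Sum.inr (p, c))) = one univ :=
      funext fun p => by simp [one]
    rw [this]; exact h
  · have h1 := bd_cast (pts := pts) (univ : Finset (Bl ⊕ Pt × C)) p
    have h2 := sum_cast (univ : Finset (Bl ⊕ Pt × C)) p
    rw [cnt_congr (Q := fun B => p ∈ pts B) (fun B => by simp), hD.deg] at h1
    rw [cnt_congr (Q := fun _ => True) (fun B => by simp), Pool.Agent.P.MP_77d020_co.L.cnt_true] at h2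
    exact_mod_cast h2.trans h1.symm

omit [Fintype C] [DecidableEq Bl] [DecidableEq C] in
theorem gen_mono {c c' h : ℝ} (hg : Gen pts c h) (hc : c ≤ c') : Gen pts c' h := by
  obtain ⟨O, Os, G, Co, hne, h1, h2, h3⟩ := hg
  obtain ⟨o, ho⟩ := hne
  have h0 : 0 ≤ h := (Nat.cast_nonneg _).trans (h1 o ho).2.2
  refine ⟨O, Os, G, Co, ⟨o, ho⟩, fun o ho => ⟨(h1 o ho).1, fun p => ((h1 o ho).2.1 p).trans hc,
    (h1 o ho).2.2⟩, fun p y => (h2 p y).trans ?_, fun y => (h3 y).trans ?_⟩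
  · have := ind_nonneg (p = y)
    gcongr
  · gcongr

omit [Fintype C] [DecidableEq Bl] [DecidableEq C] in
theorem dec_mono {c c' : ℝ} (hg : Dec pts c) (hc : c ≤ c') : Dec pts c' := by
  obtain ⟨N, σ, h0, h1, h2, h3, h4⟩ := hg
  exact ⟨N, σ, h0, h1.trans hc, h2, fun p => (h3 p).trans hc, fun y => (h4 y).trans hc⟩

/-- The reserve: sparse, balanced, and rich in edges at every vertex. -/
theorem reserve (hRes : S_Res) {θ lam : ℕ} {lg C0 ε ξ : ℝ} (hD : Des pts θ (Fintype.card C) lam)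
    (hH : (dsys C pts θ lg C0).Ok) (e0 : 0 < ε) (e1 : ε ≤ 1) (x0 : 0 < ξ) (xe : ξ ≤ ε)
    (hs : 2 * (Fintype.card C : ℝ) * Fintype.card Pt ≤ Real.exp lg)
    (h1 : 100 * lg ≤ ξ ^ 2 * Fintype.card Pt)
    (h2 : 200 * C0 ^ 2 * lg ≤ ε ^ (θ + 1) * Fintype.card Pt) :
    ∃ X : Finset (Bl ⊕ Pt × C), (dsys C pts θ lg C0).Sp X (4 * ε) ∧
      (∀ p, |cnt (fun B => p ∈ pts B ∧ Sum.inl B ∈ X) - cnt (fun c => Sum.inr (p, c) ∈ X)| ≤
        2 * ξ * Fintype.card C) ∧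
      ∀ v, ε ^ (θ + 1) / 4 * Fintype.card C ≤
        cnt fun e => v ∈ edg pts e ∧ (edg pts e).erase v ⊆ X := by
  set H := dsys C pts θ lg C0 with hHd
  have hP : (4 : ℝ) ≤ Fintype.card Pt := by
    have := hD.th2; have := hD.thP
    exact_mod_cast (by omega : 4 ≤ Fintype.card Pt)
  obtain ⟨p0⟩ : Nonempty Pt := Fintype.card_pos_iff.1 (by have := hD.th2; have := hD.thP; omega)
  have hPD : (Fintype.card Pt : ℝ) ≤ Fintype.card C := hH.sm (Sum.inl p0)
  let Yb : Pt → Finset (Bl ⊕ Pt × C) := fun p => (fs fun B => p ∈ pts B).image Sum.inl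
  let Yp : Pt → Finset (Bl ⊕ Pt × C) := fun p => univ.image fun c => Sum.inr (p, c)
  have cb : ∀ p, ((Yb p).card : ℝ) = Fintype.card C := fun p => by
    rw [card_image_of_injective _ Sum.inl_injective]; exact hD.deg p
  have cp : ∀ p, ((Yp p).card : ℝ) = Fintype.card C := fun p => by
    rw [card_image_of_injective _ fun _ _ h => by simpa using h, card_univ]
  have ib : ∀ p X, ((Yb p ∩ X).card : ℝ) = cnt fun B => p ∈ pts B ∧ Sum.inl B ∈ X := by
    intro p X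
    rw [card_inter_eq_sum, sum_image fun _ _ _ _ h => Sum.inl_injective h,
      Pool.Agent.P.MP_77d020_co.L.cnt_and_eq_sum]
  have ip : ∀ p X, ((Yp p ∩ X).card : ℝ) = cnt fun c => Sum.inr (p, c) ∈ X := by
    intro p X
    rw [card_inter_eq_sum, sum_image fun _ _ _ _ h => by simpa using h, cnt_eq_sum]
  have l1 : 1 ≤ lg := hH.lg1
  have x2 : 0 ≤ ξ ^ 2 := sq_nonneg _
  obtain ⟨X, hX, hR⟩ := hRes _ _ _ ((Pt ⊕ C) ⊕ (Pt ⊕ Pt)) H (Sum.elim H.Z (Sum.elim Yb Yp))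
    (Sum.elim (fun f => 2 * H.s f) fun _ => Fintype.card C) ε ξ hH e0 e1 x0 (xe.trans e1)
    (by
      simp only [Fintype.card_sum, Nat.cast_add]
      have : Real.exp lg ≤ Real.exp (2 * H.lg) := Real.exp_le_exp.2 (by show lg ≤ 2 * lg; linarith)
      nlinarith)
    (by
      rintro (f | p | p)
      · refine ⟨hH.Zs f, h1.trans (mul_le_mul_of_nonneg_left ?_ x2)⟩
        have h3 : (Fintype.card Pt : ℝ) ≤ H.s f := hH.sm f
        show _ ≤ 2 * H.s f
        linarith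
      · exact ⟨(cb p).le, h1.trans (mul_le_mul_of_nonneg_left hPD x2)⟩
      · exact ⟨(cp p).le, h1.trans (mul_le_mul_of_nonneg_left hPD x2)⟩)
    h2
  refine ⟨X, fun f => ?_, fun p => ?_, fun v => ?_⟩
  · have h3 := (abs_le.1 (hX (Sum.inl f))).2
    have h4 := hH.Zs f
    have h5 := hH.s1 f
    simp only [Sum.elim_inl] at h3
    nlinarith
  · have h3 := abs_le.1 (hX (Sum.inr (Sum.inl p)))
    have h4 := abs_le.1 (hX (Sum.inr (Sum.inr p)))
    simp only [Sum.elim_inl, Sum.elim_inr, cb, cp, ib, ip] at h3 h4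
    rw [abs_le]
    constructor <;> linarith [h3.1, h3.2, h4.1, h4.2]
  · refine le_trans (le_of_eq ?_) (hR v)
    show _ = ε ^ (θ + 1) * (Fintype.card C : ℝ) / 4
    ring

/-- From the absorber and an approximate fractional matching to the perfect matching. -/
theorem finish {θ lam a : ℕ} {lg C0 γ κ : ℝ} (hCov : S_Cover) (hD : Des pts θ (Fintype.card C) lam)
    (hH : (dsys C pts θ lg C0).Ok) (hsp : one univ ∈ Lat pts fun _ => True)
    (hRG : ∀ (V E F : Type) [DecidableEq V] (Vs : Finset V) (Es : Finset E) (Fs : Finset F)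
      (ed : E → Finset V) (φ : E → ℝ) (Z : F → Finset V) (s : F → ℝ),
      (∀ e ∈ Es, ed e ⊆ Vs ∧ (ed e).card = θ + 1 ∧ 0 ≤ φ e) →
      (∀ v v', v ≠ v' → ∑ e ∈ Es, ind (v ∈ ed e ∧ v' ∈ ed e) * φ e ≤ γ ^ a) →
      (∀ v ∈ Vs, |∑ e ∈ Es, ind (v ∈ ed e) * φ e - 1| ≤ γ ^ a) →
      (Vs.card : ℝ) ≤ Real.exp (1 / γ) → (Fs.card : ℝ) ≤ Real.exp (1 / γ) →
      (∀ f ∈ Fs, Z f ⊆ Vs ∧ ((Z f).card : ℝ) ≤ s f ∧ 1 ≤ γ ^ a * s f) →
      ∃ M ⊆ Es, (∀ e ∈ M, ∀ e' ∈ M, e ≠ e' → Disjoint (ed e) (ed e')) ∧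
        ∀ f ∈ Fs, ((Z f \ M.biUnion ed).card : ℝ) ≤ γ * s f)
    {X A : Finset (Bl ⊕ Pt × C)} (hAX : Disjoint A X)
    (hA : ∀ L ⊆ X, Adm pts (one L) → PM (edg pts) (A ∪ L))
    (hR : ∀ v, κ * Fintype.card C ≤ cnt fun e => v ∈ edg pts e ∧ (edg pts e).erase v ⊆ X)
    {φ : Bl × C → ℝ} (f1 : ∀ e, 0 ≤ φ e ∧ φ e ≤ 2 / Fintype.card C)
    (f2 : ∀ e, φ e ≠ 0 → Disjoint (edg pts e) (X ∪ A))
    (f3 : ∀ v, v ∉ X ∪ A → |∑ e, ind (v ∈ edg pts e) * φ e - 1| ≤ γ ^ a)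
    (g0 : 0 < γ) (k0 : 0 < κ) (k1 : κ ≤ 1) (n1 : 2 * C0 ≤ γ ^ a * Fintype.card Pt)
    (n2 : lg ≤ 1 / γ) (n3 : lg ≤ 2 * γ * Fintype.card Pt) (n4 : 20 * C0 ^ 2 * (2 * γ) ≤ κ ^ 2) :
    PM (edg (C := C) pts) univ := by
  classical
  set H := dsys C pts θ lg C0 with hHd
  have hD1 : (1 : ℝ) ≤ Fintype.card C := hH.D1
  have hP1 : (1 : ℝ) ≤ Fintype.card Pt := hH.m1
  have hC : 2 ≤ C0 := hH.C2
  have ga : 0 < γ ^ a := pow_pos g0 a
  have hex : Real.exp lg ≤ Real.exp (1 / γ) := Real.exp_le_exp.2 n2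
  set Rm : Finset (Bl ⊕ Pt × C) := univ \ (X ∪ A) with hRm
  set Es : Finset (Bl × C) := univ.filter fun e => Disjoint (edg pts e) (X ∪ A) with hEs
  have hsum : ∀ g : Bl × C → ℝ, ∑ e ∈ Es, g e * φ e = ∑ e, g e * φ e := fun g =>
    sum_subset (subset_univ _) fun e _ he => by
      have : φ e = 0 := by
        by_contra h
        exact he (mem_filter.2 ⟨mem_univ _, f2 e h⟩)
      rw [this, mul_zero]
  obtain ⟨M, hM, hMd, hMz⟩ := hRG _ _ (Pt ⊕ C) Rm Es univ (edg pts) φ (fun f => H.Z f ∩ Rm)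
    (fun f => 2 * H.s f)
    (fun e he => ⟨fun v hv => mem_sdiff.2 ⟨mem_univ _, disjoint_left.1 (mem_filter.1 he).2 hv⟩,
      hH.card e, (f1 e).1⟩)
    (fun v v' hv => by
      rw [hsum]
      have h1 : ∑ e, ind (v ∈ edg pts e ∧ v' ∈ edg pts e) * φ e ≤
          cnt (fun e => v ∈ edg pts e ∧ v' ∈ edg pts e) * (2 / Fintype.card C) := by
        rw [cnt_eq_sum, sum_mul]
        exact sum_le_sum fun e _ => mul_le_mul_of_nonneg_left (f1 e).2 (ind_nonneg _)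
      have h2 : cnt (fun e => v ∈ edg pts e ∧ v' ∈ edg pts e) ≤
          C0 * Fintype.card C / Fintype.card Pt := hH.cod v v' hv
      refine h1.trans ((mul_le_mul_of_nonneg_right h2 (by positivity)).trans ?_)
      have e : C0 * (Fintype.card C : ℝ) / Fintype.card Pt * (2 / Fintype.card C) =
          2 * C0 / Fintype.card Pt := by field_simp
      rw [e, div_le_iff₀ (by linarith)]
      exact n1)
    (fun v hv => by rw [hsum]; exact f3 v (mem_sdiff.1 hv).2)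
    ((Nat.cast_le.2 (card_le_univ _)).trans (hH.cV.trans hex)) (hH.cT.trans hex)
    (fun f _ => ⟨inter_subset_right,
      (Nat.cast_le.2 (card_le_card inter_subset_left)).trans (hH.Zs f), by
        have h3 : (Fintype.card Pt : ℝ) ≤ H.s f := hH.sm f
        nlinarith⟩)
  set Cv := M.biUnion (edg pts) with hCv
  have hCR : Cv ⊆ Rm := biUnion_subset.2 fun e he v hv =>
    mem_sdiff.2 ⟨mem_univ _, disjoint_left.1 (mem_filter.1 (hM he)).2 hv⟩
  have pCv : PM (edg pts) Cv := PM.biUnion M _ (fun e _ => PM.edge e) hMd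
  obtain ⟨Us, hUs, pUs⟩ := hCov _ _ _ H X (Rm \ Cv) κ (2 * γ) hH k0 k1 n3 n4
    (disjoint_left.2 fun v hv hx => (mem_sdiff.1 (mem_sdiff.1 hv).1).2 (mem_union_left _ hx))
    (fun f => by
      have := hMz f (mem_univ _)
      rw [inter_sdiff_assoc] at this
      linarith) hR
  have pA : PM (edg pts) A := by
    have := hA ∅ (empty_subset _) (adm_pm PM.empty)
    rwa [union_empty] at this
  have m1 : ∀ v, v ∈ Cv → v ∉ X ∧ v ∉ A := fun v hv => by
    have := (mem_sdiff.1 (hCR hv)).2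
    rwa [mem_union, not_or] at this
  have m2 : ∀ v, v ∈ A → v ∉ X := fun v hv => disjoint_left.1 hAX hv
  have m3 : ∀ v, v ∈ Us → v ∈ X := fun v hv => hUs hv
  have d1 : Disjoint Cv (Rm \ Cv ∪ Us) := disjoint_left.2 fun v hv h => by
    have := m1 v hv; have := m3 v
    simp only [mem_union, mem_sdiff] at h; tauto
  have d2 : Disjoint (Cv ∪ (Rm \ Cv ∪ Us)) (A ∪ X \ Us) := disjoint_left.2 fun v hv h => by
    have := m1 v; have := m2 v; have := m3 v
    simp only [hRm, mem_union, mem_sdiff, mem_univ] at h hv; tauto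
  have d3 : Disjoint A (X \ Us) := disjoint_of_subset_right sdiff_subset hAX
  have eU : Cv ∪ (Rm \ Cv ∪ Us) ∪ (A ∪ X \ Us) = univ := by
    ext v
    simp only [hRm, mem_union, mem_sdiff, mem_univ]; tauto
  have p1 := pCv.union pUs d1
  have aL : Adm pts (one (X \ Us)) := by
    have e : one (X \ Us) = one univ - one (Cv ∪ (Rm \ Cv ∪ Us)) - one A := by
      rw [← eU, one_union d2, one_union d3]; abel
    rw [e]
    exact adm_sub (adm_sub (adm_univ hD hsp) (adm_pm p1)) (adm_pm pA)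
  rw [← eU]
  exact p1.union (hA _ sdiff_subset aL) d2

end MainP

end Pool.Agent.P.MP_3b9ee7_co.Q
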