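import Pool.Agent.P.MP_3b9ee7_co.Q.RGA

/-! The nibble for uniform hypergraphs of small weighted codegree. -/

namespace Pool.Agent.P.MP_3b9ee7_co.Q

open Finset
open Pool.Agent.P.MP_77d020_co.L (ind ind_congr)

namespace RGP

theorem num1 {γ r : ℝ} (g0 : 0 < γ) (R2 : 2 ≤ r) (gr : γ ≤ 1 / (100 * (r + 1) ^ 2)) :
    γ ≤ 1 / 100 ∧ ∀ y : ℝ, y ≤ r ^ 2 → y * γ ^ 16 ≤ γ ^ 15 := by
  rw [le_div_iff₀ (by positivity)] at gr
  refine ⟨by nlinarith [mul_pos g0 (show (0 : ℝ) < r ^ 2 + 2 * r by positivity)], fun y hy => ?_⟩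
  rw [pow_succ' γ 15, ← mul_assoc]
  refine mul_le_of_le_one_left (by positivity) ?_
  nlinarith [mul_le_mul_of_nonneg_right hy g0.le, mul_pos g0 (show (0 : ℝ) < r by positivity),
    mul_pos g0 (show (0 : ℝ) < r ^ 2 by positivity)]

theorem gpow {γ : ℝ} (g0 : 0 < γ) (g1 : γ ≤ 1 / 100) (k : ℕ) : γ ^ (k + 1) ≤ γ / 100 ^ k := by
  rw [pow_succ', div_eq_mul_inv, ← inv_pow, ← one_div]
  gcongr

theorem num2 {γ r ρ c θ : ℝ} (g0 : 0 < γ) (g1 : γ ≤ 1 / 100) (R2 : 2 ≤ r) (hρ : ρ + 1 = r)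
    (g2 : ∀ y : ℝ, y ≤ r ^ 2 → y * γ ^ 16 ≤ γ ^ 15) (c0 : 0 < c) (hθ : θ = 1 / γ ^ 5) :
    4 / γ + 4 ≤ θ * (γ ^ 3 / 2) ∧ ∀ x : ℝ, |x| = θ → 2 * |x| * (r * γ ^ 16) ≤ 1 ∧
      2 * |x| * (ρ ^ 2 * (c * γ ^ 16)) + 4 * x ^ 2 * (r * γ ^ 16) * (ρ * c) ≤ c * γ ∧
      4 * x ^ 2 * (r * γ ^ 16) * (2 * c) ≤ c * γ := by
  have θ0 : 0 < θ := by rw [hθ]; positivity
  have gp := gpow g0 g1
  refine ⟨?_, fun x hx => ?_⟩
  · rw [hθ]
    field_simp
    nlinarith
  have e1 : θ * γ ^ 15 = γ ^ 10 := by rw [hθ]; field_simp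
  have e2 : θ ^ 2 * γ ^ 15 = γ ^ 5 := by rw [hθ]; field_simp
  have f1 := mul_le_mul_of_nonneg_left (g2 r (by nlinarith)) θ0.le
  have f2 := mul_le_mul_of_nonneg_left (g2 (ρ ^ 2) (by nlinarith)) θ0.le
  have f3 := mul_le_mul_of_nonneg_left (g2 (r * ρ) (by nlinarith)) (sq_nonneg θ)
  have f4 := mul_le_mul_of_nonneg_left (g2 (r * 2) (by nlinarith)) (sq_nonneg θ)
  rw [e1] at f1 f2
  rw [e2] at f3 f4
  rw [← sq_abs x, hx]
  refine ⟨by linarith [gp 9], ?_, ?_⟩ <;>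
    linarith [mul_le_mul_of_nonneg_left (f2.trans (gp 9)) c0.le,
      mul_le_mul_of_nonneg_left (f3.trans (gp 4)) c0.le,
      mul_le_mul_of_nonneg_left (f4.trans (gp 4)) c0.le, mul_pos c0 g0]

end RGP

open RGP

theorem rg : S_RG := by
  refine fun r => ⟨4 * r + 16, 1 / (100 * (r + 1) ^ 2), by omega, by positivity, ?_⟩
  intro E T F _ Ev Ts Fs ed φ Z s γ r2 g0 gr h1 h2 h3 hE hF hZ
  obtain ⟨ω, hω⟩ : ∃ ω, ω = γ ^ (4 * r + 16) := ⟨_, rfl⟩
  have w0 : 0 < ω := by rw [hω]; positivity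
  rw [← hω] at h2 h3 hZ
  have H : Hy Ev Ts ed φ ω r := ⟨h1, h2, w0.le, by omega⟩
  have s0 : ∀ f ∈ Fs, 0 < s f := fun f hf =>
    (mul_pos_iff_of_pos_left w0).1 (by linarith [(hZ f hf).2.2])
  have R2 : (2 : ℝ) ≤ r := by exact_mod_cast r2
  obtain ⟨g1, g2⟩ := num1 g0 R2 gr
  have w3 : ω ≤ γ ^ 4 := hω ▸ pow_le_pow_of_le_one g0.le (by linarith) (by omega)
  obtain ⟨ρ, hρ⟩ : ∃ ρ : ℝ, ρ + 1 = r := ⟨r - 1, by ring⟩
  have ρ1 : 1 ≤ ρ := by linarith
  obtain ⟨c, hc⟩ : ∃ c : ℝ, c = 1 / (Ev.card + 2 * r) := ⟨_, rfl⟩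
  have c0 : 0 < c := by rw [hc]; positivity
  have c2 : c * (Ev.card + 2 * r) = 1 := by rw [hc]; field_simp
  have c3 : 2 * r * c ≤ 1 := by linarith [mul_nonneg c0.le (Nat.cast_nonneg (α := ℝ) Ev.card)]
  have c1 : c ≤ 1 / 4 := by linarith [mul_le_mul_of_nonneg_right R2 c0.le]
  have c4 : ρ * c ≤ 1 / 2 := by rw [← hρ] at c3; linarith
  have c5 : c ≤ ρ * c := le_mul_of_one_le_left c0.le ρ1
  obtain ⟨n, n1, n2, n3⟩ := par g0 g1 c0 hρ ρ1 c3
  replace hE := hE.trans (Real.exp_le_exp.2 (show 1 / γ ≤ 3 / γ by gcongr; norm_num))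
  replace hF := hF.trans (Real.exp_le_exp.2 (show 1 / γ ≤ 3 / γ by gcongr; norm_num))
  obtain ⟨θ, hθ⟩ : ∃ θ : ℝ, θ = 1 / γ ^ 5 := ⟨_, rfl⟩
  have θ0 : 0 < θ := by rw [hθ]; positivity
  have gp := gpow g0 g1
  have d0 : 0 < γ ^ 3 := by positivity
  have d1 : γ ^ 3 ≤ 1 / 100 := by linarith [gp 2]
  have w4 : ω ≤ γ ^ 3 := w3.trans (pow_le_pow_of_le_one g0.le (by linarith) (by omega))
  obtain ⟨t1, t2⟩ := num2 g0 g1 R2 hρ g2 c0 hθ
  clear g2 gr hθ hc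
  have a1 := abs_of_pos θ0
  let X : ℕ → Finset E → E → ℝ := fun t Al e =>
    W Ts ed φ Al e / ((1 + 2 * γ ^ 3) * (1 - ρ * c) ^ t)
  let Y : ℕ → Finset E → F → ℝ := fun t Al f => (Al ∩ Z f).card / (s f * (1 - c) ^ t)
  let P1 : ℕ → Finset E → E → ℝ := fun t Al e =>
    Real.exp (θ * X t Al e + (-θ * (1 - γ ^ 3 / 2) - 4 / γ - c * γ * t))
  let P2 : ℕ → Finset E → E → ℝ := fun t Al e =>
    Real.exp (-θ * X t Al e + (θ * (1 - 3 * γ ^ 3) - 4 / γ - c * γ * t))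
  let P3 : ℕ → Finset E → F → ℝ := fun t Al f =>
    Real.exp (θ * Y t Al f + (-θ - 4 / γ - c * γ * t))
  let P4 : ℕ → Finset E → F → ℝ := fun t Dm f =>
    Real.exp ((Z f ∩ Dm).card + (-(4 / γ) - 7 * γ ^ 3 * c * s f * t))
  let Φ : ℕ → Finset E → Finset E → ℝ := fun t Al Dm =>
    ∑ e ∈ Ev, (P1 t Al e + P2 t Al e) + ∑ f ∈ Fs, (P3 t Al f + P4 t Dm f)
  have bd : ∀ t ≤ n, ∀ Al Dm, Φ t Al Dm < 1 → (∀ e ∈ Ev, 1 - 7 * γ ^ 3 / 2 ≤ X t Al e ∧
      X t Al e ≤ 1) ∧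
      ∀ f ∈ Fs, Y t Al f ≤ 2 ∧ ((Z f ∩ Dm).card : ℝ) ≤ 4 / γ + 28 * γ ^ 2 * s f := by
    intro t ht Al Dm h
    have p12 : ∀ e ∈ Ev, 0 ≤ P1 t Al e + P2 t Al e := fun e _ => by positivity
    have p34 : ∀ f ∈ Fs, 0 ≤ P3 t Al f + P4 t Dm f := fun e _ => by positivity
    have k1 : c * t * γ ≤ 4 := by
      rw [← le_div_iff₀ g0]
      exact le_trans (by gcongr) n3
    have lt : ∀ x y : ℝ, Real.exp x + Real.exp y < 1 → x < 0 ∧ y < 0 := fun x y h =>
      ⟨Real.exp_lt_one_iff.1 (by linarith [Real.exp_pos y]),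
        Real.exp_lt_one_iff.1 (by linarith [Real.exp_pos x])⟩
    refine ⟨fun e he => ?_, fun f hf => ?_⟩
    · obtain ⟨a, b⟩ := lt _ _ (((single_le_sum p12 he).trans
        (le_add_of_nonneg_right (sum_nonneg p34))).trans_lt h)
      exact ⟨le_of_mul_le_mul_left (by linarith) θ0, le_of_mul_le_mul_left (by linarith) θ0⟩
    · obtain ⟨a, b⟩ := lt _ _ (((single_le_sum p34 hf).trans
        (le_add_of_nonneg_left (sum_nonneg p12))).trans_lt h)
      refine ⟨le_of_mul_le_mul_left (by linarith [mul_le_mul_of_nonneg_left d1 θ0.le]) θ0, ?_⟩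
      have := s0 f hf
      linarith [mul_le_mul_of_nonneg_left k1 (show 0 ≤ 7 * γ ^ 2 * s f by positivity)]
  have main : ∀ t ≤ n, ∃ Al Dm, Good Ev Ts ed Al Dm ∧ Φ t Al Dm < 1 := by
    intro t
    induction t with
    | zero =>
      refine fun _ => ⟨Ev, ∅, ⟨subset_rfl, ∅, empty_subset _, by simp, by simp,
        fun e he => Or.inl he⟩, ?_⟩
      have e1 : ∀ e ∈ Ev, P1 0 Ev e + P2 0 Ev e ≤ 2 * Real.exp (-(4 / γ)) := fun e he => by
        have e2 : W Ts ed φ Ev e = ∑ t ∈ Ts, ind (e ∈ ed t) * φ t :=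
          sum_congr rfl fun t ht => by
            rw [ind_congr (and_iff_left ((erase_subset _ _).trans (h1 t ht).1))]
        obtain ⟨a, b⟩ := abs_le.1 (h3 e he)
        have x1 : X 0 Ev e ≤ 1 - γ ^ 3 / 2 := by
          simp only [X, e2, pow_zero, mul_one]
          rw [div_le_iff₀ (by positivity)]
          linarith [mul_le_mul_of_nonneg_left d1 d0.le]
        have x2 : 1 - 3 * γ ^ 3 ≤ X 0 Ev e := by
          simp only [X, e2, pow_zero, mul_one]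
          rw [le_div_iff₀ (by positivity)]
          linarith [mul_pos d0 d0]
        rw [two_mul]
        refine add_le_add (Real.exp_le_exp.2 ?_) (Real.exp_le_exp.2 ?_) <;> push_cast <;>
          linarith [mul_le_mul_of_nonneg_left x1 θ0.le, mul_le_mul_of_nonneg_left x2 θ0.le]
      have e2 : ∀ f ∈ Fs, P3 0 Ev f + P4 0 ∅ f ≤ 2 * Real.exp (-(4 / γ)) := fun f hf => by
        have x1 : Y 0 Ev f ≤ 1 := by
          simp only [Y, pow_zero, mul_one]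
          rw [div_le_one (s0 f hf), inter_eq_right.2 (hZ f hf).1]
          exact (hZ f hf).2.1
        rw [two_mul]
        refine add_le_add (Real.exp_le_exp.2 ?_) (Real.exp_le_exp.2 (by simp))
        push_cast
        linarith [mul_le_mul_of_nonneg_left x1 θ0.le]
      refine (add_le_add (sum_le_sum e1) (sum_le_sum e2)).trans_lt ?_
      rw [sum_const, sum_const, nsmul_eq_mul, nsmul_eq_mul]
      have e3 : Real.exp (3 / γ) * Real.exp (-(4 / γ)) * Real.exp (1 / γ) = 1 := by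
        rw [← Real.exp_add, ← Real.exp_add, Real.exp_eq_one_iff]
        ring
      have e4 : 100 ≤ Real.exp (1 / γ) := by
        have := Real.add_one_le_exp (1 / γ)
        have : 100 ≤ 1 / γ := by rw [le_div_iff₀ g0]; linarith
        linarith
      have e5 := Real.exp_pos (-(4 / γ))
      linarith [mul_le_mul_of_nonneg_left e4 (mul_pos (Real.exp_pos (3 / γ)) e5).le,
        mul_le_mul_of_nonneg_right hE e5.le, mul_le_mul_of_nonneg_right hF e5.le]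
    | succ t ih =>
      intro ht
      obtain ⟨Al, Dm, G, h⟩ := ih (by omega)
      obtain ⟨b1, b2⟩ := bd t (by omega) Al Dm h
      have q1 : γ ^ (4 * r) ≤ (1 - ρ * c) ^ t :=
        n2.trans (pow_le_pow_of_le_one (by linarith) (by linarith) (by omega))
      have q0 : 0 < γ ^ (4 * r) := by positivity
      have q2 : γ ^ (4 * r) ≤ (1 + 2 * γ ^ 3) * (1 - ρ * c) ^ t := by
        linarith [mul_nonneg d0.le (q0.le.trans q1)]
      have q3 : γ ^ (4 * r) ≤ (1 - c) ^ t :=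
        q1.trans (pow_le_pow_left₀ (by linarith) (by linarith) _)
      have r0 : ∀ q, γ ^ (4 * r) ≤ q → ω / q ≤ γ ^ 16 := fun q hq => by
        rw [div_le_iff₀ (q0.trans_le hq), hω, pow_add, mul_comm]
        gcongr
      obtain ⟨ι, S, p, K, D, M⟩ := H.moves (Al := Al) (d := 7 * γ ^ 3 / 2) c0.le (q0.trans_le q2)
        (by positivity) (by
          have : (Al.card : ℝ) ≤ Ev.card := by exact_mod_cast card_le_card G.1
          linarith [mul_le_mul_of_nonneg_left this c0.le, mul_le_mul_of_nonneg_right R2 c0.le])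
        (r0 _ q2) fun e he => b1 e (G.1 he)
      have sX : ∀ x, |x| = θ → ∀ e ∈ Ev, ∑ i ∈ S, p i * Real.exp (x * X (t + 1) (Al \ K i) e) ≤
          Real.exp (x * X t Al e + c * γ) := fun x hx e he => by
        simp only [X, pow_succ _ t, ← mul_assoc]
        exact M.stepX H e hρ (q0.trans_le q2) c0.le (by positivity) c4
          (by rw [mul_div_assoc]; gcongr; exact r0 _ q2) (b1 e he).2 (t2 x hx).1 (t2 x hx).2.1
      have sY : ∀ f ∈ Fs, ∑ i ∈ S, p i * Real.exp (θ * Y (t + 1) (Al \ K i) f) ≤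
          Real.exp (θ * Y t Al f + c * γ) := fun f hf => by
        simp only [Y, pow_succ _ t, ← mul_assoc]
        refine M.stepY (Z f) (mul_pos (s0 f hf) (q0.trans_le q3)) c0.le c1 ?_ (b2 f hf).1
          (t2 θ a1).1 (t2 θ a1).2.2
        have := r0 _ q3
        rw [div_le_iff₀ (q0.trans_le q3)] at this
        rw [div_le_iff₀ (mul_pos (s0 f hf) (q0.trans_le q3)), mul_assoc]
        refine le_mul_of_one_le_right (by positivity) ?_
        linarith [mul_le_mul_of_nonneg_right this (s0 f hf).le, (hZ f hf).2.2]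
      have key : ∑ i ∈ S, p i * Φ (t + 1) (Al \ K i) (Dm ∪ D i) ≤ Φ t Al Dm := by
        simp only [Φ, mul_add, mul_sum, sum_add_distrib]
        refine add_le_add (add_le_add ?_ ?_) (add_le_add ?_ ?_) <;> rw [sum_comm] <;>
          refine sum_le_sum fun x hx => pot _ _ t ?_
        exacts [sX θ a1 x hx, sX (-θ) (by rw [abs_neg, a1]) x hx, sY x hx, M.stepN _ _ (by
          linarith [mul_le_mul_of_nonneg_right (hZ x hx).2.1 (mul_pos c0 d0).le])]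
      obtain ⟨i, hi, h4⟩ := exists_lt_of_sum_lt ((key.trans_lt h).trans_eq M.p1.symm)
      exact ⟨_, _, G.step M hi, lt_of_mul_lt_mul_left (by rwa [mul_one]) (M.p0 i hi)⟩
  obtain ⟨Al, Dm, ⟨-, M, m1, m2, -, m3⟩, h⟩ := main n le_rfl
  refine ⟨M, m1, m2, fun f hf => ?_⟩
  obtain ⟨b1, b2⟩ := (bd n le_rfl Al Dm h).2 f hf
  have e1 : ((Z f \ M.biUnion ed).card : ℝ) ≤ (Al ∩ Z f).card + (Z f ∩ Dm).card := by
    norm_cast
    refine le_trans (card_le_card fun e he => ?_) (card_union_le _ _)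
    have := m3 e ((hZ f hf).1 (mem_sdiff.1 he).1)
    simp only [mem_sdiff, mem_union, mem_inter] at he ⊢
    tauto
  have s1 := s0 f hf
  rw [div_le_iff₀ (mul_pos s1 (pow_pos (by linarith) _))] at b1
  have e2 : 4 / γ ≤ γ * s f / 5 := by
    rw [div_le_iff₀ g0]
    have e3 : γ ^ 4 * s f ≤ γ ^ 2 * (1 / 20) * s f := by
      rw [show γ ^ 4 = γ ^ 2 * γ ^ 2 by ring]
      gcongr
      linarith [gp 1]
    linarith [mul_le_mul_of_nonneg_right w3 s1.le, (hZ f hf).2.2]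
  linarith [mul_le_mul_of_nonneg_left n1 s1.le, mul_le_mul_of_nonneg_left g1 (mul_pos g0 s1).le]

end Pool.Agent.P.MP_3b9ee7_co.Q
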