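import Pool.Agent.P.MP_3b9ee7_co.Q.Base

/-! Weighted random greedy packing for uniform hypergraphs of small weighted codegree,
derandomised by exponential potentials. -/

namespace Pool.Agent.P.MP_3b9ee7_co.Q

open Finset
open Pool.Agent.P.MP_77d020_co.L (ind ind_pos ind_neg ind_nonneg ind_le_one ind_le ind_not ind_and
  ind_congr ind_mono card_filter_eq_sum_ind sum_filter_eq_sum_ind)

namespace RGP

theorem step_exp {ι : Type} (s : Finset ι) (p L : ι → ℝ) {x c h b θ k : ℝ}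
    (hp : ∀ i ∈ s, 0 ≤ p i) (h1 : ∑ i ∈ s, p i = 1) (hL : ∀ i ∈ s, 0 ≤ L i ∧ L i ≤ b)
    (b0 : 0 ≤ b) (hc : c ≤ 1 / 2) (hθ : 2 * |θ| * b ≤ 1)
    (lo : c * x - h ≤ ∑ i ∈ s, p i * L i) (hi : ∑ i ∈ s, p i * L i ≤ c * x)
    (hk : 2 * |θ| * h + 4 * θ ^ 2 * b * (c * x) ≤ k) :
    ∑ i ∈ s, p i * Real.exp (θ * ((x - L i) / (1 - c))) ≤ Real.exp (θ * x + k) := by
  have hc1 : 0 < 1 - c := by linarith
  obtain ⟨r, hr⟩ : ∃ r, r = θ / (1 - c) := ⟨_, rfl⟩
  have e0 : θ = r * (1 - c) := by rw [hr]; field_simp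
  have r2 : |r| ≤ 2 * |θ| := by
    rw [e0, abs_mul, abs_of_pos hc1]
    nlinarith [abs_nonneg r]
  have r3 : r ^ 2 ≤ 4 * θ ^ 2 := by
    rw [← sq_abs r, ← sq_abs θ]
    nlinarith [abs_nonneg r]
  have e1 : ∀ i ∈ s, p i * Real.exp (θ * ((x - L i) / (1 - c))) ≤
      Real.exp (r * x) * (p i + (r ^ 2 * b - r) * (p i * L i)) := by
    intro i hi
    obtain ⟨l0, l1⟩ := hL i hi
    have h2 : |-(r * L i)| ≤ 1 := by
      rw [abs_neg, abs_mul, abs_of_nonneg l0]
      exact le_trans (mul_le_mul r2 l1 l0 (by positivity)) hθ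
    have h3 := (abs_le.1 (Real.abs_exp_sub_one_sub_id_le h2)).2
    have h4 : θ * ((x - L i) / (1 - c)) = r * x + -(r * L i) := by
      rw [hr]
      field_simp
      ring
    have h5 : Real.exp (-(r * L i)) ≤ 1 + (r ^ 2 * b - r) * L i := by
      nlinarith [mul_le_mul_of_nonneg_left l1 (mul_nonneg (sq_nonneg r) l0)]
    rw [h4, Real.exp_add]
    have := mul_le_mul_of_nonneg_left h5 (mul_nonneg (Real.exp_pos (r * x)).le (hp i hi))
    linarith
  refine (sum_le_sum e1).trans ?_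
  rw [← mul_sum, sum_add_distrib, ← mul_sum, h1]
  have m0 : 0 ≤ ∑ i ∈ s, p i * L i := sum_nonneg fun i hi => mul_nonneg (hp i hi) (hL i hi).1
  generalize ∑ i ∈ s, p i * L i = m at *
  refine (mul_le_mul_of_nonneg_left (add_comm _ (1 : ℝ) ▸ Real.add_one_le_exp _)
    (Real.exp_pos _).le).trans ?_
  rw [← Real.exp_add, Real.exp_le_exp]
  have h6 : r * (c * x - m) ≤ 2 * |θ| * h :=
    (mul_le_mul_of_nonneg_right (le_abs_self r) (by linarith)).trans
      (mul_le_mul r2 (by linarith) (by linarith) (by positivity))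
  have h7 : r ^ 2 * b * m ≤ 4 * θ ^ 2 * b * (c * x) := by gcongr
  have h8 : θ * x = r * x - r * (c * x) := by rw [e0]; ring
  nlinarith

variable {E T : Type} [DecidableEq E] {Ev : Finset E} {Ts : Finset T} {ed : T → Finset E}
  {φ : T → ℝ} {ω : ℝ} {r : ℕ}

/-- The hypergraph. -/
structure Hy (Ev : Finset E) (Ts : Finset T) (ed : T → Finset E) (φ : T → ℝ) (ω : ℝ) (r : ℕ) :
    Prop where
  h : ∀ t ∈ Ts, ed t ⊆ Ev ∧ (ed t).card = r ∧ 0 ≤ φ t
  cod : ∀ a b, a ≠ b → ∑ t ∈ Ts, ind (a ∈ ed t ∧ b ∈ ed t) * φ t ≤ ω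
  pos : 0 ≤ ω
  r1 : 1 ≤ r

/-- The weight of the edges at `e` whose other vertices are alive. -/
noncomputable def W (Ts : Finset T) (ed : T → Finset E) (φ : T → ℝ) (Al : Finset E) (e : E) : ℝ :=
  ∑ t ∈ Ts, ind (e ∈ ed t ∧ (ed t).erase e ⊆ Al) * φ t

omit [DecidableEq E] in
theorem Hy.two (H : Hy Ev Ts ed φ ω r) {a b : E} (hab : a ≠ b) (P : T → Prop)
    (hP : ∀ t, P t → a ∈ ed t ∧ b ∈ ed t) : ∑ t ∈ Ts, ind (P t) * φ t ≤ ω :=
  (sum_le_sum fun t ht => mul_le_mul_of_nonneg_right (ind_mono (hP t)) (H.h t ht).2.2).trans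
    (H.cod a b hab)

/-- A distribution of moves: `K i` dies, `D i` dies without being covered. -/
structure Mv (Ts : Finset T) (ed : T → Finset E) (r : ℕ) (Al : Finset E) (c h d : ℝ) {ι : Type}
    (s : Finset ι) (p : ι → ℝ) (K D : ι → Finset E) : Prop where
  p0 : ∀ i ∈ s, 0 ≤ p i
  p1 : ∑ i ∈ s, p i = 1
  sub : ∀ i ∈ s, K i ⊆ Al
  k3 : ∀ i ∈ s, (K i).card ≤ r
  d1 : ∀ i ∈ s, (D i).card ≤ 1
  alt : ∀ i ∈ s, K i = D i ∨ ∃ t ∈ Ts, K i = ed t
  one : ∀ a ∈ Al, ∑ i ∈ s, p i * ind (a ∈ K i) = c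
  two : ∀ a b, a ≠ b → ∑ i ∈ s, p i * ind (a ∈ K i ∧ b ∈ K i) ≤ h
  dum : ∀ a, ∑ i ∈ s, p i * ind (a ∈ D i) ≤ d

theorem Hy.moves (H : Hy Ev Ts ed φ ω r) {Al : Finset E} {c Q d u : ℝ} (c0 : 0 ≤ c) (hQ : 0 < Q)
    (d0 : 0 ≤ d) (hc : c * Al.card ≤ 1) (hr : ω / Q ≤ u)
    (hX : ∀ e ∈ Al, 1 - d ≤ W Ts ed φ Al e / Q ∧ W Ts ed φ Al e / Q ≤ 1) :
    ∃ (ι : Type) (s : Finset ι) (p : ι → ℝ) (K D : ι → Finset E),
      Mv Ts ed r Al c (c * u) (c * d) s p K D := by
  classical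
  have key : ∀ a ∈ Al, ∑ t ∈ Ts.filter (fun t => ed t ⊆ Al), φ t * ind (a ∈ ed t)
      = W Ts ed φ Al a := by
    intro a ha
    rw [sum_filter_eq_sum_ind]
    refine sum_congr rfl fun t _ => ?_
    rw [mul_comm (φ t), ← mul_assoc, ← ind_and]
    congr 1
    refine ind_congr ⟨fun h => ⟨h.2, (erase_subset _ _).trans h.1⟩, fun h => ⟨?_, h.1⟩⟩
    rw [← insert_erase h.1]
    exact insert_subset ha h.2
  have sing : ∀ (f : E → ℝ) (a : E), ∑ e ∈ Al, f e * ind (a ∈ ({e} : Finset E))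
      = if a ∈ Al then f a else 0 := by
    intro f a
    rw [← sum_ite_eq]
    refine sum_congr rfl fun e _ => ?_
    by_cases h : a = e
    · rw [ind_pos (mem_singleton.2 h), if_pos h, mul_one]
    · rw [ind_neg (fun h1 => h (mem_singleton.1 h1)), if_neg h, mul_zero]
  refine ⟨Option (T ⊕ E), insertNone ((Ts.filter fun t => ed t ⊆ Al).disjSum Al),
    fun i => i.elim (1 - (∑ t ∈ Ts.filter (fun t => ed t ⊆ Al), c / Q * φ t +
      ∑ e ∈ Al, c * (1 - W Ts ed φ Al e / Q))) (Sum.elim (fun t => c / Q * φ t)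
        fun e => c * (1 - W Ts ed φ Al e / Q)),
    fun i => i.elim ∅ (Sum.elim ed fun e => {e}),
    fun i => i.elim ∅ (Sum.elim (fun _ => ∅) fun e => {e}), ?_, ?_, ?_, ?_, ?_, ?_, ?_, ?_, ?_⟩
  · rintro (_ | t | e) hi
    · have h1 : ∑ t ∈ Ts.filter (fun t => ed t ⊆ Al), φ t ≤ ∑ a ∈ Al, W Ts ed φ Al a := by
        rw [← sum_congr rfl key, sum_comm]
        refine sum_le_sum fun t ht => ?_
        obtain ⟨h1, h2⟩ := mem_filter.1 ht
        rw [← mul_sum, ← card_filter_eq_sum_ind, filter_mem_eq_inter, inter_eq_right.2 h2,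
          (H.h t h1).2.1]
        exact le_mul_of_one_le_right (H.h t h1).2.2 (by exact_mod_cast H.r1)
      have h2 : ∑ e ∈ Al, c * (1 - W Ts ed φ Al e / Q)
          = c * Al.card - c / Q * ∑ a ∈ Al, W Ts ed φ Al a := by
        rw [mul_sum, card_eq_sum_ones, Nat.cast_sum, mul_sum, ← sum_sub_distrib]
        exact sum_congr rfl fun e _ => by push_cast; ring
      have h3 := mul_le_mul_of_nonneg_left h1 (div_nonneg c0 hQ.le)
      simp only [Option.elim, ← mul_sum (a := c / Q), h2]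
      linarith
    · simp only [some_mem_insertNone, inl_mem_disjSum, mem_filter] at hi
      exact mul_nonneg (div_nonneg c0 hQ.le) (H.h t hi.1).2.2
    · simp only [some_mem_insertNone, inr_mem_disjSum] at hi
      exact mul_nonneg c0 (sub_nonneg.2 (hX e hi).2)
  · simp [sum_insertNone, sum_disjSum]
  · rintro (_ | t | e) hi <;> simp_all
  · rintro (_ | t | e) hi
    · simp
    · simp only [some_mem_insertNone, inl_mem_disjSum, mem_filter] at hi
      exact (H.h t hi.1).2.1.le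
    · simpa using H.r1
  · rintro (_ | t | e) hi <;> simp
  · rintro (_ | t | e) hi
    · exact Or.inl rfl
    · simp only [some_mem_insertNone, inl_mem_disjSum, mem_filter] at hi
      exact Or.inr ⟨t, hi.1, rfl⟩
    · exact Or.inl rfl
  · intro a ha
    simp only [sum_insertNone, sum_disjSum, Option.elim, Sum.elim_inl, Sum.elim_inr, sing,
      if_pos ha, mul_assoc, ← mul_sum, key a ha, ind_neg (notMem_empty a)]
    field_simp
    ring
  · intro a b hab
    simp only [sum_insertNone, sum_disjSum, Option.elim, Sum.elim_inl, Sum.elim_inr]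
    have h0 : ∀ e : E, ind (a ∈ ({e} : Finset E) ∧ b ∈ ({e} : Finset E)) = 0 := fun e =>
      ind_neg fun h => hab ((mem_singleton.1 h.1).trans (mem_singleton.1 h.2).symm)
    simp only [h0, ind_neg fun h : a ∈ (∅ : Finset E) ∧ b ∈ (∅ : Finset E) => notMem_empty a h.1,
      mul_zero, sum_const_zero, zero_add, add_zero]
    have := mul_le_mul_of_nonneg_left (H.two hab (fun t => ed t ⊆ Al ∧ a ∈ ed t ∧ b ∈ ed t)
      fun t h => h.2) (div_nonneg c0 hQ.le)
    rw [mul_sum, div_mul_comm, mul_comm] at this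
    rw [sum_filter_eq_sum_ind]
    refine le_trans (le_of_eq (sum_congr rfl fun t _ => ?_))
      (this.trans (mul_le_mul_of_nonneg_left hr c0))
    rw [ind_and (ed t ⊆ Al)]
    ring
  · intro a
    simp only [sum_insertNone, sum_disjSum, Option.elim, Sum.elim_inl, Sum.elim_inr, sing,
      ind_neg (notMem_empty a), mul_zero, sum_const_zero, zero_add]
    split_ifs with ha
    · exact mul_le_mul_of_nonneg_left (by linarith [(hX a ha).1]) c0
    · positivity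

variable {Al : Finset E} {c h d : ℝ} {ι : Type} {s : Finset ι} {p : ι → ℝ} {K D : ι → Finset E}

theorem card_ind (Z K : Finset E) : ((Z ∩ K).card : ℝ) = ∑ a ∈ Z, ind (a ∈ K) := by
  rw [← card_filter_eq_sum_ind, filter_mem_eq_inter]

theorem Mv.bonf (M : Mv Ts ed r Al c h d s p K D) (h0 : 0 ≤ h) (S : Finset E) (hS : S ⊆ Al) :
    S.card * c - S.card ^ 2 * h ≤ ∑ i ∈ s, p i * ind (∃ a ∈ S, a ∈ K i) ∧
      ∑ i ∈ s, p i * ind (∃ a ∈ S, a ∈ K i) ≤ S.card * c := by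
  induction S using Finset.induction_on with
  | empty => simp [ind]
  | insert a S ha ih =>
    obtain ⟨i1, i2⟩ := ih ((subset_insert _ _).trans hS)
    have e1 : ∑ i ∈ s, p i * ind (∃ x ∈ insert a S, x ∈ K i) = ∑ i ∈ s, p i * ind (a ∈ K i)
        + ∑ i ∈ s, p i * ind (∃ x ∈ S, x ∈ K i)
        - ∑ i ∈ s, p i * ind (a ∈ K i ∧ ∃ x ∈ S, x ∈ K i) := by
      rw [← sum_add_distrib, ← sum_sub_distrib]
      refine sum_congr rfl fun i _ => ?_
      rw [ind_congr (exists_mem_insert a S _)]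
      by_cases h1 : a ∈ K i <;> by_cases h2 : ∃ x ∈ S, x ∈ K i <;> simp [ind, h1, h2]
    have e2 : 0 ≤ ∑ i ∈ s, p i * ind (a ∈ K i ∧ ∃ x ∈ S, x ∈ K i) :=
      sum_nonneg fun i hi => mul_nonneg (M.p0 i hi) (ind_nonneg _)
    have e3 : ∑ i ∈ s, p i * ind (a ∈ K i ∧ ∃ x ∈ S, x ∈ K i) ≤ S.card * h :=
      calc _ ≤ ∑ i ∈ s, ∑ x ∈ S, p i * ind (a ∈ K i ∧ x ∈ K i) := by
            refine sum_le_sum fun i hi => ?_
            rw [← mul_sum]
            refine mul_le_mul_of_nonneg_left (ind_le (sum_nonneg fun _ _ => ind_nonneg _) ?_)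
              (M.p0 i hi)
            rintro ⟨h1, x, h2, h3⟩
            exact le_trans (ind_pos ⟨h1, h3⟩).ge
              (single_le_sum (f := fun x => ind (a ∈ K i ∧ x ∈ K i)) (fun _ _ => ind_nonneg _) h2)
        _ ≤ ∑ x ∈ S, h := by
            rw [sum_comm]
            exact sum_le_sum fun x hx => M.two a x fun e => ha (e ▸ hx)
        _ = _ := by rw [sum_const, nsmul_eq_mul]
    rw [e1, M.one a (hS (mem_insert_self _ _)), card_insert_of_notMem ha]
    push_cast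
    constructor <;> nlinarith [mul_nonneg (Nat.cast_nonneg (α := ℝ) S.card) h0]

theorem Mv.stepX (M : Mv Ts ed r Al c h d s p K D) (H : Hy Ev Ts ed φ ω r) (e : E)
    {Q b θ k ρ : ℝ} (hρ : ρ + 1 = r) (hQ : 0 < Q) (c0 : 0 ≤ c) (h0 : 0 ≤ h) (hc : ρ * c ≤ 1 / 2)
    (hb : r * ω / Q ≤ b) (hX : W Ts ed φ Al e / Q ≤ 1) (hθ : 2 * |θ| * b ≤ 1)
    (hk : 2 * |θ| * (ρ ^ 2 * h) + 4 * θ ^ 2 * b * (ρ * c) ≤ k) :
    ∑ i ∈ s, p i * Real.exp (θ * (W Ts ed φ (Al \ K i) e / (Q * (1 - ρ * c)))) ≤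
      Real.exp (θ * (W Ts ed φ Al e / Q) + k) := by
  let L : ι → ℝ := fun i => ∑ t ∈ Ts, ind (e ∈ ed t ∧ (ed t).erase e ⊆ Al) * φ t *
    ind (∃ a ∈ (ed t).erase e, a ∈ K i)
  have e1 : ∀ i, W Ts ed φ (Al \ K i) e = W Ts ed φ Al e - L i := by
    intro i
    simp only [W, L, ← sum_sub_distrib]
    refine sum_congr rfl fun t _ => ?_
    rw [← mul_one_sub, ← ind_not, mul_right_comm, ← ind_and]
    congr 1
    refine ind_congr ?_
    simp only [subset_sdiff, disjoint_left, and_assoc, not_exists, not_and]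
  have e2 : ∑ i ∈ s, p i * (L i / Q) = (∑ t ∈ Ts, ind (e ∈ ed t ∧ (ed t).erase e ⊆ Al) * φ t *
      ∑ i ∈ s, p i * ind (∃ a ∈ (ed t).erase e, a ∈ K i)) / Q := by
    simp only [L, mul_sum, sum_div]
    rw [sum_comm]
    exact sum_congr rfl fun t _ => sum_congr rfl fun i _ => by ring
  have e3 : ∀ t ∈ Ts, e ∈ ed t ∧ (ed t).erase e ⊆ Al →
      ρ * c - ρ ^ 2 * h ≤ ∑ i ∈ s, p i * ind (∃ a ∈ (ed t).erase e, a ∈ K i) ∧
      ∑ i ∈ s, p i * ind (∃ a ∈ (ed t).erase e, a ∈ K i) ≤ ρ * c := by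
    intro t ht h1
    have h2 : (((ed t).erase e).card : ℝ) = ρ := by
      have := card_erase_add_one h1.1
      rw [(H.h t ht).2.1] at this
      rw [← this] at hρ
      push_cast at hρ
      linarith
    exact h2 ▸ M.bonf h0 _ h1.2
  have ρ0 : 0 ≤ ρ := by
    have : (1 : ℝ) ≤ r := by exact_mod_cast H.r1
    linarith
  have e4 : ∀ (u : ℝ) (f : T → ℝ), (∀ t ∈ Ts, e ∈ ed t ∧ (ed t).erase e ⊆ Al → f t ≤ u) →
      ∑ t ∈ Ts, ind (e ∈ ed t ∧ (ed t).erase e ⊆ Al) * φ t * f t ≤ W Ts ed φ Al e * u := by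
    intro u f hf
    rw [W, sum_mul]
    refine sum_le_sum fun t ht => ?_
    by_cases h1 : e ∈ ed t ∧ (ed t).erase e ⊆ Al
    · exact mul_le_mul_of_nonneg_left (hf t ht h1) (mul_nonneg (ind_nonneg _) (H.h t ht).2.2)
    · simp [ind_neg h1]
  have w0 := H.pos
  have b0 : 0 ≤ b := le_trans (by positivity) hb
  have := step_exp s p (fun i => L i / Q) (x := W Ts ed φ Al e / Q) (c := ρ * c) (h := ρ ^ 2 * h)
    (b := b) (θ := θ) (k := k) M.p0 M.p1 (fun i hi => ⟨div_nonneg (sum_nonneg fun t ht =>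
      mul_nonneg (mul_nonneg (ind_nonneg _) (H.h t ht).2.2) (ind_nonneg _)) hQ.le,
      le_trans ?_ hb⟩) b0 hc hθ ?_ ?_ (le_trans (add_le_add le_rfl
        (mul_le_mul_of_nonneg_left (mul_le_of_le_one_right (by positivity) hX) (by positivity))) hk)
  · refine le_trans (le_of_eq (sum_congr rfl fun i _ => ?_)) this
    rw [e1, ← sub_div, div_div]
  · refine div_le_div_of_nonneg_right ?_ hQ.le
    calc L i ≤ ∑ t ∈ Ts, ∑ a ∈ K i, ind (e ∈ ed t ∧ a ∈ (ed t).erase e) * φ t := by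
          refine sum_le_sum fun t ht => ?_
          rw [← sum_mul, mul_right_comm, ← ind_and]
          refine mul_le_mul_of_nonneg_right (ind_le (sum_nonneg fun _ _ => ind_nonneg _) ?_)
            (H.h t ht).2.2
          rintro ⟨h1, a, h2, h3⟩
          exact le_trans (ind_pos ⟨h1.1, h2⟩).ge
            (single_le_sum (f := fun a => ind (e ∈ ed t ∧ a ∈ (ed t).erase e))
              (fun _ _ => ind_nonneg _) h3)
      _ ≤ ∑ a ∈ K i, ω := by
          rw [sum_comm]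
          refine sum_le_sum fun a _ => ?_
          by_cases ha : e = a
          · simpa [ha, ind] using w0
          · exact H.two ha _ fun t h => ⟨h.1, mem_of_mem_erase h.2⟩
      _ ≤ r * ω := by
          rw [sum_const, nsmul_eq_mul]
          exact mul_le_mul_of_nonneg_right (by exact_mod_cast M.k3 i hi) w0
  · have h1 := e4 (-(ρ * c - ρ ^ 2 * h)) (fun t => -∑ i ∈ s, p i * ind (∃ a ∈ (ed t).erase e, a ∈ K i))
      fun t ht h1 => neg_le_neg (e3 t ht h1).1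
    simp only [mul_neg, sum_neg_distrib, neg_le_neg_iff] at h1
    refine le_trans ?_ (e2 ▸ div_le_div_of_nonneg_right h1 hQ.le)
    rw [mul_div_right_comm]
    nlinarith [mul_le_mul_of_nonneg_right hX (mul_nonneg (sq_nonneg ρ) h0)]
  · rw [e2, mul_comm (ρ * c), ← mul_div_right_comm]
    exact div_le_div_of_nonneg_right (e4 _ _ fun t ht h1 => (e3 t ht h1).2) hQ.le

theorem Mv.stepY (M : Mv Ts ed r Al c h d s p K D) (Z : Finset E) {R b θ k : ℝ} (hR : 0 < R)
    (c0 : 0 ≤ c) (hc : c ≤ 1 / 4) (hb : r / R ≤ b) (hY : ((Al ∩ Z).card : ℝ) / R ≤ 2)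
    (hθ : 2 * |θ| * b ≤ 1) (hk : 4 * θ ^ 2 * b * (2 * c) ≤ k) :
    ∑ i ∈ s, p i * Real.exp (θ * ((((Al \ K i) ∩ Z).card : ℝ) / (R * (1 - c)))) ≤
      Real.exp (θ * ((Al ∩ Z).card / R) + k) := by
  have b0 : 0 ≤ b := le_trans (by positivity) hb
  have e2 : ∑ i ∈ s, p i * (((Al ∩ Z ∩ K i).card : ℝ) / R) = c * ((Al ∩ Z).card / R) := by
    simp only [card_ind (Al ∩ Z), ← mul_div_assoc, ← sum_div, mul_sum]
    rw [sum_comm, sum_congr rfl fun a ha => M.one a (mem_inter.1 ha).1, sum_const, nsmul_eq_mul,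
      mul_comm]
  have := step_exp s p (fun i => ((Al ∩ Z ∩ K i).card : ℝ) / R) (x := (Al ∩ Z).card / R) (c := c)
    (h := 0) (b := b) (θ := θ) (k := k) M.p0 M.p1 (fun i hi => ⟨by positivity, le_trans ?_ hb⟩)
    b0 (by linarith) hθ (by rw [e2, sub_zero]) e2.le (le_trans (by
      rw [mul_zero, zero_add, mul_comm 2 c]
      gcongr) hk)
  · refine le_trans (le_of_eq (sum_congr rfl fun i _ => ?_)) this
    rw [← sub_div, div_div, ← card_sdiff_add_card_inter (Al ∩ Z) (K i), inter_comm (Al \ K i),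
      ← inter_sdiff_assoc, inter_comm Z]
    push_cast
    rw [add_sub_cancel_right]
  · exact div_le_div_of_nonneg_right
      (by exact_mod_cast (card_le_card inter_subset_right).trans (M.k3 i hi)) hR.le

theorem Mv.stepN (M : Mv Ts ed r Al c h d s p K D) (Z Dm : Finset E) {k : ℝ}
    (hk : 2 * (Z.card * d) ≤ k) :
    ∑ i ∈ s, p i * Real.exp ((Z ∩ (Dm ∪ D i)).card) ≤ Real.exp ((Z ∩ Dm).card + k) := by
  have e1 : ∀ i ∈ s, p i * Real.exp ((Z ∩ (Dm ∪ D i)).card) ≤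
      Real.exp ((Z ∩ Dm).card) * (p i + 2 * ∑ a ∈ Z, p i * ind (a ∈ D i)) := by
    intro i hi
    have h1 : ((Z ∩ (Dm ∪ D i)).card : ℝ) ≤ (Z ∩ Dm).card + (Z ∩ D i).card := by
      rw [inter_union_distrib_left]
      exact_mod_cast card_union_le _ _
    have h2 : Real.exp ((Z ∩ D i).card) ≤ 1 + 2 * (Z ∩ D i).card := by
      have h3 := (card_le_card (inter_subset_right (s₁ := Z))).trans (M.d1 i hi)
      interval_cases (Z ∩ D i).card
      · simp
      · have := Real.exp_one_lt_d9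
        push_cast
        linarith
    have h4 := (Real.exp_le_exp.2 h1).trans (Real.exp_add _ _ ▸
      mul_le_mul_of_nonneg_left h2 (Real.exp_pos ((Z ∩ Dm).card : ℝ)).le)
    rw [← mul_sum, ← card_ind]
    nlinarith [mul_le_mul_of_nonneg_left h4 (M.p0 i hi)]
  refine (sum_le_sum e1).trans ?_
  rw [← mul_sum, sum_add_distrib, M.p1, ← mul_sum, sum_comm, Real.exp_add]
  refine mul_le_mul_of_nonneg_left (le_trans ?_ (Real.add_one_le_exp k)) (Real.exp_pos _).le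
  have := sum_le_sum fun a (_ : a ∈ Z) => M.dum a
  rw [sum_const, nsmul_eq_mul] at this
  linarith

theorem pot (g : ι → ℝ) {x k : ℝ} (u : ℝ) (t : ℕ)
    (h : ∑ i ∈ s, p i * Real.exp (g i) ≤ Real.exp (x + k)) :
    ∑ i ∈ s, p i * Real.exp (g i + (u - k * (t + 1 : ℕ))) ≤ Real.exp (x + (u - k * t)) := by
  simp only [Real.exp_add (g _), ← mul_assoc, ← sum_mul]
  refine (mul_le_mul_of_nonneg_right h (Real.exp_pos _).le).trans (le_of_eq ?_)
  rw [← Real.exp_add]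
  congr 1
  push_cast
  ring

theorem par {γ c ρ : ℝ} (h0 : 0 < γ) (h1 : γ ≤ 1 / 100) (c0 : 0 < c) (hρ : ρ + 1 = r)
    (r2 : 1 ≤ ρ) (hc : 2 * r * c ≤ 1) :
    ∃ n : ℕ, (1 - c) ^ n ≤ γ / 4 ∧ γ ^ (4 * r) ≤ (1 - ρ * c) ^ n ∧ c * n ≤ 4 / γ := by
  classical
  have c4 : c ≤ 1 / 4 := by nlinarith
  have ex : ∃ n : ℕ, (1 - c) ^ n ≤ γ / 4 :=
    (exists_pow_lt_of_lt_one (by positivity) (by linarith)).imp fun _ => le_of_lt
  obtain ⟨m, hm⟩ := Nat.exists_eq_succ_of_ne_zero (n := Nat.find ex) fun e => by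
    have := Nat.find_spec ex
    rw [e, pow_zero] at this
    linarith
  have h2 : γ / 4 < (1 - c) ^ m := not_le.1 (Nat.find_min ex (by omega))
  refine ⟨m + 1, by simpa [hm] using Nat.find_spec ex, ?_, ?_⟩
  · have h3 : γ ^ 2 ≤ (1 - c) ^ (m + 1) := by
      rw [pow_succ (1 - c)]
      nlinarith
    have h4 : (1 - c) ^ (2 * r) ≤ 1 - ρ * c := by
      have h5 := one_add_mul_le_pow (show (-2 : ℝ) ≤ c by linarith) (2 * r)
      have h6 : (1 - c) ^ (2 * r) * (1 + c) ^ (2 * r) ≤ 1 := by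
        rw [← mul_pow]
        exact pow_le_one₀ (by nlinarith) (by nlinarith)
      have h7 := (mul_le_mul_of_nonneg_left h5 (pow_nonneg (by linarith) (2 * r))).trans h6
      push_cast at h7
      rw [← hρ] at h7 hc
      refine le_of_mul_le_mul_right (h7.trans ?_) (by positivity)
      nlinarith [mul_le_mul_of_nonneg_right hc (show 0 ≤ ρ * c by positivity)]
    calc γ ^ (4 * r) = (γ ^ 2) ^ (2 * r) := by ring
      _ ≤ ((1 - c) ^ (m + 1)) ^ (2 * r) := by gcongr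
      _ = ((1 - c) ^ (2 * r)) ^ (m + 1) := by rw [← pow_mul, ← pow_mul, mul_comm]
      _ ≤ (1 - ρ * c) ^ (m + 1) := pow_le_pow_left₀ (pow_nonneg (by linarith) _) h4 _
  · have h3 := one_add_mul_le_pow (show (-2 : ℝ) ≤ c by linarith) m
    have h4 : (1 - c) ^ m * (1 + c) ^ m ≤ 1 := by
      rw [← mul_pow]
      exact pow_le_one₀ (by nlinarith) (by nlinarith)
    have h5 : γ / 4 * (1 + m * c) ≤ 1 :=
      (mul_le_mul h2.le h3 (by positivity) (pow_nonneg (by linarith) _)).trans h4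
    rw [le_div_iff₀ h0]
    push_cast
    nlinarith

/-- The state comes from a matching. -/
def Good (Ev : Finset E) (Ts : Finset T) (ed : T → Finset E) (Al Dm : Finset E) : Prop :=
  Al ⊆ Ev ∧ ∃ M ⊆ Ts, (∀ t ∈ M, ∀ t' ∈ M, t ≠ t' → Disjoint (ed t) (ed t')) ∧
    (∀ t ∈ M, Disjoint (ed t) Al) ∧ ∀ e ∈ Ev, e ∈ Al ∨ e ∈ Dm ∨ e ∈ M.biUnion ed

theorem Good.step {Dm : Finset E} (G : Good Ev Ts ed Al Dm) (M : Mv Ts ed r Al c h d s p K D)
    {i : ι} (hi : i ∈ s) : Good Ev Ts ed (Al \ K i) (Dm ∪ D i) := by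
  classical
  obtain ⟨h1, N, h2, h3, h4, h5⟩ := G
  refine ⟨sdiff_subset.trans h1, ?_⟩
  rcases M.alt i hi with h6 | ⟨t, ht, h6⟩
  · refine ⟨N, h2, h3, fun t ht => (h4 t ht).mono_right sdiff_subset, fun e he => ?_⟩
    have := h5 e he
    simp only [h6, mem_sdiff, mem_union]
    tauto
  · have h7 : ∀ u ∈ N, Disjoint (ed u) (ed t) := fun u hu =>
      (h4 u hu).mono_right (h6 ▸ M.sub i hi)
    refine ⟨insert t N, insert_subset ht h2, fun u hu v hv huv => ?_, fun u hu => ?_,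
      fun e he => ?_⟩
    · rcases mem_insert.1 hu with rfl | hu' <;> rcases mem_insert.1 hv with rfl | hv'
      exacts [absurd rfl huv, (h7 v hv').symm, h7 u hu', h3 u hu' v hv' huv]
    · rcases mem_insert.1 hu with rfl | hu
      exacts [h6 ▸ disjoint_sdiff, (h4 u hu).mono_right sdiff_subset]
    · have := h5 e he
      simp only [h6, mem_sdiff, mem_union, biUnion_insert]
      tauto

end RGP

end Pool.Agent.P.MP_3b9ee7_co.Q
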