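import Pool.Agent.P.MP_3b9ee7_co.Q.Defs

/-! Statements of the packages. -/

namespace Pool.Agent.P.MP_3b9ee7_co.Q

open Finset Module
open Pool.Agent.P.MP_77d020_co.L (ind fs cnt)

/-! ### Abstract hypergraphs -/

def S_RG : Prop :=
  ∀ r : ℕ, ∃ (a : ℕ) (γ0 : ℝ), 1 ≤ a ∧ 0 < γ0 ∧
    ∀ (V E F : Type) [DecidableEq V] (Vs : Finset V) (Es : Finset E) (Fs : Finset F)
      (ed : E → Finset V) (φ : E → ℝ) (Z : F → Finset V) (s : F → ℝ) (γ : ℝ),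
      2 ≤ r → 0 < γ → γ ≤ γ0 →
      (∀ e ∈ Es, ed e ⊆ Vs ∧ (ed e).card = r ∧ 0 ≤ φ e) →
      (∀ v v', v ≠ v' → ∑ e ∈ Es, ind (v ∈ ed e ∧ v' ∈ ed e) * φ e ≤ γ ^ a) →
      (∀ v ∈ Vs, |∑ e ∈ Es, ind (v ∈ ed e) * φ e - 1| ≤ γ ^ a) →
      (Vs.card : ℝ) ≤ Real.exp (1 / γ) → (Fs.card : ℝ) ≤ Real.exp (1 / γ) →
      (∀ f ∈ Fs, Z f ⊆ Vs ∧ ((Z f).card : ℝ) ≤ s f ∧ 1 ≤ γ ^ a * s f) →
      ∃ M ⊆ Es, (∀ e ∈ M, ∀ e' ∈ M, e ≠ e' → Disjoint (ed e) (ed e')) ∧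
        ∀ f ∈ Fs, ((Z f \ M.biUnion ed).card : ℝ) ≤ γ * s f

def S_Res : Prop :=
  ∀ (V E T F : Type) [Fintype V] [Fintype E] [Fintype T] [Fintype F] [DecidableEq V]
    (H : HS V E T) (Y : F → Finset V) (sz : F → ℝ) (ε ξ : ℝ), H.Ok →
    0 < ε → ε ≤ 1 → 0 < ξ → ξ ≤ 1 → (Fintype.card F : ℝ) ≤ Real.exp (2 * H.lg) →
    (∀ f, ((Y f).card : ℝ) ≤ sz f ∧ 100 * H.lg ≤ ξ ^ 2 * sz f) →
    200 * H.C0 ^ 2 * H.lg ≤ ε ^ H.r * H.m →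
    ∃ X : Finset V, (∀ f, |((Y f ∩ X).card : ℝ) - ε * (Y f).card| ≤ ξ * sz f) ∧
      ∀ v, ε ^ H.r * H.D / 4 ≤ cnt fun e => v ∈ H.ed e ∧ (H.ed e).erase v ⊆ X

def S_Emb : Prop :=
  ∀ (V E T I O : Type) [Fintype V] [Fintype E] [Fintype T] [DecidableEq V] (H : HS V E T)
    (Is : Finset I) (val : I → O → Prop) (new : I → O → Finset V) (old : I → Finset V)
    (U0 : Finset V) (τ β ε0 ε : ℝ), H.Ok → Nonempty O → 0 < β → H.lg ≤ ε * H.m →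
    H.Sp U0 ε0 → ε0 + 5 * β * ε ≤ τ → (∀ i ∈ Is, (old i).Nonempty) → H.Ld Is old ε →
    (∀ i ∈ Is, ∀ o, val i o → ((new i o).card : ℝ) ≤ β) →
    (∀ i ∈ Is, H.Opts (val i) (new i) (old i) τ β) →
    ∃ ch : I → O, (∀ i ∈ Is, val i (ch i) ∧ Disjoint (new i (ch i)) U0) ∧
      (∀ i ∈ Is, ∀ i' ∈ Is, i ≠ i' → Disjoint (new i (ch i)) (new i' (ch i'))) ∧
      H.Ld Is (fun i => new i (ch i)) (5 * β * ε)

def S_Ch : Prop :=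
  ∀ (V E T I : Type) [Fintype V] [Fintype E] [Fintype T] [DecidableEq V] (H : HS V E T)
    (Is : Finset I) (vx : I → V) (ε : ℝ), H.Ok → H.lg ≤ ε * H.m →
    H.Ld Is (fun i => {vx i}) ε →
    ∃ ch : I → E, (∀ i ∈ Is, vx i ∈ H.ed (ch i)) ∧
      H.Ld Is (fun i => H.ed (ch i)) (5 * H.C0 * ε)

def S_Cover : Prop :=
  ∀ (V E T : Type) [Fintype V] [Fintype E] [Fintype T] [DecidableEq V] (H : HS V E T)
    (X Lf : Finset V) (κ γ : ℝ), H.Ok → 0 < κ → κ ≤ 1 → H.lg ≤ γ * H.m →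
    20 * H.C0 ^ 2 * γ ≤ κ ^ 2 → Disjoint Lf X → H.Sp Lf γ →
    (∀ v, κ * H.D ≤ cnt fun e => v ∈ H.ed e ∧ (H.ed e).erase v ⊆ X) →
    ∃ Us ⊆ X, PM H.ed (Lf ∪ Us)

def S_Conc : Prop :=
  ∀ (ι : Type) (s : Finset ι) (m : ℕ), ∃ (Sk Rl : Finset ℕ) (Ad : Finset (ℕ × (ι ⊕ ℕ))),
    (Sk.card : ℝ) ≤ 20 * s.card * (1 + Real.log s.card) ∧
    (∀ x ∈ Ad, x.1 ∈ Sk ∧ x.2 ∈ s.disjSum Rl) ∧
    (∀ j, ∑ x ∈ Ad, ind (x.1 = j) ≤ 3) ∧ (∀ u, ∑ x ∈ Ad, ind (x.2 = u) ≤ 3) ∧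
    ∀ I ⊆ s, I.card = m → ∃ μ : ℕ → ι ⊕ ℕ,
      Set.BijOn μ (Sk : Set ℕ) (I.disjSum Rl : Finset (ι ⊕ ℕ)) ∧ ∀ j ∈ Sk, (j, μ j) ∈ Ad

def S_CLSys : Prop :=
  ∀ (V E T : Type) [Fintype V] [Fintype E] [Fintype T] [DecidableEq V] (H : HS V E T)
    (X : Finset V) (K : E → ℕ) (ε : ℝ), H.Ok → ε ≤ 1 → H.lg ≤ ε * H.m → H.Sp X ε → H.LdK K ε →
    ∃ (Sw Lb : Type) (Ss : Finset Sw) (rt : Sw → E) (lab : Sw → V → Lb) (l0 : Lb),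
      H.CL X Ss rt lab l0 (5000 * H.C0 * H.lg * ε) ∧
      ∀ L ⊆ X, ∀ a : E → ℤ, (∀ e, |a e| ≤ K e) → bd H.ed a = one L → CLOn H.ed Ss rt lab l0 L

def S_Glue : Prop :=
  ∀ (V E Sw Lb : Type) [Fintype E] [DecidableEq V] [DecidableEq Sw] (ed : E → Finset V)
    (Ss : Finset Sw) (rt : Sw → E) (lab : Sw → V → Lb) (l0 : Lb) (W : Sw → Finset V)
    (g : Sw → V → E) (hub : V → Lb → Sw) (Hs : Finset (Sw × V)) (Wh : Sw × V → Finset V)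
    (L : Finset V),
    (∀ s ∈ Ss, SwV ed (rt s) (W s) (g s)) →
    (∀ s ∈ Ss, ∀ v ∈ ed (rt s), hub v (lab s v) ∈ Ss ∧ v ∈ ed (rt (hub v (lab s v))) ∧
      lab (hub v (lab s v)) v = lab s v) →
    (∀ s v, (s, v) ∈ Hs ↔ s ∈ Ss ∧ v ∈ ed (rt s) ∧ s ≠ hub v (lab s v)) →
    (∀ x ∈ Hs, HiV ed (g x.1 x.2) (g (hub x.2 (lab x.1 x.2)) x.2) x.2 (Wh x)) →
    (∀ s ∈ Ss, ∀ s' ∈ Ss, s ≠ s' → Disjoint (W s) (W s')) →
    (∀ x ∈ Hs, ∀ x' ∈ Hs, x ≠ x' → Disjoint (Wh x) (Wh x')) →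
    (∀ x ∈ Hs, ∀ s ∈ Ss, Disjoint (Wh x) (W s)) →
    (∀ s ∈ Ss, Disjoint (W s) L) → (∀ x ∈ Hs, Disjoint (Wh x) L) →
    (∀ v ∈ L, ∃ s ∈ Ss, v ∈ ed (rt s) ∧ lab s v = l0) → CLOn ed Ss rt lab l0 L →
    PM ed (Ss.biUnion W ∪ Hs.biUnion Wh ∪ L)

def S_CLReal : Prop :=
  ∀ (V E T Sw Lb : Type) [Fintype V] [Fintype E] [Fintype T] [DecidableEq V] (H : HS V E T)
    (X : Finset V) (Ss : Finset Sw) (rt : Sw → E) (lab : Sw → V → Lb) (l0 : Lb) (ε : ℝ),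
    H.Ok → H.Seg → H.lg ≤ ε * H.m → 200 * H.C0 ^ 3 * ε ≤ 1 → H.Sp X ε →
    H.CL X Ss rt lab l0 ε →
    ∃ A : Finset V, Disjoint A X ∧ H.Sp A (200 * H.C0 ^ 2 * ε) ∧
      ∀ L ⊆ X, CLOn H.ed Ss rt lab l0 L → PM H.ed (A ∪ L)

/-! ### Designs with colours -/

def S_DesMk : Prop :=
  ∀ (Pt Bl : Type) [Fintype Pt] [Fintype Bl] [DecidableEq Pt] (pts : Bl → Finset Pt) (θ : ℕ),
    Two pts → (∀ B, (pts B).card = θ) → 2 ≤ θ → 2 * θ ≤ Fintype.card Pt →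
    ∃ D lam : ℕ, Des pts θ D lam

def S_Base : Prop :=
  ∀ (Pt Bl C : Type) [Fintype Pt] [Fintype Bl] [Fintype C] [DecidableEq Pt] [DecidableEq Bl]
    [DecidableEq C] (pts : Bl → Finset Pt) (θ lam : ℕ) (lg C0 : ℝ),
    Des pts θ (Fintype.card C) lam → Fintype.card Pt ≤ Fintype.card C → 4 * (θ : ℝ) + 2 ≤ C0 →
    1 ≤ lg → 2 * (Fintype.card C : ℝ) * Fintype.card Pt ≤ Real.exp lg → (dsys C pts θ lg C0).Ok

def S_Boost : Prop :=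
  ∀ (Pt Bl C : Type) [Fintype Pt] [Fintype Bl] [Fintype C] [DecidableEq Pt] [DecidableEq Bl]
    [DecidableEq C] (pts : Bl → Finset Pt) (θ lam : ℕ) (lg C0 τ ξ : ℝ)
    (U : Finset (Bl ⊕ Pt × C)), Des pts θ (Fintype.card C) lam → (dsys C pts θ lg C0).Ok →
    0 < ξ → ξ ≤ τ → 100 * C0 ^ 2 * τ ≤ 1 → (dsys C pts θ lg C0).Sp U τ →
    (∀ p, |cnt (fun B => p ∈ pts B ∧ Sum.inl B ∈ U) - cnt (fun c => Sum.inr (p, c) ∈ U)| ≤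
      ξ * Fintype.card C) →
    ∃ φ : Bl × C → ℝ, (∀ e, 0 ≤ φ e ∧ φ e ≤ 2 / Fintype.card C) ∧
      (∀ e, φ e ≠ 0 → Disjoint (edg pts e) U) ∧
      ∀ v, v ∉ U → |∑ e, ind (v ∈ edg pts e) * φ e - 1| ≤ 3 * ξ

def S_GenAvg : Prop :=
  ∀ (Pt Bl : Type) [Fintype Pt] [Fintype Bl] [DecidableEq Pt] (pts : Bl → Finset Pt) (θ : ℕ)
    (c h : ℝ) (G : Pt → Finset Bl) (Co : Finset Bl), Two pts → (∀ B, (pts B).card = θ) →
    1 ≤ θ → 1 ≤ c → 2 ≤ Fintype.card Pt → Rel pts c h G Co → Gen pts (2 * θ * c) h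

def S_GenCh : Prop :=
  ∀ (Pt Bl I : Type) [Fintype Pt] [Fintype Bl] [DecidableEq Pt] (pts : Bl → Finset Pt)
    (c h lg b : ℝ) (Is : Finset I) (y : I → Pt → ℝ) (w : I → ℝ), Gen pts c h → 0 < b →
    (Fintype.card Pt : ℝ) ≤ Real.exp lg → (∀ i ∈ Is, (∀ p, 0 ≤ y i p) ∧ 0 ≤ w i) →
    (∀ i ∈ Is, c * ∑ p, y i p + w i * h ≤ b) →
    ∃ (G : I → Pt → Finset Bl) (Co : I → Finset Bl), (∀ i ∈ Is, Rel pts c h (G i) (Co i)) ∧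
      ∀ x, ∑ i ∈ Is, (∑ p, y i p * thru pts (G i p) x + w i * thru pts (Co i) x) ≤
        1.45 * (c * ∑ i ∈ Is, (y i x + (∑ p, y i p + w i * h) / Fintype.card Pt) + b * lg)

def S_SupA : Prop :=
  ∀ (Pt Bl C : Type) [Fintype Pt] [Fintype Bl] [Fintype C] [DecidableEq Pt] [DecidableEq Bl]
    [DecidableEq C] (pts : Bl → Finset Pt) (J : ℕ) (grp : C → ℕ) (col : ℕ → Pt → C)
    (cst : ℕ → C) (κ : Bl → C) (G1 G2 : ℕ → Pt → Finset Bl) (Co1 Co2 : ℕ → Finset Bl)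
    (Y : C → Finset Pt) (S0 S : Finset (Bl × C)) (L : Finset (Bl ⊕ Pt × C)),
    (∀ c, grp c < J) → (∀ j < J, grp (cst j) = j ∧ ∀ p, grp (col j p) = j) →
    (∀ j < J, RelA pts (G1 j) (Co1 j) ∧ RelA pts (G2 j) (Co2 j)) →
    (∀ B, Sum.inl B ∈ L → (B, κ B) ∈ S0) →
    (∀ j < J, ∀ p, ∀ B ∈ G1 j p, (B, col j p) ∈ S0 ∧ (j + 1 < J → (B, col (j + 1) p) ∈ S0)) →
    (∀ j < J, ∀ B ∈ Co1 j, (B, cst j) ∈ S0 ∧ (j + 1 < J → (B, cst (j + 1)) ∈ S0)) →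
    (∀ p c, Sum.inr (p, c) ∈ L → p ∈ Y c) → (∀ e ∈ S0, pts e.1 ⊆ Y e.2) → S0 ⊆ S →
    (∀ c, ∀ p ∈ Y c, ∀ B ∈ G2 (grp c) p, (B, c) ∈ S) → (∀ c, ∀ B ∈ Co2 (grp c), (B, c) ∈ S) →
    Adm pts (one L) → one L ∈ Lat (edg pts) fun e => e ∈ S

def S_Sup : Prop :=
  ∀ C0 : ℝ, ∃ C1 : ℝ, 1 ≤ C1 ∧
    ∀ (Pt Bl C : Type) [Fintype Pt] [Fintype Bl] [Fintype C] [DecidableEq Pt] [DecidableEq Bl]
      [DecidableEq C] (pts : Bl → Finset Pt) (θ lam : ℕ) (lg h ε : ℝ)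
      (X : Finset (Bl ⊕ Pt × C)), Des pts θ (Fintype.card C) lam → (dsys C pts θ lg C0).Ok →
      Gen pts C0 h → ε ≤ 1 → lg ≤ ε * Fintype.card Pt → h ≤ ε * Fintype.card Pt →
      Fintype.card Pt * lg ≤ ε ^ 2 * Fintype.card C → (dsys C pts θ lg C0).Sp X ε →
      ∃ S : Finset (Bl × C), (dsys C pts θ lg C0).Ld S (edg pts) (C1 * ε) ∧
        ∀ L ⊆ X, Adm pts (one L) → one L ∈ Lat (edg pts) fun e => e ∈ S

def S_Red : Prop :=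
  ∀ (Pt Bl C : Type) [Fintype Pt] [Fintype Bl] [Fintype C] [DecidableEq Pt] [DecidableEq Bl]
    [DecidableEq C] (pts : Bl → Finset Pt) (θ lam : ℕ) (lg C0 ε : ℝ)
    (X : Finset (Bl ⊕ Pt × C)) (S : Finset (Bl × C)), Des pts θ (Fintype.card C) lam →
    (dsys C pts θ lg C0).Ok → Dec pts C0 → (dsys C pts θ lg C0).Sp X ε →
    (dsys C pts θ lg C0).Ld S (edg pts) ε →
    ∃ K : Bl × C → ℕ, (dsys C pts θ lg C0).LdK K (10 * C0 ^ 2 * ε) ∧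
      ∀ L ⊆ X, (one L ∈ Lat (edg pts) fun e => e ∈ S) →
        ∃ a : Bl × C → ℤ, (∀ e, |a e| ≤ K e) ∧ bd (edg pts) a = one L

def S_SegP : Prop :=
  ∀ (I Pt Bl C : Type) [Fintype I] [Fintype Pt] [Fintype Bl] [Fintype C] [DecidableEq Pt]
    [DecidableEq Bl] [DecidableEq C] (pts : Bl → Finset Pt) (g : Gr I Pt Bl) (c c' : C) (i0 : I),
    g.Ok pts → c ≠ c' → 2 ≤ Fintype.card I →
    (g.reg c c').card ≤ 2 * Fintype.card I + 2 * Fintype.card I ^ 2 ∧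
    (∃ tok, SwV (edg pts) (g.A i0, c) (g.reg c c' \ edg pts (g.A i0, c)) tok) ∧
    HiV (edg pts) (g.A i0, c) (g.A i0, c') (Sum.inl (g.A i0))
      (g.reg c c' \ (edg pts (g.A i0, c) ∪ edg pts (g.A i0, c'))) ∧
    HiV (edg pts) (g.A i0, c) (g.B i0, c) (Sum.inr (g.p i0 i0, c))
      (g.reg c c' \ (edg pts (g.A i0, c) ∪ edg pts (g.B i0, c)))

def S_SegC : Prop :=
  ∀ (θ : ℕ) (c : ℝ), ∃ C1 : ℝ,
    ∀ (Pt Bl C : Type) [Fintype Pt] [Fintype Bl] [Fintype C] [DecidableEq Pt] [DecidableEq Bl]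
      [DecidableEq C] (pts : Bl → Finset Pt) (lam : ℕ) (lg C0 : ℝ), C1 ≤ C0 →
      Des pts θ (Fintype.card C) lam → Fintype.card Pt ≤ Fintype.card C →
      Grids pts (Fintype.card C) c → (dsys C pts θ lg C0).Seg

def S_Main : Prop :=
  ∀ (θ : ℕ) (c : ℝ), ∃ (b : ℕ) (lg0 : ℝ),
    ∀ (Pt Bl C : Type) [Fintype Pt] [Fintype Bl] [Fintype C] [DecidableEq Pt] [DecidableEq Bl]
      [DecidableEq C] (pts : Bl → Finset Pt) (lam : ℕ) (lg h : ℝ),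
      Des pts θ (Fintype.card C) lam → lg0 ≤ lg → lg ^ b ≤ Fintype.card Pt →
      2 * (Fintype.card C : ℝ) * Fintype.card Pt ≤ Real.exp lg →
      (Fintype.card Pt : ℝ) ^ 2 ≤ c * Fintype.card C → h ^ 2 ≤ c * Fintype.card Pt →
      Gen pts c h → Dec pts c → Grids pts (Fintype.card C) c →
      (one univ ∈ Lat pts fun _ => True) → PM (edg (C := C) pts) univ

/-! ### Subspaces -/

def S_Two : Prop :=
  ∀ (K V : Type) [Field K] [AddCommGroup V] [Module K V] [Finite V] (k : ℕ),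
    Two (gpts (K := K) (V := V) (k := k))

def S_PCnt : Prop :=
  ∀ (K V : Type) [Field K] [Fintype K] [AddCommGroup V] [Module K V] [Finite V]
    (U : Submodule K V), (upts U).card = th (Fintype.card K) (finrank K U)

def S_BCnt : Prop :=
  ∀ (K V : Type) [Field K] [Fintype K] [AddCommGroup V] [Module K V] [Finite V] (k : ℕ),
    (∀ U : Submodule K V,
      cnt (fun B : Sub K V k => B.W ≤ U) ≤ ((Fintype.card K : ℝ) ^ finrank K U) ^ k) ∧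
    (k < finrank K V → ((Fintype.card K : ℝ) ^ finrank K V) ^ k ≤
      2 ^ k * (Fintype.card K : ℝ) ^ (k * k) * Fintype.card (Sub K V k)) ∧
    ∀ p : Sub K V 1,
      cnt (fun B : Sub K V (k + 1) => p.W ≤ B.W) ≤ ((Fintype.card K : ℝ) ^ finrank K V) ^ k

def S_Hyp : Prop :=
  ∀ (K V : Type) [Field K] [Fintype K] [AddCommGroup V] [Module K V] [Finite V] (k : ℕ)
    (P T : Submodule K V), finrank K P = k + 1 → T ≤ P →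
    (fs fun B : Sub K V k => T ≤ B.W ∧ B.W ≤ P).card = th (Fintype.card K) (k + 1 - finrank K T)

def S_GDec : Prop :=
  ∀ (K : Type) [Field K] [Fintype K] (k : ℕ), 1 ≤ k → ∃ c : ℝ,
    ∀ (V : Type) [AddCommGroup V] [Module K V] [Finite V], k < finrank K V →
      Dec (gpts (K := K) (V := V) (k := k)) c

def S_Spr : Prop :=
  ∀ (K V : Type) [Field K] [Fintype K] [AddCommGroup V] [Module K V] [Finite V] (k : ℕ),
    1 ≤ k → k ∣ finrank K V → one univ ∈ Lat (gpts (K := K) (V := V) (k := k)) fun _ => True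

def S_Cong : Prop :=
  ∀ (K V : Type) [Field K] [Fintype K] [AddCommGroup V] [Module K V] [Finite V] (k : ℕ)
    (P P' : Submodule K V), 1 ≤ k → finrank K P = k + 1 → finrank K P' = k + 1 →
    one (upts P) - one (upts P') ∈ GamU k (P ⊔ P')

def S_Rel1 : Prop :=
  ∀ (K V : Type) [Field K] [Fintype K] [AddCommGroup V] [Module K V] [Finite V] (k : ℕ)
    (P0 : Submodule K V) (B0 : Sub K V k) (φ : V →ₗ[K] V), 1 ≤ k → finrank K P0 = k + 1 →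
    ∑ p ∈ gpts B0, ptv P0 (φ (rep p)) ∈ GamU k (B0.W.map φ ⊔ P0)

def S_Poly : Prop :=
  ∀ m d : ℕ, 1 ≤ d → ∃ c : Finset (Fin m) → ℤ, (∀ I, c I ≠ 0 → I.card < d) ∧
    ∀ (A : Type) [AddCommGroup A] (Γ : AddSubgroup A) (g : Finset (Fin m) → A),
      (∀ S T : Finset (Fin m), S.card = d → Disjoint S T →
        ∑ I ∈ S.powerset, (-1 : ℤ) ^ I.card • g (T ∪ I) ∈ Γ) →
      g univ - ∑ I, c I • g I ∈ Γ

def S_Diff : Prop :=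
  ∀ (K V ι : Type) [Field K] [Fintype K] [AddCommGroup V] [Module K V] [Finite V] (k : ℕ)
    (P0 U : Submodule K V) (w : V) (u : ι → V) (S : Finset ι), 1 ≤ k → finrank K P0 = k + 1 →
    P0 ≤ U → w ∈ U → (∀ i, u i ∈ U) → S.card + 1 = th (Fintype.card K) k →
    ∑ I ∈ S.powerset, (-1 : ℤ) ^ I.card • ptv P0 (w + ∑ i ∈ I, u i) ∈ GamU k U

def S_Rel2 : Prop :=
  ∀ (K : Type) [Field K] [Fintype K] (k : ℕ), 2 ≤ k → ∃ c : ℝ, 1 ≤ c ∧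
    ∀ (V : Type) [AddCommGroup V] [Module K V] [Finite V], k < finrank K V →
      ∃ (h : ℝ) (G : Sub K V 1 → Finset (Sub K V k)) (Co : Finset (Sub K V k)),
        h ^ 2 ≤ c * (Fintype.card K : ℝ) ^ finrank K V ∧ Rel gpts c h G Co

def S_GridA : Prop :=
  ∀ (K V : Type) [Field K] [Fintype K] [AddCommGroup V] [Module K V] [Finite V] (k : ℕ)
    (w : Fin k → Fin k → V), LinearIndependent K (fun x : Fin k × Fin k => w x.1 x.2) →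
    ∃ g : Gr (Sub K (Fin k → K) 1) (Sub K V 1) (Sub K V k), g.Ok gpts ∧
      (∀ a, (g.A a).W = Submodule.span K (Set.range fun j => ∑ i, rep a i • w i j)) ∧
      (∀ b, (g.B b).W = Submodule.span K (Set.range fun i => ∑ j, rep b j • w i j)) ∧
      ∀ a b, (g.p a b).W = Submodule.span K {∑ i, ∑ j, (rep a i * rep b j) • w i j}

def S_GridB : Prop :=
  ∀ (K : Type) [Field K] [Fintype K] (t : ℕ), 1 ≤ t → ∃ (c : ℝ) (n0 : ℕ),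
    ∀ (V : Type) [AddCommGroup V] [Module K V] [Finite V] (D : ℝ), n0 ≤ finrank K V →
      D ≤ ((Fintype.card K : ℝ) ^ finrank K V) ^ t →
      Grids (gpts (K := K) (V := V) (k := t + 1)) D c

/-- The final statement for `t ≥ 2`. -/
def S_Final : Prop :=
  ∀ (K : Type) [Field K] [Fintype K] (t : ℕ), 2 ≤ t → ∃ n0 : ℕ,
    ∀ (V : Type) [AddCommGroup V] [Module K V] [Finite V], n0 ≤ finrank K V →
      (t + 1) ∣ finrank K V → ∃ (C : Type) (col : Sub K V (t + 1) → C),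
        ∀ (p : Sub K V 1) (c : C), ∃! B : Sub K V (t + 1), p.W ≤ B.W ∧ col B = c

end Pool.Agent.P.MP_3b9ee7_co.Q
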