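import Pool.Agent.P.MP_3b9ee7_co.Q.Base

/-! Integral representation of an admissible vector: the algebra. -/

namespace Pool.Agent.P.MP_3b9ee7_co.Q

open Finset

namespace SupAP

variable {Pt Bl C : Type} [Fintype Pt] [Fintype Bl] [Fintype C] [DecidableEq Pt] [DecidableEq C]
  {pts : Bl → Finset Pt}

omit [Fintype Pt] [Fintype Bl] [DecidableEq Pt] in
theorem sum_grp_ite {A : Type} [AddCommMonoid A] (grp : C → ℕ) (g : ℕ) (c0 : C) (x : A) :
    ∑ c with grp c = g, (if c0 = c then x else 0) = if grp c0 = g then x else 0 := by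
  rw [sum_ite_eq]
  simp

/-- Moving mass between neighbouring groups of colours. -/
theorem stepA (J : ℕ) (grp : C → ℕ) (col : ℕ → Pt → C) (cst : ℕ → C)
    (G : ℕ → Pt → Finset Bl) (Co : ℕ → Finset Bl) (S : Bl → C → Prop) (hJ : ∀ c, grp c < J)
    (hc : ∀ j < J, grp (cst j) = j ∧ ∀ p, grp (col j p) = j)
    (hR : ∀ j < J, RelA pts (G j) (Co j))
    (h1 : ∀ j < J, ∀ p, ∀ B ∈ G j p, S B (col j p) ∧ (j + 1 < J → S B (col (j + 1) p)))
    (h2 : ∀ j < J, ∀ B ∈ Co j, S B (cst j) ∧ (j + 1 < J → S B (cst (j + 1))))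
    (δ : C → Pt → ℤ) (hδ : ∀ c, δ c ∈ Lat pts fun _ => True) (h0 : ∑ c, δ c = 0) :
    ∃ z : C → Bl → ℤ, (∀ c B, z c B ≠ 0 → S B c) ∧ ∑ c, z c = 0 ∧
      ∀ g < J, ∑ c with grp c = g, bd pts (z c) = ∑ c with grp c = g, δ c := by
  choose! ψ hψ hg using fun j hj => (hR j hj).gen
  set Δ : ℕ → Pt → ℤ := fun j => ∑ c with grp c < j, δ c with hΔ
  have hΔ0 : Δ 0 = 0 := by simp [hΔ]
  have hΔJ : Δ J = 0 := by
    rw [← h0]
    exact sum_congr (filter_true_of_mem fun c _ => hJ c) fun _ _ => rfl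
  have hΔs : ∀ g, Δ (g + 1) - Δ g = ∑ c with grp c = g, δ c := by
    intro g
    simp only [hΔ, sum_filter, ← sum_sub_distrib]
    refine sum_congr rfl fun c _ => ?_
    split_ifs <;> first | omega | simp
  choose! ζ hζ hb using fun j (hj : j < J) =>
    hg j hj (Δ (j + 1)) (sum_mem fun c _ => hδ c)
  set pl : ℕ → ℕ → C → Bl → ℤ := fun j i c =>
    ∑ p, (if col i p = c then Δ (j + 1) p • ψ j p else 0) + if cst i = c then ζ j else 0 with hpl
  have p1 : ∀ j i, ∑ c, pl j i c = ∑ p, Δ (j + 1) p • ψ j p + ζ j := by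
    intro j i
    simp only [hpl]
    rw [sum_add_distrib, sum_comm]
    simp
  have p2 : ∀ j, ∀ i < J, ∀ g, ∑ c with grp c = g, pl j i c =
      if i = g then ∑ p, Δ (j + 1) p • ψ j p + ζ j else 0 := by
    intro j i hi g
    simp only [hpl]
    rw [sum_add_distrib, sum_comm]
    simp only [sum_grp_ite, (hc i hi).1, (hc i hi).2]
    split_ifs <;> simp
  have p3 : ∀ j < J, ∀ i c B, (∀ p, B ∈ G j p → S B (col i p)) → (B ∈ Co j → S B (cst i)) →
      ¬ S B c → pl j i c B = 0 := by
    intro j hj i c B a1 a2 hn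
    simp only [hpl, Pi.add_apply, Finset.sum_apply]
    rw [sum_eq_zero, zero_add]
    · split_ifs with h
      · by_contra h3
        exact hn (h ▸ a2 (hζ j hj B h3))
      · rfl
    · intro p _
      split_ifs with h
      · by_contra h3
        exact hn (h ▸ a1 p (hψ j hj p B fun h4 => h3 (by simp [h4])))
      · rfl
  refine ⟨fun c => ∑ j ∈ range (J - 1), (pl j j c - pl j (j + 1) c), fun c B h => ?_, ?_,
    fun g hgJ => ?_⟩
  · by_contra hn
    refine h ?_
    beta_reduce
    rw [Finset.sum_apply]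
    refine sum_eq_zero fun j hj => ?_
    have hj' : j + 1 < J := by have := mem_range.1 hj; omega
    have hj'' : j < J := by omega
    rw [Pi.sub_apply, p3 j hj'' j c B (fun p hp => (h1 j hj'' p B hp).1)
      (fun hp => (h2 j hj'' B hp).1) hn, p3 j hj'' (j + 1) c B
      (fun p hp => (h1 j hj'' p B hp).2 hj') (fun hp => (h2 j hj'' B hp).2 hj') hn, sub_zero]
  · rw [sum_comm]
    exact sum_eq_zero fun j _ => by rw [sum_sub_distrib, p1, p1, sub_self]
  · rw [← bd_sum, sum_comm, bd_sum, ← hΔs]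
    have e : ∀ j ∈ range (J - 1), bd pts (∑ c with grp c = g, (pl j j c - pl j (j + 1) c)) =
        (if j = g then Δ (j + 1) else 0) - if j + 1 = g then Δ (j + 1) else 0 := by
      intro j hj
      have hj' : j + 1 < J := by have := mem_range.1 hj; omega
      have hj'' : j < J := by omega
      rw [sum_sub_distrib, p2 j j hj'', p2 j (j + 1) hj', bd_sub]
      congr 1 <;> split_ifs
      exacts [hb j hj'', bd_zero _, hb j hj'', bd_zero _]
    rw [sum_congr rfl e, sum_sub_distrib]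
    congr 1
    · rw [sum_ite_eq']
      split_ifs with h
      · rfl
      · have : g + 1 = J := by rw [mem_range] at h; omega
        rw [this, hΔJ]
    · rcases g with _ | g
      · simp [hΔ0]
      · simp only [Nat.add_right_cancel_iff]
        rw [sum_ite_eq', if_pos (mem_range.2 (by omega))]

/-- Representation inside each group of colours. -/
theorem stepB (J : ℕ) (grp : C → ℕ) (cst : ℕ → C) (G : ℕ → Pt → Finset Bl)
    (Co : ℕ → Finset Bl) (Y : C → Finset Pt) (S : Bl → C → Prop) (hJ : ∀ c, grp c < J)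
    (hc : ∀ j < J, grp (cst j) = j) (hR : ∀ j < J, RelA pts (G j) (Co j))
    (h1 : ∀ c, ∀ p ∈ Y c, ∀ B ∈ G (grp c) p, S B c) (h2 : ∀ c, ∀ B ∈ Co (grp c), S B c)
    (δ : C → Pt → ℤ) (hδ : ∀ c, δ c ∈ Lat pts fun _ => True)
    (hY : ∀ c p, p ∉ Y c → δ c p = 0) (h0 : ∀ g < J, ∑ c with grp c = g, δ c = 0) :
    ∃ z : C → Bl → ℤ, (∀ c B, z c B ≠ 0 → S B c) ∧ ∑ c, z c = 0 ∧
      ∀ c, bd pts (z c) = δ c := by
  choose! ψ hψ hg using fun j hj => (hR j hj).gen
  choose ζ hζ hb using fun c => hg (grp c) (hJ c) (δ c) (hδ c)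
  set Z : ℕ → Bl → ℤ := fun j => ∑ c with grp c = j, (∑ p, δ c p • ψ (grp c) p + ζ c) with hZ
  have hs : ∀ j < J, Z j = ∑ c with grp c = j, ζ c := by
    intro j hj
    have e : ∑ c with grp c = j, ∑ p, δ c p • ψ (grp c) p =
        ∑ p, (∑ c with grp c = j, δ c) p • ψ j p := by
      rw [sum_comm]
      refine sum_congr rfl fun p _ => ?_
      rw [Finset.sum_apply, sum_smul]
      exact sum_congr rfl fun c hc => by rw [(mem_filter.1 hc).2]
    simp only [hZ]
    rw [sum_add_distrib, e, h0 j hj]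
    simp
  have hZ0 : ∀ j < J, bd pts (Z j) = 0 := by
    intro j hj
    simp only [hZ]
    rw [bd_sum]
    simp only [hb]
    exact h0 j hj
  refine ⟨fun c => (∑ p, δ c p • ψ (grp c) p + ζ c) - if cst (grp c) = c then Z (grp c) else 0,
    fun c B h => ?_, ?_, fun c => ?_⟩
  · by_contra hn
    refine h ?_
    have hB : B ∉ Co (grp c) := fun h3 => hn (h2 c B h3)
    have e1 : (∑ p, δ c p • ψ (grp c) p) B = 0 := by
      rw [Finset.sum_apply]
      refine sum_eq_zero fun p _ => ?_
      by_cases hp : p ∈ Y c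
      · by_contra h3
        exact hn (h1 c p hp B (hψ _ (hJ c) p B fun h4 => h3 (by simp [h4])))
      · simp [hY c p hp]
    have e2 : ∀ c', grp c' = grp c → ζ c' B = 0 := fun c' h' => by
      by_contra h3
      exact hB (h' ▸ hζ c' B h3)
    have e3 : Z (grp c) B = 0 := by
      rw [hs _ (hJ c), Finset.sum_apply]
      exact sum_eq_zero fun c' h' => e2 c' (mem_filter.1 h').2
    beta_reduce
    rw [Pi.sub_apply, Pi.add_apply, e1, e2 c rfl]
    split_ifs
    · rw [e3]; rfl
    · rfl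
  · rw [← sum_fiberwise_of_maps_to (t := range J) (g := grp) fun c _ => mem_range.2 (hJ c)]
    refine sum_eq_zero fun j hj => ?_
    have e : ∑ c with grp c = j, (if cst (grp c) = c then Z (grp c) else 0) = Z j := by
      rw [sum_congr rfl fun c hc' => by rw [(mem_filter.1 hc').2], sum_grp_ite,
        if_pos (hc j (mem_range.1 hj))]
    rw [sum_sub_distrib, e, sub_self]
  · rw [bd_sub, hb]
    split_ifs
    · rw [hZ0 _ (hJ c), sub_zero]
    · rw [bd_zero, sub_zero]

end SupAP

open SupAP in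
theorem supA : S_SupA := by
  intro Pt Bl C _ _ _ _ _ _ pts J grp col cst κ G1 G2 Co1 Co2 Y S0 S L hJ hc hR hκ hG hCo hL hY hS
    hG2 hCo2 hA
  set β : C → Bl → ℤ := fun c B => if κ B = c then one L (Sum.inl B) else 0 with hβ
  have b1 : ∑ c, β c = fun B => one L (Sum.inl B) := by
    funext B
    rw [Finset.sum_apply]
    simp [hβ]
  have b2 : ∀ c B, β c B ≠ 0 → (B, c) ∈ S0 := by
    intro c B h
    simp only [hβ] at h
    split_ifs at h with h1
    · by_contra hn
      exact h (one_of_notMem fun h3 => hn (h1 ▸ hκ B h3))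
    · exact absurd rfl h
  obtain ⟨z1, a1, a2, a3⟩ := stepA (pts := pts) J grp col cst G1 Co1 (fun B c => (B, c) ∈ S0) hJ
    hc (fun j hj => (hR j hj).1) hG hCo
    (fun c => (fun p => one L (Sum.inr (p, c))) - bd pts (β c))
    (fun c => sub_mem (hA.1 c) (bd_mem_Lat _)) (by
      rw [sum_sub_distrib, ← bd_sum, b1, sub_eq_zero]
      funext p
      rw [Finset.sum_apply]
      exact hA.2 p)
  have b3 : ∀ c B, (β c + z1 c) B ≠ 0 → (B, c) ∈ S0 := by
    intro c B h
    by_cases h1 : β c B = 0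
    · exact a1 c B fun h2 => h (by simp [h1, h2])
    · exact b2 c B h1
  obtain ⟨z2, c1, c2, c3⟩ := stepB (pts := pts) J grp cst G2 Co2 Y (fun B c => (B, c) ∈ S) hJ
    (fun j hj => (hc j hj).1) (fun j hj => (hR j hj).2) hG2 hCo2
    (fun c => (fun p => one L (Sum.inr (p, c))) - bd pts (β c + z1 c))
    (fun c => sub_mem (hA.1 c) (bd_mem_Lat _)) (by
      intro c p hp
      rw [Pi.sub_apply, one_of_notMem fun h => hp (hL p c h), bd, sum_eq_zero, sub_zero]
      intro B _
      split_ifs with h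
      · by_contra h3
        exact hp (hY _ (b3 c B h3) h)
      · rfl) (by
      intro g hg
      simp only [bd_add, ← sub_sub]
      rw [sum_sub_distrib, a3 g hg, sub_self])
  refine ⟨fun e => (β e.2 + z1 e.2 + z2 e.2) e.1, fun e h => ?_, ?_⟩
  · by_cases h1 : (β e.2 + z1 e.2) e.1 = 0
    · exact c1 e.2 e.1 fun h2 => h (by
        beta_reduce
        rw [Pi.add_apply, h1, h2, add_zero])
    · exact hS (b3 e.2 e.1 h1)
  · funext v
    rcases v with B | ⟨p, c⟩
    · rw [bd_edg_inl, ← Finset.sum_apply B univ fun c => β c + z1 c + z2 c, sum_add_distrib,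
        sum_add_distrib, a2, c2, b1, add_zero, add_zero]
    · rw [bd_edg_inr]
      change bd pts (β c + z1 c + z2 c) p = _
      rw [bd_add, c3]
      simp

end Pool.Agent.P.MP_3b9ee7_co.Q
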